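import Mathlib

/-!
# Hitting functionals on finite sets and the log-convexity inequality
-/

namespace Run7.h485

open Finset

variable {X : Type*} [DecidableEq X]

/-- `c` is a hitting functional: for each finite `K` there is a nonnegative weight `ρ` on the
subsets of `K` such that `c A` is the total weight of the subsets which meet `A`. -/
def HitFun (c : Finset X → ℝ) : Prop :=
  ∀ K : Finset X, ∃ ρ : Finset X → ℝ, (∀ T, 0 ≤ ρ T) ∧
    ∀ A, A ⊆ K → c A = ∑ T ∈ K.powerset with (T ∩ A).Nonempty, ρ T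

/-- the alternating sum which is the probability that `A` is vacant and `O` is occupied -/
noncomputable def fS (c : Finset X → ℝ) (s : ℝ) (A O : Finset X) : ℝ :=
  ∑ B ∈ O.powerset, (-1 : ℝ) ^ B.card * Real.exp (-(s * c (A ∪ B)))

theorem fS_empty (c : Finset X → ℝ) (s : ℝ) (A : Finset X) :
    fS c s A ∅ = Real.exp (-(s * c A)) := by
  simp [fS]

theorem fS_insert (c : Finset X → ℝ) (s : ℝ) (A O : Finset X) {x : X} (hx : x ∉ O) :
    fS c s A (insert x O) = fS c s A O - fS c s (insert x A) O := by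
  unfold fS
  rw [sum_powerset_insert hx, sub_eq_add_neg, ← sum_neg_distrib]
  congr 1
  refine sum_congr rfl fun B hB => ?_
  have hxB : x ∉ B := fun h => hx (mem_powerset.1 hB h)
  rw [card_insert_of_notMem hxB, union_insert, insert_union, pow_succ]
  ring

theorem sum_neg_one_pow (x : Finset X) :
    (∑ m ∈ x.powerset, (-1 : ℝ) ^ m.card) = if x = ∅ then 1 else 0 := by
  have h := sum_powerset_neg_one_pow_card (x := x)
  have h2 : ((∑ m ∈ x.powerset, (-1 : ℤ) ^ m.card : ℤ) : ℝ) = ((if x = ∅ then 1 else 0 : ℤ) : ℝ) := by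
    rw [h]
  push_cast at h2
  exact h2

/-- The weight formula for `c K - c (A ∪ B)`. -/
theorem diff_formula {c : Finset X → ℝ} {A O : Finset X} (hAO : Disjoint A O) {ρ : Finset X → ℝ}
    (hρ : ∀ C, C ⊆ A ∪ O → c C = ∑ T ∈ (A ∪ O).powerset with (T ∩ C).Nonempty, ρ T)
    {B : Finset X} (hB : B ⊆ O) :
    c (A ∪ O) - c (A ∪ B) = ∑ T ∈ (O \ B).powerset.erase ∅, ρ T := by
  have hsub : A ∪ B ⊆ A ∪ O := union_subset_union_right hB
  rw [hρ _ Subset.rfl, hρ _ hsub, sub_eq_iff_eq_add]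
  rw [← sum_union]
  · refine sum_congr ?_ fun _ _ => rfl
    ext T
    simp only [mem_filter, mem_powerset, mem_union, mem_erase]
    constructor
    · rintro ⟨hT, hne⟩
      by_cases h : (T ∩ (A ∪ B)).Nonempty
      · exact Or.inr ⟨hT, h⟩
      · left
        rw [not_nonempty_iff_eq_empty] at h
        refine ⟨?_, fun x hx => ?_⟩
        · rintro rfl
          simp at hne
        · have hx2 : x ∉ A ∪ B := fun h' => by
            have : x ∈ T ∩ (A ∪ B) := mem_inter.2 ⟨hx, h'⟩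
            rw [h] at this
            simp at this
          rw [mem_union, not_or] at hx2
          have := hT hx
          rw [mem_union] at this
          rw [mem_sdiff]
          exact ⟨this.resolve_left hx2.1, hx2.2⟩
    · rintro (⟨hne, hT⟩ | ⟨hT, hne⟩)
      · have hT2 : T ⊆ A ∪ O := fun x hx => mem_union_right _ (mem_sdiff.1 (hT hx)).1
        refine ⟨hT2, ?_⟩
        rw [inter_eq_left.2 hT2]
        exact nonempty_iff_ne_empty.2 hne
      · refine ⟨hT, ?_⟩
        rw [inter_eq_left.2 hT]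
        exact hne.mono inter_subset_left
  · rw [disjoint_left]
    intro T hT hT'
    simp only [mem_erase, mem_powerset, mem_filter] at hT hT'
    obtain ⟨x, hx⟩ := hT'.2
    rw [mem_inter, mem_union] at hx
    have h1 := mem_sdiff.1 (hT.2 hx.1)
    rcases hx.2 with h | h
    · exact disjoint_left.1 hAO h h1.1
    · exact h1.2 h

/-- Representation of `fS` as a sum of nonnegative terms. -/
theorem fS_formula {c : Finset X → ℝ} {A O : Finset X} (hAO : Disjoint A O) {ρ : Finset X → ℝ}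
    (hρ : ∀ C, C ⊆ A ∪ O → c C = ∑ T ∈ (A ∪ O).powerset with (T ∩ C).Nonempty, ρ T) (s : ℝ) :
    fS c s A O = Real.exp (-(s * c (A ∪ O))) *
      ∑ 𝒯 ∈ (O.powerset.erase ∅).powerset with O \ 𝒯.biUnion id = ∅,
        ∏ T ∈ 𝒯, (Real.exp (s * ρ T) - 1) := by
  have h1 : ∀ B ∈ O.powerset, Real.exp (-(s * c (A ∪ B))) = Real.exp (-(s * c (A ∪ O))) *
      ∑ 𝒯 ∈ ((O \ B).powerset.erase ∅).powerset, ∏ T ∈ 𝒯, (Real.exp (s * ρ T) - 1) := by
    intro B hB
    rw [← prod_one_add]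
    have h2 : ∏ T ∈ (O \ B).powerset.erase ∅, (1 + (Real.exp (s * ρ T) - 1)) =
        Real.exp (s * (c (A ∪ O) - c (A ∪ B))) := by
      rw [diff_formula hAO hρ (mem_powerset.1 hB), mul_sum, Real.exp_sum]
      refine prod_congr rfl fun T _ => by ring
    rw [h2, ← Real.exp_add]
    congr 1
    ring
  have h3 : ∀ B ∈ O.powerset,
      ∑ 𝒯 ∈ ((O \ B).powerset.erase ∅).powerset, ∏ T ∈ 𝒯, (Real.exp (s * ρ T) - 1) =
      ∑ 𝒯 ∈ (O.powerset.erase ∅).powerset, if B ⊆ O \ 𝒯.biUnion id then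
        ∏ T ∈ 𝒯, (Real.exp (s * ρ T) - 1) else 0 := by
    intro B hB
    rw [mem_powerset] at hB
    rw [← sum_filter]
    refine sum_congr ?_ fun _ _ => rfl
    ext 𝒯
    simp only [mem_powerset, mem_filter]
    constructor
    · intro h
      refine ⟨fun T hT => ?_, fun x hx => ?_⟩
      · have := h hT
        rw [mem_erase, mem_powerset] at this ⊢
        exact ⟨this.1, this.2.trans sdiff_subset⟩
      · rw [mem_sdiff, mem_biUnion]
        refine ⟨hB hx, ?_⟩
        rintro ⟨T, hT, hxT⟩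
        have := h hT
        rw [mem_erase, mem_powerset] at this
        exact (mem_sdiff.1 (this.2 hxT)).2 hx
    · rintro ⟨h1, h2⟩ T hT
      have := h1 hT
      rw [mem_erase, mem_powerset] at this ⊢
      refine ⟨this.1, fun x hx => ?_⟩
      rw [mem_sdiff]
      refine ⟨this.2 hx, fun hxB => ?_⟩
      have := h2 hxB
      rw [mem_sdiff, mem_biUnion] at this
      exact this.2 ⟨T, hT, hx⟩
  unfold fS
  have h4 : ∑ B ∈ O.powerset, (-1 : ℝ) ^ B.card * Real.exp (-(s * c (A ∪ B))) =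
      Real.exp (-(s * c (A ∪ O))) * ∑ B ∈ O.powerset, ∑ 𝒯 ∈ (O.powerset.erase ∅).powerset,
        (-1 : ℝ) ^ B.card * (if B ⊆ O \ 𝒯.biUnion id then
        ∏ T ∈ 𝒯, (Real.exp (s * ρ T) - 1) else 0) := by
    rw [mul_sum]
    refine sum_congr rfl fun B hB => ?_
    rw [h1 B hB, h3 B hB, ← mul_sum]
    ring
  rw [h4, sum_comm, sum_filter]
  congr 1
  refine sum_congr rfl fun 𝒯 _ => ?_
  have h5 : ∑ B ∈ O.powerset, (-1 : ℝ) ^ B.card * (if B ⊆ O \ 𝒯.biUnion id then
        ∏ T ∈ 𝒯, (Real.exp (s * ρ T) - 1) else 0) =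
      (∑ B ∈ (O \ 𝒯.biUnion id).powerset, (-1 : ℝ) ^ B.card) *
        ∏ T ∈ 𝒯, (Real.exp (s * ρ T) - 1) := by
    rw [sum_mul]
    have : (O \ 𝒯.biUnion id).powerset = O.powerset.filter (fun B => B ⊆ O \ 𝒯.biUnion id) := by
      ext B
      simp only [mem_powerset, mem_filter]
      exact ⟨fun h => ⟨h.trans sdiff_subset, h⟩, fun h => h.2⟩
    rw [this, sum_filter]
    refine sum_congr rfl fun B _ => ?_
    split_ifs <;> simp
  rw [h5, sum_neg_one_pow]
  split_ifs <;> simp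

theorem fS_nonneg {c : Finset X → ℝ} (hc : HitFun c) {A O : Finset X} (hAO : Disjoint A O)
    {s : ℝ} (hs : 0 ≤ s) : 0 ≤ fS c s A O := by
  obtain ⟨ρ, h0, hρ⟩ := hc (A ∪ O)
  rw [fS_formula hAO hρ]
  refine mul_nonneg (Real.exp_pos _).le (sum_nonneg fun 𝒯 _ => prod_nonneg fun T _ => ?_)
  rw [sub_nonneg]
  exact Real.one_le_exp (mul_nonneg hs (h0 T))

/-- the scalar inequality -/
theorem exp_sub_one_sq_le {a b w : ℝ} (ha : 0 ≤ a) (hb : 0 ≤ b) (hw : 0 ≤ w) (h : a ^ 2 = b * w) :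
    (Real.exp a - 1) ^ 2 ≤ (Real.exp b - 1) * (Real.exp w - 1) := by
  have key : ∀ N : ℕ, (∑ n ∈ range N, a ^ (n + 1) / (n + 1).factorial) ^ 2 ≤
      (Real.exp b - 1) * (Real.exp w - 1) := by
    intro N
    have h1 : ∀ t : ℝ, 0 ≤ t → ∑ n ∈ range N, t ^ (n + 1) / (n + 1).factorial ≤ Real.exp t - 1 := by
      intro t ht
      have := Real.sum_le_exp_of_nonneg ht (N + 1)
      rw [sum_range_succ'] at this
      simp only [pow_zero, Nat.factorial_zero, Nat.cast_one, div_one] at this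
      linarith
    have h2 : (∑ n ∈ range N, a ^ (n + 1) / (n + 1).factorial) ^ 2 ≤
        (∑ n ∈ range N, b ^ (n + 1) / (n + 1).factorial) *
        (∑ n ∈ range N, w ^ (n + 1) / (n + 1).factorial) := by
      refine sum_sq_le_sum_mul_sum_of_sq_le_mul _ (fun n _ => by positivity)
        (fun n _ => by positivity) (fun n _ => ?_)
      rw [div_pow, div_mul_div_comm, ← mul_pow, ← h, ← pow_mul, ← pow_mul, mul_comm 2, sq]
    refine h2.trans ?_
    refine mul_le_mul (h1 b hb) (h1 w hw) (sum_nonneg fun n _ => by positivity) ?_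
    rw [sub_nonneg]
    exact Real.one_le_exp hb
  have hlim : Filter.Tendsto (fun N => (∑ n ∈ range N, a ^ (n + 1) / (n + 1).factorial) ^ 2)
      Filter.atTop (nhds ((Real.exp a - 1) ^ 2)) := by
    have h0 : HasSum (fun n : ℕ => a ^ n / n.factorial) (Real.exp a) := by
      rw [Real.exp_eq_exp_ℝ]
      exact NormedSpace.expSeries_div_hasSum_exp a
    have h1 : HasSum (fun n : ℕ => a ^ (n + 1) / (n + 1).factorial) (Real.exp a - 1) := by
      have := (hasSum_nat_add_iff' (f := fun n : ℕ => a ^ n / n.factorial) 1).2 h0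
      simpa using this
    exact (h1.tendsto_sum_nat).pow 2
  exact le_of_tendsto' hlim key

/-- The log-convexity inequality for the probability of a local configuration. -/
theorem fS_sq_le {c : Finset X → ℝ} (hc : HitFun c) {A O : Finset X} (hAO : Disjoint A O)
    {a b w : ℝ} (ha : 0 ≤ a) (hb : 0 ≤ b) (hw : 0 ≤ w) (h : a ^ 2 = b * w) :
    fS c a A O ^ 2 ≤ fS c b A O * fS c w A O * Real.exp ((b + w - 2 * a) * c (A ∪ O)) := by
  obtain ⟨ρ, h0, hρ⟩ := hc (A ∪ O)
  rw [fS_formula hAO hρ, fS_formula hAO hρ, fS_formula hAO hρ]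
  set F : ℝ → ℝ := fun s => ∑ 𝒯 ∈ (O.powerset.erase ∅).powerset with O \ 𝒯.biUnion id = ∅,
        ∏ T ∈ 𝒯, (Real.exp (s * ρ T) - 1) with hF
  have h1 : F a ^ 2 ≤ F b * F w := by
    have hn : ∀ s, 0 ≤ s → ∀ T, 0 ≤ Real.exp (s * ρ T) - 1 := fun s hs T => by
      rw [sub_nonneg]
      exact Real.one_le_exp (mul_nonneg hs (h0 T))
    refine sum_sq_le_sum_mul_sum_of_sq_le_mul _ (fun 𝒯 _ => prod_nonneg fun T _ => hn b hb T)
        (fun 𝒯 _ => prod_nonneg fun T _ => hn w hw T) (fun 𝒯 _ => ?_)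
    rw [← prod_pow, ← prod_mul_distrib]
    refine prod_le_prod (fun T _ => sq_nonneg _) fun T _ => ?_
    refine exp_sub_one_sq_le (mul_nonneg ha (h0 T)) (mul_nonneg hb (h0 T))
      (mul_nonneg hw (h0 T)) ?_
    rw [mul_pow, h]
    ring
  change (Real.exp (-(a * c (A ∪ O))) * F a) ^ 2 ≤ Real.exp (-(b * c (A ∪ O))) * F b *
    (Real.exp (-(w * c (A ∪ O))) * F w) * Real.exp ((b + w - 2 * a) * c (A ∪ O))
  have h2 : Real.exp (-(a * c (A ∪ O))) ^ 2 = Real.exp (-(b * c (A ∪ O))) *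
      Real.exp (-(w * c (A ∪ O))) * Real.exp ((b + w - 2 * a) * c (A ∪ O)) := by
    rw [← Real.exp_nat_mul, ← Real.exp_add, ← Real.exp_add]
    congr 1
    push_cast
    ring
  calc (Real.exp (-(a * c (A ∪ O))) * F a) ^ 2
      = Real.exp (-(a * c (A ∪ O))) ^ 2 * F a ^ 2 := by ring
    _ ≤ Real.exp (-(a * c (A ∪ O))) ^ 2 * (F b * F w) := by
        exact mul_le_mul_of_nonneg_left h1 (sq_nonneg _)
    _ = _ := by rw [h2]; ring

open Filter Topology in
/-- Hitting functionals are closed under pointwise limits. -/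
theorem HitFun.tendsto {c : Finset X → ℝ} {cn : ℕ → Finset X → ℝ}
    (hcn : ∀ n, HitFun (cn n)) (hlim : ∀ A, Tendsto (fun n => cn n A) atTop (𝓝 (c A))) :
    HitFun c := by
  classical
  intro K
  choose ρ h0 hρ using fun n => hcn n K
  obtain ⟨C, hC⟩ := (hlim K).bddAbove_range
  have hbd : ∀ n, ∀ T ∈ K.powerset.erase ∅, ρ n T ∈ Set.Icc 0 C := by
    intro n T hT
    rw [mem_erase, mem_powerset] at hT
    refine ⟨h0 n T, le_trans ?_ (hC ⟨n, rfl⟩)⟩
    change ρ n T ≤ cn n K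
    rw [hρ n K Subset.rfl]
    refine single_le_sum (f := fun T => ρ n T) (fun T _ => h0 n T) ?_
    rw [mem_filter, mem_powerset, inter_eq_left.2 hT.2]
    exact ⟨hT.2, nonempty_iff_ne_empty.2 hT.1⟩
  have hex : ∀ T, ∃ r, 0 ≤ r ∧ (T ∈ K.powerset.erase ∅ →
      Tendsto (fun n => ρ n T) (hyperfilter ℕ : Filter ℕ) (𝓝 r)) := by
    intro T
    by_cases hT : T ∈ K.powerset.erase ∅
    · obtain ⟨r, hr, hlim⟩ := (isCompact_Icc (a := (0 : ℝ)) (b := C)).ultrafilter_le_nhds
        ((hyperfilter ℕ).map fun n => ρ n T) (by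
          rw [le_principal_iff]
          exact Ultrafilter.mem_map.2 (Filter.univ_mem' fun n => hbd n T hT))
      exact ⟨r, hr.1, fun _ => hlim⟩
    · exact ⟨0, le_rfl, fun h => absurd h hT⟩
  choose r hr0 hr using hex
  refine ⟨r, hr0, fun A hA => ?_⟩
  have h1 : Tendsto (fun n => cn n A) (hyperfilter ℕ : Filter ℕ) (𝓝 (c A)) :=
    (hlim A).mono_left (Nat.hyperfilter_le_atTop)
  have h2 : Tendsto (fun n => ∑ T ∈ K.powerset with (T ∩ A).Nonempty, ρ n T)
      (hyperfilter ℕ : Filter ℕ) (𝓝 (∑ T ∈ K.powerset with (T ∩ A).Nonempty, r T)) := by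
    refine tendsto_finsetSum _ fun T hT => hr T ?_
    rw [mem_filter, mem_powerset] at hT
    rw [mem_erase, mem_powerset]
    exact ⟨(hT.2.mono inter_subset_left).ne_empty, hT.1⟩
  simp_rw [fun n => hρ n A hA] at h1
  exact tendsto_nhds_unique h1 h2

theorem HitFun.div {c : Finset X → ℝ} (hc : HitFun c) {r : ℝ}
    (hr : 0 ≤ r) : HitFun fun A => c A / r := by
  intro K
  obtain ⟨ρ, h0, hρ⟩ := hc K
  refine ⟨fun T => ρ T / r, fun T => div_nonneg (h0 T) hr, fun A hA => ?_⟩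
  change c A / r = _
  rw [hρ A hA, sum_div]

theorem HitFun.mono {c : Finset X → ℝ} (hc : HitFun c)
    {A B : Finset X} (h : A ⊆ B) : c A ≤ c B := by
  obtain ⟨ρ, h0, hρ⟩ := hc B
  rw [hρ A h, hρ B Subset.rfl]
  refine sum_le_sum_of_subset_of_nonneg ?_ fun T _ _ => h0 T
  intro T hT
  rw [mem_filter] at hT ⊢
  exact ⟨hT.1, hT.2.mono (inter_subset_inter_left h)⟩

theorem HitFun.empty {c : Finset X → ℝ} (hc : HitFun c) :
    c ∅ = 0 := by
  obtain ⟨ρ, h0, hρ⟩ := hc ∅
  rw [hρ ∅ Subset.rfl]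
  simp

theorem HitFun.union_le {c : Finset X → ℝ} (hc : HitFun c)
    (A B : Finset X) : c (A ∪ B) ≤ c A + c B := by
  obtain ⟨ρ, h0, hρ⟩ := hc (A ∪ B)
  rw [hρ A subset_union_left, hρ B subset_union_right, hρ (A ∪ B) Subset.rfl]
  have h1 : ((A ∪ B).powerset.filter fun T => (T ∩ (A ∪ B)).Nonempty) ⊆
      ((A ∪ B).powerset.filter fun T => (T ∩ A).Nonempty) ∪
      ((A ∪ B).powerset.filter fun T => (T ∩ B).Nonempty) := by
    intro T hT
    rw [mem_filter, inter_union_distrib_left, union_nonempty] at hT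
    rw [mem_union, mem_filter, mem_filter]
    tauto
  refine (sum_le_sum_of_subset_of_nonneg h1 fun T _ _ => h0 T).trans ?_
  rw [← sum_union_inter]
  exact le_add_of_nonneg_right (sum_nonneg fun T _ => h0 T)

end Run7.h485
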