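import Pool.Agent.Run7.h485.PMod

/-!
# Arms and the crossing lemma of Russo-Seymour-Welsh type
-/

namespace Run7.h485.Pl

open Finset MeasureTheory Filter Topology

/-- reflection in the horizontal axis -/
def rfl2 (p : ℤ × ℤ) : ℤ × ℤ := (p.1, -p.2)

theorem adj_rfl2 : ∀ p q, adj p q → adj (rfl2 p) (rfl2 q) := by
  intro p q h; unfold adj rfl2 at *; simp only; omega

theorem rfl2_rfl2 (p : ℤ × ℤ) : rfl2 (rfl2 p) = p := by simp [rfl2]

/-- transport of connections under an involution -/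
theorem reach_inv {σ : ℤ × ℤ → ℤ × ℤ} (hσ : ∀ p q, adj p q → adj (σ p) (σ q))
    (hinv : ∀ p, σ (σ p) = p) {S B C : Set (ℤ × ℤ)} (hB : ∀ p, p ∈ B ↔ σ p ∈ C)
    {x y : ℤ × ℤ} : Reach (σ ⁻¹' S ∩ B) x y ↔ Reach (S ∩ C) (σ x) (σ y) := by
  constructor
  · intro h
    refine h.map hσ ?_
    rintro p ⟨h1, h2⟩
    exact ⟨h1, (hB p).1 h2⟩
  · intro h
    have := h.map (σ := σ) (T := σ ⁻¹' S ∩ B) hσ (by
      rintro p ⟨h1, h2⟩
      refine ⟨?_, ?_⟩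
      · rw [Set.mem_preimage, hinv]; exact h1
      · rw [hB, hinv]; exact h2)
    rwa [hinv, hinv] at this

theorem box_rfl1 (N : ℤ) (p : ℤ × ℤ) : p ∈ box 0 N ↔ rfl1 p ∈ box 0 N := by
  rw [mem_box, mem_box]; simp only [rfl1, Prod.fst_zero, Prod.snd_zero]; omega

theorem box_rfl2 (N : ℤ) (p : ℤ × ℤ) : p ∈ box 0 N ↔ rfl2 p ∈ box 0 N := by
  rw [mem_box, mem_box]; simp only [rfl2, Prod.fst_zero, Prod.snd_zero]; omega

theorem box_swp (N : ℤ) (p : ℤ × ℤ) : p ∈ box 0 N ↔ swp p ∈ box 0 N := by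
  rw [mem_box, mem_box]; simp only [swp, Prod.fst_zero, Prod.snd_zero]; omega

theorem ArmL_rfl1 {m N : ℤ} {S : Set (ℤ × ℤ)} :
    ArmL 0 m N (rfl1 ⁻¹' S) ↔ Arm 0 m N (-N) N S := by
  constructor
  · rintro ⟨p, q, hp, hq, h⟩
    have h' := (reach_inv adj_rfl1 rfl1_rfl1 (box_rfl1 N)).1 h
    have hb := mem_box.1 h'.right_mem.2
    simp only [rfl1, Prod.fst_zero, Prod.snd_zero] at hb hq
    refine ⟨rfl1 p, rfl1 q, (box_rfl1 m p).1 hp, by simp only [rfl1, Prod.fst_zero]; omega,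
      by simp only [rfl1, Prod.snd_zero]; omega, by simp only [rfl1, Prod.snd_zero]; omega, h'⟩
  · rintro ⟨p, q, hp, hq, h1, h2, h⟩
    refine ⟨rfl1 p, rfl1 q, (box_rfl1 m p).1 hp, by
      simp only [rfl1, Prod.fst_zero] at hq ⊢; omega,
      (reach_inv adj_rfl1 rfl1_rfl1 (box_rfl1 N)).2 (by rwa [rfl1_rfl1, rfl1_rfl1])⟩

theorem Arm_rfl2 {m N lo hi : ℤ} {S : Set (ℤ × ℤ)} :
    Arm 0 m N lo hi (rfl2 ⁻¹' S) ↔ Arm 0 m N (-hi) (-lo) S := by
  constructor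
  · rintro ⟨p, q, hp, hq, h1, h2, h⟩
    have h' := (reach_inv adj_rfl2 rfl2_rfl2 (box_rfl2 N)).1 h
    simp only [Prod.fst_zero, Prod.snd_zero] at hq h1 h2
    refine ⟨rfl2 p, rfl2 q, (box_rfl2 m p).1 hp, by simp only [rfl2, Prod.fst_zero]; omega,
      by simp only [rfl2, Prod.snd_zero]; omega, by simp only [rfl2, Prod.snd_zero]; omega, h'⟩
  · rintro ⟨p, q, hp, hq, h1, h2, h⟩
    simp only [Prod.fst_zero, Prod.snd_zero] at hq h1 h2
    refine ⟨rfl2 p, rfl2 q, (box_rfl2 m p).1 hp, by simp only [rfl2, Prod.fst_zero]; omega,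
      by simp only [rfl2, Prod.snd_zero]; omega, by simp only [rfl2, Prod.snd_zero]; omega,
      (reach_inv adj_rfl2 rfl2_rfl2 (box_rfl2 N)).2 (by rwa [rfl2_rfl2, rfl2_rfl2])⟩

theorem ArmL_trn {m N : ℤ} {z w : ℤ × ℤ} {S : Set (ℤ × ℤ)} :
    ArmL w m N (trn z ⁻¹' S) ↔ ArmL (trn z w) m N S := by
  constructor
  · rintro ⟨p, q, hp, hq, h⟩
    refine ⟨trn z p, trn z q, (box_trn p).1 hp, by simp only [trn]; omega,
      (reach_trn (box_trn)).1 h⟩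
  · rintro ⟨p, q, hp, hq, h⟩
    simp only [trn] at hq
    refine ⟨trn (-z.1, -z.2) p, trn (-z.1, -z.2) q, (box_trn (z := z) _).2 (by rwa [trn_neg]),
      by simp only [trn]; omega, (reach_trn (z := z) box_trn).2 ?_⟩
    rwa [trn_neg, trn_neg]

theorem loc_ArmL (z : ℤ × ℤ) (m N : ℤ) : Loc (boxF z N) {S | ArmL z m N S} :=
  loc_of_inter (B := box z N) (fun p hp => mem_coe.2 (mem_boxF.2 hp))
    (fun T => ∃ v w : ℤ × ℤ, v ∈ box z m ∧ w.1 = z.1 - N ∧ Reach T v w)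

theorem inc_ArmL (z : ℤ × ℤ) (m N : ℤ) : Inc {S | ArmL z m N S} := by
  refine ⟨⟨_, loc_ArmL z m N⟩, fun S T hST hS => ?_⟩
  obtain ⟨p, q, hp, hq, h⟩ := hS
  exact ⟨p, q, hp, hq, h.mono (Set.inter_subset_inter_left _ hST)⟩

theorem Arm.mono {z : ℤ × ℤ} {m N lo hi lo' hi' : ℤ} (h1 : lo' ≤ lo) (h2 : hi ≤ hi')
    {S : Set (ℤ × ℤ)} (h : Arm z m N lo hi S) : Arm z m N lo' hi' S := by
  obtain ⟨v, w, hv, hw, h3, h4, h5⟩ := h
  exact ⟨v, w, hv, hw, by omega, by omega, h5⟩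

namespace PM

variable {μ : Measure (Set (ℤ × ℤ))} {κ : ℝ}

theorem rfl2 (h : PM μ κ) {K : Finset (ℤ × ℤ)} {E : Set (Set (ℤ × ℤ))} (hE : Loc K E) :
    μ.real {S | rfl2 ⁻¹' S ∈ E} = μ.real E := by
  have h1 := h.swp _ _ hE
  have h2 := h.rfl1 _ _ (loc_pre hE Pl.swp)
  have h3 := h.swp _ _ (loc_pre (loc_pre hE Pl.swp) Pl.rfl1)
  rw [← h1, ← h2, ← h3]
  congr 1

/-- Probabilities of arms from the probability of a connection to distance `N`. -/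
theorem arms (h : PM μ κ) {m N : ℤ} {δ : ℝ} (hδ0 : 0 ≤ δ) (hδ1 : δ ≤ 1)
    (hO : 1 - δ ^ 16 ≤ μ.real {S | Out 0 m N S}) :
    1 - δ ≤ μ.real {S | ArmL 0 m N S} ∧ 1 - δ ≤ μ.real {S | Arm 0 m N 0 N S} ∧
      ∀ a : ℤ, 1 - δ ≤ μ.real {S | Arm 0 m N 0 (a - 1) S} ∨ 1 - δ ≤ μ.real {S | Arm 0 m N a N S} := by
  have hp := h.prob
  set E1 : Set (Set (ℤ × ℤ)) := {S | Arm 0 m N (-N) N S} with hE1
  set E2 : Set (Set (ℤ × ℤ)) := {S | ArmL 0 m N S} with hE2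
  set E3 : Set (Set (ℤ × ℤ)) := {S | Pl.swp ⁻¹' S ∈ E1} with hE3
  set E4 : Set (Set (ℤ × ℤ)) := {S | Pl.swp ⁻¹' S ∈ E2} with hE4
  have i1 : Inc E1 := inc_Arm _ _ _ _ _
  have i2 : Inc E2 := inc_ArmL _ _ _
  have i3 : Inc E3 := i1.pre _
  have i4 : Inc E4 := i2.pre _
  have q2 : μ.real E2 = μ.real E1 := by
    rw [← h.rfl1 _ _ (loc_ArmL 0 m N)]
    congr 1
    ext S
    exact ArmL_rfl1
  have q3 : μ.real E3 = μ.real E1 := h.swp _ _ (loc_Arm _ _ _ _ _)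
  have q4 : μ.real E4 = μ.real E1 := (h.swp _ _ (loc_ArmL _ _ _)).trans q2
  have hsub : {S | Out 0 m N S} ⊆ (E1 ∪ E2) ∪ (E3 ∪ E4) := by
    rintro S ⟨v, w, hv, hw, h1⟩
    have hb := mem_box.1 h1.right_mem.2
    simp only [Prod.fst_zero, Prod.snd_zero] at hb
    have hcase : w.2 = N ∨ w.2 = -N ∨ w.1 = N ∨ w.1 = -N := by
      rw [nrm_zero] at hw
      simp only [abs_eq_max_neg] at hw
      omega
    have hs := (reach_inv adj_swp swp_swp (box_swp N) (S := S) (x := Pl.swp v) (y := Pl.swp w)).2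
      (by rwa [swp_swp, swp_swp])
    rcases hcase with hc | hc | hc | hc
    · right; left
      refine ⟨Pl.swp v, Pl.swp w, (box_swp m v).1 hv, ?_, ?_, ?_, hs⟩ <;>
        simp only [Pl.swp, Prod.fst_zero, Prod.snd_zero] <;> omega
    · right; right
      refine ⟨Pl.swp v, Pl.swp w, (box_swp m v).1 hv, ?_, hs⟩
      simp only [Pl.swp, Prod.fst_zero]; omega
    · left; left
      refine ⟨v, w, hv, ?_, ?_, ?_, h1⟩ <;> simp only [Prod.fst_zero, Prod.snd_zero] <;> omega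
    · left; right
      refine ⟨v, w, hv, ?_, h1⟩
      simp only [Prod.fst_zero]; omega
  have t1 := h.sqrt_trick i1 i2
  have t2 := h.sqrt_trick i3 i4
  have t3 := h.sqrt_trick (i1.union i2) (i3.union i4)
  have t4 := h.mono hsub
  set p := μ.real E1 with hpdef
  rw [q2] at t1
  rw [q3, q4] at t2
  have hp1 : 0 ≤ 1 - p := sub_nonneg.2 (h.le_one _)
  have t5 : (1 - p) ^ 4 ≤ (δ ^ 4) ^ 4 := by
    calc (1 - p) ^ 4 = ((1 - p) * (1 - p)) * ((1 - p) * (1 - p)) := by ring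
      _ ≤ (1 - μ.real (E1 ∪ E2)) * (1 - μ.real (E3 ∪ E4)) :=
          mul_le_mul t1 t2 (by positivity) (sub_nonneg.2 (h.le_one _))
      _ ≤ 1 - μ.real (E1 ∪ E2 ∪ (E3 ∪ E4)) := t3
      _ ≤ δ ^ 16 := by linarith
      _ = (δ ^ 4) ^ 4 := by ring
  have t6 : 1 - p ≤ δ ^ 4 := le_of_pow_le_pow_left₀ (by norm_num) (by positivity) t5
  have d1 : δ ^ 4 ≤ δ := by
    calc δ ^ 4 ≤ δ ^ 1 := pow_le_pow_of_le_one hδ0 hδ1 (by norm_num)
      _ = δ := pow_one _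
  have d2 : δ ^ 2 ≤ δ := by
    calc δ ^ 2 ≤ δ ^ 1 := pow_le_pow_of_le_one hδ0 hδ1 (by norm_num)
      _ = δ := pow_one _
  -- upper half
  set U : Set (Set (ℤ × ℤ)) := {S | Arm 0 m N 0 N S} with hU
  set U' : Set (Set (ℤ × ℤ)) := {S | Pl.rfl2 ⁻¹' S ∈ U} with hU'
  have iU : Inc U := inc_Arm _ _ _ _ _
  have iU' : Inc U' := iU.pre _
  have qU : μ.real U' = μ.real U := h.rfl2 (loc_Arm _ _ _ _ _)
  have hsubU : E1 ⊆ U ∪ U' := by
    rintro S ⟨v, w, hv, hw, h1, h2, h3⟩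
    simp only [Prod.fst_zero, Prod.snd_zero] at hw h1 h2
    rcases le_total 0 w.2 with hc | hc
    · left
      refine ⟨v, w, hv, ?_, ?_, ?_, h3⟩ <;> simp only [Prod.fst_zero, Prod.snd_zero] <;> omega
    · right
      refine Arm_rfl2.2 ⟨v, w, hv, ?_, ?_, ?_, h3⟩ <;> simp only [Prod.fst_zero, Prod.snd_zero] <;>
        omega
  have t7 := h.sqrt_trick iU iU'
  rw [qU] at t7
  have t8 := h.mono hsubU
  have hU1 : 0 ≤ 1 - μ.real U := sub_nonneg.2 (h.le_one _)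
  have t9 : (1 - μ.real U) ^ 2 ≤ (δ ^ 2) ^ 2 := by
    calc (1 - μ.real U) ^ 2 = (1 - μ.real U) * (1 - μ.real U) := by ring
      _ ≤ 1 - μ.real (U ∪ U') := t7
      _ ≤ 1 - p := by linarith
      _ ≤ δ ^ 4 := t6
      _ = (δ ^ 2) ^ 2 := by ring
  have t10 : 1 - μ.real U ≤ δ ^ 2 := le_of_pow_le_pow_left₀ (by norm_num) (by positivity) t9
  refine ⟨by rw [q2]; linarith, by linarith, fun a => ?_⟩
  set V1 : Set (Set (ℤ × ℤ)) := {S | Arm 0 m N 0 (a - 1) S} with hV1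
  set V2 : Set (Set (ℤ × ℤ)) := {S | Arm 0 m N a N S} with hV2
  have hsubV : U ⊆ V1 ∪ V2 := by
    rintro S ⟨v, w, hv, hw, h1, h2, h3⟩
    rcases lt_or_ge w.2 a with hc | hc
    · left
      refine ⟨v, w, hv, hw, h1, ?_, h3⟩
      simp only [Prod.snd_zero]; omega
    · right
      refine ⟨v, w, hv, hw, ?_, h2, h3⟩
      simp only [Prod.snd_zero]; omega
  have t11 := h.sqrt_trick (E := V1) (F := V2) (inc_Arm _ _ _ _ _) (inc_Arm _ _ _ _ _)
  have t12 := h.mono hsubV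
  by_contra hcon
  push Not at hcon
  have t13 : δ * δ < (1 - μ.real V1) * (1 - μ.real V2) :=
    mul_lt_mul'' (by linarith [hcon.1]) (by linarith [hcon.2]) hδ0 hδ0
  nlinarith

end PM

/-- A function which at least doubles when the argument grows by the factor `3 / 2` cannot stay
below the identity. -/
theorem growth (α : ℕ → ℕ) (n₁ : ℕ) (h : ∀ n, n₁ ≤ n → α n ≤ n) (n₀ : ℕ) :
    ∃ n, n₀ ≤ n ∧ α (n + n / 2) ≤ 2 * α n := by
  by_contra hcon
  push Not at hcon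
  set s := max n₀ n₁ with hs
  let N : ℕ → ℕ := fun k => Nat.rec s (fun _ n => n + n / 2) k
  have hN0 : N 0 = s := rfl
  have hNs : ∀ k, N (k + 1) = N k + N k / 2 := fun k => rfl
  have hge : ∀ k, s ≤ N k := by
    intro k
    induction k with
    | zero => exact hN0.ge
    | succ k ih => rw [hNs]; omega
  have h1 : ∀ k, 2 ^ k ≤ α (N k) + 1 := by
    intro k
    induction k with
    | zero => simp
    | succ k ih =>
      have := hcon (N k) ((le_max_left _ _).trans (hge k))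
      rw [← hNs] at this
      rw [pow_succ]; omega
  have h2 : ∀ k, N k * 2 ^ k ≤ s * 3 ^ k := by
    intro k
    induction k with
    | zero => simp [hN0]
    | succ k ih =>
      have h3 : N (k + 1) * 2 ≤ N k * 3 := by rw [hNs]; omega
      calc N (k + 1) * 2 ^ (k + 1) = (N (k + 1) * 2) * 2 ^ k := by ring
        _ ≤ (N k * 3) * 2 ^ k := Nat.mul_le_mul_right _ h3
        _ = (N k * 2 ^ k) * 3 := by ring
        _ ≤ (s * 3 ^ k) * 3 := Nat.mul_le_mul_right _ ih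
        _ = s * 3 ^ (k + 1) := by ring
  have h3 : ∀ k, 4 ^ k ≤ (s + 1) * 3 ^ k := by
    intro k
    have e1 := h1 k
    have e2 := h (N k) ((le_max_right _ _).trans (hge k))
    have e3 : 2 ^ k ≤ N k + 1 := by omega
    calc 4 ^ k = 2 ^ k * 2 ^ k := by rw [← mul_pow]; norm_num
      _ ≤ (N k + 1) * 2 ^ k := Nat.mul_le_mul_right _ e3
      _ = N k * 2 ^ k + 2 ^ k := by ring
      _ ≤ s * 3 ^ k + 3 ^ k := Nat.add_le_add (h2 k) (Nat.pow_le_pow_left (by norm_num) k)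
      _ = (s + 1) * 3 ^ k := by ring
  obtain ⟨k, hk⟩ := pow_unbounded_of_one_lt ((s : ℝ) + 1) (show (1 : ℝ) < 4 / 3 by norm_num)
  have h4 := h3 k
  have h5 : (4 : ℝ) ^ k ≤ ((s : ℝ) + 1) * 3 ^ k := by exact_mod_cast h4
  rw [div_pow, lt_div_iff₀ (by positivity)] at hk
  linarith

namespace PM

variable {μ : Measure (Set (ℤ × ℤ))} {κ : ℝ}

/-- **Crossing lemma.** -/
theorem rsw (h : PM μ κ) {m M : ℕ} (hmM : m ≤ M) {δ ε : ℝ} (hδ0 : 0 ≤ δ) (hδ1 : δ ≤ 1)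
    (hLU : 1 - ε ≤ μ.real {S | LU 0 m M S})
    (hO : ∀ N : ℕ, m ≤ N → 1 - δ ^ 16 ≤ μ.real {S | Out 0 m N S}) (n₀ : ℕ) :
    ∃ n : ℕ, n₀ ≤ n ∧ (1 - δ) ^ 8 - 4 * ε ≤ μ.real {S | HC 0 (15 * n) 0 (14 * n) S} := by
  have hprob := h.prob
  have harm := fun (N : ℕ) (hN : m ≤ N) => h.arms hδ0 hδ1 (hO N hN)
  set c := 1 - δ with hc
  have hc0 : 0 ≤ c := by linarith
  set α : ℕ → ℕ := fun N => sInf {a : ℕ | c ≤ μ.real {S | Arm 0 m N 0 a S}} with hα
  have hne : ∀ N : ℕ, m ≤ N → N ∈ {a : ℕ | c ≤ μ.real {S | Arm 0 m N 0 a S}} := fun N hN =>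
    (harm N hN).2.1
  have hα1 : ∀ N : ℕ, m ≤ N → c ≤ μ.real {S | Arm 0 m N 0 (α N) S} := fun N hN =>
    Nat.sInf_mem ⟨N, hne N hN⟩
  have hα2 : ∀ N : ℕ, m ≤ N → α N ≤ N := fun N hN => Nat.sInf_le (hne N hN)
  have hα3 : ∀ N : ℕ, m ≤ N → c ≤ μ.real {S | Arm 0 m N (α N) N S} := by
    intro N hN
    rcases Nat.eq_zero_or_pos (α N) with h0 | h0
    · rw [h0]
      exact (harm N hN).2.1
    · rcases (harm N hN).2.2 (α N) with h1 | h1
      · exfalso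
        have h2 : α N - 1 ∈ {a : ℕ | c ≤ μ.real {S | Arm 0 m N 0 a S}} := by
          change c ≤ μ.real {S | Arm 0 m N 0 ((α N - 1 : ℕ) : ℤ) S}
          rw [Nat.cast_sub h0]
          exact_mod_cast h1
        have h3 := Nat.sInf_le h2
        have h4 : α N ≤ α N - 1 := h3
        omega
      · exact h1
  obtain ⟨N', hN', hgr⟩ := growth α m hα2 (max (max 53 M) (4 * n₀))
  have k1 : 53 ≤ N' := (le_max_left _ _).trans ((le_max_left _ _).trans hN')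
  have k2 : M ≤ N' := (le_max_right _ _).trans ((le_max_left _ _).trans hN')
  have k3 : 4 * n₀ ≤ N' := (le_max_right _ _).trans hN'
  set N := N' + N' / 2 with hN
  set a := α N' with ha
  have haN : a ≤ N' := hα2 N' (hmM.trans k2)
  set z : ℤ × ℤ := ((N' : ℤ) - N, -(a : ℤ)) with hz
  have hz' : Pl.trn z 0 = z := by simp [Pl.trn]
  -- the arm events
  have e1 : c ≤ μ.real {S | Arm 0 m N' a N' S} := hα3 N' (hmM.trans k2)
  have e2 : c ≤ μ.real {S | Arm 0 m N' (-N') (-a) S} := by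
    have := h.rfl2 (loc_Arm 0 m N' a N')
    have h2 : {S | Pl.rfl2 ⁻¹' S ∈ {S | Arm 0 m N' a N' S}} = {S | Arm 0 m N' (-N') (-a) S} := by
      ext S; exact Arm_rfl2
    rw [h2] at this
    rw [this]; exact e1
  have e3 : c ≤ μ.real {S | Arm z m N 0 (2 * a) S} := by
    have h1 : c ≤ μ.real {S | Arm 0 m N 0 (2 * a) S} := by
      refine (hα1 N (by omega)).trans (h.mono fun S hS => ?_)
      exact Arm.mono le_rfl (by exact_mod_cast hgr) hS
    have := h.trn z _ _ (loc_Arm 0 m N 0 (2 * a))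
    have h2 : {S | Pl.trn z ⁻¹' S ∈ {S | Arm 0 m N 0 (2 * a) S}} =
        {S | Arm z m N 0 (2 * a) S} := by
      ext S
      refine Arm_trn.trans ?_
      rw [hz']
      rfl
    rw [h2] at this
    rw [this]; exact h1
  have e4 : c ≤ μ.real {S | ArmL z m N S} := by
    have h1 : c ≤ μ.real {S | ArmL 0 m N S} := (harm N (by omega)).1
    have := h.trn z _ _ (loc_ArmL 0 m N)
    have h2 : {S | Pl.trn z ⁻¹' S ∈ {S | ArmL 0 m N S}} = {S | ArmL z m N S} := by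
      ext S
      refine ArmL_trn.trans ?_
      rw [hz']
      rfl
    rw [h2] at this
    rw [this]; exact h1
  set E : Set (Set (ℤ × ℤ)) := ({S | Arm 0 m N' a N' S} ∩ {S | Arm 0 m N' (-N') (-a) S}) ∩
    ({S | Arm z m N 0 (2 * a) S} ∩ {S | ArmL z m N S}) with hE
  have iE : Inc E := ((inc_Arm _ _ _ _ _).inter (inc_Arm _ _ _ _ _)).inter
    ((inc_Arm _ _ _ _ _).inter (inc_ArmL _ _ _))
  have pE : c ^ 4 ≤ μ.real E := by
    refine h.fkg_pow (i := 2) (j := 2) ((inc_Arm _ _ _ _ _).inter (inc_Arm _ _ _ _ _))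
      ((inc_Arm _ _ _ _ _).inter (inc_ArmL _ _ _)) hc0 ?_ ?_
    · exact h.fkg_pow (i := 1) (j := 1) (inc_Arm _ _ _ _ _) (inc_Arm _ _ _ _ _) hc0
        (by rw [pow_one]; exact e1) (by rw [pow_one]; exact e2)
    · exact h.fkg_pow (i := 1) (j := 1) (inc_Arm _ _ _ _ _) (inc_ArmL _ _ _) hc0
        (by rw [pow_one]; exact e3) (by rw [pow_one]; exact e4)
  set E' : Set (Set (ℤ × ℤ)) := {S | Pl.rfl1 ⁻¹' S ∈ E} with hE'
  have iE' : Inc E' := iE.pre _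
  have pE' : c ^ 4 ≤ μ.real E' := by
    obtain ⟨⟨K, hK⟩, -⟩ := iE
    rw [h.rfl1 K E hK]; exact pE
  have pEE : c ^ 8 ≤ μ.real (E ∩ E') := h.fkg_pow iE iE' hc0 pE pE'
  -- local uniqueness events
  have l0 := loc_LU 0 m M
  have l1 := loc_LU z m M
  have f1 : 1 - ε ≤ μ.real {S | LU z m M S} := by
    have := h.trn z _ _ l0
    have h2 : {S | Pl.trn z ⁻¹' S ∈ {S | LU 0 m M S}} = {S | LU z m M S} := by
      ext S
      refine LU_trn.trans ?_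
      rw [hz']
      rfl
    rw [h2] at this
    rw [this]; exact hLU
  have f2 : 1 - ε ≤ μ.real {S | Pl.rfl1 ⁻¹' S ∈ {S | LU 0 m M S}} := by
    rw [h.rfl1 _ _ l0]; exact hLU
  have f3 : 1 - ε ≤ μ.real {S | Pl.rfl1 ⁻¹' S ∈ {S | LU z m M S}} := by
    rw [h.rfl1 _ _ l1]; exact f1
  have key : μ.real (E ∩ E') ≤ μ.real {S | HC (N' - 2 * N) (2 * N - N') (-N - a)
      (max (N - a) N') S} + 4 * ε := by
    set Z := {S | LU 0 m M S}ᶜ ∪ {S | LU z m M S}ᶜ ∪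
      ({S | Pl.rfl1 ⁻¹' S ∈ {S | LU 0 m M S}}ᶜ ∪ {S | Pl.rfl1 ⁻¹' S ∈ {S | LU z m M S}}ᶜ) with hZ
    have g1 : μ.real Z ≤ 4 * ε := by
      have u1 := measureReal_union_le (μ := μ) ({S | LU 0 m M S}ᶜ ∪ {S | LU z m M S}ᶜ)
        ({S | Pl.rfl1 ⁻¹' S ∈ {S | LU 0 m M S}}ᶜ ∪ {S | Pl.rfl1 ⁻¹' S ∈ {S | LU z m M S}}ᶜ)
      have u2 := measureReal_union_le (μ := μ) {S | LU 0 m M S}ᶜ {S | LU z m M S}ᶜ
      have u3 := measureReal_union_le (μ := μ) {S | Pl.rfl1 ⁻¹' S ∈ {S | LU 0 m M S}}ᶜ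
        {S | Pl.rfl1 ⁻¹' S ∈ {S | LU z m M S}}ᶜ
      have w1 := h.compl l0
      have w2 := h.compl l1
      have w3 := h.compl (loc_pre l0 Pl.rfl1)
      have w4 := h.compl (loc_pre l1 Pl.rfl1)
      linarith
    have g2 : E ∩ E' ⊆ {S | HC (N' - 2 * N) (2 * N - N') (-N - a) (max (N - a) N') S} ∪ Z := by
      intro S hS
      by_cases hSZ : S ∈ Z
      · exact Or.inr hSZ
      · left
        rw [hZ, Set.mem_union, Set.mem_union, Set.mem_union, not_or, not_or, not_or] at hSZ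
        obtain ⟨⟨z1, z2⟩, z3, z4⟩ := hSZ
        rw [Set.mem_compl_iff, not_not] at z1 z2 z3 z4
        obtain ⟨⟨⟨s1, s2⟩, s3, s4⟩, ⟨s5, s6⟩, s7, s8⟩ := hS
        exact full_cross (m := m) (M := M) (N' := N') (N := N) (α := a) (z := z) (by positivity)
          (by exact_mod_cast hmM) (by exact_mod_cast k2) (by push_cast [hN]; omega) rfl rfl
          (by positivity) ⟨s1, s2, s3, s4⟩ ⟨s5, s6, s7, s8⟩ z1 z2 z3 z4
    have g3 := h.mono g2
    have g4 := measureReal_union_le (μ := μ) {S | HC (N' - 2 * N) (2 * N - N') (-N - a)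
      (max (N - a) N') S} Z
    linarith
  refine ⟨(N' + 3) / 4, by omega, ?_⟩
  have hfin : μ.real {S | HC (N' - 2 * N) (2 * N - N') (-N - a) (max (N - a) N') S} ≤
      μ.real {S | HC 0 (15 * ((N' + 3) / 4 : ℕ)) 0 (14 * ((N' + 3) / 4 : ℕ)) S} := by
    refine h.hc_mono ?_ ?_ (by positivity)
    · push_cast [hN]; omega
    · push_cast [hN]; omega
  linarith

end PM

end Run7.h485.Pl
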