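import Pool.Agent.Run7.h485.HitB

/-!
# A Markov chain of paths with distinct coordinates inside blocks

A state is a pair `(U, y)`: the set of coordinates used in the present block and the position.
While `U.card ≤ M` the next step is uniform among `± e_i`, `i ∉ U`; when `U.card = M + 1` the next
step is `+ e_0` and a new block starts with `U = {0}`.
-/

namespace Run7.h485

open Finset
open Pool.Agent.H282R3.RW (V Dir vec nsq nsq_nonneg nsq_add_vec sq_le_nsq sum_dir card_dir)

noncomputable section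

variable {d : ℕ} [NeZero d]

/-- states -/
abbrev St (d : ℕ) := Finset (Fin d) × V d

/-- transition weights -/
def wt1 (M : ℕ) (s : St d) (e : Dir d) : ℝ :=
  if s.1.card ≤ M then (if e.1 ∈ s.1 then 0 else 1 / (2 * ((d : ℝ) - s.1.card)))
  else (if e = (0, true) then 1 else 0)

/-- the next state -/
def nxt (M : ℕ) (s : St d) (e : Dir d) : St d :=
  (if s.1.card ≤ M then insert e.1 s.1 else {0}, s.2 + vec e)

/-- the transition operator -/
def T (M : ℕ) (f : St d → ℝ) (s : St d) : ℝ := ∑ e, wt1 M s e * f (nxt M s e)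

/-- valid states -/
def Valid (M : ℕ) (s : St d) : Prop := 0 ∈ s.1 ∧ s.1.card ≤ M + 1

theorem wt1_nonneg {M : ℕ} (hM : M + 1 < d) (s : St d) (e : Dir d) : 0 ≤ wt1 M s e := by
  unfold wt1
  split_ifs with h1 h2 h3
  · exact le_rfl
  · have : ((s.1.card : ℕ) : ℝ) < d := by exact_mod_cast (by omega : s.1.card < d)
    have : 0 < (d : ℝ) - s.1.card := by linarith
    positivity
  · norm_num
  · exact le_rfl

theorem nxt_valid {M : ℕ} {s : St d} (hs : Valid M s) (e : Dir d) :
    Valid M (nxt M s e) := by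
  unfold nxt Valid
  simp only
  split_ifs with h1
  · refine ⟨mem_insert_of_mem hs.1, (card_insert_le _ _).trans (by omega)⟩
  · exact ⟨mem_singleton_self _, by simp⟩

theorem sum_wt1 {M : ℕ} (hM : M + 1 < d) {s : St d} (hs : Valid M s) : ∑ e, wt1 M s e = 1 := by
  unfold wt1
  split_ifs with h1
  · have h2 : ((s.1.card : ℕ) : ℝ) < d := by exact_mod_cast (by omega : s.1.card < d)
    have h3 : (0 : ℝ) < (d : ℝ) - s.1.card := by linarith
    rw [Fintype.sum_prod_type]
    simp only [Fintype.sum_bool]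
    have : ∀ i : Fin d, ((if i ∈ s.1 then (0 : ℝ) else 1 / (2 * ((d : ℝ) - s.1.card))) +
        (if i ∈ s.1 then 0 else 1 / (2 * ((d : ℝ) - s.1.card)))) =
        1 / ((d : ℝ) - s.1.card) * (if i ∈ s.1 then 0 else 1) := by
      intro i
      split_ifs
      · ring
      · field_simp; ring
    rw [sum_congr rfl fun i _ => this i, ← mul_sum]
    have h4 : ∑ i : Fin d, (if i ∈ s.1 then (0 : ℝ) else 1) = (d : ℝ) - s.1.card := by
      have h5 : ∀ i : Fin d, (if i ∈ s.1 then (0 : ℝ) else 1) = 1 - (if i ∈ s.1 then 1 else 0) := by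
        intro i; split_ifs <;> norm_num
      rw [sum_congr rfl fun i _ => h5 i, sum_sub_distrib]
      simp
    rw [h4]
    field_simp
  · simp

theorem T_mono {M : ℕ} (hM : M + 1 < d) {f g : St d → ℝ} {s : St d}
    (h : ∀ e, wt1 M s e ≠ 0 → f (nxt M s e) ≤ g (nxt M s e)) : T M f s ≤ T M g s := by
  refine sum_le_sum fun e _ => ?_
  by_cases h0 : wt1 M s e = 0
  · simp [h0]
  · exact mul_le_mul_of_nonneg_left (h e h0) (wt1_nonneg hM s e)

theorem T_mono' {M : ℕ} (hM : M + 1 < d) {f g : St d → ℝ} (h : ∀ s, Valid M s → f s ≤ g s)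
    {s : St d} (hs : Valid M s) : T M f s ≤ T M g s :=
  T_mono hM fun e _ => h _ (nxt_valid hs e)

theorem T_add (M : ℕ) (f g : St d → ℝ) (s : St d) :
    T M (fun s => f s + g s) s = T M f s + T M g s := by
  simp only [T, mul_add, sum_add_distrib]

theorem T_const_mul (M : ℕ) (c : ℝ) (f : St d → ℝ) (s : St d) :
    T M (fun s => c * f s) s = c * T M f s := by
  simp only [T, mul_sum]
  exact sum_congr rfl fun e _ => by ring

theorem T_one {M : ℕ} (hM : M + 1 < d) {s : St d} (hs : Valid M s) : T M (fun _ => 1) s = 1 := by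
  simp only [T, mul_one]
  exact sum_wt1 hM hs

theorem T_sum {ι : Type*} (M : ℕ) (J : Finset ι) (f : ι → St d → ℝ) (s : St d) :
    T M (fun s => ∑ i ∈ J, f i s) s = ∑ i ∈ J, T M (f i) s := by
  simp only [T, mul_sum]
  rw [sum_comm]

theorem T_nonneg {M : ℕ} (hM : M + 1 < d) {f : St d → ℝ} (h : ∀ s, Valid M s → 0 ≤ f s)
    {s : St d} (hs : Valid M s) : 0 ≤ T M f s :=
  sum_nonneg fun e _ => mul_nonneg (wt1_nonneg hM s e) (h _ (nxt_valid hs e))

/-! iterates -/

/-- iterates of the transition operator -/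
def Ti (M : ℕ) : ℕ → (St d → ℝ) → St d → ℝ
  | 0, f => f
  | j + 1, f => T M (Ti M j f)

theorem Ti_succ' (M j : ℕ) (f : St d → ℝ) : Ti M (j + 1) f = Ti M j (T M f) := by
  induction j with
  | zero => rfl
  | succ j ih =>
    change T M (Ti M (j + 1) f) = T M (Ti M j (T M f))
    rw [ih]

theorem Ti_add (M j k : ℕ) (f : St d → ℝ) : Ti M (j + k) f = Ti M j (Ti M k f) := by
  induction j with
  | zero => rw [Nat.zero_add]; rfl
  | succ j ih =>
    rw [Nat.add_right_comm]
    change T M (Ti M (j + k) f) = T M (Ti M j (Ti M k f))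
    rw [ih]

theorem Ti_mono {M : ℕ} (hM : M + 1 < d) {f g : St d → ℝ} (h : ∀ s, Valid M s → f s ≤ g s)
    (j : ℕ) : ∀ {s : St d}, Valid M s → Ti M j f s ≤ Ti M j g s := by
  induction j with
  | zero => intro s hs; exact h s hs
  | succ j ih => intro s hs; exact T_mono' hM (fun s hs => ih hs) hs

theorem Ti_nonneg {M : ℕ} (hM : M + 1 < d) {f : St d → ℝ} (h : ∀ s, Valid M s → 0 ≤ f s)
    (j : ℕ) : ∀ {s : St d}, Valid M s → 0 ≤ Ti M j f s := by
  induction j with
  | zero => intro s hs; exact h s hs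
  | succ j ih => intro s hs; exact T_nonneg hM (fun s hs => ih hs) hs

theorem Ti_add_fun (M j : ℕ) (f g : St d → ℝ) (s : St d) :
    Ti M j (fun s => f s + g s) s = Ti M j f s + Ti M j g s := by
  induction j generalizing s with
  | zero => rfl
  | succ j ih =>
    change T M (Ti M j _) s = T M (Ti M j _) s + T M (Ti M j _) s
    rw [← T_add]
    congr 1
    ext s
    exact ih s

theorem Ti_const_mul (M j : ℕ) (c : ℝ) (f : St d → ℝ) (s : St d) :
    Ti M j (fun s => c * f s) s = c * Ti M j f s := by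
  induction j generalizing s with
  | zero => rfl
  | succ j ih =>
    change T M (Ti M j _) s = c * T M (Ti M j _) s
    rw [← T_const_mul]
    congr 1
    ext s
    exact ih s

theorem Ti_sum {ι : Type*} (M j : ℕ) (J : Finset ι) (f : ι → St d → ℝ) (s : St d) :
    Ti M j (fun s => ∑ i ∈ J, f i s) s = ∑ i ∈ J, Ti M j (f i) s := by
  induction j generalizing s with
  | zero => rfl
  | succ j ih =>
    change T M (Ti M j _) s = ∑ i ∈ J, T M (Ti M j (f i)) s
    rw [← T_sum]
    congr 1
    ext s
    exact ih s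

theorem Ti_const {M : ℕ} (hM : M + 1 < d) (j : ℕ) (c : ℝ) :
    ∀ {s : St d}, Valid M s → Ti M j (fun _ => c) s = c := by
  induction j with
  | zero => intro s _; rfl
  | succ j ih =>
    intro s hs
    change T M (Ti M j _) s = c
    have h1 : T M (Ti M j fun _ => c) s = T M (fun _ => c * 1) s := by
      refine sum_congr rfl fun e _ => ?_
      rw [ih (nxt_valid hs e), mul_one]
    rw [h1, T_const_mul, T_one hM hs, mul_one]

/-- the size of the set of used coordinates after `j` steps -/
def cd (M : ℕ) : ℕ → ℕ → ℕ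
  | 0, u => u
  | j + 1, u => if u ≤ M then cd M j (u + 1) else cd M j 1

/-- the number of `e_0` steps among the next `j` steps -/
def nt (M : ℕ) : ℕ → ℕ → ℕ
  | 0, _ => 0
  | j + 1, u => if u ≤ M then nt M j (u + 1) else 1 + nt M j 1

theorem card_nxt {M : ℕ} {s : St d} {e : Dir d} (h : wt1 M s e ≠ 0) :
    (nxt M s e).1.card = if s.1.card ≤ M then s.1.card + 1 else 1 := by
  unfold nxt
  unfold wt1 at h
  simp only
  split_ifs with h1
  · rw [if_pos h1] at h
    have : e.1 ∉ s.1 := by
      intro h2; rw [if_pos h2] at h; exact h rfl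
    rw [card_insert_of_notMem this]
  · simp

/-- Monotonicity which only looks at the states that can occur after `j` steps. -/
theorem Ti_mono_phase {M : ℕ} (hM : M + 1 < d) {f g : St d → ℝ} (j : ℕ) :
    ∀ {s : St d}, Valid M s → (∀ s', Valid M s' → s'.1.card = cd M j s.1.card → f s' ≤ g s') →
      Ti M j f s ≤ Ti M j g s := by
  induction j with
  | zero => intro s hs h; exact h s hs rfl
  | succ j ih =>
    intro s hs h
    refine T_mono hM fun e he => ih (nxt_valid hs e) fun s' hs' hc => h s' hs' ?_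
    rw [hc, card_nxt he]
    change cd M j _ = cd M (j + 1) _
    simp only [cd]
    split_ifs <;> rfl

theorem cd_block (M : ℕ) : ∀ (a u : ℕ), u + a = M + 1 → cd M a u = M + 1 := by
  intro a
  induction a with
  | zero => intro u h; simpa [cd] using h
  | succ a ih =>
    intro u h
    have : u ≤ M := by omega
    simp only [cd, this, if_true]
    exact ih _ (by omega)

theorem cd_add (M : ℕ) : ∀ (j k u : ℕ), cd M (j + k) u = cd M k (cd M j u) := by
  intro j
  induction j with
  | zero => intro k u; simp [cd]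
  | succ j ih =>
    intro k u
    rw [Nat.add_right_comm]
    simp only [cd]
    split_ifs
    · exact ih _ _
    · exact ih _ _

theorem cd_start (M : ℕ) {a u : ℕ} (h : u + a = M + 1) : cd M (a + 1) u = 1 := by
  rw [cd_add, cd_block M a u h]
  simp [cd]

theorem cd_full (M : ℕ) (n : ℕ) : cd M (n * (M + 1)) 1 = 1 := by
  induction n with
  | zero => simp [cd]
  | succ n ih =>
    rw [Nat.succ_mul, cd_add, ih]
    exact cd_start M (a := M) (u := 1) (by omega)

theorem cd_start_full (M : ℕ) {a u : ℕ} (h : u + a = M + 1) (n : ℕ) :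
    cd M (a + 1 + n * (M + 1)) u = 1 := by
  rw [cd_add, cd_start M h, cd_full]

theorem eq_singleton_of_valid {M : ℕ} {s : St d} (hs : Valid M s) (h : s.1.card = 1) :
    s.1 = {0} := by
  obtain ⟨x, hx⟩ := card_eq_one.1 h
  have := hs.1
  rw [hx, mem_singleton] at this
  rw [hx, this]

/-- **Khas'minskii type lemma.** -/
theorem khas {M : ℕ} (hM : M + 1 < d) {ζ w : St d → ℝ} (hζ : ∀ s, Valid M s → 0 ≤ ζ s)
    {Z G : ℕ → St d → ℝ} (hZ0 : ∀ s, Z 0 s = 1)
    (hZ : ∀ k s, Z (k + 1) s = T M (fun s' => (1 + ζ s') * Z k s') s)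
    (hG0 : ∀ s, G 0 s = 0) (hG : ∀ k s, G (k + 1) s = T M (fun s' => ζ s' * w s' + G k s') s)
    (h : ∀ k s, Valid M s → ζ s ≠ 0 → 1 + G k s ≤ w s) (k : ℕ) :
    ∀ s, Valid M s → Z k s ≤ 1 + G k s := by
  induction k with
  | zero => intro s _; rw [hZ0, hG0, add_zero]
  | succ k ih =>
    intro s hs
    rw [hZ, hG]
    calc T M (fun s' => (1 + ζ s') * Z k s') s
        ≤ T M (fun s' => 1 + (ζ s' * w s' + G k s')) s := by
          refine T_mono' hM (fun s' hs' => ?_) hs
          have h1 := ih s' hs'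
          have h2 := hζ s' hs'
          by_cases h0 : ζ s' = 0
          · rw [h0]; linarith
          · have h3 := h k s' hs' h0
            nlinarith
      _ = 1 + T M (fun s' => ζ s' * w s' + G k s') s := by rw [T_add, T_one hM hs]

theorem G_eq {M : ℕ} {f : St d → ℝ} {G : ℕ → St d → ℝ}
    (hG0 : ∀ s, G 0 s = 0) (hG : ∀ k s, G (k + 1) s = T M (fun s' => f s' + G k s') s) (k : ℕ) :
    ∀ s, G k s = ∑ j ∈ range k, Ti M (j + 1) f s := by
  induction k with
  | zero => intro s; simp [hG0]
  | succ k ih =>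
    intro s
    rw [hG, T_add, sum_range_succ']
    have : (G k) = fun s => ∑ j ∈ range k, Ti M (j + 1) f s := funext ih
    change T M f s + T M (G k) s = _
    rw [this, T_sum, add_comm]
    rfl

end

end Run7.h485
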