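import Pool.Agent.Run7.h485.Law

/-!
# Hitting functionals: mutual bounds, conditioning, and the local upper bound
-/

namespace Run7.h485

open Finset MeasureTheory Filter Topology
open scoped ENNReal

variable {X : Type*} [DecidableEq X]

/-- indicator of a nonempty intersection -/
def ind (T C : Finset X) : ℝ := if (T ∩ C).Nonempty then 1 else 0

theorem ind_nonneg (T C : Finset X) : 0 ≤ ind T C := by
  unfold ind; split_ifs <;> norm_num

theorem ind_singleton (T : Finset X) (x : X) : ind T {x} = if x ∈ T then 1 else 0 := by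
  unfold ind
  by_cases h : x ∈ T
  · rw [if_pos h, if_pos]
    exact ⟨x, by simp [h]⟩
  · rw [if_neg h, if_neg]
    rintro ⟨y, hy⟩
    rw [mem_inter, mem_singleton] at hy
    exact h (hy.2 ▸ hy.1)

theorem sum_filter_ind (W : Finset X) (ρ : Finset X → ℝ) (C : Finset X) :
    ∑ T ∈ W.powerset with (T ∩ C).Nonempty, ρ T = ∑ T ∈ W.powerset, ρ T * ind T C := by
  rw [sum_filter]
  refine sum_congr rfl fun T _ => ?_
  unfold ind
  split_ifs <;> simp

theorem ind_union (T A B : Finset X) :
    ind T A + ind T B - ind T (A ∪ B) = ind T A * ind T B := by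
  unfold ind
  have h : (T ∩ (A ∪ B)).Nonempty ↔ (T ∩ A).Nonempty ∨ (T ∩ B).Nonempty := by
    rw [inter_union_distrib_left, union_nonempty]
  by_cases h1 : (T ∩ A).Nonempty <;> by_cases h2 : (T ∩ B).Nonempty <;> simp [h, h1, h2]

theorem ind_le_sum (T A : Finset X) : ind T A ≤ ∑ x ∈ A, ind T {x} := by
  unfold ind
  split_ifs with h
  · obtain ⟨x, hx⟩ := h
    rw [mem_inter] at hx
    refine le_trans ?_ (single_le_sum (f := fun x => if (T ∩ {x}).Nonempty then (1 : ℝ) else 0)
      (fun x _ => by split_ifs <;> norm_num) hx.2)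
    rw [if_pos ⟨x, by simp [hx.1]⟩]
  · exact sum_nonneg fun x _ => by split_ifs <;> norm_num

/-- The mutual weight of two sets is at most the sum of the mutual weights of their points. -/
theorem HitFun.mutual_le {c : Finset X → ℝ} (hc : HitFun c) (A B : Finset X) :
    c A + c B - c (A ∪ B) ≤ ∑ x ∈ A, ∑ y ∈ B, (c {x} + c {y} - c ({x} ∪ {y})) := by
  obtain ⟨ρ, h0, hρ⟩ := hc (A ∪ B)
  have h1 : ∀ C, C ⊆ A ∪ B → c C = ∑ T ∈ (A ∪ B).powerset, ρ T * ind T C := fun C hC => by
    rw [hρ C hC, sum_filter_ind]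
  rw [h1 A subset_union_left, h1 B subset_union_right, h1 _ Subset.rfl]
  have h2 : ∑ x ∈ A, ∑ y ∈ B, (c {x} + c {y} - c ({x} ∪ {y})) =
      ∑ T ∈ (A ∪ B).powerset, ρ T * ((∑ x ∈ A, ind T {x}) * ∑ y ∈ B, ind T {y}) := by
    have h3 : ∀ x ∈ A, ∀ y ∈ B, c {x} + c {y} - c ({x} ∪ {y}) =
        ∑ T ∈ (A ∪ B).powerset, ρ T * (ind T {x} * ind T {y}) := by
      intro x hx y hy
      have hx' : ({x} : Finset X) ⊆ A ∪ B := singleton_subset_iff.2 (mem_union_left _ hx)
      have hy' : ({y} : Finset X) ⊆ A ∪ B := singleton_subset_iff.2 (mem_union_right _ hy)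
      rw [h1 _ hx', h1 _ hy', h1 _ (union_subset hx' hy'), ← sum_add_distrib, ← sum_sub_distrib]
      refine sum_congr rfl fun T _ => ?_
      rw [← ind_union]; ring
    rw [sum_congr rfl fun x hx => sum_congr rfl fun y hy => h3 x hx y hy]
    rw [sum_congr rfl fun x _ => sum_comm, sum_comm]
    refine sum_congr rfl fun T _ => ?_
    rw [sum_mul_sum, mul_sum]
    refine sum_congr rfl fun x _ => ?_
    rw [mul_sum]
  rw [h2, ← sum_add_distrib, ← sum_sub_distrib]
  refine sum_le_sum fun T _ => ?_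
  rw [← mul_add, ← mul_sub, ind_union]
  exact mul_le_mul_of_nonneg_left (mul_le_mul (ind_le_sum T A) (ind_le_sum T B)
    (ind_nonneg T B) (sum_nonneg fun x _ => ind_nonneg _ _)) (h0 T)

theorem HitFun.of_weights {f : Finset X → ℝ}
    (h : ∀ K : Finset X, ∃ W, K ⊆ W ∧ ∃ ρ : Finset X → ℝ, (∀ T, 0 ≤ ρ T) ∧
      ∀ B, B ⊆ K → f B = ∑ T ∈ W.powerset, ρ T * ind T B) : HitFun f := by
  intro K
  obtain ⟨W, hKW, ρ, h0, hρ⟩ := h K
  refine ⟨fun T => ∑ T' ∈ W.powerset with T' ∩ K = T, ρ T',
    fun T => sum_nonneg fun _ _ => h0 _, fun B hB => ?_⟩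
  rw [hρ B hB, ← sum_filter_ind]
  rw [← sum_fiberwise_of_maps_to (s := W.powerset.filter fun T => (T ∩ B).Nonempty)
    (t := K.powerset.filter fun T => (T ∩ B).Nonempty) (g := fun T' => T' ∩ K)]
  · refine sum_congr rfl fun T hT => ?_
    refine sum_congr ?_ fun _ _ => rfl
    ext T'
    simp only [mem_filter, mem_powerset] at hT ⊢
    constructor
    · rintro ⟨⟨h1, h2⟩, h3⟩; exact ⟨h1, h3⟩
    · rintro ⟨h1, h3⟩
      refine ⟨⟨h1, ?_⟩, h3⟩
      obtain ⟨x, hx⟩ := hT.2
      rw [← h3] at hx
      simp only [mem_inter] at hx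
      exact ⟨x, mem_inter.2 ⟨hx.1.1, hx.2⟩⟩
  · intro T' hT'
    simp only [mem_filter, mem_powerset] at hT' ⊢
    refine ⟨inter_subset_right, ?_⟩
    obtain ⟨x, hx⟩ := hT'.2
    rw [mem_inter] at hx
    exact ⟨x, by simp [hx.1, hx.2, hB hx.2]⟩

/-- the conditional functional given that `A` is avoided -/
def condF (c : Finset X → ℝ) (A K : Finset X) : ℝ := c (K ∪ A) - c A

theorem HitFun.cond {c : Finset X → ℝ} (hc : HitFun c) (A : Finset X) : HitFun (condF c A) := by
  refine HitFun.of_weights fun K => ⟨K ∪ A, subset_union_left, ?_⟩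
  obtain ⟨ρ, h0, hρ⟩ := hc (K ∪ A)
  have h1 : ∀ C, C ⊆ K ∪ A → c C = ∑ T ∈ (K ∪ A).powerset, ρ T * ind T C := fun C hC => by
    rw [hρ C hC, sum_filter_ind]
  refine ⟨fun T => ρ T * (1 - ind T A), fun T => mul_nonneg (h0 T) ?_, fun B hB => ?_⟩
  · unfold ind; split_ifs <;> norm_num
  · unfold condF
    rw [h1 _ (union_subset_union_left hB), h1 _ subset_union_right, ← sum_sub_distrib]
    refine sum_congr rfl fun T _ => ?_
    have := ind_union T B A
    have : ind T (B ∪ A) = ind T B + ind T A - ind T B * ind T A := by linarith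
    rw [this]; ring

theorem HitFun.cond_diff {c : Finset X → ℝ} (hc : HitFun c) (A : Finset X) (x : X) :
    HitFun fun K => condF c A K - condF c (insert x A) K := by
  refine HitFun.of_weights fun K => ⟨K ∪ insert x A, subset_union_left, ?_⟩
  obtain ⟨ρ, h0, hρ⟩ := hc (K ∪ insert x A)
  have h1 : ∀ C, C ⊆ K ∪ insert x A → c C = ∑ T ∈ (K ∪ insert x A).powerset, ρ T * ind T C :=
    fun C hC => by rw [hρ C hC, sum_filter_ind]
  refine ⟨fun T => ρ T * ((1 - ind T A) * ind T {x}), fun T => mul_nonneg (h0 T)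
    (mul_nonneg ?_ (ind_nonneg _ _)), fun B hB => ?_⟩
  · unfold ind; split_ifs <;> norm_num
  · unfold condF
    have hA : A ⊆ K ∪ insert x A := (subset_insert x A).trans subset_union_right
    have hB' : B ⊆ K ∪ insert x A := hB.trans subset_union_left
    rw [h1 _ (union_subset hB' hA), h1 _ hA, h1 _ (union_subset_union_left hB),
      h1 _ subset_union_right, ← sum_sub_distrib, ← sum_sub_distrib, ← sum_sub_distrib]
    refine sum_congr rfl fun T _ => ?_
    have e1 : ind T (B ∪ A) = ind T B + ind T A - ind T B * ind T A := by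
      have := ind_union T B A; linarith
    have e2 : ind T (insert x A) = ind T {x} + ind T A - ind T {x} * ind T A := by
      have := ind_union T {x} A
      rw [← insert_eq] at this; linarith
    have e3 : ind T (B ∪ insert x A) = ind T B + ind T (insert x A) - ind T B * ind T (insert x A) := by
      have := ind_union T B (insert x A); linarith
    rw [e3, e2, e1]; ring

/-- Superposition of two independent random sets. -/
theorem IsLaw.superpose' {c c' : Finset X → ℝ} {s : ℝ} {P Q R : Measure (Set X)}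
    (hP : IsLaw c s P) (hQ : IsLaw c' s Q) (hR : IsLaw (fun K => c K + c' K) s R) :
    (P.prod Q).map (fun p : Set X × Set X => p.1 ∪ p.2) = R := by
  have := hP.prob
  have := hQ.prob
  have := hR.prob
  have : IsProbabilityMeasure ((P.prod Q).map (fun p : Set X × Set X => p.1 ∪ p.2)) :=
    Measure.isProbabilityMeasure_map measurable_union.aemeasurable
  refine ext_avoid fun K => ?_
  rw [Measure.map_apply measurable_union (measurableSet_avoid K)]
  have h1 : (fun p : Set X × Set X => p.1 ∪ p.2) ⁻¹' {I | ∀ x ∈ K, x ∉ I} =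
      {I | ∀ x ∈ K, x ∉ I} ×ˢ {I | ∀ x ∈ K, x ∉ I} := by
    ext ⟨I, J⟩
    simp only [Set.mem_preimage, Set.mem_ofPred_eq, Set.mem_union, not_or, Set.mem_prod]
    exact ⟨fun h => ⟨fun x hx => (h x hx).1, fun x hx => (h x hx).2⟩,
      fun h x hx => ⟨h.1 x hx, h.2 x hx⟩⟩
  rw [h1, Measure.prod_prod, hP.avoid, hQ.avoid, hR.avoid, ← ENNReal.ofReal_mul (Real.exp_pos _).le,
    ← Real.exp_add]
  congr 2
  ring

/-- Monotonicity of covering probabilities in the functional. -/
theorem fS_mono {c c' : Finset X → ℝ} (hc : HitFun c) (hc' : HitFun c')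
    (hd : HitFun fun K => c' K - c K) {s : ℝ} (hs : 0 ≤ s) (O : Finset X) :
    fS c s ∅ O ≤ fS c' s ∅ O := by
  obtain ⟨P, hP⟩ := exists_law hc hs
  obtain ⟨Q, hQ⟩ := exists_law hd hs
  obtain ⟨R, hR⟩ := exists_law hc' hs
  have hR' : IsLaw (fun K => c K + (c' K - c K)) s R := by
    have : (fun K => c K + (c' K - c K)) = c' := by ext K; ring
    rw [this]; exact hR
  have := hP.prob
  have := hQ.prob
  have := hR.prob
  have h := hP.superpose' hQ hR'
  rw [← hP.loc, ← hR.loc]
  have h2 : P (locSet ∅ O) ≤ R (locSet ∅ O) := by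
    rw [← h, Measure.map_apply measurable_union (measurableSet_locSet ∅ O)]
    calc P (locSet ∅ O) = (P.prod Q) (locSet ∅ O ×ˢ Set.univ) := by
          rw [Measure.prod_prod, measure_univ, mul_one]
      _ ≤ _ := by
          refine measure_mono ?_
          rintro ⟨I, J⟩ h
          refine ⟨by simp, fun x hx => Or.inl (h.1.2 x hx)⟩
  exact ENNReal.toReal_mono (measure_ne_top _ _) h2

theorem fS_cond (c : Finset X → ℝ) (s : ℝ) (A O : Finset X) :
    fS c s A O = Real.exp (-(s * c A)) * fS (condF c A) s ∅ O := by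
  unfold fS
  rw [mul_sum]
  refine sum_congr rfl fun B _ => ?_
  unfold condF
  rw [mul_left_comm, ← Real.exp_add]
  congr 2
  rw [empty_union, union_comm A B]
  ring

/-- Given that `A` is avoided and `O` is covered, the conditional probability that `x` is avoided
is at most `exp (- s (c (A ∪ {x}) - c A))`. -/
theorem IsLaw.loc_insert_le {c : Finset X → ℝ} (hc : HitFun c) {s : ℝ} (hs : 0 ≤ s)
    {P : Measure (Set X)} (hP : IsLaw c s P) (x : X) (A O : Finset X) :
    P.real (locSet (insert x A) O) ≤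
      Real.exp (-(s * (c (insert x A) - c A))) * P.real (locSet A O) := by
  rw [hP.loc, hP.loc, fS_cond c s (insert x A) O, fS_cond c s A O, ← mul_assoc, ← Real.exp_add]
  have h1 : -(s * (c (insert x A) - c A)) + -(s * c A) = -(s * c (insert x A)) := by ring
  rw [h1]
  exact mul_le_mul_of_nonneg_left (fS_mono (hc.cond _) (hc.cond _) (hc.cond_diff A x) hs O)
    (Real.exp_pos _).le

theorem hitFun_card : HitFun fun K : Finset X => (K.card : ℝ) := by
  refine fun K => ⟨fun T => if T.card = 1 then 1 else 0, fun T => by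
    simp only; split_ifs <;> norm_num, fun A hA => ?_⟩
  rw [← sum_filter, filter_filter]
  have : (K.powerset.filter fun T => (T ∩ A).Nonempty ∧ T.card = 1) = A.image fun x => {x} := by
    ext T
    simp only [mem_filter, mem_powerset, mem_image]
    constructor
    · rintro ⟨h1, ⟨y, hy⟩, h3⟩
      obtain ⟨x, rfl⟩ := card_eq_one.1 h3
      rw [mem_inter, mem_singleton] at hy
      exact ⟨x, hy.1 ▸ hy.2, rfl⟩
    · rintro ⟨x, hx, rfl⟩
      exact ⟨singleton_subset_iff.2 (hA hx), ⟨x, by simp [hx]⟩, card_singleton x⟩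
  simp only [this]
  rw [sum_const, card_image_of_injective _ singleton_injective]
  simp

end Run7.h485
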