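import Pool.Agent.Run7.h485.Long

/-!
# The contact part of the interaction with a fixed set: transition estimates
-/

namespace Run7.h485

open Finset
open Pool.Agent.H282R3.RW (V Dir vec nsq nsq_nonneg)

noncomputable section

variable {d : ℕ} [NeZero d]

/-- `ℓ¹` distance -/
def ell (y z : V d) : ℕ := ∑ i, (y i - z i).natAbs

omit [NeZero d] in
theorem ell_self (y : V d) : ell y y = 0 := by simp [ell]

omit [NeZero d] in
theorem ell_eq_zero {y z : V d} (h : ell y z = 0) : y = z := by
  unfold ell at h
  rw [sum_eq_zero_iff] at h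
  ext i
  have := h i (mem_univ i)
  omega

omit [NeZero d] in
theorem card_ne_le_ell (y z : V d) : (univ.filter fun i => y i ≠ z i).card ≤ ell y z := by
  unfold ell
  rw [card_filter]
  refine sum_le_sum fun i _ => ?_
  split_ifs with h
  · have : y i - z i ≠ 0 := sub_ne_zero.2 h
    omega
  · omega

theorem nsqp_le_ell (y z : V d) : nsqp (y - z) ≤ (ell y z : ℝ) ^ 2 := by
  have h1 : nsqp (y - z) ≤ nsq (y - z) := by
    rw [nsq_eq]; have := sq_nonneg (((y - z) 0 : ℤ) : ℝ); linarith
  refine h1.trans ?_
  unfold nsq ell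
  push_cast
  have h2 : ∀ i : Fin d, (((y - z) i : ℤ) : ℝ) ^ 2 = (((y i - z i).natAbs : ℕ) : ℝ) ^ 2 := by
    intro i
    have : (((y i - z i).natAbs : ℕ) : ℝ) = |(((y i - z i : ℤ)) : ℝ)| := by
      rw [Nat.cast_natAbs, Int.cast_abs]
    rw [this, sq_abs]
    simp
  rw [sum_congr rfl fun i _ => h2 i]
  exact sum_sq_le_sq_sum_of_nonneg fun i _ => Nat.cast_nonneg _

/-- the indicator of a position -/
def ind0 (z : V d) (s : St d) : ℝ := if s.2 = z then 1 else 0

theorem ind0_nonneg (z : V d) (s : St d) : 0 ≤ ind0 z s := by unfold ind0; split_ifs <;> norm_num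

/-- the in-block bound for the probability to be at `z` after `j` steps -/
def pin (δ : ℝ) (j : ℕ) (s : St d) (z : V d) : ℝ :=
  if (∀ i ∈ s.1, s.2 i = z i) ∧ ell s.2 z = j then (j.factorial : ℝ) * δ ^ j else 0

theorem pin_nonneg {δ : ℝ} (hδ : 0 ≤ δ) (j : ℕ) (s : St d) (z : V d) : 0 ≤ pin δ j s z := by
  unfold pin; split_ifs <;> positivity

theorem pin_le {δ : ℝ} (hδ : 0 ≤ δ) (j : ℕ) (s : St d) (z : V d) :
    pin δ j s z ≤ (j.factorial : ℝ) * δ ^ j := by
  unfold pin; split_ifs
  · exact le_rfl
  · positivity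

omit [NeZero d] in
theorem ell_step {y z : V d} {i : Fin d} {b : Bool} (h : (y + vec (i, b)) i = z i) :
    ell y z = ell (y + vec (i, b)) z + 1 := by
  unfold ell
  rw [← add_sum_erase univ _ (mem_univ i), ← add_sum_erase univ (fun k => ((y + vec (i, b)) k - z k).natAbs) (mem_univ i)]
  have h1 : ∑ k ∈ univ.erase i, (y k - z k).natAbs =
      ∑ k ∈ univ.erase i, ((y + vec (i, b)) k - z k).natAbs := by
    refine sum_congr rfl fun k hk => ?_
    rw [mem_erase] at hk
    have : (y + vec (i, b)) k = y k := by simp [vec, hk.1]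
    rw [this]
  rw [h1]
  have h2 : ((y + vec (i, b)) i - z i).natAbs = 0 := by rw [h]; simp
  have h3 : (y i - z i).natAbs = 1 := by
    have : (y + vec (i, b)) i = y i + (if b then 1 else -1) := by simp [vec]
    rw [this] at h
    cases b <;> simp at h <;> omega
  rw [h2, h3]
  ring

theorem in_block {M : ℕ} (hM : M + 1 < d) {δ : ℝ} (hδ : δ = 1 / (2 * ((d : ℝ) - (M + 1)))) (z : V d)
    (j : ℕ) : ∀ {s : St d}, Valid M s → s.1.card + j ≤ M + 1 → Ti M j (ind0 z) s ≤ pin δ j s z := by
  have hdM : (0 : ℝ) < (d : ℝ) - (M + 1) := by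
    have : ((M + 1 : ℕ) : ℝ) < d := by exact_mod_cast hM
    push_cast at this
    linarith
  have hδ0 : 0 < δ := by rw [hδ]; positivity
  induction j with
  | zero =>
    intro s hs _
    change (if s.2 = z then (1 : ℝ) else 0) ≤ _
    unfold pin
    by_cases h : s.2 = z
    · rw [if_pos h, if_pos ⟨fun i _ => by rw [h], by rw [h, ell_self]⟩]
      simp
    · rw [if_neg h]
      split_ifs <;> simp
  | succ j ih =>
    rintro ⟨U, y⟩ hs hj
    simp only at hj
    have hU : U.card ≤ M := by omega
    have hw : ∀ e : Dir d, wt1 M (U, y) e * Ti M j (ind0 z) (nxt M (U, y) e) ≤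
        if e.1 ∉ U ∧ (∀ i ∈ U, y i = z i) ∧ ell y z = j + 1 ∧ (y + vec e) e.1 = z e.1 then
          δ * ((j.factorial : ℝ) * δ ^ j) else 0 := by
      rintro ⟨i, b⟩
      by_cases hi : i ∈ U
      · have : wt1 M (U, y) (i, b) = 0 := by unfold wt1; simp [hU, hi]
        rw [this, zero_mul]
        split_ifs <;> positivity
      · have hw1 : wt1 M (U, y) (i, b) ≤ δ := by
          unfold wt1
          simp only [hU, hi, if_true, if_false]
          rw [hδ]
          refine one_div_le_one_div_of_le (by positivity) ?_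
          have : ((U.card : ℕ) : ℝ) ≤ M := by exact_mod_cast hU
          linarith
        have hcard : (nxt M (U, y) (i, b)).1.card = U.card + 1 := by
          unfold nxt
          simp only [hU, if_true]
          exact card_insert_of_notMem hi
        have hn1 : (nxt M (U, y) (i, b)).1 = insert i U := by unfold nxt; simp [hU]
        have hn2 : (nxt M (U, y) (i, b)).2 = y + vec (i, b) := rfl
        have hih := ih (nxt_valid hs (i, b)) (by rw [hcard]; omega)
        have hw0 := wt1_nonneg hM (U, y) (i, b)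
        refine (mul_le_mul_of_nonneg_left hih hw0).trans ?_
        refine (mul_le_mul_of_nonneg_right hw1 (pin_nonneg hδ0.le _ _ _)).trans ?_
        unfold pin
        rw [hn1, hn2]
        by_cases hc : (∀ i' ∈ insert i U, (y + vec (i, b)) i' = z i') ∧ ell (y + vec (i, b)) z = j
        · have h1 : (y + vec (i, b)) i = z i := hc.1 i (mem_insert_self _ _)
          have h2 : ∀ i' ∈ U, y i' = z i' := by
            intro i' hi'
            have h3 := hc.1 i' (mem_insert_of_mem hi')
            have hne : i' ≠ i := fun h => hi (h ▸ hi')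
            simpa [vec, hne] using h3
          have h3 : ell y z = j + 1 := by rw [ell_step h1, hc.2]
          rw [if_pos hc, if_pos ⟨hi, h2, h3, h1⟩]
        · rw [if_neg hc, mul_zero]
          split_ifs <;> positivity
    change ∑ e, wt1 M (U, y) e * Ti M j (ind0 z) (nxt M (U, y) e) ≤ _
    refine (sum_le_sum fun e _ => hw e).trans ?_
    unfold pin
    by_cases hc : (∀ i ∈ U, y i = z i) ∧ ell y z = j + 1
    · rw [if_pos hc]
      rw [← sum_filter, sum_const, nsmul_eq_mul]
      have hcount : ((univ.filter fun e : Dir d => e.1 ∉ U ∧ (∀ i ∈ U, y i = z i) ∧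
          ell y z = j + 1 ∧ (y + vec e) e.1 = z e.1).card : ℝ) ≤ j + 1 := by
        have h1 : (univ.filter fun e : Dir d => e.1 ∉ U ∧ (∀ i ∈ U, y i = z i) ∧
          ell y z = j + 1 ∧ (y + vec e) e.1 = z e.1).card ≤ (univ.filter fun i => y i ≠ z i).card := by
          refine card_le_card_of_injOn (fun e => e.1) ?_ ?_
          · rintro ⟨i, b⟩ he
            simp only [coe_filter, mem_univ, true_and, Set.mem_ofPred_eq] at he ⊢
            intro h
            have h2 := he.2.2.2
            have : (y + vec (i, b)) i = y i + (if b then 1 else -1) := by simp [vec]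
            rw [this, h] at h2
            cases b <;> simp at h2
          · rintro ⟨i, b⟩ he ⟨i', b'⟩ he' h
            simp only at h
            subst h
            simp only [coe_filter, mem_univ, true_and, Set.mem_ofPred_eq] at he he'
            have h2 := he.2.2.2.trans he'.2.2.2.symm
            have e1 : (y + vec (i, b)) i = y i + (if b then 1 else -1) := by simp [vec]
            have e2 : (y + vec (i, b')) i = y i + (if b' then 1 else -1) := by simp [vec]
            rw [e1, e2] at h2
            cases b <;> cases b' <;> simp at h2 ⊢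
        have h2 := h1.trans ((card_ne_le_ell y z).trans hc.2.le)
        exact_mod_cast h2
      calc _ ≤ ((j : ℝ) + 1) * (δ * ((j.factorial : ℝ) * δ ^ j)) :=
            mul_le_mul_of_nonneg_right hcount (by positivity)
        _ = ((j + 1).factorial : ℝ) * δ ^ (j + 1) := by
            rw [Nat.factorial_succ]; push_cast; ring
    · rw [if_neg hc]
      refine sum_nonpos fun e _ => ?_
      rw [if_neg]
      rintro ⟨-, h1, h2, -⟩
      exact hc ⟨h1, h2⟩

theorem T_time {M : ℕ} {s : St d} (h : s.1.card = M + 1) (f : St d → ℝ) :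
    T M f s = f ({0}, s.2 + vec (0, true)) := by
  have hU : ¬ s.1.card ≤ M := by omega
  unfold T
  rw [sum_eq_single (0, true)]
  · unfold wt1 nxt
    simp [hU]
  · intro e _ he
    unfold wt1
    simp [hU, he]
  · intro h; exact absurd (mem_univ _) h

/-- after the end of the block -/
theorem next_block {M : ℕ} (hM : M + 1 < d) {δ : ℝ} (hδ : δ = 1 / (2 * ((d : ℝ) - (M + 1)))) (z : V d)
    {a : ℕ} {s : St d} (hs : Valid M s) (ha : s.1.card + a = M + 1) :
    Ti M (a + 1) (ind0 z) s ≤ pin δ a s (z - vec (0, true)) := by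
  rw [Ti_succ']
  refine le_trans ?_ (in_block hM hδ (z - vec (0, true)) a hs (by omega))
  refine Ti_mono_phase hM a hs fun s' _ hc => ?_
  rw [cd_block M a _ ha] at hc
  rw [T_time hc]
  unfold ind0
  simp only
  by_cases h : s'.2 + vec (0, true) = z
  · rw [if_pos h, if_pos (eq_sub_of_add_eq h)]
  · rw [if_neg h, if_neg (fun h' => h (by rw [h', sub_add_cancel]))]

/-- the constant of a full block -/
def CM (δ : ℝ) (M : ℕ) : ℝ := (M.factorial : ℝ) * δ ^ M * ((M : ℝ) ^ 2 + 1) ^ 2

/-- after at least one full block -/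
theorem far_block {M : ℕ} (hM1 : 1 ≤ M) (hMd : M + 84 ≤ d) {δ : ℝ}
    (hδ : δ = 1 / (2 * ((d : ℝ) - (M + 1)))) (z : V d)
    {a : ℕ} {s : St d} (hs : Valid M s) (ha : s.1.card + a = M + 1) (n : ℕ) :
    Ti M (a + 1 + (n + 1) * (M + 1)) (ind0 z) s ≤
      2 * CM δ M * ((1 + ((n : ℝ) + 1) / 4) ^ 2)⁻¹ := by
  have hM : M + 1 < d := by omega
  have hdM : (0 : ℝ) < (d : ℝ) - (M + 1) := by
    have : ((M + 1 : ℕ) : ℝ) < d := by exact_mod_cast hM
    push_cast at this
    linarith
  have hδ0 : 0 < δ := by rw [hδ]; positivity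
  have hCM : 0 ≤ CM δ M := by unfold CM; positivity
  set z' := z - vec (0, true) with hz'
  have h0 : a + 1 + (n + 1) * (M + 1) = (a + 1 + n * (M + 1)) + (M + 1) := by ring
  rw [h0, Ti_add]
  set j := a + 1 + n * (M + 1) with hj
  have h1 : Ti M j (Ti M (M + 1) (ind0 z)) s ≤
      Ti M j (fun s => CM δ M * (1 * ((nsqp (s.2 - z') + 1) ^ 2)⁻¹)) s := by
    refine Ti_mono_phase hM j hs fun s' hs' hc => ?_
    rw [hj, cd_start_full M ha] at hc
    refine (next_block hM hδ z hs' (by rw [hc]; omega)).trans ?_
    rw [← hz']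
    unfold pin CM
    have hnn := nsqp_nonneg (s'.2 - z')
    split_ifs with h
    · rw [mul_assoc]
      refine le_mul_of_one_le_right (by positivity) ?_
      rw [one_mul, ← div_eq_mul_inv, one_le_div (by positivity)]
      refine pow_le_pow_left₀ (by positivity) ?_ 2
      have := nsqp_le_ell s'.2 z'
      rw [h.2] at this
      linarith
    · positivity
  refine h1.trans ?_
  rw [Ti_const_mul]
  have h2 := Ti_decay hM1 hMd (g := fun _ => 1) (fun _ => by norm_num) z' j hs
  calc CM δ M * _ ≤ CM δ M * (2 * (1 * ((nsqp (s.2 - z') + 1 + (j : ℝ) / 4) ^ 2)⁻¹)) :=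
        mul_le_mul_of_nonneg_left h2 hCM
    _ ≤ CM δ M * (2 * (1 * ((1 + ((n : ℝ) + 1) / 4) ^ 2)⁻¹)) := by
        refine mul_le_mul_of_nonneg_left ?_ hCM
        refine mul_le_mul_of_nonneg_left ?_ (by norm_num)
        refine mul_le_mul_of_nonneg_left ?_ (by norm_num)
        have := nsqp_nonneg (s.2 - z')
        refine inv_anti₀ (by positivity) (pow_le_pow_left₀ (by positivity) ?_ 2)
        have h3 : n + 1 ≤ j := by rw [hj]; nlinarith
        have h4 : (n : ℝ) + 1 ≤ j := by exact_mod_cast h3
        linarith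
    _ = _ := by ring

/-- the `0`-th coordinate is deterministic -/
theorem Ti_slab {M : ℕ} (j : ℕ) (h : ℤ → ℝ) (f : St d → ℝ) :
    ∀ {s : St d}, Valid M s → Ti M j (fun s => h (s.2 0) * f s) s =
      h (s.2 0 + nt M j s.1.card) * Ti M j f s := by
  induction j with
  | zero => intro s _; simp [Ti, nt]
  | succ j ih =>
    intro s hs
    change ∑ e, wt1 M s e * Ti M j _ (nxt M s e) = _ * ∑ e, wt1 M s e * Ti M j f (nxt M s e)
    rw [mul_sum]
    refine sum_congr rfl fun e _ => ?_
    by_cases h0 : wt1 M s e = 0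
    · simp [h0]
    · rw [ih (nxt_valid hs e)]
      have hkey : (nxt M s e).2 0 + nt M j (nxt M s e).1.card = s.2 0 + nt M (j + 1) s.1.card := by
        rw [card_nxt h0]
        have hn : (nxt M s e).2 = s.2 + vec e := rfl
        rw [hn]
        unfold wt1 at h0
        by_cases hU : s.1.card ≤ M
        · rw [if_pos hU] at h0
          have he : e.1 ∉ s.1 := by
            intro h'; rw [if_pos h'] at h0; exact h0 rfl
          have he0 : e.1 ≠ 0 := fun h' => he (h' ▸ hs.1)
          have : (s.2 + vec e) 0 = s.2 0 := by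
            obtain ⟨i, b⟩ := e
            simp [vec, Ne.symm he0]
          rw [this]
          simp [nt, hU]
        · rw [if_neg hU] at h0
          have he : e = (0, true) := by
            by_contra h'; rw [if_neg h'] at h0; exact h0 rfl
          have : (s.2 + vec e) 0 = s.2 0 + 1 := by
            rw [he]; simp [vec]
          rw [this]
          simp [nt, hU]
          ring
      rw [hkey]
      ring

/-- the sum of a function over the time after the present block, in blocks -/
theorem sum_blocks {M : ℕ} (hM : M + 1 < d) {f : St d → ℝ} (hf : ∀ s, Valid M s → 0 ≤ f s)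
    {s : St d} (hs : Valid M s) (a k : ℕ) :
    ∑ j ∈ range k, Ti M (j + 1) f s ≤ ∑ j ∈ range a, Ti M (j + 1) f s +
      ∑ n ∈ range k, Ti M (a + 1 + n * (M + 1)) (fun s => ∑ m ∈ range (M + 1), Ti M m f s) s := by
  have h1 : ∑ j ∈ range k, Ti M (j + 1) f s ≤ ∑ j ∈ range (a + k * (M + 1)), Ti M (j + 1) f s := by
    refine sum_le_sum_of_subset_of_nonneg (range_mono ?_) fun j _ _ => Ti_nonneg hM hf _ hs
    nlinarith
  refine h1.trans (le_of_eq ?_)
  rw [sum_range_add]
  congr 1
  induction k with
  | zero => simp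
  | succ k ih =>
    rw [Nat.succ_mul, sum_range_add, ih (by
      refine sum_le_sum_of_subset_of_nonneg (range_mono ?_) fun j _ _ => Ti_nonneg hM hf _ hs
      nlinarith)]
    conv_rhs => rw [sum_range_succ]
    congr 1
    rw [Ti_sum]
    refine sum_congr rfl fun m _ => ?_
    rw [← Ti_add]
    congr 1
    ring

end

end Run7.h485
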