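import Pool.Agent.Run7.h485.Contact

/-!
# The contact part of the interaction with a fixed set: the bound
-/

namespace Run7.h485

open Finset
open Pool.Agent.H282R3.RW (V Dir vec nsq nsq_nonneg)

noncomputable section

/-- numerical hypotheses -/
structure Num (d M : ℕ) (δ Λ ρ r A W x : ℝ) : Prop where
  hM2 : 2 ≤ M
  hMd : M + 84 ≤ d
  h2 : 2 * (M + 1) ≤ d
  hδ : δ = 1 / (2 * ((d : ℝ) - (M + 1)))
  hρ : ρ = Λ * δ
  hr0 : 0 < r
  hr1 : r ≤ 1
  hx : x = δ / r
  hΛ : 1 ≤ Λ
  hA : 1 ≤ A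
  hW : W = 8 * (M + 1) * Λ * (A + 1)
  h4 : 4 * ((M : ℝ) + 1) * x ≤ 1
  hx2 : 3200 * x ^ 2 ≤ 1
  H1 : 1 + 3220 * ((M : ℝ) + 1) * Λ * (A + 1) * x ^ 2 ≤ (1 - ρ) * A
  H2 : 1 ≤ Λ * (r - ρ - 8 * Λ * ((M : ℝ) + 1) * x ^ 2)
  H3 : W * r ^ (M - 1) ≤ 1

theorem fact_one {M : ℕ} {x : ℝ} (hx : 0 ≤ x) (h4 : 4 * ((M : ℝ) + 1) * x ≤ 1) {m : ℕ} (h2 : 2 ≤ m) :
    m ≤ M → (m.factorial : ℝ) * x ^ m * ((m : ℝ) ^ 2 + 1) ^ 2 ≤ 50 * x ^ 2 := by
  induction m, h2 using Nat.le_induction with
  | base =>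
    intro _
    norm_num [Nat.factorial]
    nlinarith [sq_nonneg x]
  | succ m hm ih =>
    intro hmM
    have hi := ih (by omega)
    have hm' : (2 : ℝ) ≤ m := by exact_mod_cast hm
    have hmM' : (m : ℝ) + 1 ≤ M := by exact_mod_cast hmM
    have h1 : (((m : ℝ) + 1) ^ 2 + 1) ^ 2 ≤ 4 * ((m : ℝ) ^ 2 + 1) ^ 2 := by
      have : ((m : ℝ) + 1) ^ 2 + 1 ≤ 2 * ((m : ℝ) ^ 2 + 1) := by nlinarith
      calc (((m : ℝ) + 1) ^ 2 + 1) ^ 2 ≤ (2 * ((m : ℝ) ^ 2 + 1)) ^ 2 :=
            pow_le_pow_left₀ (by positivity) this 2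
        _ = _ := by ring
    have h3 : 4 * ((m : ℝ) + 1) * x ≤ 1 := by
      have : 4 * ((m : ℝ) + 1) * x ≤ 4 * ((M : ℝ) + 1) * x :=
        mul_le_mul_of_nonneg_right (by linarith) hx
      linarith
    rw [Nat.factorial_succ, pow_succ]
    push_cast
    calc ((m : ℝ) + 1) * m.factorial * (x ^ m * x) * (((m : ℝ) + 1) ^ 2 + 1) ^ 2
        ≤ ((m : ℝ) + 1) * m.factorial * (x ^ m * x) * (4 * ((m : ℝ) ^ 2 + 1) ^ 2) :=
          mul_le_mul_of_nonneg_left h1 (by positivity)
      _ = (4 * ((m : ℝ) + 1) * x) * (m.factorial * x ^ m * ((m : ℝ) ^ 2 + 1) ^ 2) := by ring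
      _ ≤ 1 * (50 * x ^ 2) := mul_le_mul h3 hi (by positivity) (by norm_num)
      _ = _ := one_mul _

theorem fact_two {M : ℕ} {x : ℝ} (hx : 0 ≤ x) (h4 : 4 * ((M : ℝ) + 1) * x ≤ 1) {m : ℕ} :
    m + 2 ≤ M → ((m + 2).factorial : ℝ) * x ^ (m + 2) ≤ 2 * x ^ 2 * (1 / 2) ^ m := by
  induction m with
  | zero => intro _; norm_num [Nat.factorial]
  | succ m ih =>
    intro hmM
    have hi := ih (by omega)
    have hmM' : (m : ℝ) + 3 ≤ M := by exact_mod_cast hmM
    have h3 : ((m : ℝ) + 3) * x ≤ 1 / 2 := by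
      have : ((m : ℝ) + 3) * x ≤ ((M : ℝ) + 1) * x :=
        mul_le_mul_of_nonneg_right (by linarith) hx
      linarith
    rw [show m + 1 + 2 = (m + 2) + 1 by ring, Nat.factorial_succ, pow_succ]
    push_cast
    calc ((m : ℝ) + 2 + 1) * (m + 2).factorial * (x ^ (m + 2) * x)
        = (((m : ℝ) + 3) * x) * ((m + 2).factorial * x ^ (m + 2)) := by ring
      _ ≤ 1 / 2 * (2 * x ^ 2 * (1 / 2) ^ m) := mul_le_mul h3 hi (by positivity) (by norm_num)
      _ = _ := by ring

theorem fact_sum {M : ℕ} {x : ℝ} (hx : 0 ≤ x) (h4 : 4 * ((M : ℝ) + 1) * x ≤ 1) {a : ℕ} (ha : a + 1 ≤ M) :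
    ∑ j ∈ range a, ((j + 2).factorial : ℝ) * x ^ (j + 2) ≤ 4 * x ^ 2 := by
  calc ∑ j ∈ range a, ((j + 2).factorial : ℝ) * x ^ (j + 2)
      ≤ ∑ j ∈ range a, 2 * x ^ 2 * (1 / 2) ^ j := by
        refine sum_le_sum fun j hj => fact_two hx h4 ?_
        rw [mem_range] at hj
        omega
    _ = 2 * x ^ 2 * ∑ j ∈ range a, (1 / 2 : ℝ) ^ j := by rw [mul_sum]
    _ ≤ 2 * x ^ 2 * 2 := by
        refine mul_le_mul_of_nonneg_left ?_ (by positivity)
        have := sum_geometric_two_le a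
        simpa using this
    _ = _ := by ring

variable {d : ℕ} [NeZero d]

/-- the number of free directions which lead to `γ` -/
def nu (γ : Finset (V d)) (s : St d) : ℝ :=
  ((univ.filter fun e : Dir d => e.1 ∉ s.1 ∧ s.2 + vec e ∈ γ).card : ℝ)

/-- the weight of a contact state -/
def wgt (M : ℕ) (A W r : ℝ) (γ : Finset (V d)) (s : St d) : ℝ :=
  (A + W * r ^ (M + 1 - s.1.card)) * max 1 (nu γ s)

/-- the contact potential -/
def zc (Λ : ℝ) (γ : Finset (V d)) (s : St d) : ℝ := if s.2 ∈ γ then Λ else 0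

theorem nu_le_two {M : ℕ} {γ : Finset (V d)}
    (hdeg : ∀ x ∈ γ, (univ.filter fun e : Dir d => e.1 ≠ 0 ∧ x + vec e ∈ γ).card ≤ 2) {s : St d}
    (hs : Valid M s) (h : s.2 ∈ γ) : nu γ s ≤ 2 := by
  unfold nu
  have : (univ.filter fun e : Dir d => e.1 ∉ s.1 ∧ s.2 + vec e ∈ γ).card ≤ 2 := by
    refine le_trans (card_le_card ?_) (hdeg s.2 h)
    intro e he
    simp only [mem_filter, mem_univ, true_and] at he ⊢
    exact ⟨fun h0 => he.1 (h0 ▸ hs.1), he.2⟩
  exact_mod_cast this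

theorem nu_next {M : ℕ} {γ : Finset (V d)}
    (hdeg : ∀ x ∈ γ, (univ.filter fun e : Dir d => e.1 ≠ 0 ∧ x + vec e ∈ γ).card ≤ 2) {s : St d}
    (hs : Valid M s) (h : s.2 ∈ γ) (hU : s.1.card ≤ M) {e : Dir d} (he : e.1 ∉ s.1)
    (h' : s.2 + vec e ∈ γ) : nu γ (nxt M s e) ≤ 1 := by
  classical
  unfold nu
  have hn1 : (nxt M s e).1 = insert e.1 s.1 := by unfold nxt; simp [hU]
  have hn2 : (nxt M s e).2 = s.2 + vec e := rfl
  rw [hn1, hn2]
  obtain ⟨i, b⟩ := e
  have hi0 : i ≠ 0 := fun h0 => he (h0 ▸ hs.1)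
  set F := univ.filter fun e : Dir d => e.1 ≠ 0 ∧ s.2 + vec (i, b) + vec e ∈ γ with hF
  have hmem : (i, !b) ∈ F := by
    rw [hF, mem_filter]
    refine ⟨mem_univ _, hi0, ?_⟩
    rw [vec_flip, add_assoc, add_neg_cancel, add_zero]
    exact h
  have hsub : (univ.filter fun e : Dir d => e.1 ∉ insert i s.1 ∧ s.2 + vec (i, b) + vec e ∈ γ) ⊆
      F.erase (i, !b) := by
    intro e he'
    simp only [mem_filter, mem_univ, true_and, mem_insert, not_or] at he'
    rw [mem_erase, hF, mem_filter]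
    refine ⟨fun h0 => he'.1.1 (by rw [h0]), mem_univ _, fun h0 => he'.1.2 (h0 ▸ hs.1), he'.2⟩
  have h1 := card_le_card hsub
  rw [card_erase_of_mem hmem] at h1
  have h2 : F.card ≤ 2 := hdeg _ h'
  have : (univ.filter fun e : Dir d => e.1 ∉ insert i s.1 ∧ s.2 + vec (i, b) + vec e ∈ γ).card ≤ 1 := by
    omega
  exact_mod_cast this

theorem cd_inblock (M : ℕ) : ∀ (j u : ℕ), u + j ≤ M + 1 → cd M j u = u + j := by
  intro j
  induction j with
  | zero => intro u _; rfl
  | succ j ih =>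
    intro u h
    have : u ≤ M := by omega
    simp only [cd, this, if_true]
    rw [ih _ (by omega)]
    ring

theorem nt_inblock (M : ℕ) : ∀ (j u : ℕ), u + j ≤ M + 1 → nt M j u = 0 := by
  intro j
  induction j with
  | zero => intro u _; rfl
  | succ j ih =>
    intro u h
    have : u ≤ M := by omega
    simp only [nt, this, if_true]
    exact ih _ (by omega)

theorem ell_eq_one {y z : V d} (h : ell y z = 1) : ∃ e : Dir d, y = z + vec e := by
  obtain ⟨i, hi⟩ : ∃ i, y i ≠ z i := by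
    by_contra hne
    push Not at hne
    rw [funext hne, ell_self] at h
    omega
  have h1 : (y i - z i).natAbs + ∑ k ∈ univ.erase i, (y k - z k).natAbs = 1 := by
    rw [add_sum_erase univ (fun k => (y k - z k).natAbs) (mem_univ i)]
    exact h
  have h2 : 0 < (y i - z i).natAbs := by
    have : y i - z i ≠ 0 := sub_ne_zero.2 hi
    omega
  have h3 : ∑ k ∈ univ.erase i, (y k - z k).natAbs = 0 := by omega
  rw [sum_eq_zero_iff] at h3
  have h4 : (y i - z i).natAbs = 1 := by omega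
  rcases Int.natAbs_eq (y i - z i) with h5 | h5
  · refine ⟨(i, true), ?_⟩
    ext k
    by_cases hk : k = i
    · subst hk; simp [vec]; omega
    · have := h3 k (mem_erase.2 ⟨hk, mem_univ _⟩)
      simp [vec, hk]; omega
  · refine ⟨(i, false), ?_⟩
    ext k
    by_cases hk : k = i
    · subst hk; simp [vec]; omega
    · have := h3 k (mem_erase.2 ⟨hk, mem_univ _⟩)
      simp [vec, hk]; omega

/-- sums over the present slab -/
theorem slab_sum {M : ℕ} {γ : Finset (V d)}
    (hγ : ∀ t : ℤ, (γ.filter fun x => x 0 = t).card ≤ M + 1) (j : ℕ) {s : St d} (hs : Valid M s)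
    (F : V d → St d → ℝ) {κ : ℝ} (hκ : 0 ≤ κ) (hF : ∀ z, Ti M j (F z) s ≤ κ) :
    Ti M j (fun s' => ∑ z ∈ γ, (if s'.2 0 = z 0 then 1 else 0) * F z s') s ≤ (M + 1) * κ := by
  rw [Ti_sum]
  have h1 : ∀ z ∈ γ, Ti M j (fun s' => (if s'.2 0 = z 0 then 1 else 0) * F z s') s =
      (if s.2 0 + nt M j s.1.card = z 0 then 1 else 0) * Ti M j (F z) s := fun z _ =>
    Ti_slab j (fun t => if t = z 0 then 1 else 0) (F z) hs
  rw [sum_congr rfl h1]
  calc ∑ z ∈ γ, (if s.2 0 + nt M j s.1.card = z 0 then 1 else 0) * Ti M j (F z) s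
      ≤ ∑ z ∈ γ, (if s.2 0 + nt M j s.1.card = z 0 then 1 else 0) * κ := by
        refine sum_le_sum fun z _ => mul_le_mul_of_nonneg_left (hF z) ?_
        split_ifs <;> norm_num
    _ = ((γ.filter fun z => s.2 0 + nt M j s.1.card = z 0).card : ℝ) * κ := by
        rw [← sum_mul, card_filter]
        push_cast
        rfl
    _ ≤ (M + 1) * κ := by
        refine mul_le_mul_of_nonneg_right ?_ hκ
        have h2 := hγ (s.2 0 + nt M j s.1.card)
        have h3 : (γ.filter fun z => s.2 0 + nt M j s.1.card = z 0) =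
            γ.filter fun z => z 0 = s.2 0 + nt M j s.1.card := by
          ext z; simp only [mem_filter]; exact ⟨fun h => ⟨h.1, h.2.symm⟩, fun h => ⟨h.1, h.2.symm⟩⟩
        rw [h3]
        exact_mod_cast h2

section main

variable {M : ℕ} {δ Λ ρ r A W x : ℝ} {γ : Finset (V d)}

theorem Num.pos (hN : Num d M δ Λ ρ r A W x) : 0 < δ ∧ 0 < x ∧ 0 < W ∧ δ ≤ x ∧ δ = x * r := by
  have hdM : (0 : ℝ) < (d : ℝ) - (M + 1) := by
    have h1 := hN.h2
    have h3 := hN.hM2
    have : ((M + 1 : ℕ) : ℝ) < d := by exact_mod_cast (by omega : M + 1 < d)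
    push_cast at this
    linarith
  have hδ0 : 0 < δ := by rw [hN.hδ]; positivity
  have hx0 : 0 < x := by rw [hN.hx]; exact div_pos hδ0 hN.hr0
  have hΛ := hN.hΛ
  have hA := hN.hA
  have e : δ = x * r := by rw [hN.hx, div_mul_cancel₀ _ hN.hr0.ne']
  refine ⟨hδ0, hx0, by rw [hN.hW]; positivity, ?_, e⟩
  rw [e]
  exact mul_le_of_le_one_right hx0.le hN.hr1

/-- bound for the values of the weighted contact potential by indicators -/
theorem f_le (hN : Num d M δ Λ ρ r A W x)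
    (hdeg : ∀ x ∈ γ, (univ.filter fun e : Dir d => e.1 ≠ 0 ∧ x + vec e ∈ γ).card ≤ 2) {s : St d}
    (hs : Valid M s) : zc Λ γ s * wgt M A W r γ s ≤
      2 * Λ * (A + W * r ^ (M + 1 - s.1.card)) *
        ∑ z ∈ γ, (if s.2 0 = z 0 then 1 else 0) * ind0 z s := by
  obtain ⟨-, -, hW0, -, -⟩ := hN.pos
  have hΛ := hN.hΛ
  have hA := hN.hA
  have hr0 := hN.hr0
  have hv : 0 ≤ A + W * r ^ (M + 1 - s.1.card) := by positivity
  unfold zc wgt
  by_cases h : s.2 ∈ γ
  · rw [if_pos h]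
    have h1 : (1 : ℝ) ≤ ∑ z ∈ γ, (if s.2 0 = z 0 then 1 else 0) * ind0 z s := by
      refine le_trans ?_ (single_le_sum (f := fun z => (if s.2 0 = z 0 then (1 : ℝ) else 0) * ind0 z s)
        (fun z _ => mul_nonneg (by split_ifs <;> norm_num) (ind0_nonneg z s)) h)
      simp [ind0]
    have h2 : max 1 (nu γ s) ≤ 2 := max_le (by norm_num) (nu_le_two hdeg hs h)
    calc Λ * ((A + W * r ^ (M + 1 - s.1.card)) * max 1 (nu γ s))
        ≤ Λ * ((A + W * r ^ (M + 1 - s.1.card)) * 2) := by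
          refine mul_le_mul_of_nonneg_left ?_ (by linarith)
          exact mul_le_mul_of_nonneg_left h2 hv
      _ = 2 * Λ * (A + W * r ^ (M + 1 - s.1.card)) * 1 := by ring
      _ ≤ _ := mul_le_mul_of_nonneg_left h1 (by positivity)
  · rw [if_neg h, zero_mul]
    refine mul_nonneg (by positivity) (sum_nonneg fun z _ => mul_nonneg ?_ (ind0_nonneg z s))
    split_ifs <;> norm_num

/-- the first step -/
theorem first_step (hN : Num d M δ Λ ρ r A W x)
    (hdeg : ∀ x ∈ γ, (univ.filter fun e : Dir d => e.1 ≠ 0 ∧ x + vec e ∈ γ).card ≤ 2) {s : St d}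
    (hs : Valid M s) (h : s.2 ∈ γ) (hU : s.1.card ≤ M) :
    T M (fun s => zc Λ γ s * wgt M A W r γ s) s ≤ ρ * (A + W * r ^ (M - s.1.card)) * nu γ s := by
  obtain ⟨hδ0, hx0, hW0, -, -⟩ := hN.pos
  have hΛ := hN.hΛ
  have hA := hN.hA
  have hr0 := hN.hr0
  have hM : M + 1 < d := by have := hN.hMd; omega
  have hdM : (0 : ℝ) < (d : ℝ) - (M + 1) := by
    have : ((M + 1 : ℕ) : ℝ) < d := by exact_mod_cast hM
    push_cast at this
    linarith
  set v := A + W * r ^ (M - s.1.card) with hv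
  have hv0 : 0 ≤ v := by positivity
  have hterm : ∀ e, wt1 M s e * (zc Λ γ (nxt M s e) * wgt M A W r γ (nxt M s e)) ≤
      if e.1 ∉ s.1 ∧ s.2 + vec e ∈ γ then δ * (Λ * v) else 0 := by
    intro e
    by_cases he : e.1 ∈ s.1
    · have : wt1 M s e = 0 := by unfold wt1; simp [hU, he]
      rw [this, zero_mul]
      split_ifs <;> positivity
    · have hw1 : wt1 M s e ≤ δ := by
        unfold wt1
        simp only [hU, he, if_true, if_false]
        rw [hN.hδ]
        refine one_div_le_one_div_of_le (by positivity) ?_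
        have : ((s.1.card : ℕ) : ℝ) ≤ M := by exact_mod_cast hU
        linarith
      by_cases hg : s.2 + vec e ∈ γ
      · rw [if_pos ⟨he, hg⟩]
        have hcard : (nxt M s e).1.card = s.1.card + 1 := by
          unfold nxt
          simp only [hU, if_true]
          exact card_insert_of_notMem he
        have h1 : zc Λ γ (nxt M s e) = Λ := by
          unfold zc
          exact if_pos hg
        have h2 : wgt M A W r γ (nxt M s e) = v := by
          unfold wgt
          rw [max_eq_left (nu_next hdeg hs h hU he hg), mul_one, hcard, hv]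
          congr 3
          omega
        rw [h1, h2]
        exact mul_le_mul_of_nonneg_right hw1 (by positivity)
      · have h1 : zc Λ γ (nxt M s e) = 0 := by
          unfold zc
          exact if_neg hg
        rw [h1, zero_mul, mul_zero]
        split_ifs <;> positivity
  refine (sum_le_sum fun e _ => hterm e).trans (le_of_eq ?_)
  rw [← sum_filter, sum_const, nsmul_eq_mul, hN.hρ]
  unfold nu
  ring

/-- the other steps inside the block -/
theorem in_block_step (hN : Num d M δ Λ ρ r A W x)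
    (hγ : ∀ t : ℤ, (γ.filter fun x => x 0 = t).card ≤ M + 1)
    (hdeg : ∀ x ∈ γ, (univ.filter fun e : Dir d => e.1 ≠ 0 ∧ x + vec e ∈ γ).card ≤ 2) {s : St d}
    (hs : Valid M s) {j : ℕ} (hj : s.1.card + j ≤ M + 1) :
    Ti M j (fun s => zc Λ γ s * wgt M A W r γ s) s ≤
      2 * Λ * ((M : ℝ) + 1) * ((A + W * r ^ (M + 1 - s.1.card)) * ((j.factorial : ℝ) * x ^ j)) := by
  obtain ⟨hδ0, hx0, hW0, hδx, hxr⟩ := hN.pos
  have hΛ := hN.hΛ
  have hA := hN.hA
  have hr0 := hN.hr0
  have hM : M + 1 < d := by have := hN.hMd; omega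
  set v := A + W * r ^ (M + 1 - (s.1.card + j)) with hv
  have hv0 : 0 ≤ v := by positivity
  have h1 : Ti M j (fun s => zc Λ γ s * wgt M A W r γ s) s ≤
      Ti M j (fun s' => (2 * Λ * v) * ∑ z ∈ γ, (if s'.2 0 = z 0 then 1 else 0) * ind0 z s') s := by
    refine Ti_mono_phase hM j hs fun s' hs' hc => ?_
    rw [cd_inblock M j _ hj] at hc
    refine (f_le hN hdeg hs').trans (le_of_eq ?_)
    rw [hc, hv]
  refine h1.trans ?_
  rw [Ti_const_mul]
  have h2 := slab_sum hγ j hs (F := fun z => ind0 z) (κ := (j.factorial : ℝ) * δ ^ j)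
    (by positivity) (fun z => (in_block hM hN.hδ z j hs hj).trans (pin_le hδ0.le _ _ _))
  calc 2 * Λ * v * _ ≤ 2 * Λ * v * ((M + 1) * ((j.factorial : ℝ) * δ ^ j)) :=
        mul_le_mul_of_nonneg_left h2 (by positivity)
    _ = 2 * Λ * ((M : ℝ) + 1) * (j.factorial * (v * δ ^ j)) := by ring
    _ ≤ 2 * Λ * ((M : ℝ) + 1) * (j.factorial * ((A + W * r ^ (M + 1 - s.1.card)) * x ^ j)) := by
        refine mul_le_mul_of_nonneg_left ?_ (by positivity)
        refine mul_le_mul_of_nonneg_left ?_ (by positivity)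
        rw [hv, add_mul, add_mul]
        refine add_le_add ?_ (le_of_eq ?_)
        · exact mul_le_mul_of_nonneg_left (pow_le_pow_left₀ hδ0.le hδx j) (by linarith)
        · rw [hxr, mul_pow]
          have : r ^ (M + 1 - s.1.card) = r ^ (M + 1 - (s.1.card + j)) * r ^ j := by
            rw [← pow_add]; congr 1; omega
          rw [this]
          ring
    _ = _ := by ring

/-- the bounding function of a whole block -/
def Fb (Λ A δ x : ℝ) (z : V d) (s : St d) : ℝ :=
  2 * Λ * (A + 1) * ind0 z s + 2 * Λ * (A + 1) * δ * ∑ e : Dir d, ind0 (z + vec e) s +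
    100 * Λ * (A + 1) * x ^ 2 * (1 * ((nsqp (s.2 - z) + 1) ^ 2)⁻¹)

/-- the contacts in a whole block -/
theorem block_le (hN : Num d M δ Λ ρ r A W x)
    (hdeg : ∀ x ∈ γ, (univ.filter fun e : Dir d => e.1 ≠ 0 ∧ x + vec e ∈ γ).card ≤ 2) {s : St d}
    (hs : Valid M s) (hc : s.1.card = 1) :
    ∑ m ∈ range (M + 1), Ti M m (fun s => zc Λ γ s * wgt M A W r γ s) s ≤
      ∑ z ∈ γ, (if s.2 0 = z 0 then 1 else 0) * Fb Λ A δ x z s := by
  obtain ⟨hδ0, hx0, hW0, hδx, hxr⟩ := hN.pos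
  have hΛ := hN.hΛ
  have hA := hN.hA
  have hr0 := hN.hr0
  have hr1 := hN.hr1
  have hM2 := hN.hM2
  have hM : M + 1 < d := by have := hN.hMd; omega
  have hWr : ∀ m, m ≤ M → W * r ^ (M - m) * δ ^ m ≤ x ^ m := by
    intro m hm
    have h1 : r ^ (M - m) * r ^ m = r ^ M := by rw [← pow_add]; congr 1; omega
    have h2 : r ^ M ≤ r ^ (M - 1) := pow_le_pow_of_le_one hr0.le hr1 (by omega)
    calc W * r ^ (M - m) * δ ^ m = W * (r ^ (M - m) * r ^ m) * x ^ m := by
          rw [hxr, mul_pow]; ring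
      _ = W * r ^ M * x ^ m := by rw [h1]
      _ ≤ W * r ^ (M - 1) * x ^ m := by
          refine mul_le_mul_of_nonneg_right ?_ (by positivity)
          exact mul_le_mul_of_nonneg_left h2 hW0.le
      _ ≤ 1 * x ^ m := mul_le_mul_of_nonneg_right hN.H3 (by positivity)
      _ = x ^ m := one_mul _
  -- bound for each time
  have hterm : ∀ m ∈ range (M + 1), Ti M m (fun s => zc Λ γ s * wgt M A W r γ s) s ≤
      ∑ z ∈ γ, (if s.2 0 = z 0 then 1 else 0) *
        (2 * Λ * (A + W * r ^ (M - m)) * pin δ m s z) := by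
    intro m hm
    rw [mem_range] at hm
    have hj : s.1.card + m ≤ M + 1 := by omega
    have h1 : Ti M m (fun s => zc Λ γ s * wgt M A W r γ s) s ≤
        Ti M m (fun s' => (2 * Λ * (A + W * r ^ (M - m))) *
          ∑ z ∈ γ, (if s'.2 0 = z 0 then 1 else 0) * ind0 z s') s := by
      refine Ti_mono_phase hM m hs fun s' hs' hc' => ?_
      rw [cd_inblock M m _ hj, hc] at hc'
      refine (f_le hN hdeg hs').trans (le_of_eq ?_)
      rw [hc']
      congr 5
      omega
    refine h1.trans ?_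
    rw [Ti_const_mul, Ti_sum, mul_sum]
    refine sum_le_sum fun z _ => ?_
    rw [Ti_slab m (fun t => if t = z 0 then 1 else 0) (ind0 z) hs, nt_inblock M m _ hj]
    simp only [Nat.cast_zero, add_zero]
    have h2 := in_block hM hN.hδ z m hs hj
    have hv0 : 0 ≤ 2 * Λ * (A + W * r ^ (M - m)) := by positivity
    have h3 := mul_le_mul_of_nonneg_left h2 hv0
    split_ifs
    · simpa using h3
    · simp
  refine (sum_le_sum hterm).trans ?_
  rw [sum_comm]
  refine sum_le_sum fun z _ => ?_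
  rw [← mul_sum]
  refine mul_le_mul_of_nonneg_left ?_ (by split_ifs <;> norm_num)
  -- only the time `ell` contributes
  have hzero : ∀ m ∈ range (M + 1), m ≠ ell s.2 z → 2 * Λ * (A + W * r ^ (M - m)) * pin δ m s z = 0 := by
    intro m _ hm
    unfold pin
    rw [if_neg (fun h => hm h.2.symm), mul_zero]
  have hnn := nsqp_nonneg (s.2 - z)
  have hF0 : 0 ≤ 100 * Λ * (A + 1) * x ^ 2 * (1 * ((nsqp (s.2 - z) + 1) ^ 2)⁻¹) := by positivity
  have hF1 : 0 ≤ 2 * Λ * (A + 1) * δ * ∑ e : Dir d, ind0 (z + vec e) s :=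
    mul_nonneg (by positivity) (sum_nonneg fun e _ => ind0_nonneg _ _)
  have hF2 : 0 ≤ 2 * Λ * (A + 1) * ind0 z s := mul_nonneg (by positivity) (ind0_nonneg _ _)
  by_cases hl : ell s.2 z ∈ range (M + 1)
  · rw [sum_eq_single_of_mem _ hl hzero]
    rw [mem_range] at hl
    set l := ell s.2 z with hldef
    have hp := pin_le hδ0.le l s z
    have hv0 : 0 ≤ 2 * Λ * (A + W * r ^ (M - l)) := by positivity
    have hb : 2 * Λ * (A + W * r ^ (M - l)) * pin δ l s z ≤
        2 * Λ * ((A + 1) * ((l.factorial : ℝ) * x ^ l)) := by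
      calc 2 * Λ * (A + W * r ^ (M - l)) * pin δ l s z
          ≤ 2 * Λ * (A + W * r ^ (M - l)) * ((l.factorial : ℝ) * δ ^ l) :=
            mul_le_mul_of_nonneg_left hp hv0
        _ = 2 * Λ * (l.factorial * (A * δ ^ l + W * r ^ (M - l) * δ ^ l)) := by ring
        _ ≤ 2 * Λ * (l.factorial * (A * x ^ l + x ^ l)) := by
            refine mul_le_mul_of_nonneg_left ?_ (by positivity)
            refine mul_le_mul_of_nonneg_left ?_ (by positivity)
            exact add_le_add (mul_le_mul_of_nonneg_left (pow_le_pow_left₀ hδ0.le hδx l)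
              (by linarith)) (hWr l (by omega))
        _ = _ := by ring
    unfold Fb
    rcases Nat.lt_or_ge l 2 with hl2 | hl2
    · interval_cases hl3 : l
      · -- l = 0
        have hz : s.2 = z := ell_eq_zero hldef.symm
        have h1 : ind0 z s = 1 := by unfold ind0; rw [if_pos hz]
        rw [h1] at hF2 ⊢
        simp only [Nat.factorial_zero, Nat.cast_one, pow_zero, mul_one] at hb ⊢
        linarith
      · -- l = 1
        obtain ⟨e, he⟩ := ell_eq_one hldef.symm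
        have h1 : (1 : ℝ) ≤ ∑ e : Dir d, ind0 (z + vec e) s := by
          refine le_trans ?_ (single_le_sum (f := fun e => ind0 (z + vec e) s)
            (fun e _ => ind0_nonneg _ _) (mem_univ e))
          unfold ind0
          rw [if_pos he]
        have h2 : pin δ 1 s z ≤ δ := by
          have := pin_le hδ0.le 1 s z
          simpa using this
        have h3 : A + W * r ^ (M - 1) ≤ A + 1 := by
          have := hN.H3
          linarith
        have h4 : 2 * Λ * (A + W * r ^ (M - 1)) * pin δ 1 s z ≤ 2 * Λ * (A + 1) * δ := by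
          have h5 : 2 * Λ * (A + W * r ^ (M - 1)) ≤ 2 * Λ * (A + 1) :=
            mul_le_mul_of_nonneg_left h3 (by linarith)
          exact mul_le_mul h5 h2 (pin_nonneg hδ0.le _ _ _) (by positivity)
        have h6 : 2 * Λ * (A + 1) * δ ≤ 2 * Λ * (A + 1) * δ * ∑ e : Dir d, ind0 (z + vec e) s :=
          le_mul_of_one_le_right (by positivity) h1
        linarith
    · -- l ≥ 2
      have h1 := fact_one hx0.le hN.h4 hl2 (by omega)
      have h2 : nsqp (s.2 - z) + 1 ≤ (l : ℝ) ^ 2 + 1 := by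
        have := nsqp_le_ell s.2 z
        rw [← hldef] at this
        linarith
      have h3 : (l.factorial : ℝ) * x ^ l ≤ 50 * x ^ 2 * (1 * ((nsqp (s.2 - z) + 1) ^ 2)⁻¹) := by
        rw [one_mul, ← div_eq_mul_inv, le_div_iff₀ (by positivity)]
        refine le_trans ?_ h1
        refine mul_le_mul_of_nonneg_left ?_ (by positivity)
        exact pow_le_pow_left₀ (by positivity) h2 2
      have h4 : 2 * Λ * ((A + 1) * ((l.factorial : ℝ) * x ^ l)) ≤
          100 * Λ * (A + 1) * x ^ 2 * (1 * ((nsqp (s.2 - z) + 1) ^ 2)⁻¹) := by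
        calc 2 * Λ * ((A + 1) * ((l.factorial : ℝ) * x ^ l))
            ≤ 2 * Λ * ((A + 1) * (50 * x ^ 2 * (1 * ((nsqp (s.2 - z) + 1) ^ 2)⁻¹))) := by
              refine mul_le_mul_of_nonneg_left ?_ (by linarith)
              exact mul_le_mul_of_nonneg_left h3 (by linarith)
          _ = _ := by ring
      linarith
  · have h0 : ∑ m ∈ range (M + 1), 2 * Λ * (A + W * r ^ (M - m)) * pin δ m s z = 0 :=
      sum_eq_zero fun m hm => hzero m hm (fun h => hl (h ▸ hm))
    rw [h0]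
    unfold Fb
    linarith

end main

end

end Run7.h485
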