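import Pool.Agent.Run7.h485.Contact2

/-!
# The contact part of the interaction with a fixed set: conclusion
-/

namespace Run7.h485

open Finset
open Pool.Agent.H282R3.RW (V Dir vec nsq nsq_nonneg)

noncomputable section

variable {d : ℕ} [NeZero d] {M : ℕ} {δ Λ ρ r A W x : ℝ} {γ : Finset (V d)}

theorem CM_le (hN : Num d M δ Λ ρ r A W x) : CM δ M ≤ 50 * x ^ 2 := by
  obtain ⟨hδ0, hx0, hW0, hδx, hxr⟩ := hN.pos
  refine le_trans ?_ (fact_one hx0.le hN.h4 hN.hM2 le_rfl)
  unfold CM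
  have := pow_le_pow_left₀ hδ0.le hδx M
  gcongr

/-- bound for the probability to be at a point after the present block and `n` full blocks -/
theorem kappa_le (hN : Num d M δ Λ ρ r A W x) {a : ℕ} {s : St d} (hs : Valid M s)
    (ha : s.1.card + a = M + 1) (n : ℕ) (z : V d) :
    Ti M (a + 1 + n * (M + 1)) (ind0 z) s ≤
      if n = 0 then (a.factorial : ℝ) * x ^ a else 100 * x ^ 2 * ((1 + (n : ℝ) / 4) ^ 2)⁻¹ := by
  obtain ⟨hδ0, hx0, hW0, hδx, hxr⟩ := hN.pos
  have hM : M + 1 < d := by have := hN.hMd; omega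
  rcases n with _ | n
  · simp only [if_true, Nat.zero_mul, add_zero]
    refine (next_block hM hN.hδ z hs ha).trans ((pin_le hδ0.le _ _ _).trans ?_)
    exact mul_le_mul_of_nonneg_left (pow_le_pow_left₀ hδ0.le hδx a) (by positivity)
  · rw [if_neg (by omega)]
    refine (far_block (by have := hN.hM2; omega) hN.hMd hN.hδ z hs ha n).trans ?_
    push_cast
    refine mul_le_mul_of_nonneg_right ?_ (by positivity)
    have := CM_le hN
    linarith

theorem far_part (hN : Num d M δ Λ ρ r A W x)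
    (hγ : ∀ t : ℤ, (γ.filter fun x => x 0 = t).card ≤ M + 1)
    (hdeg : ∀ x ∈ γ, (univ.filter fun e : Dir d => e.1 ≠ 0 ∧ x + vec e ∈ γ).card ≤ 2)
    {a : ℕ} {s : St d} (hs : Valid M s) (ha : s.1.card + a = M + 1) (k : ℕ) :
    ∑ n ∈ range k, Ti M (a + 1 + n * (M + 1)) (fun s => ∑ m ∈ range (M + 1),
      Ti M m (fun s => zc Λ γ s * wgt M A W r γ s) s) s ≤
      ((M : ℝ) + 1) * Λ * (A + 1) * (6 * ((a.factorial : ℝ) * x ^ a) + 3200 * x ^ 2) := by
  obtain ⟨hδ0, hx0, hW0, hδx, hxr⟩ := hN.pos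
  have hΛ := hN.hΛ
  have hA := hN.hA
  have hM : M + 1 < d := by have := hN.hMd; omega
  have hM1 : 1 ≤ M := by have := hN.hM2; omega
  have hdδ : (d : ℝ) * δ ≤ 1 := by
    have h1 : 2 * ((M : ℝ) + 1) ≤ d := by exact_mod_cast hN.h2
    have h2 : (0 : ℝ) < d - (M + 1) := by
      have : (0 : ℝ) < (M : ℝ) + 1 := by positivity
      linarith
    rw [hN.hδ, mul_one_div, div_le_one (by positivity)]
    linarith
  set κ : ℕ → ℝ := fun n => if n = 0 then (a.factorial : ℝ) * x ^ a else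
    100 * x ^ 2 * ((1 + (n : ℝ) / 4) ^ 2)⁻¹ with hκ
  have hκ0 : ∀ n, 0 ≤ κ n := by intro n; simp only [hκ]; split_ifs <;> positivity
  have hterm : ∀ n, Ti M (a + 1 + n * (M + 1)) (fun s => ∑ m ∈ range (M + 1),
      Ti M m (fun s => zc Λ γ s * wgt M A W r γ s) s) s ≤
      ((M : ℝ) + 1) * (6 * Λ * (A + 1) * κ n +
        200 * Λ * (A + 1) * x ^ 2 * ((1 + ((n : ℝ) + 1) / 4) ^ 2)⁻¹) := by
    intro n
    set j := a + 1 + n * (M + 1) with hj
    have h1 : Ti M j (fun s => ∑ m ∈ range (M + 1),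
        Ti M m (fun s => zc Λ γ s * wgt M A W r γ s) s) s ≤
        Ti M j (fun s' => ∑ z ∈ γ, (if s'.2 0 = z 0 then 1 else 0) * Fb Λ A δ x z s') s := by
      refine Ti_mono_phase hM j hs fun s' hs' hc => ?_
      rw [hj, cd_start_full M ha] at hc
      exact block_le hN hdeg hs' hc
    refine h1.trans (slab_sum hγ j hs _ (by have := hκ0 n; positivity) fun z => ?_)
    unfold Fb
    rw [Ti_add_fun, Ti_add_fun, Ti_const_mul, Ti_const_mul, Ti_const_mul, Ti_sum]
    have k1 : Ti M j (ind0 z) s ≤ κ n := kappa_le hN hs ha n z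
    have k2 : ∑ e : Dir d, Ti M j (ind0 (z + vec e)) s ≤ 2 * d * κ n := by
      calc ∑ e : Dir d, Ti M j (ind0 (z + vec e)) s ≤ ∑ e : Dir d, κ n :=
            sum_le_sum fun e _ => kappa_le hN hs ha n _
        _ = 2 * d * κ n := by
            rw [sum_const, card_univ, nsmul_eq_mul]
            have : (Fintype.card (Dir d) : ℝ) = 2 * d := by simp [mul_comm]
            rw [this]
    have k3 : Ti M j (fun s => 1 * ((nsqp (s.2 - z) + 1) ^ 2)⁻¹) s ≤
        2 * ((1 + ((n : ℝ) + 1) / 4) ^ 2)⁻¹ := by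
      refine (Ti_decay hM1 hN.hMd (g := fun _ => 1) (fun _ => by norm_num) z j hs).trans ?_
      rw [one_mul]
      refine mul_le_mul_of_nonneg_left ?_ (by norm_num)
      have := nsqp_nonneg (s.2 - z)
      refine inv_anti₀ (by positivity) (pow_le_pow_left₀ (by positivity) ?_ 2)
      have h3 : n + 1 ≤ j := by rw [hj]; nlinarith
      have h4 : (n : ℝ) + 1 ≤ j := by exact_mod_cast h3
      linarith
    have e1 : 2 * Λ * (A + 1) * Ti M j (ind0 z) s ≤ 2 * Λ * (A + 1) * κ n :=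
      mul_le_mul_of_nonneg_left k1 (by positivity)
    have e2 : 2 * Λ * (A + 1) * δ * ∑ e : Dir d, Ti M j (ind0 (z + vec e)) s ≤
        4 * Λ * (A + 1) * κ n := by
      calc 2 * Λ * (A + 1) * δ * ∑ e : Dir d, Ti M j (ind0 (z + vec e)) s
          ≤ 2 * Λ * (A + 1) * δ * (2 * d * κ n) := mul_le_mul_of_nonneg_left k2 (by positivity)
        _ = 4 * Λ * (A + 1) * κ n * (d * δ) := by ring
        _ ≤ 4 * Λ * (A + 1) * κ n * 1 := by
            have := hκ0 n
            exact mul_le_mul_of_nonneg_left hdδ (by positivity)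
        _ = _ := by ring
    have e3 : 100 * Λ * (A + 1) * x ^ 2 * Ti M j (fun s => 1 * ((nsqp (s.2 - z) + 1) ^ 2)⁻¹) s ≤
        100 * Λ * (A + 1) * x ^ 2 * (2 * ((1 + ((n : ℝ) + 1) / 4) ^ 2)⁻¹) :=
      mul_le_mul_of_nonneg_left k3 (by positivity)
    calc _ ≤ 2 * Λ * (A + 1) * κ n + 4 * Λ * (A + 1) * κ n +
          100 * Λ * (A + 1) * x ^ 2 * (2 * ((1 + ((n : ℝ) + 1) / 4) ^ 2)⁻¹) :=
          add_le_add (add_le_add e1 e2) e3
      _ = _ := by ring
  have hκsum : ∑ n ∈ range k, κ n ≤ (a.factorial : ℝ) * x ^ a + 400 * x ^ 2 := by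
    rcases k with _ | k
    · simp only [range_zero, sum_empty]; positivity
    · rw [sum_range_succ', add_comm]
      refine add_le_add (le_of_eq (by simp [hκ])) ?_
      calc ∑ n ∈ range k, κ (n + 1) = 100 * x ^ 2 * ∑ n ∈ range k, ((1 + ((n : ℝ) + 1) / 4) ^ 2)⁻¹ := by
            rw [mul_sum]
            refine sum_congr rfl fun n _ => ?_
            simp only [hκ]
            rw [if_neg (by omega)]
            push_cast
            rfl
        _ ≤ 100 * x ^ 2 * 4 := by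
            refine mul_le_mul_of_nonneg_left ?_ (by positivity)
            have := sum_decay k
            have : (0 : ℝ) ≤ 16 / ((k : ℝ) + 4) := by positivity
            linarith
        _ = _ := by ring
  refine (sum_le_sum fun n _ => hterm n).trans ?_
  rw [← mul_sum, sum_add_distrib, ← mul_sum, ← mul_sum]
  have hd2 : ∑ n ∈ range k, ((1 + ((n : ℝ) + 1) / 4) ^ 2)⁻¹ ≤ 4 := by
    have := sum_decay k
    have : (0 : ℝ) ≤ 16 / ((k : ℝ) + 4) := by positivity
    linarith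
  calc ((M : ℝ) + 1) * (6 * Λ * (A + 1) * ∑ n ∈ range k, κ n +
        200 * Λ * (A + 1) * x ^ 2 * ∑ n ∈ range k, ((1 + ((n : ℝ) + 1) / 4) ^ 2)⁻¹)
      ≤ ((M : ℝ) + 1) * (6 * Λ * (A + 1) * ((a.factorial : ℝ) * x ^ a + 400 * x ^ 2) +
        200 * Λ * (A + 1) * x ^ 2 * 4) := by
        refine mul_le_mul_of_nonneg_left (add_le_add ?_ ?_) (by positivity)
        · exact mul_le_mul_of_nonneg_left hκsum (by positivity)
        · exact mul_le_mul_of_nonneg_left hd2 (by positivity)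
    _ = _ := by ring

theorem near_part (hN : Num d M δ Λ ρ r A W x)
    (hγ : ∀ t : ℤ, (γ.filter fun x => x 0 = t).card ≤ M + 1)
    (hdeg : ∀ x ∈ γ, (univ.filter fun e : Dir d => e.1 ≠ 0 ∧ x + vec e ∈ γ).card ≤ 2)
    {a : ℕ} {s : St d} (hs : Valid M s) (h : s.2 ∈ γ) (ha : s.1.card + (a + 1) = M + 1) :
    ∑ j ∈ range (a + 1), Ti M (j + 1) (fun s => zc Λ γ s * wgt M A W r γ s) s ≤
      ρ * (A + W * r ^ a) * nu γ s + 8 * Λ * ((M : ℝ) + 1) * (A + W * r ^ (a + 1)) * x ^ 2 := by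
  obtain ⟨hδ0, hx0, hW0, hδx, hxr⟩ := hN.pos
  have hΛ := hN.hΛ
  have hA := hN.hA
  have hr0 := hN.hr0
  have hcard1 : 1 ≤ s.1.card := card_pos.2 ⟨0, hs.1⟩
  rw [sum_range_succ', add_comm]
  refine add_le_add ?_ ?_
  · have := first_step hN hdeg hs h (by omega)
    have e : M - s.1.card = a := by omega
    rw [e] at this
    exact this
  · calc ∑ j ∈ range a, Ti M (j + 1 + 1) (fun s => zc Λ γ s * wgt M A W r γ s) s
        ≤ ∑ j ∈ range a, 2 * Λ * ((M : ℝ) + 1) * ((A + W * r ^ (a + 1)) *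
            (((j + 2).factorial : ℝ) * x ^ (j + 2))) := by
          refine sum_le_sum fun j hj => ?_
          rw [mem_range] at hj
          have := in_block_step hN hγ hdeg hs (j := j + 2) (by omega)
          have e : M + 1 - s.1.card = a + 1 := by omega
          rw [e] at this
          exact this
      _ = 2 * Λ * ((M : ℝ) + 1) * (A + W * r ^ (a + 1)) *
            ∑ j ∈ range a, ((j + 2).factorial : ℝ) * x ^ (j + 2) := by
          rw [mul_sum]
          exact sum_congr rfl fun j _ => by ring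
      _ ≤ 2 * Λ * ((M : ℝ) + 1) * (A + W * r ^ (a + 1)) * (4 * x ^ 2) := by
          refine mul_le_mul_of_nonneg_left (fact_sum hx0.le hN.h4 (by omega)) ?_
          positivity
      _ = _ := by ring

/-- the key estimate at a contact state -/
theorem contact_key (hN : Num d M δ Λ ρ r A W x)
    (hγ : ∀ t : ℤ, (γ.filter fun x => x 0 = t).card ≤ M + 1)
    (hdeg : ∀ x ∈ γ, (univ.filter fun e : Dir d => e.1 ≠ 0 ∧ x + vec e ∈ γ).card ≤ 2)
    {s : St d} (hs : Valid M s) (h : s.2 ∈ γ) (k : ℕ) :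
    1 + ∑ j ∈ range k, Ti M (j + 1) (fun s => zc Λ γ s * wgt M A W r γ s) s ≤
      wgt M A W r γ s := by
  obtain ⟨hδ0, hx0, hW0, hδx, hxr⟩ := hN.pos
  have hΛ := hN.hΛ
  have hA := hN.hA
  have hr0 := hN.hr0
  have hr1 := hN.hr1
  have hM : M + 1 < d := by have := hN.hMd; omega
  have hM' : (0 : ℝ) ≤ M := Nat.cast_nonneg M
  have hf : ∀ s, Valid M s → 0 ≤ zc Λ γ s * wgt M A W r γ s := by
    intro s _
    unfold zc wgt
    have : 0 ≤ max 1 (nu γ s) := le_trans (by norm_num) (le_max_left _ _)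
    have : 0 ≤ A + W * r ^ (M + 1 - s.1.card) := by positivity
    split_ifs <;> positivity
  have hcard1 : 1 ≤ s.1.card := card_pos.2 ⟨0, hs.1⟩
  obtain ⟨a, ha⟩ : ∃ a, s.1.card + a = M + 1 := ⟨M + 1 - s.1.card, by have := hs.2; omega⟩
  have hsum := sum_blocks hM hf hs a k
  have hfar := far_part hN hγ hdeg hs ha k
  set Y := ((M : ℝ) + 1) * Λ * (A + 1) with hY
  have hY1 : 1 ≤ Y := by
    have h1 : 1 ≤ (M : ℝ) + 1 := by linarith
    have h2 : 1 ≤ ((M : ℝ) + 1) * Λ := by nlinarith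
    rw [hY]; nlinarith
  have hWY : W = 8 * Y := by rw [hN.hW, hY]; ring
  have hq1 : 1 ≤ max 1 (nu γ s) := le_max_left _ _
  have hq2 : nu γ s ≤ max 1 (nu γ s) := le_max_right _ _
  set q := max 1 (nu γ s) with hq
  have hwgt : wgt M A W r γ s = (A + W * r ^ a) * q := by
    unfold wgt
    congr 3
    congr 1
    omega
  rw [hwgt]
  rcases a with _ | a
  · -- end of the block
    simp only [range_zero, sum_empty, zero_add, Nat.factorial_zero, Nat.cast_one, pow_zero,
      mul_one] at hsum hfar ⊢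
    have h1 : Y * (6 + 3200 * x ^ 2) ≤ Y * 7 := by
      refine mul_le_mul_of_nonneg_left ?_ (by linarith)
      have := hN.hx2
      linarith
    have h2 : A + W ≤ (A + W) * q := le_mul_of_one_le_right (by linarith) hq1
    linarith
  · have hnear := near_part hN hγ hdeg hs h ha
    have hρ0 : 0 ≤ ρ := by rw [hN.hρ]; positivity
    have hH1 := hN.H1
    have hH2 := hN.H2
    have hgap : 0 < r - ρ - 8 * Λ * ((M : ℝ) + 1) * x ^ 2 := by
      by_contra hneg
      push Not at hneg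
      have := mul_nonpos_of_nonneg_of_nonpos (by linarith : 0 ≤ Λ) hneg
      linarith
    have hx2n : 0 ≤ 8 * Λ * ((M : ℝ) + 1) * x ^ 2 := by positivity
    have hρr : ρ ≤ r := by linarith
    have hYx : 8 * Λ * ((M : ℝ) + 1) * A * x ^ 2 ≤ 8 * (Y * x ^ 2) := by
      have : 8 * Λ * ((M : ℝ) + 1) * A * x ^ 2 ≤ 8 * Λ * ((M : ℝ) + 1) * (A + 1) * x ^ 2 := by
        gcongr; linarith
      rw [hY]
      linarith
    have hH1' : 1 + 3220 * (Y * x ^ 2) ≤ (1 - ρ) * A := by
      rw [hY]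
      have e : 1 + 3220 * ((M : ℝ) + 1) * Λ * (A + 1) * x ^ 2 =
        1 + 3220 * (((M : ℝ) + 1) * Λ * (A + 1) * x ^ 2) := by ring
      rw [e] at hH1
      exact hH1
    -- the scalar inequality
    have hscal : 1 + ρ * (A + W * r ^ a) + (8 * Λ * ((M : ℝ) + 1) * (A + W * r ^ (a + 1)) * x ^ 2 +
        Y * (6 * (((a + 1).factorial : ℝ) * x ^ (a + 1)) + 3200 * x ^ 2)) ≤ A + W * r ^ (a + 1) := by
      rcases a with _ | a
      · -- one remaining step
        simp only [zero_add, Nat.factorial_one, Nat.cast_one, pow_one, one_mul, pow_zero, mul_one]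
        have hΛx : Λ * x ≤ 1 := by
          have : Λ * x * r = ρ := by rw [hN.hρ, hxr]; ring
          have h1 : Λ * x * r ≤ 1 * r := by rw [this, one_mul]; exact hρr
          exact le_of_mul_le_mul_right h1 hr0
        have h6 : Y * (6 * x) ≤ 6 * (((M : ℝ) + 1) * (A + 1)) := by
          have : Y * (6 * x) = 6 * (((M : ℝ) + 1) * (A + 1)) * (Λ * x) := by rw [hY]; ring
          rw [this]
          exact mul_le_of_le_one_right (by positivity) hΛx
        have h8 : 8 * (((M : ℝ) + 1) * (A + 1)) ≤ W * (r - ρ - 8 * Λ * ((M : ℝ) + 1) * x ^ 2) := by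
          have : W * (r - ρ - 8 * Λ * ((M : ℝ) + 1) * x ^ 2) = 8 * (((M : ℝ) + 1) * (A + 1)) *
              (Λ * (r - ρ - 8 * Λ * ((M : ℝ) + 1) * x ^ 2)) := by rw [hN.hW]; ring
          rw [this]
          exact le_mul_of_one_le_right (by positivity) hH2
        have h9 : 8 * Λ * ((M : ℝ) + 1) * (W * r) * x ^ 2 ≤ W * (8 * Λ * ((M : ℝ) + 1) * x ^ 2) := by
          have : 8 * Λ * ((M : ℝ) + 1) * (W * r) * x ^ 2 =
            W * (8 * Λ * ((M : ℝ) + 1) * x ^ 2) * r := by ring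
          rw [this]
          exact mul_le_of_le_one_right (by positivity) hr1
        have h10 : 0 ≤ ((M : ℝ) + 1) * (A + 1) := by positivity
        have h11 : 8 * Λ * ((M : ℝ) + 1) * (A + W * r) * x ^ 2 =
          8 * Λ * ((M : ℝ) + 1) * A * x ^ 2 + 8 * Λ * ((M : ℝ) + 1) * (W * r) * x ^ 2 := by ring
        have h12 : 0 ≤ Y * x ^ 2 := by positivity
        nlinarith
      · -- at least two remaining steps
        have hf2 : ((a + 1 + 1).factorial : ℝ) * x ^ (a + 1 + 1) ≤ 2 * x ^ 2 := by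
          have h1 := fact_two hx0.le hN.h4 (m := a) (by omega)
          refine h1.trans ?_
          refine mul_le_of_le_one_right (by positivity) ?_
          exact pow_le_one₀ (by norm_num) (by norm_num)
        have h6 : Y * (6 * (((a + 1 + 1).factorial : ℝ) * x ^ (a + 1 + 1))) ≤ 12 * (Y * x ^ 2) := by
          have := mul_le_mul_of_nonneg_left hf2 (by linarith : 0 ≤ 6 * Y)
          linarith
        have hra : 0 < r ^ (a + 1) := by positivity
        have h9 : ρ * (W * r ^ (a + 1)) + 8 * Λ * ((M : ℝ) + 1) * (W * r ^ (a + 1 + 1)) * x ^ 2 ≤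
            W * r ^ (a + 1 + 1) := by
          have h10 : W * r ^ (a + 1 + 1) - (ρ * (W * r ^ (a + 1)) +
              8 * Λ * ((M : ℝ) + 1) * (W * r ^ (a + 1 + 1)) * x ^ 2) =
              W * r ^ (a + 1) * (r - ρ - 8 * Λ * ((M : ℝ) + 1) * x ^ 2 * r) := by ring
          have h11 : 0 ≤ r - ρ - 8 * Λ * ((M : ℝ) + 1) * x ^ 2 * r := by
            have : 8 * Λ * ((M : ℝ) + 1) * x ^ 2 * r ≤ 8 * Λ * ((M : ℝ) + 1) * x ^ 2 :=
              mul_le_of_le_one_right hx2n hr1
            linarith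
          have := mul_nonneg (mul_nonneg hW0.le hra.le) h11
          linarith
        have h11 : 8 * Λ * ((M : ℝ) + 1) * (A + W * r ^ (a + 1 + 1)) * x ^ 2 =
          8 * Λ * ((M : ℝ) + 1) * A * x ^ 2 +
            8 * Λ * ((M : ℝ) + 1) * (W * r ^ (a + 1 + 1)) * x ^ 2 := by ring
        have h12 : 0 ≤ Y * x ^ 2 := by positivity
        nlinarith
    -- conclusion
    have hρv : ρ * (A + W * r ^ a) * nu γ s ≤ ρ * (A + W * r ^ a) * q :=
      mul_le_mul_of_nonneg_left hq2 (by positivity)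
    set E := 8 * Λ * ((M : ℝ) + 1) * (A + W * r ^ (a + 1)) * x ^ 2 +
        Y * (6 * (((a + 1).factorial : ℝ) * x ^ (a + 1)) + 3200 * x ^ 2) with hE
    have hE0 : 0 ≤ E := by positivity
    have hfin : 1 + ρ * (A + W * r ^ a) * q + E ≤ (1 + ρ * (A + W * r ^ a) + E) * q := by
      nlinarith [mul_nonneg hE0 (sub_nonneg.2 hq1)]
    have := mul_le_mul_of_nonneg_right hscal (by linarith : 0 ≤ q)
    linarith

theorem contact_bound (hN : Num d M δ Λ ρ r A W x)
    (hγ : ∀ t : ℤ, (γ.filter fun x => x 0 = t).card ≤ M + 1)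
    (hdeg : ∀ x ∈ γ, (univ.filter fun e : Dir d => e.1 ≠ 0 ∧ x + vec e ∈ γ).card ≤ 2)
    (h0 : (0 : V d) ∈ γ) {Z : ℕ → St d → ℝ} (hZ0 : ∀ s, Z 0 s = 1)
    (hZ : ∀ k s, Z (k + 1) s = T M (fun s' => (1 + zc Λ γ s') * Z k s') s) (k : ℕ) :
    Z k ({0}, 0) ≤ 2 * (A + 1) := by
  obtain ⟨hδ0, hx0, hW0, hδx, hxr⟩ := hN.pos
  have hΛ := hN.hΛ
  have hA := hN.hA
  have hr0 := hN.hr0
  have hr1 := hN.hr1
  have hM : M + 1 < d := by have := hN.hMd; omega
  let G : ℕ → St d → ℝ := fun k s => ∑ j ∈ range k,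
    Ti M (j + 1) (fun s => zc Λ γ s * wgt M A W r γ s) s
  have hG0 : ∀ s, G 0 s = 0 := fun s => by simp [G]
  have hG : ∀ k s, G (k + 1) s = T M (fun s' => zc Λ γ s' * wgt M A W r γ s' + G k s') s := by
    intro k s
    simp only [G]
    rw [T_add, T_sum, sum_range_succ', add_comm]
    rfl
  have hζ : ∀ s, Valid M s → 0 ≤ zc Λ γ s := by
    intro s _; unfold zc; split_ifs <;> linarith
  have hmem : ∀ s, zc Λ γ s ≠ 0 → s.2 ∈ γ := by
    intro s h; by_contra h'; exact h (by unfold zc; exact if_neg h')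
  have hs : Valid M (({0}, 0) : St d) := ⟨mem_singleton_self _, by simp⟩
  have h1 := khas hM hζ hZ0 hZ hG0 hG
    (fun k s hs h => contact_key hN hγ hdeg hs (hmem s h) k) k _ hs
  have h2 : 1 + G k ({0}, 0) ≤ wgt M A W r γ ({0}, 0) := contact_key hN hγ hdeg hs h0 k
  refine (h1.trans h2).trans ?_
  unfold wgt
  have h3 : W * r ^ (M + 1 - ({0} : Finset (Fin d)).card) ≤ 1 := by
    rw [card_singleton]
    refine le_trans ?_ hN.H3
    refine mul_le_mul_of_nonneg_left ?_ hW0.le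
    exact pow_le_pow_of_le_one hr0.le hr1 (by omega)
  have h4 : max 1 (nu γ (({0}, 0) : St d)) ≤ 2 := max_le (by norm_num) (nu_le_two hdeg hs h0)
  have h5 : 0 ≤ W * r ^ (M + 1 - ({0} : Finset (Fin d)).card) := by positivity
  calc (A + W * r ^ (M + 1 - ({0} : Finset (Fin d)).card)) * max 1 (nu γ (({0}, 0) : St d))
      ≤ (A + 1) * 2 := mul_le_mul (by linarith) h4 (le_trans (by norm_num) (le_max_left _ _))
        (by linarith)
    _ = _ := by ring

end

end Run7.h485
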