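import Pool.Agent.Run7.h485.Parity

/-!
# Crossings, rings, arms: deterministic facts
-/

namespace Run7.h485.Pl

/-- a rectangle -/
def rect (x0 x1 y0 y1 : ℤ) : Set (ℤ × ℤ) := {p | (x0 ≤ p.1 ∧ p.1 ≤ x1) ∧ y0 ≤ p.2 ∧ p.2 ≤ y1}

theorem mem_rect {x0 x1 y0 y1 : ℤ} {p : ℤ × ℤ} :
    p ∈ rect x0 x1 y0 y1 ↔ (x0 ≤ p.1 ∧ p.1 ≤ x1) ∧ y0 ≤ p.2 ∧ p.2 ≤ y1 := Iff.rfl

/-- horizontal crossing -/
def HC (x0 x1 y0 y1 : ℤ) (S : Set (ℤ × ℤ)) : Prop :=
  ∃ p q : ℤ × ℤ, p.1 = x0 ∧ q.1 = x1 ∧ Reach (S ∩ rect x0 x1 y0 y1) p q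

/-- vertical crossing -/
def VC (x0 x1 y0 y1 : ℤ) (S : Set (ℤ × ℤ)) : Prop :=
  ∃ p q : ℤ × ℤ, p.2 = y0 ∧ q.2 = y1 ∧ Reach (S ∩ rect x0 x1 y0 y1) p q

theorem HC.mono {x0 x1 y0 y1 a b y0' y1' : ℤ} {S : Set (ℤ × ℤ)} (ha : x0 ≤ a) (hab : a ≤ b)
    (hb : b ≤ x1) (h0 : y0' ≤ y0) (h1 : y1 ≤ y1') (h : HC x0 x1 y0 y1 S) : HC a b y0' y1' S := by
  obtain ⟨p, q, hp, hq, h⟩ := h
  obtain ⟨z, w, hz, hw, h2, -, -⟩ := Reach.between (f := fun p => p.1) fst_lip hab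
    (show p.1 ≤ a by omega) (show b ≤ q.1 by omega) h
  refine ⟨z, w, hz, hw, h2.mono ?_⟩
  rintro r ⟨⟨hr, hr1⟩, hr2⟩
  refine ⟨hr, ?_⟩
  rw [mem_rect] at hr1 ⊢
  have hr2' : a ≤ r.1 ∧ r.1 ≤ b := hr2
  omega

theorem VC.mono {x0 x1 y0 y1 a b x0' x1' : ℤ} {S : Set (ℤ × ℤ)} (ha : y0 ≤ a) (hab : a ≤ b)
    (hb : b ≤ y1) (h0 : x0' ≤ x0) (h1 : x1 ≤ x1') (h : VC x0 x1 y0 y1 S) : VC x0' x1' a b S := by
  obtain ⟨p, q, hp, hq, h⟩ := h
  obtain ⟨z, w, hz, hw, h2, -, -⟩ := Reach.between (f := fun p => p.2) snd_lip hab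
    (show p.2 ≤ a by omega) (show b ≤ q.2 by omega) h
  refine ⟨z, w, hz, hw, h2.mono ?_⟩
  rintro r ⟨⟨hr, hr1⟩, hr2⟩
  refine ⟨hr, ?_⟩
  rw [mem_rect] at hr1 ⊢
  have hr2' : a ≤ r.2 ∧ r.2 ≤ b := hr2
  omega

theorem VC_iff {x0 x1 y0 y1 : ℤ} {S : Set (ℤ × ℤ)} :
    VC x0 x1 y0 y1 S ↔ HC y0 y1 x0 x1 (swp ⁻¹' S) := by
  constructor
  · rintro ⟨p, q, hp, hq, h⟩
    refine ⟨swp p, swp q, hp, hq, h.map adj_swp ?_⟩
    rintro r ⟨hr, hr1⟩
    refine ⟨by rw [Set.mem_preimage, swp_swp]; exact hr, ?_⟩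
    rw [mem_rect] at hr1 ⊢
    unfold swp
    exact ⟨hr1.2, hr1.1⟩
  · rintro ⟨p, q, hp, hq, h⟩
    refine ⟨swp p, swp q, hp, hq, h.map adj_swp ?_⟩
    rintro r ⟨hr, hr1⟩
    refine ⟨hr, ?_⟩
    rw [mem_rect] at hr1 ⊢
    unfold swp
    exact ⟨hr1.2, hr1.1⟩

/-- Glueing two horizontal crossings through a vertical crossing. -/
theorem HC.glue {a a' b b' y0 y1 : ℤ} {S : Set (ℤ × ℤ)} (h1 : HC a b y0 y1 S)
    (h2 : HC a' b' y0 y1 S) (h3 : VC a' b y0 y1 S) (ha : a ≤ a') (hb : b ≤ b') :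
    HC a b' y0 y1 S := by
  obtain ⟨p, q, hp, hq, h⟩ := h1
  obtain ⟨p2, q2, hp2, hq2, h2⟩ := h2
  obtain ⟨r, s, hr, hs, h3⟩ := h3
  obtain ⟨z, hz1, hz2⟩ := meet (a := a) (b := b) (c := y0) (d := y1)
    (fun w hw => hw.2) (fun w hw => by
      have := hw.2; rw [mem_rect] at this; omega) h hp hq h3 hr.le hs.ge
  obtain ⟨z', hz1', hz2'⟩ := meet (a := a') (b := b') (c := y0) (d := y1)
    (fun w hw => hw.2) (fun w hw => by
      have := hw.2; rw [mem_rect] at this; omega) h2 hp2 hq2 h3 hr.le hs.ge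
  have hab : a' ≤ b := by
    have := h3.left_mem.2
    rw [mem_rect] at this
    omega
  have m1 : S ∩ rect a b y0 y1 ⊆ S ∩ rect a b' y0 y1 := by
    rintro w ⟨hw, hw'⟩; refine ⟨hw, ?_⟩; rw [mem_rect] at hw' ⊢; omega
  have m2 : S ∩ rect a' b' y0 y1 ⊆ S ∩ rect a b' y0 y1 := by
    rintro w ⟨hw, hw'⟩; refine ⟨hw, ?_⟩; rw [mem_rect] at hw' ⊢; omega
  have m3 : S ∩ rect a' b y0 y1 ⊆ S ∩ rect a b' y0 y1 := by
    rintro w ⟨hw, hw'⟩; refine ⟨hw, ?_⟩; rw [mem_rect] at hw' ⊢; omega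
  exact ⟨p, q2, hp, hq2, ((((hz1.mono m1).trans (hz2.mono m3).symm).trans (hz2'.mono m3)).trans
    (hz1'.mono m2).symm).trans (h2.mono m2)⟩

/-- four crossings which form a ring -/
def Ring (s : ℤ) (S : Set (ℤ × ℤ)) : Prop :=
  (HC (-(2 * s)) (2 * s) s (2 * s) S ∧ HC (-(2 * s)) (2 * s) (-(2 * s)) (-s) S) ∧
    VC (-(2 * s)) (-s) (-(2 * s)) (2 * s) S ∧ VC s (2 * s) (-(2 * s)) (2 * s) S

theorem nrm_zero (p : ℤ × ℤ) : nrm 0 p = max |p.1| |p.2| := by simp [nrm]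

theorem nrm_le {z p : ℤ × ℤ} {N : ℤ} : nrm z p ≤ N ↔
    (z.1 - N ≤ p.1 ∧ p.1 ≤ z.1 + N) ∧ z.2 - N ≤ p.2 ∧ p.2 ≤ z.2 + N := mem_box

/-- On a ring all arms of the annulus are connected. -/
theorem Ring.hub {s : ℤ} (hs : 0 < s) {S : Set (ℤ × ℤ)} (h : Ring s S) :
    ∃ r, ∀ v w, v ∈ box 0 s → nrm 0 w = 2 * s → Reach (S ∩ box 0 (2 * s)) v w →
      Reach (S ∩ box 0 (2 * s)) v r := by
  obtain ⟨⟨⟨t1, t2, ht1, ht2, hT⟩, ⟨b1, b2, hb1, hb2, hB⟩⟩, ⟨l1, l2, hl1, hl2, hL⟩,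
    ⟨r1, r2, hr1, hr2, hR⟩⟩ := h
  set Q : Set (ℤ × ℤ) := S ∩ box 0 (2 * s) with hQ
  have mT : S ∩ rect (-(2 * s)) (2 * s) s (2 * s) ⊆ Q := by
    rintro w ⟨hw, hw'⟩; refine ⟨hw, ?_⟩; rw [mem_rect] at hw'; rw [mem_box]
    simp only [Prod.fst_zero, Prod.snd_zero]; omega
  have mB : S ∩ rect (-(2 * s)) (2 * s) (-(2 * s)) (-s) ⊆ Q := by
    rintro w ⟨hw, hw'⟩; refine ⟨hw, ?_⟩; rw [mem_rect] at hw'; rw [mem_box]
    simp only [Prod.fst_zero, Prod.snd_zero]; omega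
  have mL : S ∩ rect (-(2 * s)) (-s) (-(2 * s)) (2 * s) ⊆ Q := by
    rintro w ⟨hw, hw'⟩; refine ⟨hw, ?_⟩; rw [mem_rect] at hw'; rw [mem_box]
    simp only [Prod.fst_zero, Prod.snd_zero]; omega
  have mR : S ∩ rect s (2 * s) (-(2 * s)) (2 * s) ⊆ Q := by
    rintro w ⟨hw, hw'⟩; refine ⟨hw, ?_⟩; rw [mem_rect] at hw'; rw [mem_box]
    simp only [Prod.fst_zero, Prod.snd_zero]; omega
  -- top and bottom meet left and right
  obtain ⟨z1, z1a, z1b⟩ := meet (fun w hw => hw.2)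
    (fun w hw => by have := hw.2; rw [mem_rect] at this; omega) hT ht1 ht2 hL
    (by omega) (by omega)
  obtain ⟨z2, z2a, z2b⟩ := meet (fun w hw => hw.2)
    (fun w hw => by have := hw.2; rw [mem_rect] at this; omega) hB hb1 hb2 hL
    (by omega) (by omega)
  obtain ⟨z3, z3a, z3b⟩ := meet (fun w hw => hw.2)
    (fun w hw => by have := hw.2; rw [mem_rect] at this; omega) hT ht1 ht2 hR
    (by omega) (by omega)
  have cL : Reach Q l1 t1 := (z1b.mono mL).trans (z1a.mono mT).symm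
  have cB : Reach Q b1 t1 := ((z2a.mono mB).trans (z2b.mono mL).symm).trans cL
  have cR : Reach Q r1 t1 := (z3b.mono mR).trans (z3a.mono mT).symm
  refine ⟨t1, fun v w hv hw hvw => ?_⟩
  have hv' := mem_box.1 hv
  have hw' := mem_box.1 hvw.right_mem.2
  simp only [Prod.fst_zero, Prod.snd_zero] at hv' hw'
  have hQs : ∀ w ∈ Q, -(2 * s) ≤ w.1 ∧ w.1 ≤ 2 * s := by
    rintro w ⟨-, hw⟩; have := mem_box.1 hw; simp only [Prod.fst_zero, Prod.snd_zero] at this; omega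
  have hcase : w.2 = 2 * s ∨ w.2 = -(2 * s) ∨ w.1 = 2 * s ∨ w.1 = -(2 * s) := by
    rw [nrm_zero] at hw
    simp only [abs_eq_max_neg] at hw
    omega
  rcases hcase with h | h | h | h
  · obtain ⟨z, za, zb⟩ := meet (fun w hw => hw.2) hQs hT ht1 ht2 hvw (by omega) (by omega)
    exact zb.trans (za.mono mT).symm
  · obtain ⟨z, za, zb⟩ := meet (fun w hw => hw.2) hQs hB hb1 hb2 hvw.symm (by omega) (by omega)
    exact (hvw.trans zb).trans ((za.mono mB).symm.trans cB)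
  · -- right side: swap the coordinates
    have hR' : Reach (swp ⁻¹' S ∩ rect (-(2 * s)) (2 * s) s (2 * s)) (swp r1) (swp r2) := by
      refine hR.map adj_swp ?_
      rintro r ⟨hr, hr1⟩
      refine ⟨by rw [Set.mem_preimage, swp_swp]; exact hr, ?_⟩
      rw [mem_rect] at hr1 ⊢
      unfold swp
      exact ⟨hr1.2, hr1.1⟩
    have hvw' : Reach (swp ⁻¹' Q) (swp v) (swp w) := by
      refine hvw.map adj_swp ?_
      intro r hr
      rw [Set.mem_preimage, swp_swp]; exact hr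
    obtain ⟨z, za, zb⟩ := meet (fun w hw => hw.2) (fun w hw => by
      have hw' : swp w ∈ Q := hw
      have := mem_box.1 hw'.2
      simp only [Prod.fst_zero, Prod.snd_zero, swp] at this; omega) hR' (by unfold swp; exact hr1)
      (by unfold swp; exact hr2) hvw' (by unfold swp; simp only; omega)
      (by unfold swp; simp only; omega)
    have za' : Reach Q r1 (swp z) := by
      have := za.map (T := Q) adj_swp (by
        rintro r ⟨hr, hr1⟩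
        refine ⟨hr, ?_⟩
        rw [mem_rect] at hr1
        rw [mem_box]
        simp only [Prod.fst_zero, Prod.snd_zero, swp]; omega)
      rwa [swp_swp] at this
    have zb' : Reach Q v (swp z) := by
      have := zb.map (T := Q) adj_swp (fun r hr => hr)
      rwa [swp_swp] at this
    exact zb'.trans (za'.symm.trans cR)
  · have hL' : Reach (swp ⁻¹' S ∩ rect (-(2 * s)) (2 * s) (-(2 * s)) (-s)) (swp l1) (swp l2) := by
      refine hL.map adj_swp ?_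
      rintro r ⟨hr, hr1⟩
      refine ⟨by rw [Set.mem_preimage, swp_swp]; exact hr, ?_⟩
      rw [mem_rect] at hr1 ⊢
      unfold swp
      exact ⟨hr1.2, hr1.1⟩
    have hvw' : Reach (swp ⁻¹' Q) (swp w) (swp v) := by
      refine hvw.symm.map adj_swp ?_
      intro r hr
      rw [Set.mem_preimage, swp_swp]; exact hr
    obtain ⟨z, za, zb⟩ := meet (fun w hw => hw.2) (fun w hw => by
      have hw' : swp w ∈ Q := hw
      have := mem_box.1 hw'.2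
      simp only [Prod.fst_zero, Prod.snd_zero, swp] at this; omega) hL' (by unfold swp; exact hl1)
      (by unfold swp; exact hl2) hvw' (by unfold swp; simp only; omega)
      (by unfold swp; simp only; omega)
    have za' : Reach Q l1 (swp z) := by
      have := za.map (T := Q) adj_swp (by
        rintro r ⟨hr, hr1⟩
        refine ⟨hr, ?_⟩
        rw [mem_rect] at hr1
        rw [mem_box]
        simp only [Prod.fst_zero, Prod.snd_zero, swp]; omega)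
      rwa [swp_swp] at this
    have zb' : Reach Q w (swp z) := by
      have := zb.map (T := Q) adj_swp (fun r hr => hr)
      rwa [swp_swp] at this
    exact (hvw.trans zb').trans (za'.symm.trans cL)

/-- local uniqueness: all connections from the box of radius `m` around `z` to distance `M` are
connected with each other in the box of radius `M` -/
def LU (z : ℤ × ℤ) (m M : ℤ) (S : Set (ℤ × ℤ)) : Prop :=
  ∀ v v' w w', v ∈ box z m → v' ∈ box z m → nrm z w = M → nrm z w' = M →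
    Reach (S ∩ box z M) v w → Reach (S ∩ box z M) v' w' → Reach (S ∩ box z M) v v'

theorem box_mono {z : ℤ × ℤ} {m M : ℤ} (h : m ≤ M) : box z m ⊆ box z M := fun p hp =>
  (show nrm z p ≤ m from hp).trans h

/-- the exit from a smaller box -/
theorem exit_box {z : ℤ × ℤ} {m M N : ℤ} (hmM : m ≤ M) (hMN : M ≤ N) {S : Set (ℤ × ℤ)}
    {v w : ℤ × ℤ} (hv : v ∈ box z m) (hw : M ≤ nrm z w) (h : Reach (S ∩ box z N) v w) :
    ∃ y, nrm z y = M ∧ Reach (S ∩ box z M) v y := by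
  have hv' : nrm z v ≤ m := hv
  obtain ⟨y, hy, h1, -⟩ := Reach.first_hit' (f := nrm z) (nrm_lip z) (k := M) (by omega) hw h
  refine ⟨y, hy, h1.mono ?_⟩
  rintro r ⟨⟨hr, -⟩, hr2⟩
  exact ⟨hr, hr2⟩

theorem LU.extend {z : ℤ × ℤ} {m M N : ℤ} (hmM : m ≤ M) (hMN : M ≤ N) {S : Set (ℤ × ℤ)}
    (h : LU z m M S) : LU z m N S := by
  intro v v' w w' hv hv' hw hw' h1 h2
  obtain ⟨y, hy, h3⟩ := exit_box hmM hMN hv (by omega) h1
  obtain ⟨y', hy', h4⟩ := exit_box hmM hMN hv' (by omega) h2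
  exact (h v v' y y' hv hv' hy hy' h3 h4).mono
    (Set.inter_subset_inter_right _ (box_mono hMN))

theorem Ring.lu {s m : ℤ} (hs : 0 < s) (hm : m ≤ s) {S : Set (ℤ × ℤ)} (h : Ring s S) :
    LU 0 m (2 * s) S := by
  obtain ⟨r, hr⟩ := h.hub hs
  intro v v' w w' hv hv' hw hw' h1 h2
  exact (hr v w (box_mono hm hv) hw h1).trans (hr v' w' (box_mono hm hv') hw' h2).symm

/-- an arm to the right side of the box -/
def Arm (z : ℤ × ℤ) (m N lo hi : ℤ) (S : Set (ℤ × ℤ)) : Prop :=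
  ∃ v w, v ∈ box z m ∧ w.1 = z.1 + N ∧ z.2 + lo ≤ w.2 ∧ w.2 ≤ z.2 + hi ∧
    Reach (S ∩ box z N) v w

/-- an arm to the left side of the box -/
def ArmL (z : ℤ × ℤ) (m N : ℤ) (S : Set (ℤ × ℤ)) : Prop :=
  ∃ v w, v ∈ box z m ∧ w.1 = z.1 - N ∧ Reach (S ∩ box z N) v w

theorem nrm_eq_of_side {z w : ℤ × ℤ} {N : ℤ} (hN : w ∈ box z N) (h : w.1 = z.1 + N ∨ w.1 = z.1 - N) :
    nrm z w = N := by
  refine le_antisymm hN ?_
  unfold nrm
  simp only [abs_eq_max_neg]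
  omega

/-- One half of the geometric construction. -/
theorem half_cross {m M N' N α : ℤ} (hmM : m ≤ M) (hM : M ≤ N') (hN : N' ≤ N)
    {S : Set (ℤ × ℤ)} {z : ℤ × ℤ} (hz1 : z.1 = N' - N) (hz2 : z.2 = -α)
    (hU : Arm 0 m N' α N' S) (hD : Arm 0 m N' (-N') (-α) S) (hZ : Arm z m N 0 (2 * α) S)
    (hL : ArmL z m N S) (h0 : LU 0 m M S) (hz : LU z m M S) :
    ∃ p v w, p.1 = N' - 2 * N ∧ v ∈ box 0 m ∧ nrm 0 w = N' ∧ Reach (S ∩ box 0 N') v w ∧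
      Reach (S ∩ (box z N ∪ box 0 N')) p v := by
  obtain ⟨v1, w1, hv1, hw1, hw1a, hw1b, h1⟩ := hZ
  obtain ⟨v2, w2, hv2, hw2, h2⟩ := hL
  obtain ⟨v3, w3, hv3, hw3, hw3a, hw3b, h3⟩ := hU
  obtain ⟨v4, w4, hv4, hw4, hw4a, hw4b, h4⟩ := hD
  simp only [Prod.fst_zero, Prod.snd_zero, zero_add] at hw3 hw3a hw3b hw4 hw4a hw4b
  have n1 := nrm_eq_of_side h1.right_mem.2 (Or.inl hw1)
  have n2 := nrm_eq_of_side h2.right_mem.2 (Or.inr hw2)
  have n3 := nrm_eq_of_side h3.right_mem.2 (Or.inl (by simpa using hw3))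
  have n4 := nrm_eq_of_side h4.right_mem.2 (Or.inl (by simpa using hw4))
  have c12 := (hz.extend hmM (hM.trans hN)) v1 v2 w1 w2 hv1 hv2 n1 n2 h1 h2
  have c34 := (h0.extend hmM hM) v3 v4 w3 w4 hv3 hv4 n3 n4 h3 h4
  have g : Reach (S ∩ box z N) w2 w1 := (h2.symm.trans c12.symm).trans h1
  have b : Reach (S ∩ box 0 N') w3 w4 := (h3.symm.trans c34).trans h4
  obtain ⟨y, hy1, hy2⟩ := meet_barrier (a := N' - 2 * N) (b := N')
    (fun w hw => by have := mem_box.1 hw.2; omega)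
    (fun w hw => by
      have := mem_box.1 hw.2
      simp only [Prod.fst_zero, Prod.snd_zero] at this
      omega) g (by omega) (by omega) b hw3 (by omega) hw4 (by omega)
  refine ⟨w2, v3, w3, by omega, hv3, n3, h3, ?_⟩
  have m1 : S ∩ box z N ⊆ S ∩ (box z N ∪ box 0 N') :=
    Set.inter_subset_inter_right _ Set.subset_union_left
  have m2 : S ∩ box 0 N' ⊆ S ∩ (box z N ∪ box 0 N') :=
    Set.inter_subset_inter_right _ Set.subset_union_right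
  exact ((hy1.mono m1).trans (hy2.mono m2).symm).trans (h3.mono m2).symm

/-- The geometric construction. -/
theorem full_cross {m M N' N α : ℤ} (hm : 0 ≤ m) (hmM : m ≤ M) (hM : M ≤ N') (hN : N' ≤ N)
    {S : Set (ℤ × ℤ)} {z : ℤ × ℤ} (hz1 : z.1 = N' - N) (hz2 : z.2 = -α) (hα : 0 ≤ α)
    (hR : Arm 0 m N' α N' S ∧ Arm 0 m N' (-N') (-α) S ∧ Arm z m N 0 (2 * α) S ∧ ArmL z m N S)
    (hR' : Arm 0 m N' α N' (rfl1 ⁻¹' S) ∧ Arm 0 m N' (-N') (-α) (rfl1 ⁻¹' S) ∧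
      Arm z m N 0 (2 * α) (rfl1 ⁻¹' S) ∧ ArmL z m N (rfl1 ⁻¹' S))
    (h0 : LU 0 m M S) (hz : LU z m M S) (h0' : LU 0 m M (rfl1 ⁻¹' S))
    (hz' : LU z m M (rfl1 ⁻¹' S)) :
    HC (N' - 2 * N) (2 * N - N') (-N - α) (max (N - α) N') S := by
  obtain ⟨p, v, w, hp, hv, hw, h1, h2⟩ := half_cross hmM hM hN hz1 hz2 hR.1 hR.2.1 hR.2.2.1
    hR.2.2.2 h0 hz
  obtain ⟨p', v', w', hp', hv', hw', h1', h2'⟩ := half_cross hmM hM hN hz1 hz2 hR'.1 hR'.2.1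
    hR'.2.2.1 hR'.2.2.2 h0' hz'
  set U : Set (ℤ × ℤ) := S ∩ rect (N' - 2 * N) (2 * N - N') (-N - α) (max (N - α) N') with hU
  have m0 : S ∩ box 0 N' ⊆ U := by
    rintro r ⟨hr, hr'⟩
    refine ⟨hr, ?_⟩
    have := mem_box.1 hr'
    simp only [Prod.fst_zero, Prod.snd_zero] at this
    rw [mem_rect]
    omega
  have m1 : S ∩ (box z N ∪ box 0 N') ⊆ U := by
    rintro r ⟨hr, hr' | hr'⟩
    · refine ⟨hr, ?_⟩
      have := mem_box.1 hr'
      rw [mem_rect]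
      omega
    · exact m0 ⟨hr, hr'⟩
  have hb : ∀ (v : ℤ × ℤ) (k : ℤ), rfl1 v ∈ box 0 k ↔ v ∈ box 0 k := by
    intro v k
    rw [mem_box, mem_box]
    simp only [Prod.fst_zero, Prod.snd_zero, rfl1]
    omega
  have e1 : Reach (S ∩ box 0 N') (rfl1 v') (rfl1 w') := h1'.map adj_rfl1 (by
    rintro r ⟨hr, hr'⟩
    exact ⟨hr, (hb r N').2 hr'⟩)
  have e2 : Reach U (rfl1 p') (rfl1 v') := h2'.map adj_rfl1 (by
    rintro r ⟨hr, hr' | hr'⟩
    · refine ⟨hr, ?_⟩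
      have := mem_box.1 hr'
      rw [mem_rect]
      simp only [rfl1]
      omega
    · exact m0 ⟨hr, (hb r N').2 hr'⟩)
  have e3 : nrm 0 (rfl1 w') = N' := by
    rw [← hw', nrm_zero, nrm_zero]
    simp [rfl1]
  have c := (h0.extend hmM hM) v (rfl1 v') w (rfl1 w') hv ((hb v' m).2 hv') hw e3 h1 e1
  refine ⟨p, rfl1 p', hp, ?_, ((h2.mono m1).trans (c.mono m0)).trans e2.symm⟩
  simp only [rfl1]
  omega

end Run7.h485.Pl
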