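import Pool.Agent.Run7.h485.Chain

/-!
# Decay of the transition probabilities in the transversal directions
-/

namespace Run7.h485

open Finset
open Pool.Agent.H282R3.RW (V Dir vec nsq nsq_nonneg nsq_add_vec sq_le_nsq sum_dir card_dir)

noncomputable section

theorem sq_pair {x : ℝ} (hx : x ^ 2 ≤ 2 / 3) :
    ((1 + x) ^ 2)⁻¹ + ((1 - x) ^ 2)⁻¹ ≤ 2 * (1 + 21 * x ^ 2) := by
  have hx1 : x < 1 := by nlinarith [sq_nonneg (x - 1)]
  have hx2 : -1 < x := by nlinarith [sq_nonneg (x + 1)]
  have h1 : 0 < 1 + x := by linarith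
  have h2 : 0 < 1 - x := by linarith
  have h3 : 0 < 1 - x ^ 2 := by linarith
  have h4 : 1 + x ^ 2 ≤ (1 + 21 * x ^ 2) * (1 - x ^ 2) ^ 2 := by
    have h : (1 + 21 * x ^ 2) * (1 - x ^ 2) ^ 2 - (1 + x ^ 2) =
        x ^ 2 * ((2 - 3 * x ^ 2) * (9 - 7 * x ^ 2)) := by ring
    have h' : 0 ≤ x ^ 2 * ((2 - 3 * x ^ 2) * (9 - 7 * x ^ 2)) :=
      mul_nonneg (sq_nonneg x) (mul_nonneg (by linarith) (by linarith))
    linarith
  rw [← one_div, ← one_div, div_add_div _ _ (by positivity) (by positivity),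
    div_le_iff₀ (by positivity), ← mul_pow]
  have h5 : (1 + x) * (1 - x) = 1 - x ^ 2 := by ring
  rw [h5]
  have h6 : 1 * (1 - x) ^ 2 + (1 + x) ^ 2 * 1 = 2 * (1 + x ^ 2) := by ring
  rw [h6]
  linarith

variable {d : ℕ} [NeZero d]

/-- square of the norm of the transversal part -/
def nsqp (x : V d) : ℝ := ∑ i ∈ univ.erase 0, (x i : ℝ) ^ 2

theorem nsqp_nonneg (x : V d) : 0 ≤ nsqp x := sum_nonneg fun _ _ => sq_nonneg _

theorem nsq_eq (x : V d) : nsq x = (x 0 : ℝ) ^ 2 + nsqp x := by
  unfold nsq nsqp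
  rw [add_sum_erase univ (fun i => (x i : ℝ) ^ 2) (mem_univ 0)]

theorem sq_le_nsqp (x : V d) {i : Fin d} (hi : i ≠ 0) : (x i : ℝ) ^ 2 ≤ nsqp x :=
  single_le_sum (f := fun i => (x i : ℝ) ^ 2) (fun _ _ => sq_nonneg _)
    (mem_erase.2 ⟨hi, mem_univ i⟩)

theorem nsqp_add_vec (x : V d) {i : Fin d} (hi : i ≠ 0) (b : Bool) :
    nsqp (x + vec (i, b)) = nsqp x + 1 + (if b then 2 else -2) * (x i : ℝ) := by
  have h1 := nsq_eq (x + vec (i, b))
  have h2 := nsq_eq x
  have h3 := nsq_add_vec x i b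
  have h4 : (x + vec (i, b)) 0 = x 0 := by simp [vec, Ne.symm hi]
  rw [h4] at h1
  linarith

theorem nsqp_add_vec_zero (x : V d) (b : Bool) : nsqp (x + vec (0, b)) = nsqp x := by
  unfold nsqp
  refine sum_congr rfl fun i hi => ?_
  rw [mem_erase] at hi
  simp [vec, hi.1]

/-- the radius of the supersolution -/
def Rad (M : ℕ) (x : V d) (j : ℕ) (s : St d) : ℝ :=
  nsqp (s.2 - x) + 1 + j / 4 + 1 / (4 * M) * ((M : ℝ) + 1 - s.1.card)

/-- the supersolution -/
def Phi (M : ℕ) (g : ℤ → ℝ) (x : V d) (j : ℕ) (s : St d) : ℝ :=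
  g (s.2 0 + nt M j s.1.card) * (Rad M x j s ^ 2)⁻¹

theorem Rad_ge {M : ℕ} (x : V d) (j : ℕ) {s : St d} (hs : Valid M s) :
    nsqp (s.2 - x) + 1 + j / 4 ≤ Rad M x j s := by
  unfold Rad
  have h1 : ((s.1.card : ℕ) : ℝ) ≤ M + 1 := by exact_mod_cast hs.2
  have h2 : 0 ≤ 1 / (4 * (M : ℝ)) * ((M : ℝ) + 1 - s.1.card) :=
    mul_nonneg (by positivity) (by linarith)
  linarith

theorem Phi_super {M : ℕ} (hM1 : 1 ≤ M) (hMd : M + 84 ≤ d) {g : ℤ → ℝ} (hg : ∀ t, 0 ≤ g t)
    (x : V d) (j : ℕ) {s : St d} (hs : Valid M s) :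
    T M (Phi M g x j) s ≤ Phi M g x (j + 1) s := by
  obtain ⟨U, y⟩ := s
  have hM' : (1 : ℝ) ≤ M := by exact_mod_cast hM1
  have hcard1 : 1 ≤ U.card := card_pos.2 ⟨0, hs.1⟩
  have hRge := Rad_ge (M := M) x (j + 1) hs
  set R := Rad M x (j + 1) (U, y) with hR
  set n := nsqp (y - x) with hn
  have hn0 : 0 ≤ n := nsqp_nonneg _
  push_cast at hRge
  have hj : (0 : ℝ) ≤ j := Nat.cast_nonneg j
  have hR1 : n + 1 ≤ R := by linarith
  by_cases hU : U.card ≤ M
  · -- transversal step
    have hmpos : (84 : ℝ) ≤ (d : ℝ) - U.card := by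
      have h1 : ((U.card : ℕ) : ℝ) ≤ M := by exact_mod_cast hU
      have h2 : (M : ℝ) + 84 ≤ d := by exact_mod_cast hMd
      linarith
    set m := (d : ℝ) - U.card with hm
    set Q := R + 3 / 4 - 1 / (4 * (M : ℝ)) with hQ
    have hβ : 1 / (4 * (M : ℝ)) ≤ 1 / 4 := by
      rw [div_le_div_iff₀ (by positivity) (by norm_num)]; linarith
    have hQR : R + 1 / 2 ≤ Q := by rw [hQ]; linarith
    have hQn : n + 3 / 2 ≤ Q := by linarith
    have hQpos : 0 < Q := by linarith
    have hRpos : 0 < R := by linarith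
    set c := g (y 0 + nt M (j + 1) U.card) with hc
    have hpair : ∀ i ∉ U, Phi M g x j (nxt M (U, y) (i, true)) + Phi M g x j (nxt M (U, y) (i, false)) ≤
        c * ((Q ^ 2)⁻¹ * (2 * (1 + 21 * (2 * ((y - x) i : ℝ) / Q) ^ 2))) := by
      intro i hi
      have hi0 : i ≠ 0 := fun h => hi (h ▸ hs.1)
      have hval : ∀ b, Phi M g x j (nxt M (U, y) (i, b)) =
          c * ((Q + (if b then 2 else -2) * ((y - x) i : ℝ)) ^ 2)⁻¹ := by
        intro b
        unfold Phi
        have e1 : (nxt M (U, y) (i, b)).1.card = U.card + 1 := by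
          unfold nxt
          simp only [hU, if_true]
          exact card_insert_of_notMem hi
        have e2 : (nxt M (U, y) (i, b)).2 = y + vec (i, b) := rfl
        have e3 : (y + vec (i, b)) 0 = y 0 := by simp [vec, Ne.symm hi0]
        rw [e2, e3, e1]
        have e4 : nt M (j + 1) U.card = nt M j (U.card + 1) := by simp [nt, hU]
        rw [hc, e4]
        congr 3
        unfold Rad
        rw [e1, e2]
        have e5 : y + vec (i, b) - x = (y - x) + vec (i, b) := by abel
        rw [e5, nsqp_add_vec _ hi0, hQ, hR]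
        unfold Rad
        simp only
        push_cast
        ring
      rw [hval, hval]
      simp only [if_true, Bool.false_eq_true, if_false]
      rw [← mul_add]
      refine mul_le_mul_of_nonneg_left ?_ (hg _)
      set t := ((y - x) i : ℝ) with ht
      have htn : t ^ 2 ≤ n := by rw [ht, hn]; exact sq_le_nsqp _ hi0
      set u : ℝ := 2 * t / Q with hu
      have hu1 : u ^ 2 ≤ 2 / 3 := by
        rw [hu, div_pow, div_le_iff₀ (by positivity)]
        nlinarith [sq_nonneg (n - 3 / 2), mul_self_le_mul_self (by linarith : 0 ≤ n + 3 / 2) hQn]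
      have hQu : Q * u = 2 * t := by rw [hu]; field_simp
      have e1 : Q + 2 * t = Q * (1 + u) := by rw [mul_add, hQu, mul_one]
      have e2 : Q + -2 * t = Q * (1 - u) := by rw [mul_sub, hQu, mul_one]; ring
      rw [e1, e2, mul_pow, mul_pow, mul_inv, mul_inv, ← mul_add]
      exact mul_le_mul_of_nonneg_left (sq_pair hu1) (by positivity)
    have hT : T M (Phi M g x j) (U, y) = 1 / (2 * m) * ∑ i, (if i ∈ U then 0 else
        (Phi M g x j (nxt M (U, y) (i, true)) + Phi M g x j (nxt M (U, y) (i, false)))) := by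
      unfold T
      rw [Fintype.sum_prod_type, mul_sum]
      refine sum_congr rfl fun i _ => ?_
      rw [Fintype.sum_bool]
      unfold wt1
      simp only [hU, if_true]
      split_ifs
      · simp
      · rw [← hm]; ring
    rw [hT]
    have hsum : ∑ i, (if i ∈ U then 0 else
        (Phi M g x j (nxt M (U, y) (i, true)) + Phi M g x j (nxt M (U, y) (i, false)))) ≤
        c * ((Q ^ 2)⁻¹ * (2 * m + 168 * n / Q ^ 2)) := by
      have h1 : ∀ i, (if i ∈ U then 0 else
        (Phi M g x j (nxt M (U, y) (i, true)) + Phi M g x j (nxt M (U, y) (i, false)))) ≤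
        c * ((Q ^ 2)⁻¹ * (2 * (if i ∈ U then 0 else 1) +
          168 / Q ^ 2 * (if i = 0 then 0 else ((y - x) i : ℝ) ^ 2))) := by
        intro i
        by_cases hi : i ∈ U
        · simp only [hi, if_true]
          have : (0 : ℝ) ≤ (if i = 0 then 0 else ((y - x) i : ℝ) ^ 2) := by
            split_ifs <;> positivity
          have h2 := hg (y 0 + nt M (j + 1) U.card)
          rw [← hc] at h2
          positivity
        · have hi0 : i ≠ 0 := fun h => hi (h ▸ hs.1)
          simp only [hi, if_false, hi0]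
          refine (hpair i hi).trans (le_of_eq ?_)
          congr 2
          rw [div_pow]
          ring
      refine (sum_le_sum fun i _ => h1 i).trans (le_of_eq ?_)
      rw [← mul_sum, ← mul_sum, sum_add_distrib, ← mul_sum, ← mul_sum]
      congr 2
      have h4 : ∑ i : Fin d, (if i ∈ U then (0 : ℝ) else 1) = m := by
        have h5 : ∀ i : Fin d, (if i ∈ U then (0 : ℝ) else 1) = 1 - (if i ∈ U then 1 else 0) := by
          intro i; split_ifs <;> norm_num
        rw [sum_congr rfl fun i _ => h5 i, sum_sub_distrib, hm]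
        simp
      have h6 : ∑ i : Fin d, (if i = 0 then (0 : ℝ) else ((y - x) i : ℝ) ^ 2) = n := by
        rw [hn]
        unfold nsqp
        rw [← add_sum_erase univ _ (mem_univ (0 : Fin d))]
        simp only [if_true, zero_add]
        refine sum_congr rfl fun i hi => ?_
        rw [mem_erase] at hi
        simp [hi.1]
      rw [h4, h6]
      ring
    have hcn : 0 ≤ c := hg _
    calc 1 / (2 * m) * _ ≤ 1 / (2 * m) * (c * ((Q ^ 2)⁻¹ * (2 * m + 168 * n / Q ^ 2))) :=
          mul_le_mul_of_nonneg_left hsum (by positivity)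
      _ = c * ((Q ^ 2)⁻¹ * (1 + 84 * n / (m * Q ^ 2))) := by
          field_simp
          ring
      _ ≤ c * (R ^ 2)⁻¹ := by
          refine mul_le_mul_of_nonneg_left ?_ hcn
          have h1 : 84 * n / (m * Q ^ 2) ≤ 1 / Q := by
            rw [div_le_div_iff₀ (by positivity) hQpos]
            nlinarith [mul_nonneg hn0 hQpos.le, mul_nonneg (sub_nonneg.2 hmpos) (sq_nonneg Q),
              mul_nonneg (sub_nonneg.2 hQn) hQpos.le]
          have h2 : (Q ^ 2)⁻¹ * (1 + 1 / Q) ≤ (R ^ 2)⁻¹ := by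
            rw [inv_mul_le_iff₀ (by positivity), ← div_eq_mul_inv, le_div_iff₀ (by positivity)]
            have h3 : (1 + 1 / Q) * R ^ 2 = R ^ 2 + R * (R / Q) := by field_simp
            have h4 : R / Q ≤ 1 := by rw [div_le_one hQpos]; linarith
            rw [h3]
            nlinarith [mul_le_mul_of_nonneg_left h4 hRpos.le]
          refine le_trans ?_ h2
          exact mul_le_mul_of_nonneg_left (by linarith) (by positivity)
      _ = Phi M g x (j + 1) (U, y) := rfl
  · -- time step
    have hU' : U.card = M + 1 := le_antisymm hs.2 (by omega)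
    have hT : T M (Phi M g x j) (U, y) = Phi M g x j ({0}, y + vec (0, true)) := by
      unfold T
      rw [sum_eq_single (0, true)]
      · unfold wt1 nxt
        simp [hU]
      · intro e _ he
        unfold wt1
        simp [hU, he]
      · intro h; exact absurd (mem_univ _) h
    rw [hT]
    unfold Phi
    have e1 : ((y + vec (0, true) : V d) 0 : ℤ) = y 0 + 1 := by simp [vec]
    have e2 : nt M (j + 1) U.card = 1 + nt M j 1 := by simp [nt, hU]
    simp only [card_singleton]
    rw [e1, e2]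
    apply le_of_eq
    congr 2
    · push_cast; ring
    · unfold Rad
      simp only [card_singleton]
      have e3 : y + vec (0, true) - x = (y - x) + vec (0, true) := by abel
      rw [e3, nsqp_add_vec_zero, hU']
      push_cast
      field_simp
      ring

theorem Ti_decay {M : ℕ} (hM1 : 1 ≤ M) (hMd : M + 84 ≤ d) {g : ℤ → ℝ} (hg : ∀ t, 0 ≤ g t)
    (x : V d) (j : ℕ) {s : St d} (hs : Valid M s) :
    Ti M j (fun s => g (s.2 0) * ((nsqp (s.2 - x) + 1) ^ 2)⁻¹) s ≤
      2 * (g (s.2 0 + nt M j s.1.card) * ((nsqp (s.2 - x) + 1 + j / 4) ^ 2)⁻¹) := by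
  have hM : M + 1 < d := by omega
  have h1 : ∀ (j : ℕ) (s : St d), Valid M s → Ti M j (Phi M g x 0) s ≤ Phi M g x j s := by
    intro j
    induction j with
    | zero => intro s _; exact le_rfl
    | succ j ih =>
      intro s hs
      exact (T_mono' hM (fun s hs => ih s hs) hs).trans (Phi_super hM1 hMd hg x j hs)
  have h2 : ∀ s, Valid M s → g (s.2 0) * ((nsqp (s.2 - x) + 1) ^ 2)⁻¹ ≤ 2 * Phi M g x 0 s := by
    intro s hs
    have hn := nsqp_nonneg (s.2 - x)
    have hcard1 : 1 ≤ s.1.card := card_pos.2 ⟨0, hs.1⟩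
    have hM' : (1 : ℝ) ≤ M := by exact_mod_cast hM1
    unfold Phi
    simp only [nt, Nat.cast_zero, add_zero]
    rw [← mul_assoc, mul_comm 2, mul_assoc]
    refine mul_le_mul_of_nonneg_left ?_ (hg _)
    have hge := Rad_ge (M := M) x 0 hs
    have hle : Rad M x 0 s ≤ 5 / 4 * (nsqp (s.2 - x) + 1) := by
      unfold Rad
      have h3 : (1 : ℝ) ≤ s.1.card := by exact_mod_cast hcard1
      have h4 : 1 / (4 * (M : ℝ)) * ((M : ℝ) + 1 - s.1.card) ≤ 1 / (4 * (M : ℝ)) * M :=
        mul_le_mul_of_nonneg_left (by linarith) (by positivity)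
      have h5 : 1 / (4 * (M : ℝ)) * M = 1 / 4 := by field_simp
      rw [h5] at h4
      simp only [Nat.cast_zero, zero_div, add_zero]
      linarith
    simp only [Nat.cast_zero, zero_div, add_zero] at hge
    have hpos : 0 < Rad M x 0 s := by linarith
    rw [← one_div, ← one_div, mul_one_div, div_le_div_iff₀ (by positivity) (by positivity)]
    nlinarith [mul_self_le_mul_self hpos.le hle]
  calc Ti M j (fun s => g (s.2 0) * ((nsqp (s.2 - x) + 1) ^ 2)⁻¹) s
      ≤ Ti M j (fun s => 2 * Phi M g x 0 s) s := Ti_mono hM h2 j hs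
    _ = 2 * Ti M j (Phi M g x 0) s := Ti_const_mul _ _ _ _ _
    _ ≤ 2 * Phi M g x j s := mul_le_mul_of_nonneg_left (h1 j s hs) (by norm_num)
    _ ≤ _ := by
        refine mul_le_mul_of_nonneg_left ?_ (by norm_num)
        unfold Phi
        refine mul_le_mul_of_nonneg_left ?_ (hg _)
        have hn := nsqp_nonneg (s.2 - x)
        have hge := Rad_ge (M := M) x j hs
        have hj : (0 : ℝ) ≤ j := Nat.cast_nonneg j
        refine inv_anti₀ (by positivity) ?_
        exact pow_le_pow_left₀ (by positivity) hge 2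

end

end Run7.h485
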