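import Pool.Agent.H282R3.RW.Srw

/-!
# Random interlacements on `ℤ ^ d`: definitions

`V d = Fin d → ℤ`, `Dir d = Fin d × Bool` (the `2 d` directions), `vec : Dir d → V d` (the unit
vectors `± e_i`), `steps d` (the law of a sequence of independent uniform directions) and
`pos ω k` (the sum of the first `k` steps) come from `Pool.Agent.H282R3.RW`.
-/

namespace Run7.h485

open MeasureTheory
open Pool.Agent.H282R3.RW (V Dir vec steps pos)

/-- `esc K x` is the probability that simple random walk on `ℤ ^ d` started at `x` never returns
to the finite set `K`, that is, avoids `K` at all times `k ≥ 1`. -/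
noncomputable def esc {d : ℕ} [NeZero d] (K : Finset (V d)) (x : V d) : ℝ :=
  (steps d).real {ω | ∀ k, 1 ≤ k → x + pos ω k ∉ K}

/-- The capacity `cap K = ∑ x ∈ K, P_x (the walk never returns to K)`. -/
noncomputable def cap {d : ℕ} [NeZero d] (K : Finset (V d)) : ℝ := ∑ x ∈ K, esc K x

/-- `P` is the law of random interlacements at level `u`: a probability measure on the subsets `I`
of `ℤ ^ d` (with the σ-algebra generated by the events `x ∈ I`) such that
`P (I ∩ K = ∅) = exp (- u cap K)` for every finite `K`. -/
def IsInterlacement {d : ℕ} [NeZero d] (u : ℝ) (P : Measure (Set (V d))) : Prop :=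
  IsProbabilityMeasure P ∧
    ∀ K : Finset (V d), P {I | ∀ x ∈ K, x ∉ I} = ENNReal.ofReal (Real.exp (-(u * cap K)))

open Classical in
/-- The law of random interlacements at level `u ≥ 0`.  It exists and is unique, see
`existsUnique_interlacement`. -/
noncomputable def interlacement (d : ℕ) [NeZero d] (u : ℝ) : Measure (Set (V d)) :=
  if h : ∃ P : Measure (Set (V d)), IsInterlacement u P then h.choose else 0

/-- The nearest-neighbour graph of `ℤ ^ d`: `x` and `y` are adjacent iff `y = x ± e_i`. -/
def lattice (d : ℕ) : SimpleGraph (V d) where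
  Adj x y := ∃ a : Dir d, y = x + vec a
  symm := ⟨by
    rintro x y ⟨⟨i, b⟩, rfl⟩
    refine ⟨(i, !b), ?_⟩
    cases b <;> (ext j; by_cases h : j = i <;> simp [vec, h])⟩
  loopless := ⟨by
    rintro x ⟨⟨i, b⟩, h⟩
    have := congrFun h i
    cases b <;> simp [vec] at this⟩

/-- The connected component of `x` in the subset `S` of `ℤ ^ d` (empty if `x ∉ S`): the points
which are joined to `x` by a nearest-neighbour path inside `S`. -/
def cluster {d : ℕ} (S : Set (V d)) (x : V d) : Set (V d) :=
  {y | ∃ p : (lattice d).Walk x y, ∀ z ∈ p.support, z ∈ S}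

/-- The percolation function `θ(u)`: the probability that `0` lies in an infinite connected
component of the vacant set at level `u`. -/
noncomputable def theta (d : ℕ) [NeZero d] (u : ℝ) : ℝ :=
  (interlacement d u).real {I | (cluster Iᶜ 0).Infinite}

end Run7.h485
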