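import Pool.Agent.Run7.h485.Law

/-!
# Exploration of the vacant cluster
-/

namespace Run7.h485

open Finset MeasureTheory Filter Topology
open scoped ENNReal

variable {X : Type*} [DecidableEq X]

/-- `K` is joined to the root `o` inside `K`. -/
def Conn (G : SimpleGraph X) (o : X) (K : Finset X) : Prop :=
  ∀ y ∈ K, ∃ p : G.Walk o y, ∀ z ∈ p.support, z ∈ K

theorem Conn.singleton (G : SimpleGraph X) (o : X) : Conn G o {o} := by
  intro y hy
  rw [mem_singleton] at hy
  subst hy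
  exact ⟨SimpleGraph.Walk.nil, by simp⟩

theorem Conn.insert {G : SimpleGraph X} {o : X} {K : Finset X} (h : Conn G o K) {x y : X}
    (hy : y ∈ K) (hxy : G.Adj y x) : Conn G o (insert x K) := by
  intro z hz
  rw [mem_insert] at hz
  rcases hz with rfl | hz
  · obtain ⟨p, hp⟩ := h y hy
    refine ⟨p.concat hxy, fun w hw => ?_⟩
    rw [SimpleGraph.Walk.support_concat, List.mem_append, List.mem_singleton] at hw
    rcases hw with hw | rfl
    · exact mem_insert_of_mem (hp w hw)
    · exact mem_insert_self _ _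
  · obtain ⟨p, hp⟩ := h z hz
    exact ⟨p, fun w hw => mem_insert_of_mem (hp w hw)⟩

/-- the event that inside `Λ` the cluster of `o` has capacity at least `m` -/
def EvL (G : SimpleGraph X) (o : X) (c : Finset X → ℝ) (Λ : Finset X) (m : ℝ) : Set (Set X) :=
  {I | ∃ K, K ⊆ Λ ∧ o ∈ K ∧ Conn G o K ∧ (∀ x ∈ K, x ∉ I) ∧ m ≤ c K}

omit [DecidableEq X] in
theorem measurableSet_EvL (G : SimpleGraph X) (o : X) (c : Finset X → ℝ) (Λ : Finset X) (m : ℝ) :
    MeasurableSet (EvL G o c Λ m) := by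
  classical
  have : EvL G o c Λ m = ⋃ K ∈ Λ.powerset.filter (fun K => o ∈ K ∧ Conn G o K ∧ m ≤ c K),
      {I | ∀ x ∈ K, x ∉ I} := by
    ext I
    simp only [EvL, Set.mem_ofPred_eq, Set.mem_iUnion, mem_filter, mem_powerset, exists_prop]
    constructor
    · rintro ⟨K, h1, h2, h3, h4, h5⟩; exact ⟨K, ⟨h1, h2, h3, h5⟩, h4⟩
    · rintro ⟨K, ⟨h1, h2, h3, h5⟩, h4⟩; exact ⟨K, h1, h2, h3, h4, h5⟩
  rw [this]
  exact Finset.measurableSet_biUnion _ fun K _ => measurableSet_avoid K

theorem exhausted {G : SimpleGraph X} {o : X} {Λ A O : Finset X} {I : Set X} (hI : I ∈ locSet A O)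
    (hoA : o ∈ A) (hex : ∀ x ∈ Λ, ∀ y ∈ A, G.Adj y x → x ∉ A → x ∈ O) {K : Finset X}
    (hK : K ⊆ Λ) (hc : Conn G o K) (hv : ∀ x ∈ K, x ∉ I) : K ⊆ A := by
  have key : ∀ (a b : X) (p : G.Walk a b), a ∈ A → (∀ z ∈ p.support, z ∈ K) → b ∈ A := by
    intro a b p
    induction p with
    | nil => intro h _; exact h
    | cons h p ih =>
      rename_i u v w
      intro hu hs
      refine ih ?_ fun z hz => hs z (by simp [hz])
      by_contra hv'
      have hvK : v ∈ K := hs v (by simp)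
      exact hv v hvK (hI.2 v (hex v (hK hvK) u hu h hv'))
  intro x hx
  obtain ⟨p, hp⟩ := hc x hx
  exact key o x p hoA hp

theorem combine {x x' y y' z z' C : ℝ} (hy : 0 ≤ y) (hy' : 0 ≤ y') (hz : 0 ≤ z) (hz' : 0 ≤ z')
    (hC : 0 ≤ C) (h : x ^ 2 ≤ y * z * C) (h' : x' ^ 2 ≤ y' * z' * C) :
    (x + x') ^ 2 ≤ (y + y') * (z + z') * C := by
  have h1 := sum_sq_le_sum_mul_sum_of_sq_le_mul (univ : Finset Bool)
    (r := fun b => if b then x else x') (f := fun b => if b then y else y')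
    (g := fun b => if b then z * C else z' * C)
    (by intro b _; cases b <;> simp [hy, hy'])
    (by intro b _; cases b <;> simp <;> positivity)
    (by intro b _; cases b <;> simp <;> linarith)
  simp only [Fintype.sum_bool, if_true, Bool.false_eq_true, if_false] at h1
  calc (x + x') ^ 2 ≤ (y + y') * (z * C + z' * C) := h1
    _ = _ := by ring

/-- The information inequality for exploration of the vacant cluster. -/
theorem explore {c : Finset X → ℝ} (hc : HitFun c) (hc1 : ∀ x, c {x} ≤ 1) {G : SimpleGraph X}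
    {D : ℝ} (hD0 : 0 ≤ D)
    (hD : ∀ A O : Finset X, (∀ x ∈ O, ∃ y ∈ A, G.Adj y x) → c (A ∪ O) ≤ D * c A) {o : X}
    {a b w : ℝ} (ha : 0 ≤ a) (hb : 0 ≤ b) (hw : 0 ≤ w) (hab : a ^ 2 = b * w)
    {Pa Pb Pw : Measure (Set X)} (hPa : IsLaw c a Pa) (hPb : IsLaw c b Pb) (hPw : IsLaw c w Pw)
    {Λ : Finset X} {m : ℝ} {E : Set (Set X)}
    (hE1 : ∀ A O, o ∈ A → Conn G o A → A ⊆ Λ → m ≤ c A →
      (locSet A O ⊆ E ∨ Disjoint (locSet A O) E))
    (hE2 : ∀ A O, o ∈ A → Conn G o A → A ⊆ Λ → c A < m →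
      (∀ x ∈ Λ, ∀ y ∈ A, G.Adj y x → x ∉ A → x ∈ O) →
      (locSet A O ⊆ E ∨ Disjoint (locSet A O) E)) :
    ∀ (n : ℕ) (A O : Finset X), (Λ \ (A ∪ O)).card = n → o ∈ A → Conn G o A → A ⊆ Λ → O ⊆ Λ →
      c A ≤ m + 1 → (∀ x ∈ O, ∃ y ∈ A, G.Adj y x) → Disjoint A O →
      Pa.real (locSet A O ∩ E) ^ 2 ≤ Pb.real (locSet A O ∩ E) * Pw.real (locSet A O) *
        Real.exp ((b + w - 2 * a) * (D * (m + 1))) := by
  have := hPa.prob
  have := hPb.prob
  have := hPw.prob
  have hpos : 0 ≤ b + w - 2 * a := by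
    nlinarith [sq_nonneg (b - w), sq_nonneg (b + w - 2 * a), sq_nonneg (b + w + 2 * a)]
  have leaf : ∀ A O : Finset X, c A ≤ m + 1 → (∀ x ∈ O, ∃ y ∈ A, G.Adj y x) → Disjoint A O →
      (locSet A O ⊆ E ∨ Disjoint (locSet A O) E) →
      Pa.real (locSet A O ∩ E) ^ 2 ≤ Pb.real (locSet A O ∩ E) * Pw.real (locSet A O) *
        Real.exp ((b + w - 2 * a) * (D * (m + 1))) := by
    intro A O hcA hO hAO h
    rcases h with h | h
    · rw [Set.inter_eq_left.2 h, hPa.loc, hPb.loc, hPw.loc]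
      refine (fS_sq_le hc hAO ha hb hw hab).trans ?_
      refine mul_le_mul_of_nonneg_left ?_ (mul_nonneg (fS_nonneg hc hAO hb) (fS_nonneg hc hAO hw))
      refine Real.exp_le_exp.2 (mul_le_mul_of_nonneg_left ?_ hpos)
      exact (hD A O hO).trans (mul_le_mul_of_nonneg_left hcA hD0)
    · rw [Set.disjoint_iff_inter_eq_empty.1 h]
      simp
  intro n
  induction n using Nat.strong_induction_on with
  | _ n ih =>
  intro A O hn hoA hA hAΛ hOΛ hcA hO hAO
  by_cases hm : m ≤ c A
  · exact leaf A O hcA hO hAO (hE1 A O hoA hA hAΛ hm)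
  push Not at hm
  by_cases hex : ∀ x ∈ Λ, ∀ y ∈ A, G.Adj y x → x ∉ A → x ∈ O
  · exact leaf A O hcA hO hAO (hE2 A O hoA hA hAΛ hm hex)
  push Not at hex
  obtain ⟨x, hxΛ, y, hyA, hyx, hxA, hxO⟩ := hex
  have hx : x ∈ Λ \ (A ∪ O) := by
    rw [Finset.mem_sdiff, mem_union]
    exact ⟨hxΛ, fun h => h.elim hxA hxO⟩
  have hcard1 : (Λ \ (insert x A ∪ O)).card < n := by
    rw [← hn]
    refine card_lt_card ⟨?_, fun h => ?_⟩
    · exact sdiff_subset_sdiff Subset.rfl (union_subset_union_left (subset_insert _ _))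
    · have := h hx
      rw [Finset.mem_sdiff, mem_union, mem_insert] at this
      exact this.2 (Or.inl (Or.inl rfl))
  have hcard2 : (Λ \ (A ∪ insert x O)).card < n := by
    rw [← hn]
    refine card_lt_card ⟨?_, fun h => ?_⟩
    · exact sdiff_subset_sdiff Subset.rfl (union_subset_union_right (subset_insert _ _))
    · have := h hx
      rw [Finset.mem_sdiff, mem_union, mem_insert] at this
      exact this.2 (Or.inr (Or.inl rfl))
  have i1 := ih _ hcard1 (insert x A) O rfl (mem_insert_of_mem hoA) (hA.insert hyA hyx)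
    (insert_subset hxΛ hAΛ) hOΛ (by
      have h1 : c (insert x A) ≤ c {x} + c A := by
        rw [insert_eq]; exact hc.union_le _ _
      have := hc1 x
      linarith) (fun z hz => by
      obtain ⟨y', hy', h⟩ := hO z hz
      exact ⟨y', mem_insert_of_mem hy', h⟩) (by
      rw [disjoint_insert_left]
      exact ⟨hxO, hAO⟩)
  have i2 := ih _ hcard2 A (insert x O) rfl hoA hA hAΛ (insert_subset hxΛ hOΛ) hcA (fun z hz => by
      rw [mem_insert] at hz
      rcases hz with rfl | hz
      · exact ⟨y, hyA, hyx⟩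
      · exact hO z hz) (by
      rw [disjoint_insert_right]
      exact ⟨hxA, hAO⟩)
  have hsplit : ∀ (P : Measure (Set X)) [IsProbabilityMeasure P] (F : Set (Set X)),
      P.real (locSet A O ∩ F) = P.real (locSet (insert x A) O ∩ F) +
        P.real (locSet A (insert x O) ∩ F) := by
    intro P _ F
    have h1 := measureReal_inter_add_sdiff (μ := P) (s := locSet A O ∩ F) (measurableSet_mem x)
    have h2 : (locSet A O ∩ F) ∩ {s | x ∈ s} = locSet A (insert x O) ∩ F := by
      ext I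
      simp only [locSet, Set.mem_inter_iff, Set.mem_ofPred_eq, mem_insert, forall_eq_or_imp]
      tauto
    have h3 : (locSet A O ∩ F) \ {s | x ∈ s} = locSet (insert x A) O ∩ F := by
      ext I
      simp only [locSet, Set.mem_sdiff, Set.mem_inter_iff, Set.mem_ofPred_eq, mem_insert,
        forall_eq_or_imp]
      tauto
    rw [h2, h3] at h1
    linarith
  have hw' : Pw.real (locSet A O) = Pw.real (locSet (insert x A) O) +
      Pw.real (locSet A (insert x O)) := by
    have := hsplit Pw Set.univ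
    simpa using this
  rw [hsplit Pa E, hsplit Pb E, hw']
  exact combine measureReal_nonneg measureReal_nonneg measureReal_nonneg measureReal_nonneg
    (Real.exp_pos _).le i1 i2

end Run7.h485
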