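import Pool.Agent.Run7.h485.Alt

/-!
# Existence and uniqueness of the random set with a given avoidance functional
-/

namespace Run7.h485

open Finset MeasureTheory Filter Topology
open scoped ENNReal

section Kolmogorov

variable {X : Type*}

/-- Kolmogorov extension for `Bool`-valued families. -/
theorem exists_projLimit (P : ∀ J : Finset X, Measure (J → Bool))
    [∀ J, IsProbabilityMeasure (P J)]
    (hP : IsProjectiveMeasureFamily (α := fun _ : X => Bool) P) :
    ∃ μ : Measure (X → Bool), IsProjectiveLimit (α := fun _ : X => Bool) μ P := by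
  classical
  have hzero : ∀ A : ℕ → Set (X → Bool), (∀ n, A n ∈ measurableCylinders (fun _ : X => Bool)) →
      Antitone A → (⋂ n, A n = ∅) →
      Tendsto (fun n => projectiveFamilyContent hP (A n)) atTop (𝓝 0) := by
    intro A hA hanti hempty
    have hclosed : ∀ n, IsClosed (A n) := by
      intro n
      obtain ⟨I, S, hS, hAS⟩ := (mem_measurableCylinders _).1 (hA n)
      rw [hAS]
      have : IsClosed S := isClosed_discrete S
      refine this.preimage ?_
      exact continuous_pi fun i => continuous_apply (i : X)
    have hex : ∃ n, A n = ∅ := by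
      by_contra hne
      push Not at hne
      have := IsCompact.nonempty_iInter_of_sequence_nonempty_isCompact_isClosed A
        (fun n => hanti (Nat.le_succ n)) (fun n => hne n)
        ((hclosed 0).isCompact) hclosed
      rw [hempty] at this
      exact Set.not_nonempty_empty this
    obtain ⟨n, hn⟩ := hex
    refine tendsto_atTop_of_eventually_const (i₀ := n) fun m hm => ?_
    have : A m = ∅ := Set.subset_empty_iff.1 (hn ▸ hanti hm)
    rw [this]
    exact addContent_empty
  have hsub : (projectiveFamilyContent hP).IsSigmaSubadditive := by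
    refine isSigmaSubadditive_of_addContent_iUnion_eq_tsum
      isSetRing_measurableCylinders (fun f hf hf_Union hf' ↦ ?_)
    exact addContent_iUnion_eq_sum_of_tendsto_zero isSetRing_measurableCylinders
      (projectiveFamilyContent hP) (fun s hs ↦ projectiveFamilyContent_ne_top _)
      (fun A hA hanti hempty ↦ hzero A hA hanti hempty) hf hf_Union hf'
  refine ⟨(projectiveFamilyContent hP).measure isSetSemiring_measurableCylinders
      generateFrom_measurableCylinders.ge hsub, fun I => ?_⟩
  ext s hs
  rw [Measure.map_apply (measurable_restrict I) hs, AddContent.measure_eq,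
    ← cylinder, projectiveFamilyContent_cylinder hP hs]
  · exact generateFrom_measurableCylinders.symm
  · exact cylinder_mem_measurableCylinders _ _ hs

end Kolmogorov

/-- Uniqueness for `Bool`-valued fields. -/
theorem ext_avoid_bool {Y : Type*} {μ ν : Measure (Y → Bool)} [IsProbabilityMeasure μ]
    [IsProbabilityMeasure ν]
    (h : ∀ K : Finset Y, μ {g | ∀ y ∈ K, g y = false} = ν {g | ∀ y ∈ K, g y = false}) :
    μ = ν := by
  classical
  refine MeasureTheory.ext_of_generate_finite
    (C := Set.range fun K : Finset Y => {g : Y → Bool | ∀ y ∈ K, g y = false}) ?_ ?_ ?_ ?_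
  · refine le_antisymm ?_ ?_
    · refine iSup_le fun y => ?_
      rintro _ ⟨S, -, rfl⟩
      have hb : ∀ b : Bool, MeasurableSet[MeasurableSpace.generateFrom
          (Set.range fun K : Finset Y => {g : Y → Bool | ∀ y ∈ K, g y = false})]
          {g : Y → Bool | g y = b} := by
        have h0 : MeasurableSet[MeasurableSpace.generateFrom
          (Set.range fun K : Finset Y => {g : Y → Bool | ∀ y ∈ K, g y = false})]
          {g : Y → Bool | g y = false} := by
          refine MeasurableSpace.measurableSet_generateFrom ⟨{y}, ?_⟩
          ext g; simp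
        intro b
        cases b with
        | false => exact h0
        | true =>
          have : {g : Y → Bool | g y = true} = {g : Y → Bool | g y = false}ᶜ := by
            ext g; simp
          rw [this]
          exact h0.compl
      have : (fun g : Y → Bool => g y) ⁻¹' S = ⋃ b ∈ S, {g : Y → Bool | g y = b} := by
        ext g; simp
      rw [this]
      exact MeasurableSet.biUnion (Set.to_countable S) fun b _ => hb b
    · refine MeasurableSpace.generateFrom_le ?_
      rintro _ ⟨K, rfl⟩
      have : {g : Y → Bool | ∀ y ∈ K, g y = false} = ⋂ y ∈ K, {g : Y → Bool | g y = false} := by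
        ext g; simp
      simp only [this]
      exact Finset.measurableSet_biInter K fun y _ =>
        measurableSet_eq_fun (measurable_pi_apply y) measurable_const
  · rintro _ ⟨K, rfl⟩ _ ⟨K', rfl⟩ _
    refine ⟨K ∪ K', ?_⟩
    ext g
    simp only [Set.mem_ofPred_eq, Set.mem_inter_iff, mem_union]
    constructor
    · intro h; exact ⟨fun y hy => h y (Or.inl hy), fun y hy => h y (Or.inr hy)⟩
    · rintro ⟨h1, h2⟩ y (hy | hy)
      · exact h1 y hy
      · exact h2 y hy
  · rintro _ ⟨K, rfl⟩
    exact h K
  · simp

/-- Uniqueness for random sets. -/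
theorem ext_avoid {Y : Type*} {μ ν : Measure (Set Y)} [IsProbabilityMeasure μ]
    [IsProbabilityMeasure ν]
    (h : ∀ K : Finset Y, μ {I | ∀ y ∈ K, y ∉ I} = ν {I | ∀ y ∈ K, y ∉ I}) :
    μ = ν := by
  classical
  refine MeasureTheory.ext_of_generate_finite
    (C := Set.range fun K : Finset Y => {I : Set Y | ∀ y ∈ K, y ∉ I}) ?_ ?_ ?_ ?_
  · refine le_antisymm ?_ ?_
    · change MeasurableSpace.pi ≤ _
      refine iSup_le fun y => ?_
      rintro _ ⟨S, -, rfl⟩
      have h0 : MeasurableSet[MeasurableSpace.generateFrom
          (Set.range fun K : Finset Y => {I : Set Y | ∀ y ∈ K, y ∉ I})]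
          {I : Set Y | y ∉ I} := by
          refine MeasurableSpace.measurableSet_generateFrom ⟨{y}, ?_⟩
          ext g; simp
      have hb : ∀ b : Prop, MeasurableSet[MeasurableSpace.generateFrom
          (Set.range fun K : Finset Y => {I : Set Y | ∀ y ∈ K, y ∉ I})]
          {I : Set Y | (y ∈ I) = b} := by
        intro b
        by_cases hb : b
        · have : {I : Set Y | (y ∈ I) = b} = {I : Set Y | y ∉ I}ᶜ := by
            ext g; simp [hb]
          rw [this]
          exact h0.compl
        · have : {I : Set Y | (y ∈ I) = b} = {I : Set Y | y ∉ I} := by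
            ext g; simp [hb]
          rw [this]
          exact h0
      have : (fun g : Y → Prop => g y) ⁻¹' S = ⋃ b ∈ S, {I : Set Y | (y ∈ I) = b} := by
        ext g
        rw [Set.mem_preimage]
        constructor
        · intro h
          exact Set.mem_biUnion (x := (g y : Prop)) h rfl
        · intro h
          obtain ⟨b, hb, h⟩ := Set.mem_iUnion₂.1 h
          have h2 : g y = b := h
          rw [h2]
          exact hb
      rw [this]
      exact MeasurableSet.biUnion (Set.to_countable S) fun b _ => hb b
    · refine MeasurableSpace.generateFrom_le ?_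
      rintro _ ⟨K, rfl⟩
      have : {I : Set Y | ∀ y ∈ K, y ∉ I} = ⋂ y ∈ K, {I : Set Y | y ∉ I} := by
        ext g; simp
      simp only [this]
      exact Finset.measurableSet_biInter K fun y _ => measurableSet_notMem y
  · rintro _ ⟨K, rfl⟩ _ ⟨K', rfl⟩ _
    refine ⟨K ∪ K', ?_⟩
    ext g
    simp only [Set.mem_ofPred_eq, Set.mem_inter_iff, mem_union]
    constructor
    · intro h; exact ⟨fun y hy => h y (Or.inl hy), fun y hy => h y (Or.inr hy)⟩
    · rintro ⟨h1, h2⟩ y (hy | hy)
      · exact h1 y hy
      · exact h2 y hy
  · rintro _ ⟨K, rfl⟩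
    exact h K
  · simp

end Run7.h485
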