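import Pool.Agent.Run7.h485.Explore

/-!
# The limit from above of the probability of a cluster of large capacity (general form)
-/

namespace Run7.h485

open Finset MeasureTheory Filter Topology
open scoped ENNReal

variable {X : Type*} [DecidableEq X]

/-- the event that the cluster of `o` has capacity at least `m` -/
def Ev (G : SimpleGraph X) (o : X) (c : Finset X → ℝ) (m : ℝ) : Set (Set X) :=
  {I | ∃ K : Finset X, o ∈ K ∧ Conn G o K ∧ (∀ x ∈ K, x ∉ I) ∧ m ≤ c K}

omit [DecidableEq X] in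
theorem measurableSet_Ev [Countable X] (G : SimpleGraph X) (o : X) (c : Finset X → ℝ) (m : ℝ) :
    MeasurableSet (Ev G o c m) := by
  classical
  have : Ev G o c m = ⋃ K ∈ {K : Finset X | o ∈ K ∧ Conn G o K ∧ m ≤ c K},
      {I | ∀ x ∈ K, x ∉ I} := by
    ext I
    simp only [Ev, Set.mem_ofPred_eq, Set.mem_iUnion, exists_prop]
    constructor
    · rintro ⟨K, h2, h3, h4, h5⟩; exact ⟨K, ⟨h2, h3, h5⟩, h4⟩
    · rintro ⟨K, ⟨h2, h3, h5⟩, h4⟩; exact ⟨K, h2, h3, h4, h5⟩
  rw [this]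
  exact MeasurableSet.biUnion (Set.to_countable _) fun K _ => measurableSet_avoid K

omit [DecidableEq X] in
theorem Ev_anti (G : SimpleGraph X) (o : X) (c : Finset X → ℝ) {m m' : ℝ} (h : m ≤ m') :
    Ev G o c m' ⊆ Ev G o c m := by
  rintro I ⟨K, h1, h2, h3, h4⟩
  exact ⟨K, h1, h2, h3, h.trans h4⟩

omit [DecidableEq X] in
theorem EvL_anti (G : SimpleGraph X) (o : X) (c : Finset X → ℝ) (Λ : Finset X) {m m' : ℝ}
    (h : m ≤ m') : EvL G o c Λ m' ⊆ EvL G o c Λ m := by
  rintro I ⟨K, h0, h1, h2, h3, h4⟩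
  exact ⟨K, h0, h1, h2, h3, h.trans h4⟩

omit [DecidableEq X] in
theorem EvL_subset (G : SimpleGraph X) (o : X) (c : Finset X → ℝ) (Λ : Finset X) (m : ℝ) :
    EvL G o c Λ m ⊆ Ev G o c m := by
  rintro I ⟨K, h0, h1, h2, h3, h4⟩
  exact ⟨K, h1, h2, h3, h4⟩

/-- an exhaustion by finite sets -/
theorem exists_exhaust (X : Type*) [DecidableEq X] [Countable X] :
    ∃ Λ : ℕ → Finset X, Monotone Λ ∧ ∀ K : Finset X, ∃ n, K ⊆ Λ n := by
  obtain ⟨f, hf⟩ := exists_injective_nat X
  have hfin : ∀ n, (f ⁻¹' (Set.Iio n)).Finite := fun n =>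
    (Set.finite_Iio n).preimage hf.injOn
  refine ⟨fun n => (hfin n).toFinset, fun n m hnm x => ?_, fun K => ⟨(K.sup f) + 1, fun x hx => ?_⟩⟩
  · simp only [Set.Finite.mem_toFinset, Set.mem_preimage, Set.mem_Iio]
    omega
  · simp only [Set.Finite.mem_toFinset, Set.mem_preimage, Set.mem_Iio]
    have := le_sup (f := f) hx
    omega

/-- The information inequality for the difference events, in a finite window. -/
theorem diff_window {c : Finset X → ℝ} (hc : HitFun c) (hc1 : ∀ x, c {x} ≤ 1) {G : SimpleGraph X}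
    {D : ℝ} (hD0 : 0 ≤ D)
    (hD : ∀ A O : Finset X, (∀ x ∈ O, ∃ y ∈ A, G.Adj y x) → c (A ∪ O) ≤ D * c A) {o : X}
    {u v : ℝ} (hu : 0 < u) (hv : 0 ≤ v)
    {P Q : Measure (Set X)} (hP : IsLaw c u P) (hQ : IsLaw c v Q)
    {Λ : Finset X} {m0 m : ℝ} (hm0 : 0 ≤ m0) (hm : m0 ≤ m) :
    Q.real (EvL G o c Λ m0 \ EvL G o c Λ m) ^ 2 ≤ P.real (EvL G o c Λ m0 \ EvL G o c Λ m) *
      Real.exp ((v - u) ^ 2 / u * (D * (m + 1))) := by
  have := hP.prob
  have := hQ.prob
  obtain ⟨R, hR⟩ := exists_law hc (s := v ^ 2 / u) (by positivity)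
  have := hR.prob
  set E := EvL G o c Λ m0 \ EvL G o c Λ m with hE
  by_cases hoΛ : o ∈ Λ
  swap
  · have : E = ∅ := by
      rw [Set.eq_empty_iff_forall_notMem]
      rintro I ⟨⟨K, h0, h1, -⟩, -⟩
      exact hoΛ (h0 h1)
    rw [this]
    simp
  have hE1 : ∀ A O, o ∈ A → Conn G o A → A ⊆ Λ → m ≤ c A →
      (locSet A O ⊆ E ∨ Disjoint (locSet A O) E) := by
    intro A O ho hA hAΛ hmA
    right
    rw [Set.disjoint_left]
    rintro I hI ⟨-, h⟩
    exact h ⟨A, hAΛ, ho, hA, hI.1, hmA⟩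
  have hE2 : ∀ A O, o ∈ A → Conn G o A → A ⊆ Λ → c A < m →
      (∀ x ∈ Λ, ∀ y ∈ A, G.Adj y x → x ∉ A → x ∈ O) →
      (locSet A O ⊆ E ∨ Disjoint (locSet A O) E) := by
    intro A O ho hA hAΛ hmA hex
    by_cases hm0A : m0 ≤ c A
    · left
      intro I hI
      refine ⟨⟨A, hAΛ, ho, hA, hI.1, hm0A⟩, ?_⟩
      rintro ⟨K, h0, h1, h2, h3, h4⟩
      have := exhausted hI ho hex h0 h2 h3
      exact absurd (h4.trans (hc.mono this)) (not_le.2 hmA)
    · right
      rw [Set.disjoint_left]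
      rintro I hI ⟨⟨K, h0, h1, h2, h3, h4⟩, -⟩
      have := exhausted hI ho hex h0 h2 h3
      exact hm0A (h4.trans (hc.mono this))
  have hkey := explore hc hc1 hD0 hD (o := o) hv hu.le (by positivity : 0 ≤ v ^ 2 / u)
    (by field_simp) hQ hP hR (Λ := Λ) (m := m) (E := E) hE1 hE2 _ {o} ∅ rfl (mem_singleton_self o)
    (Conn.singleton G o) (singleton_subset_iff.2 hoΛ) (empty_subset _)
    (by have := hc1 o; linarith) (by simp) (by simp)
  have hsub : locSet {o} ∅ ∩ E = E := by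
    rw [Set.inter_eq_right]
    rintro I ⟨⟨K, h0, h1, h2, h3, h4⟩, -⟩
    refine ⟨fun x hx => ?_, by simp⟩
    rw [mem_singleton] at hx
    subst hx
    exact h3 _ h1
  rw [hsub] at hkey
  have hexp : u + v ^ 2 / u - 2 * v = (v - u) ^ 2 / u := by
    field_simp
    ring
  rw [hexp] at hkey
  refine hkey.trans ?_
  refine mul_le_mul_of_nonneg_right ?_ (Real.exp_pos _).le
  exact mul_le_of_le_one_right measureReal_nonneg measureReal_le_one

theorem tendsto_EvL [Countable X] {G : SimpleGraph X} {o : X} {c : Finset X → ℝ}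
    {Λ : ℕ → Finset X} (hΛ : Monotone Λ) (hΛ' : ∀ K : Finset X, ∃ n, K ⊆ Λ n) (m : ℝ)
    (P : Measure (Set X)) [IsProbabilityMeasure P] :
    Tendsto (fun n => P.real (EvL G o c (Λ n) m)) atTop (𝓝 (P.real (Ev G o c m))) := by
  have hmono : Monotone fun n => EvL G o c (Λ n) m := by
    rintro n k hnk I ⟨K, h0, h1⟩
    exact ⟨K, h0.trans (hΛ hnk), h1⟩
  have hU : (⋃ n, EvL G o c (Λ n) m) = Ev G o c m := by
    ext I
    rw [Set.mem_iUnion]
    constructor
    · rintro ⟨n, h⟩; exact EvL_subset _ _ _ _ _ h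
    · rintro ⟨K, h1, h2, h3, h4⟩
      obtain ⟨n, hn⟩ := hΛ' K
      exact ⟨n, K, hn, h1, h2, h3, h4⟩
  have := tendsto_measure_iUnion_atTop (μ := P) hmono
  rw [hU] at this
  exact (ENNReal.tendsto_toReal (measure_ne_top _ _)).comp this

/-- The information inequality for the difference events. -/
theorem diff_le [Countable X] {c : Finset X → ℝ} (hc : HitFun c) (hc1 : ∀ x, c {x} ≤ 1)
    {G : SimpleGraph X} {D : ℝ} (hD0 : 0 ≤ D)
    (hD : ∀ A O : Finset X, (∀ x ∈ O, ∃ y ∈ A, G.Adj y x) → c (A ∪ O) ≤ D * c A) {o : X}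
    {u v : ℝ} (hu : 0 < u) (hv : 0 ≤ v)
    {P Q : Measure (Set X)} (hP : IsLaw c u P) (hQ : IsLaw c v Q)
    {m0 m : ℝ} (hm0 : 0 ≤ m0) (hm : m0 ≤ m) :
    (Q.real (Ev G o c m0) - Q.real (Ev G o c m)) ^ 2 ≤
      (P.real (Ev G o c m0) - P.real (Ev G o c m)) *
      Real.exp ((v - u) ^ 2 / u * (D * (m + 1))) := by
  have := hP.prob
  have := hQ.prob
  obtain ⟨Λ, hΛ, hΛ'⟩ := exists_exhaust X
  have hdiff : ∀ (R : Measure (Set X)) [IsProbabilityMeasure R] (n : ℕ),
      R.real (EvL G o c (Λ n) m0 \ EvL G o c (Λ n) m) =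
      R.real (EvL G o c (Λ n) m0) - R.real (EvL G o c (Λ n) m) := fun R _ n =>
    measureReal_sdiff (EvL_anti _ _ _ _ hm) (measurableSet_EvL _ _ _ _ _)
  refine le_of_tendsto_of_tendsto'
    (((tendsto_EvL hΛ hΛ' m0 Q).sub (tendsto_EvL hΛ hΛ' m Q)).pow 2)
    (((tendsto_EvL hΛ hΛ' m0 P).sub (tendsto_EvL hΛ hΛ' m P)).mul_const
      (Real.exp ((v - u) ^ 2 / u * (D * (m + 1))))) fun n => ?_
  rw [← hdiff, ← hdiff]
  exact diff_window hc hc1 hD0 hD hu hv hP hQ hm0 hm

/-- Lower semicontinuity from the right. -/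
theorem window_lower {c : Finset X → ℝ} (hc : HitFun c) {G : SimpleGraph X} {o : X}
    {u v : ℝ} (huv : u ≤ v) {P Q : Measure (Set X)} (hP : IsLaw c u P) (hQ : IsLaw c v Q)
    (Λ : Finset X) (m : ℝ) :
    P.real (EvL G o c Λ m) * Real.exp (-((v - u) * c Λ)) ≤ Q.real (EvL G o c Λ m) := by
  have := hP.prob
  have := hQ.prob
  obtain ⟨R, hR⟩ := exists_law hc (sub_nonneg.2 huv)
  have := hR.prob
  have hQ' : IsLaw c (u + (v - u)) Q := by
    rw [add_sub_cancel]; exact hQ
  have h := hP.superpose hR hQ'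
  have h2 : P (EvL G o c Λ m) * R {I | ∀ x ∈ Λ, x ∉ I} ≤ Q (EvL G o c Λ m) := by
    rw [← h, Measure.map_apply measurable_union (measurableSet_EvL _ _ _ _ _), ← Measure.prod_prod]
    refine measure_mono ?_
    rintro ⟨I, J⟩ ⟨⟨K, h0, h1, h2, h3, h4⟩, hJ⟩
    refine ⟨K, h0, h1, h2, fun x hx => ?_, h4⟩
    rw [Set.mem_union, not_or]
    exact ⟨h3 x hx, hJ x (h0 hx)⟩
  have h3 := ENNReal.toReal_mono (measure_ne_top _ _) h2
  rw [ENNReal.toReal_mul, hR.avoid, ENNReal.toReal_ofReal (Real.exp_pos _).le] at h3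
  exact h3

/-- The vacant cluster of `o`. -/
def clus (G : SimpleGraph X) (o : X) (I : Set X) : Set X :=
  {y | ∃ p : G.Walk o y, ∀ z ∈ p.support, z ∉ I}

omit [DecidableEq X] in
theorem mem_clus_of_conn {G : SimpleGraph X} {o : X} {I : Set X} {K : Finset X} (h : Conn G o K)
    (hK : ∀ x ∈ K, x ∉ I) : (K : Set X) ⊆ clus G o I := by
  intro x hx
  obtain ⟨p, hp⟩ := h x hx
  exact ⟨p, fun z hz => hK z (hp z hz)⟩

theorem exists_conn {G : SimpleGraph X} {o : X} {I : Set X} (K : Finset X)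
    (h : (K : Set X) ⊆ clus G o I) :
    ∃ K' : Finset X, K ⊆ K' ∧ Conn G o K' ∧ (∀ x ∈ K', x ∉ I) := by
  induction K using Finset.induction_on with
  | empty => exact ⟨∅, Subset.rfl, fun y hy => by simp at hy, fun y hy => by simp at hy⟩
  | insert y K _ ih =>
    rw [coe_insert, Set.insert_subset_iff] at h
    obtain ⟨K', h1, h2, h3⟩ := ih h.2
    obtain ⟨p, hp⟩ := h.1
    refine ⟨K' ∪ p.support.toFinset, ?_, ?_, ?_⟩
    · refine insert_subset ?_ (h1.trans subset_union_left)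
      exact mem_union_right _ (List.mem_toFinset.2 p.end_mem_support)
    · intro z hz
      rw [mem_union] at hz
      rcases hz with hz | hz
      · obtain ⟨q, hq⟩ := h2 z hz
        exact ⟨q, fun w hw => mem_union_left _ (hq w hw)⟩
      · rw [List.mem_toFinset] at hz
        refine ⟨p.takeUntil z hz, fun w hw => mem_union_right _ ?_⟩
        rw [List.mem_toFinset]
        exact p.support_takeUntil_subset hz hw
    · intro z hz
      rw [mem_union, List.mem_toFinset] at hz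
      rcases hz with hz | hz
      · exact h3 z hz
      · exact hp z hz

theorem root_mem_of_conn {G : SimpleGraph X} {o : X} {K : Finset X} (h : Conn G o K)
    (hne : K.Nonempty) : o ∈ K := by
  obtain ⟨y, hy⟩ := hne
  obtain ⟨p, hp⟩ := h y hy
  exact hp o p.start_mem_support

/-- the cluster is finite with capacity at least `m` -/
def Fin' (G : SimpleGraph X) (o : X) (c : Finset X → ℝ) (m : ℝ) : Set (Set X) :=
  {I | ∃ K : Finset X, clus G o I = K ∧ m ≤ c K}

/-- the cluster is infinite -/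
def Inf' (G : SimpleGraph X) (o : X) : Set (Set X) := {I | (clus G o I).Infinite}

theorem Ev_eq {G : SimpleGraph X} {o : X} {c : Finset X → ℝ} (hc : HitFun c)
    (hinf : ∀ C : Set X, C.Infinite → ∀ M, ∃ K : Finset X, (K : Set X) ⊆ C ∧ M ≤ c K)
    {m : ℝ} (hm : 0 < m) : Ev G o c m = Fin' G o c m ∪ Inf' G o := by
  ext I
  constructor
  · rintro ⟨K, h1, h2, h3, h4⟩
    by_cases hfin : (clus G o I).Finite
    · left
      refine ⟨hfin.toFinset, by simp, h4.trans (hc.mono ?_)⟩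
      intro x hx
      rw [Set.Finite.mem_toFinset]
      exact mem_clus_of_conn h2 h3 hx
    · exact Or.inr hfin
  · rintro (⟨K, hK, hmK⟩ | h)
    · obtain ⟨K', h1, h2, h3⟩ := exists_conn (G := G) (o := o) (I := I) K (by rw [hK])
      have hne : K.Nonempty := by
        rw [nonempty_iff_ne_empty]
        rintro rfl
        rw [hc.empty] at hmK
        linarith
      exact ⟨K', root_mem_of_conn h2 (hne.mono h1), h2, h3, hmK.trans (hc.mono h1)⟩
    · obtain ⟨K, hK, hmK⟩ := hinf _ h m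
      obtain ⟨K', h1, h2, h3⟩ := exists_conn K hK
      have hne : K.Nonempty := by
        rw [nonempty_iff_ne_empty]
        rintro rfl
        rw [hc.empty] at hmK
        linarith
      exact ⟨K', root_mem_of_conn h2 (hne.mono h1), h2, h3, hmK.trans (hc.mono h1)⟩

omit [DecidableEq X] in
theorem disjoint_Fin_Inf (G : SimpleGraph X) (o : X) (c : Finset X → ℝ) (m : ℝ) :
    Disjoint (Fin' G o c m) (Inf' G o) := by
  rw [Set.disjoint_left]
  rintro I ⟨K, hK, -⟩ h
  exact h (hK ▸ K.finite_toSet)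

theorem iInter_Ev {G : SimpleGraph X} {o : X} {c : Finset X → ℝ} (hc : HitFun c)
    (hinf : ∀ C : Set X, C.Infinite → ∀ M, ∃ K : Finset X, (K : Set X) ⊆ C ∧ M ≤ c K) :
    (⋂ n : ℕ, Ev G o c ((n : ℝ) + 1)) = Inf' G o := by
  ext I
  rw [Set.mem_iInter]
  constructor
  · intro h
    by_contra hfin
    have hfin' : (clus G o I).Finite := by
      simpa [Inf'] using hfin
    obtain ⟨n, hn⟩ := exists_nat_gt (c hfin'.toFinset)
    obtain ⟨K, h1, h2, h3, h4⟩ := h n
    have : c K ≤ c hfin'.toFinset := hc.mono (fun x hx => by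
      rw [Set.Finite.mem_toFinset]
      exact mem_clus_of_conn h2 h3 hx)
    linarith
  · intro h n
    rw [Ev_eq hc hinf (by positivity)]
    exact Or.inr h

theorem measurableSet_Inf [Countable X] {G : SimpleGraph X} {o : X} {c : Finset X → ℝ}
    (hc : HitFun c)
    (hinf : ∀ C : Set X, C.Infinite → ∀ M, ∃ K : Finset X, (K : Set X) ⊆ C ∧ M ≤ c K) :
    MeasurableSet (Inf' G o) := by
  rw [← iInter_Ev hc hinf]
  exact MeasurableSet.iInter fun n => measurableSet_Ev _ _ _ _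

theorem tendsto_Ev_nat [Countable X] {G : SimpleGraph X} {o : X} {c : Finset X → ℝ}
    (hc : HitFun c)
    (hinf : ∀ C : Set X, C.Infinite → ∀ M, ∃ K : Finset X, (K : Set X) ⊆ C ∧ M ≤ c K)
    (P : Measure (Set X)) [IsProbabilityMeasure P] :
    Tendsto (fun n : ℕ => P.real (Ev G o c ((n : ℝ) + 1))) atTop (𝓝 (P.real (Inf' G o))) := by
  have hanti : Antitone fun n : ℕ => Ev G o c ((n : ℝ) + 1) := by
    intro n k hnk
    exact Ev_anti _ _ _ (by have : (n : ℝ) ≤ k := by exact_mod_cast hnk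
                            linarith)
  have := tendsto_measure_iInter_atTop (μ := P)
    (fun n : ℕ => (measurableSet_Ev G o c ((n : ℝ) + 1)).nullMeasurableSet) hanti
    ⟨0, measure_ne_top _ _⟩
  rw [iInter_Ev hc hinf] at this
  exact (ENNReal.tendsto_toReal (measure_ne_top _ _)).comp this

theorem Ev_real_eq [Countable X] {G : SimpleGraph X} {o : X} {c : Finset X → ℝ} (hc : HitFun c)
    (hinf : ∀ C : Set X, C.Infinite → ∀ M, ∃ K : Finset X, (K : Set X) ⊆ C ∧ M ≤ c K)
    {m : ℝ} (hm : 0 < m) (P : Measure (Set X)) [IsProbabilityMeasure P] :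
    P.real (Ev G o c m) = P.real (Fin' G o c m) + P.real (Inf' G o) := by
  rw [Ev_eq hc hinf hm, measureReal_union (disjoint_Fin_Inf _ _ _ _) (measurableSet_Inf hc hinf)]

omit [DecidableEq X] in
theorem clus_anti {G : SimpleGraph X} {o : X} {I J : Set X} (h : I ⊆ J) :
    clus G o J ⊆ clus G o I := by
  rintro y ⟨p, hp⟩
  exact ⟨p, fun z hz hI => hp z hz (h hI)⟩

omit [DecidableEq X] in
theorem Inf_dec {G : SimpleGraph X} {o : X} (I J : Set X) (h : I ⊆ J) (hJ : J ∈ Inf' G o) :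
    I ∈ Inf' G o :=
  Set.Infinite.mono (clus_anti h) hJ

omit [DecidableEq X] in
theorem Ev_dec {G : SimpleGraph X} {o : X} {c : Finset X → ℝ} {m : ℝ} (I J : Set X) (h : I ⊆ J)
    (hJ : J ∈ Ev G o c m) : I ∈ Ev G o c m := by
  obtain ⟨K, h1, h2, h3, h4⟩ := hJ
  exact ⟨K, h1, h2, fun x hx hI => h3 x hx (h hI), h4⟩

/-- **Limit formula.**  For every `κ > 0` the probability at level `v` that the cluster has capacity
at least `κ / (v - u) ^ 2` tends, as `v ↓ u`, to the probability at level `u` that the cluster is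
infinite. -/
theorem tendsto_Ev [Countable X] {c : Finset X → ℝ} (hc : HitFun c) (hc1 : ∀ x, c {x} ≤ 1)
    {G : SimpleGraph X} {D : ℝ} (hD0 : 0 ≤ D)
    (hD : ∀ A O : Finset X, (∀ x ∈ O, ∃ y ∈ A, G.Adj y x) → c (A ∪ O) ≤ D * c A)
    (hinf : ∀ C : Set X, C.Infinite → ∀ M, ∃ K : Finset X, (K : Set X) ⊆ C ∧ M ≤ c K) {o : X}
    {P : ℝ → Measure (Set X)} (hP : ∀ s, 0 < s → IsLaw c s (P s)) {u κ : ℝ} (hu : 0 < u)
    (hκ : 0 < κ) :
    Tendsto (fun v => (P v).real (Ev G o c (κ / (v - u) ^ 2))) (𝓝[>] u)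
      (𝓝 ((P u).real (Inf' G o))) := by
  have hPu := (hP u hu).prob
  have hlim := tendsto_Ev_nat (G := G) (o := o) hc hinf (P u)
  set θ := (P u).real (Inf' G o) with hθ
  -- the scale tends to infinity
  have hscale : Tendsto (fun v : ℝ => κ / (v - u) ^ 2) (𝓝[>] u) atTop := by
    have h1 : Tendsto (fun v : ℝ => (v - u) ^ 2) (𝓝[>] u) (𝓝[>] 0) := by
      refine tendsto_nhdsWithin_of_tendsto_nhds_of_eventually_within _ ?_ ?_
      · have : Tendsto (fun v : ℝ => (v - u) ^ 2) (𝓝 u) (𝓝 ((u - u) ^ 2)) :=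
          ((continuous_id.sub continuous_const).pow 2).tendsto u
        rw [sub_self, zero_pow two_ne_zero] at this
        exact this.mono_left nhdsWithin_le_nhds
      · filter_upwards [self_mem_nhdsWithin] with v hv
        have : 0 < v - u := sub_pos.2 hv
        exact pow_pos this 2
    exact Tendsto.const_mul_atTop hκ (tendsto_inv_nhdsGT_zero.comp h1)
  obtain ⟨Λ, hΛ, hΛ'⟩ := exists_exhaust X
  rw [Metric.tendsto_nhds]
  intro ε hε
  -- constant
  set L : ℝ := Real.exp ((D * (κ + 1)) / u) with hL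
  have hLpos : 0 < L := Real.exp_pos _
  -- choose `n`
  have hev1 : ∀ᶠ n : ℕ in atTop, (P u).real (Ev G o c ((n : ℝ) + 1)) < θ + min (ε / 2) (ε ^ 2 / (4 * L)) :=
    hlim.eventually_lt_const (by
      have : 0 < min (ε / 2) (ε ^ 2 / (4 * L)) := lt_min (by positivity) (by positivity)
      linarith)
  obtain ⟨n, hn⟩ := hev1.exists
  set m0 : ℝ := (n : ℝ) + 1 with hm0
  have hm0pos : 0 < m0 := by positivity
  have hθle : ∀ m, 0 < m → θ ≤ (P u).real (Ev G o c m) := by
    intro m hm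
    rw [Ev_real_eq hc hinf hm]
    have : 0 ≤ (P u).real (Fin' G o c m) := measureReal_nonneg
    linarith
  -- lower semicontinuity
  have hlow : ∀ᶠ v in 𝓝[>] u, θ - ε / 2 < (P v).real (Ev G o c m0) := by
    have h1 := tendsto_EvL (G := G) (o := o) (c := c) hΛ hΛ' m0 (P u)
    have h2 : ∀ᶠ k in atTop, θ - ε / 2 < (P u).real (EvL G o c (Λ k) m0) :=
      h1.eventually_const_lt (by
        have := hθle m0 hm0pos
        linarith)
    obtain ⟨k, hk⟩ := h2.exists
    have h3 : Tendsto (fun v : ℝ => (P u).real (EvL G o c (Λ k) m0) *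
        Real.exp (-((v - u) * c (Λ k)))) (𝓝[>] u) (𝓝 ((P u).real (EvL G o c (Λ k) m0))) := by
      have : Tendsto (fun v : ℝ => (P u).real (EvL G o c (Λ k) m0) *
        Real.exp (-((v - u) * c (Λ k)))) (𝓝 u) (𝓝 ((P u).real (EvL G o c (Λ k) m0) *
        Real.exp (-((u - u) * c (Λ k))))) := by
        apply Continuous.tendsto
        fun_prop
      rw [sub_self, zero_mul, neg_zero, Real.exp_zero, mul_one] at this
      exact this.mono_left nhdsWithin_le_nhds
    filter_upwards [h3.eventually_const_lt hk, self_mem_nhdsWithin] with v hv huv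
    have huv' : u < v := huv
    have := (hP v (hu.trans huv')).prob
    exact hv.trans_le ((window_lower hc huv'.le (hP u hu) (hP v (hu.trans huv')) (Λ k) m0).trans
      (measureReal_mono (EvL_subset _ _ _ _ _)))
  have hclose : ∀ᶠ v in 𝓝[>] u, v - u < 1 := by
    have : Tendsto (fun v : ℝ => v - u) (𝓝[>] u) (𝓝 (u - u)) :=
      ((continuous_id.sub continuous_const).tendsto u).mono_left nhdsWithin_le_nhds
    rw [sub_self] at this
    exact this.eventually_lt_const one_pos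
  filter_upwards [hlow, hclose, hscale.eventually_ge_atTop m0, self_mem_nhdsWithin] with
    v hv1 hv2 hv3 huv
  have huv' : u < v := huv
  have hvpos : 0 < v := hu.trans huv'
  have hPv := (hP v hvpos).prob
  set m : ℝ := κ / (v - u) ^ 2 with hm
  have hmpos : 0 < m := hm0pos.trans_le hv3
  rw [Real.dist_eq, abs_lt]
  constructor
  · -- lower bound
    have hd := diff_le hc hc1 (G := G) (o := o) hD0 hD hu hvpos.le (hP u hu) (hP v hvpos)
      hm0pos.le hv3
    have hexp : (v - u) ^ 2 / u * (D * (m + 1)) ≤ (D * (κ + 1)) / u := by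
      have hpos : 0 < v - u := sub_pos.2 huv'
      have h1 : (v - u) ^ 2 * m = κ := by
        rw [hm]; field_simp
      have h2 : (v - u) ^ 2 ≤ 1 := by nlinarith
      have h3 : (v - u) ^ 2 / u * (D * (m + 1)) = (D * ((v - u) ^ 2 * m + (v - u) ^ 2)) / u := by
        ring
      rw [h3, h1]
      refine div_le_div_of_nonneg_right ?_ hu.le
      exact mul_le_mul_of_nonneg_left (by linarith) hD0
    have hd2 : (P u).real (Ev G o c m0) - (P u).real (Ev G o c m) ≤ ε ^ 2 / (4 * L) := by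
      have := hθle m hmpos
      have h4 := min_le_right (ε / 2) (ε ^ 2 / (4 * L))
      linarith
    have hd3 : ((P v).real (Ev G o c m0) - (P v).real (Ev G o c m)) ^ 2 ≤ (ε / 2) ^ 2 := by
      refine hd.trans ?_
      have hnn : 0 ≤ (P u).real (Ev G o c m0) - (P u).real (Ev G o c m) :=
        sub_nonneg.2 (measureReal_mono (Ev_anti _ _ _ hv3))
      calc ((P u).real (Ev G o c m0) - (P u).real (Ev G o c m)) *
            Real.exp ((v - u) ^ 2 / u * (D * (m + 1)))
          ≤ (ε ^ 2 / (4 * L)) * L := by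
            refine mul_le_mul hd2 (Real.exp_le_exp.2 hexp) (Real.exp_pos _).le (by positivity)
        _ = (ε / 2) ^ 2 := by field_simp; ring
    have hd4 := abs_le_of_sq_le_sq hd3 (by positivity)
    have := (abs_le.1 hd4).2
    rcases hd4 with _
    have hstrict : (P v).real (Ev G o c m0) - (P v).real (Ev G o c m) ≤ ε / 2 := by
      exact (abs_le.1 (abs_le_of_sq_le_sq hd3 (by positivity))).2
    linarith
  · -- upper bound
    have h1 : (P v).real (Ev G o c m) ≤ (P u).real (Ev G o c m) :=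
      (hP u hu).mono hc huv'.le (hP v hvpos) (measurableSet_Ev _ _ _ _) Ev_dec
    have h2 : (P u).real (Ev G o c m) ≤ (P u).real (Ev G o c m0) :=
      measureReal_mono (Ev_anti _ _ _ hv3)
    have h3 := min_le_left (ε / 2) (ε ^ 2 / (4 * L))
    linarith

end Run7.h485
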