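import Pool.Agent.Run7.h485.Cond
import Pool.Agent.Run7.h485.Jump

/-!
# Exploration: upper bound for the probability of a large cluster near the branching threshold
-/

namespace Run7.h485

open Finset MeasureTheory Filter Topology
open scoped ENNReal

/-- the supersolution, `w` is the number of unexplored neighbours divided by `D` -/
noncomputable def psi (B w n : ℝ) : ℝ := (4 * (B + 1) * w - 2 * w ^ 2 + n) / (2 * B * (B + 1))

theorem psi_nonneg {B w n : ℝ} (hB : 1 ≤ B) (h0 : 0 ≤ w) (h1 : w ≤ B + 1) (hn : 0 ≤ n) :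
    0 ≤ psi B w n := by
  unfold psi
  refine div_nonneg ?_ (by positivity)
  nlinarith [mul_nonneg h0 (sub_nonneg.2 h1)]

theorem psi_ge_one_of_w {B w n : ℝ} (hB : 1 ≤ B) (h0 : B ≤ w) (h1 : w ≤ B + 1) (hn : 0 ≤ n) :
    1 ≤ psi B w n := by
  unfold psi
  rw [le_div_iff₀ (by positivity)]
  nlinarith [mul_nonneg (sub_nonneg.2 h0) (sub_nonneg.2 h1)]

theorem psi_ge_one_of_n {B w n : ℝ} (hB : 1 ≤ B) (h0 : 0 ≤ w) (h1 : w ≤ B + 1)
    (hn : 2 * B * (B + 1) ≤ n) : 1 ≤ psi B w n := by
  unfold psi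
  rw [le_div_iff₀ (by positivity)]
  nlinarith [mul_nonneg h0 (sub_nonneg.2 h1)]

theorem psi_step {B w n p D : ℝ} (hB : 1 ≤ B) (h0 : 0 ≤ w) (hD : 1 ≤ D)
    (hp1 : p ≤ 1) (he0 : 0 ≤ (D + 1) * p - 1) (he : (D + 1) * p - 1 ≤ 1 / (8 * (B + 1))) :
    p * psi B (w + 1) (n + 1) + (1 - p) * psi B (w - 1 / D) n ≤ psi B w n := by
  have hden : 0 < 2 * B * (B + 1) := by positivity
  unfold psi
  rw [← mul_div_assoc, ← mul_div_assoc, ← add_div]
  refine div_le_div_of_nonneg_right ?_ hden.le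
  have hDpos : 0 < D := by linarith
  rw [← sub_nonneg]
  set η := (D + 1) * p - 1 with hη
  have key : 4 * (B + 1) * w - 2 * w ^ 2 + n -
      (p * (4 * (B + 1) * (w + 1) - 2 * (w + 1) ^ 2 + (n + 1)) +
        (1 - p) * (4 * (B + 1) * (w - 1 / D) - 2 * (w - 1 / D) ^ 2 + n)) =
      p - 4 * (B + 1) * η / D + 4 * w * η / D + 2 * (1 - p) / D ^ 2 := by
    rw [hη]
    field_simp
    ring
  rw [key]
  have h1 : 0 ≤ 4 * w * η / D := by positivity
  have h2 : 0 ≤ 2 * (1 - p) / D ^ 2 := by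
    have : 0 ≤ 1 - p := by linarith
    positivity
  have h3 : 4 * (B + 1) * η ≤ 1 / 2 := by
    have := mul_le_mul_of_nonneg_left he (by positivity : 0 ≤ 4 * (B + 1))
    have h4 : 4 * (B + 1) * (1 / (8 * (B + 1))) = 1 / 2 := by field_simp; norm_num
    linarith
  have h4 : 4 * (B + 1) * η / D ≤ p := by
    rw [div_le_iff₀ hDpos]
    have : 1 ≤ (D + 1) * p := by linarith
    have hp0 : 0 < p := by
      by_contra hneg
      push Not at hneg
      nlinarith
    nlinarith
  linarith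

theorem psi_mono {B w n D : ℝ} (hB : 1 ≤ B) (h1 : w ≤ B) (hD : 1 ≤ D) :
    psi B (w - 1 / D) n ≤ psi B (w + 1) (n + 1) := by
  unfold psi
  refine div_le_div_of_nonneg_right ?_ (by positivity)
  have hDpos : 0 < D := by linarith
  rw [← sub_nonneg]
  have key : 4 * (B + 1) * (w + 1) - 2 * (w + 1) ^ 2 + (n + 1) -
      (4 * (B + 1) * (w - 1 / D) - 2 * (w - 1 / D) ^ 2 + n) =
      4 * (B - w) + 3 + (4 * (B - w) + 4) * (1 / D) + 2 * (1 / D) ^ 2 := by
    ring
  rw [key]
  have h2 : 0 ≤ 1 / D := by positivity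
  have h3 : 0 ≤ B - w := by linarith
  positivity

variable {X : Type*} [DecidableEq X]

theorem card_bdry {G : SimpleGraph X} {N : X → Finset X} {D : ℕ}
    (hN : ∀ x y, G.Adj x y → y ∈ N x) (hcard : ∀ x, (N x).card ≤ D) {A O : Finset X}
    (hO : ∀ x ∈ O, ∃ y ∈ A, G.Adj y x) : O.card ≤ D * A.card := by
  have h1 : O ⊆ A.biUnion N := by
    intro x hx
    obtain ⟨y, hy, hyx⟩ := hO x hx
    exact mem_biUnion.2 ⟨y, hy, hN y x hyx⟩
  calc O.card ≤ (A.biUnion N).card := card_le_card h1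
    _ ≤ ∑ y ∈ A, (N y).card := card_biUnion_le
    _ ≤ ∑ y ∈ A, D := sum_le_sum fun y _ => hcard y
    _ = D * A.card := by rw [sum_const, smul_eq_mul, mul_comm]

theorem upper_explore {G : SimpleGraph X} {N : X → Finset X} {D : ℕ} (hD : 1 ≤ D)
    (hN : ∀ x y, G.Adj x y → y ∈ N x) (hcard : ∀ x, (N x).card ≤ D)
    {c : Finset X → ℝ} (hc : HitFun c) {s : ℝ} (hs : 0 ≤ s) {P : Measure (Set X)}
    (hP : IsLaw c s P) {B : ℕ} (hB : 1 ≤ B) {p : ℝ} (hp1 : p ≤ 1)
    (he0 : 0 ≤ ((D : ℝ) + 1) * p - 1) (he : ((D : ℝ) + 1) * p - 1 ≤ 1 / (8 * ((B : ℝ) + 1)))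
    (hp : ∀ A : Finset X, A.card < 2 * B * (B + 1) → ∀ x, x ∉ A →
      Real.exp (-(s * (c (insert x A) - c A))) ≤ p) (o : X) :
    ∀ (k : ℕ) (A O : Finset X), (D + 1) * (2 * B * (B + 1)) - A.card - O.card = k → o ∈ A →
      A.card ≤ 2 * B * (B + 1) → (∀ x ∈ O, ∃ y ∈ A, G.Adj y x) → Disjoint A O →
      (A.card : ℝ) - O.card / D ≤ B + 1 →
      P.real (locSet A O ∩ Ev G o (fun K => (K.card : ℝ)) (2 * B * (B + 1) : ℕ)) ≤
        psi B ((A.card : ℝ) - O.card / D) A.card * P.real (locSet A O) := by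
  have := hP.prob
  have hB' : (1 : ℝ) ≤ B := by exact_mod_cast hB
  have hD' : (1 : ℝ) ≤ D := by exact_mod_cast hD
  have hDpos : (0 : ℝ) < D := by linarith
  set E := Ev G o (fun K => (K.card : ℝ)) (2 * B * (B + 1) : ℕ) with hE
  intro k
  induction k using Nat.strong_induction_on with
  | _ k ih =>
  intro A O hk hoA hAK hO hAO hW
  have hOcard := card_bdry hN hcard hO
  have hw0 : 0 ≤ (A.card : ℝ) - O.card / D := by
    have : (O.card : ℝ) ≤ D * A.card := by exact_mod_cast hOcard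
    rw [sub_nonneg, div_le_iff₀ hDpos]
    linarith
  have triv : 1 ≤ psi B ((A.card : ℝ) - O.card / D) A.card →
      P.real (locSet A O ∩ E) ≤ psi B ((A.card : ℝ) - O.card / D) A.card * P.real (locSet A O) := by
    intro h
    calc P.real (locSet A O ∩ E) ≤ P.real (locSet A O) := measureReal_mono Set.inter_subset_left
      _ = 1 * P.real (locSet A O) := (one_mul _).symm
      _ ≤ _ := mul_le_mul_of_nonneg_right h measureReal_nonneg
  by_cases hAK' : A.card = 2 * B * (B + 1)
  · refine triv (psi_ge_one_of_n hB' hw0 hW ?_)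
    rw [hAK']
    push_cast
    linarith
  have hAK'' : A.card < 2 * B * (B + 1) := lt_of_le_of_ne hAK hAK'
  by_cases hwB : (B : ℝ) ≤ (A.card : ℝ) - O.card / D
  · exact triv (psi_ge_one_of_w hB' hwB hW (Nat.cast_nonneg _))
  push Not at hwB
  by_cases hex : ∀ x, ∀ y ∈ A, G.Adj y x → x ∉ A → x ∈ O
  · have hempty : locSet A O ∩ E = ∅ := by
      rw [Set.eq_empty_iff_forall_notMem]
      rintro I ⟨hI, K, h1, h2, h3, h4⟩
      have hsub := exhausted (Λ := K) hI hoA (fun x _ y hy h hx => hex x y hy h hx) Subset.rfl h2 h3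
      have := card_le_card hsub
      have h5 : 2 * B * (B + 1) ≤ K.card := by
        have h6 : ((2 * B * (B + 1) : ℕ) : ℝ) ≤ (K.card : ℝ) := h4
        exact_mod_cast h6
      omega
    rw [hempty]
    simp only [measureReal_empty]
    exact mul_nonneg (psi_nonneg hB' hw0 hW (Nat.cast_nonneg _)) measureReal_nonneg
  push Not at hex
  obtain ⟨x, y, hyA, hyx, hxA, hxO⟩ := hex
  have hO' : ∀ z ∈ insert x O, ∃ y ∈ A, G.Adj y z := by
    intro z hz
    rw [mem_insert] at hz
    rcases hz with rfl | hz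
    · exact ⟨y, hyA, hyx⟩
    · exact hO z hz
  have hOcard' := card_bdry hN hcard hO'
  rw [card_insert_of_notMem hxO] at hOcard'
  have hmeas : A.card + O.card + 1 ≤ (D + 1) * (2 * B * (B + 1)) := by
    have h1 : D * A.card ≤ D * (2 * B * (B + 1)) := Nat.mul_le_mul_left _ hAK
    have h2 : (D + 1) * (2 * B * (B + 1)) = D * (2 * B * (B + 1)) + 2 * B * (B + 1) := by ring
    omega
  have i1 := ih _ (by rw [card_insert_of_notMem hxA]; omega) (insert x A) O rfl
    (mem_insert_of_mem hoA) (by rw [card_insert_of_notMem hxA]; omega)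
    (fun z hz => by
      obtain ⟨y', hy', h⟩ := hO z hz
      exact ⟨y', mem_insert_of_mem hy', h⟩)
    (by rw [disjoint_insert_left]; exact ⟨hxO, hAO⟩)
    (by rw [card_insert_of_notMem hxA]; push_cast; linarith)
  have i2 := ih _ (by rw [card_insert_of_notMem hxO]; omega) A (insert x O) rfl hoA hAK hO'
    (by rw [disjoint_insert_right]; exact ⟨hxA, hAO⟩)
    (by
      rw [card_insert_of_notMem hxO]
      have : (0 : ℝ) ≤ 1 / D := by positivity
      push_cast
      rw [add_div]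
      linarith)
  have hsplit : ∀ F : Set (Set X), P.real (locSet A O ∩ F) = P.real (locSet (insert x A) O ∩ F) +
        P.real (locSet A (insert x O) ∩ F) := by
    intro F
    have h1 := measureReal_inter_add_sdiff (μ := P) (s := locSet A O ∩ F) (measurableSet_mem x)
    have h2 : (locSet A O ∩ F) ∩ {s | x ∈ s} = locSet A (insert x O) ∩ F := by
      ext I
      simp only [locSet, Set.mem_inter_iff, Set.mem_ofPred_eq, mem_insert, forall_eq_or_imp]
      tauto
    have h3 : (locSet A O ∩ F) \ {s | x ∈ s} = locSet (insert x A) O ∩ F := by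
      ext I
      simp only [locSet, Set.mem_sdiff, Set.mem_inter_iff, Set.mem_ofPred_eq, mem_insert,
        forall_eq_or_imp]
      tauto
    rw [h2, h3] at h1
    linarith
  have htot : P.real (locSet A O) = P.real (locSet (insert x A) O) +
      P.real (locSet A (insert x O)) := by
    have := hsplit Set.univ
    simpa using this
  have hle : P.real (locSet (insert x A) O) ≤ p * P.real (locSet A O) :=
    (hP.loc_insert_le hc hs x A O).trans
      (mul_le_mul_of_nonneg_right (hp A hAK'' x hxA) measureReal_nonneg)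
  rw [card_insert_of_notMem hxA] at i1
  rw [card_insert_of_notMem hxO] at i2
  push_cast at i1 i2
  have e1 : (A.card : ℝ) + 1 - O.card / D = (A.card - O.card / D) + 1 := by ring
  have e2 : (A.card : ℝ) - (O.card + 1) / D = (A.card - O.card / D) - 1 / D := by ring
  rw [e1] at i1
  rw [e2] at i2
  set w := (A.card : ℝ) - O.card / D with hw
  have hm := psi_mono (n := (A.card : ℝ)) hB' hwB.le hD'
  have hst := psi_step (n := (A.card : ℝ)) hB' hw0 hD' hp1 he0 he
  set a := P.real (locSet A O) with ha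
  set a1 := P.real (locSet (insert x A) O) with ha1
  set a2 := P.real (locSet A (insert x O)) with ha2
  rw [hsplit E]
  calc P.real (locSet (insert x A) O ∩ E) + P.real (locSet A (insert x O) ∩ E)
      ≤ psi B (w + 1) (A.card + 1) * a1 + psi B (w - 1 / D) A.card * a2 := add_le_add i1 i2
    _ = psi B (w - 1 / D) A.card * a + (psi B (w + 1) (A.card + 1) - psi B (w - 1 / D) A.card) * a1 := by
        rw [htot]; ring
    _ ≤ psi B (w - 1 / D) A.card * a +
        (psi B (w + 1) (A.card + 1) - psi B (w - 1 / D) A.card) * (p * a) := by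
        have := mul_le_mul_of_nonneg_left hle (sub_nonneg.2 hm)
        linarith
    _ = (p * psi B (w + 1) (A.card + 1) + (1 - p) * psi B (w - 1 / D) A.card) * a := by ring
    _ ≤ psi B w A.card * a := mul_le_mul_of_nonneg_right hst measureReal_nonneg

/-- Upper bound for the probability that the cluster has at least `2 B (B + 1)` points. -/
theorem upper_bound {G : SimpleGraph X} {N : X → Finset X} {D : ℕ} (hD : 1 ≤ D)
    (hN : ∀ x y, G.Adj x y → y ∈ N x) (hcard : ∀ x, (N x).card ≤ D)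
    {c : Finset X → ℝ} (hc : HitFun c) {s : ℝ} (hs : 0 ≤ s) {P : Measure (Set X)}
    (hP : IsLaw c s P) {B : ℕ} (hB : 1 ≤ B) {p : ℝ} (hp1 : p ≤ 1)
    (he0 : 0 ≤ ((D : ℝ) + 1) * p - 1) (he : ((D : ℝ) + 1) * p - 1 ≤ 1 / (8 * ((B : ℝ) + 1)))
    (hp : ∀ A : Finset X, A.card < 2 * B * (B + 1) → ∀ x, x ∉ A →
      Real.exp (-(s * (c (insert x A) - c A))) ≤ p) (o : X) :
    P.real (Ev G o (fun K => (K.card : ℝ)) (2 * B * (B + 1) : ℕ)) ≤
      2 / B * Real.exp (-(s * c {o})) := by
  have := hP.prob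
  have hB' : (1 : ℝ) ≤ B := by exact_mod_cast hB
  have hpos : 1 ≤ 2 * B * (B + 1) := by nlinarith
  have h := upper_explore hD hN hcard hc hs hP hB hp1 he0 he hp o _ {o} ∅ rfl
    (mem_singleton_self o) (by simpa using hpos) (by simp) (by simp) (by simp)
  have h1 : locSet {o} ∅ ∩ Ev G o (fun K => (K.card : ℝ)) (2 * B * (B + 1) : ℕ) =
      Ev G o (fun K => (K.card : ℝ)) (2 * B * (B + 1) : ℕ) := by
    rw [Set.inter_eq_right]
    rintro I ⟨K, h0, h1, h2, h3⟩
    refine ⟨fun x hx => ?_, by simp⟩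
    rw [mem_singleton] at hx
    subst hx
    exact h2 _ h0
  have h2 : P.real (locSet {o} ∅) = Real.exp (-(s * c {o})) := by
    rw [hP.loc, fS_empty]
  rw [h1, h2] at h
  refine h.trans (mul_le_mul_of_nonneg_right ?_ (Real.exp_pos _).le)
  simp only [card_singleton, Nat.cast_one, card_empty, Nat.cast_zero, zero_div, sub_zero]
  unfold psi
  rw [div_le_div_iff₀ (by positivity) (by positivity)]
  nlinarith

end Run7.h485
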