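import Pool.Agent.Run7.h485.Second
import Pool.Agent.Run7.h485.Upper

/-!
# High dimension: the value of `θ` at the critical level
-/

namespace Run7.h485

open Finset MeasureTheory Filter Topology
open Pool.Agent.H282R3.RW (V Dir vec nsq nsq_nonneg escapeProb)
open scoped ENNReal

noncomputable section

/-- conditions on the size parameter -/
def Big (N : ℕ) : Prop :=
  100000000 ≤ N ∧ 201523200 * Real.log N ^ 2 ≤ N ∧ 10880 * Real.log N ≤ N ∧
    262656 * (N : ℝ) ^ 7 * Real.exp (-((N : ℝ) / 512)) ≤ 1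

theorem eventually_big : ∀ᶠ N : ℕ in atTop, Big N := by
  have h1 : ∀ᶠ N : ℕ in atTop, 100000000 ≤ N := eventually_ge_atTop _
  have h2 : ∀ᶠ x : ℝ in atTop, 201523200 * Real.log x ^ 2 ≤ x := by
    have := (Real.isLittleO_pow_log_id_atTop (n := 2)).bound (c := 1 / 201523200) (by norm_num)
    filter_upwards [this, eventually_ge_atTop (0 : ℝ)] with x hx hx0
    rw [Real.norm_eq_abs, abs_of_nonneg (by positivity), Real.norm_eq_abs, id, abs_of_nonneg hx0] at hx
    linarith
  have h3 : ∀ᶠ x : ℝ in atTop, 10880 * Real.log x ≤ x := by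
    have := (Real.isLittleO_pow_log_id_atTop (n := 1)).bound (c := 1 / 10880) (by norm_num)
    filter_upwards [this, eventually_ge_atTop (1 : ℝ)] with x hx hx0
    rw [pow_one, Real.norm_eq_abs, abs_of_nonneg (Real.log_nonneg hx0), Real.norm_eq_abs, id,
      abs_of_nonneg (by linarith)] at hx
    linarith
  have h4 : ∀ᶠ x : ℝ in atTop, 262656 * x ^ 7 * Real.exp (-(x / 512)) ≤ 1 := by
    have h5 : Tendsto (fun x : ℝ => x / 512) atTop atTop :=
      tendsto_id.atTop_div_const (by norm_num)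
    have h6 := (Real.tendsto_pow_mul_exp_neg_atTop_nhds_zero 7).comp h5
    have h7 := h6.eventually_le_const (show (0 : ℝ) < 1 / (262656 * 512 ^ 7) by positivity)
    filter_upwards [h7] with x hx
    simp only [Function.comp_apply] at hx
    rw [div_pow, le_div_iff₀ (by positivity)] at hx
    calc 262656 * x ^ 7 * Real.exp (-(x / 512)) =
        x ^ 7 / 512 ^ 7 * Real.exp (-(x / 512)) * (262656 * 512 ^ 7) := by ring
      _ ≤ 1 := hx
  filter_upwards [h1, tendsto_natCast_atTop_atTop.eventually h2,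
    tendsto_natCast_atTop_atTop.eventually h3, tendsto_natCast_atTop_atTop.eventually h4] with
    N a b c e
  exact ⟨a, b, c, e⟩

/-- real consequences of the choice of the parameters -/
theorem sizes {N d : ℕ} (hN : Big N) (h1 : N ^ 4 ≤ d) (h2 : d < (N + 1) ^ 4) :
    (100000000 : ℝ) ≤ N ∧ (N : ℝ) ^ 4 ≤ d ∧ (d : ℝ) ≤ 16 * (N : ℝ) ^ 4 ∧
      Real.log (2 * d) ≤ 5 * Real.log N ∧ 0 < Real.log (2 * (d : ℝ)) := by
  obtain ⟨a, -, -, -⟩ := hN
  have a' : (100000000 : ℝ) ≤ N := by exact_mod_cast a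
  have b : (N : ℝ) ^ 4 ≤ d := by exact_mod_cast h1
  have c : (d : ℝ) ≤ ((N : ℝ) + 1) ^ 4 := by exact_mod_cast h2.le
  have c' : (d : ℝ) ≤ 16 * (N : ℝ) ^ 4 := by
    refine c.trans ?_
    calc ((N : ℝ) + 1) ^ 4 ≤ (2 * (N : ℝ)) ^ 4 := pow_le_pow_left₀ (by positivity) (by linarith) 4
      _ = _ := by ring
  have hdpos : (1 : ℝ) ≤ d := le_trans (one_le_pow₀ (by linarith)) b
  refine ⟨a', b, c', ?_, Real.log_pos (by linarith)⟩
  have h3 : 2 * (d : ℝ) ≤ (N : ℝ) ^ 5 := by
    calc 2 * (d : ℝ) ≤ 32 * (N : ℝ) ^ 4 := by linarith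
      _ ≤ N * (N : ℝ) ^ 4 := mul_le_mul_of_nonneg_right (by linarith) (by positivity)
      _ = _ := by ring
  calc Real.log (2 * d) ≤ Real.log ((N : ℝ) ^ 5) := Real.log_le_log (by positivity) h3
    _ = 5 * Real.log N := by rw [Real.log_pow]; norm_num

theorem one_sub_pow_le {z : ℝ} (h1 : z ≤ 1) (k : ℕ) :
    (1 - z) ^ k ≤ Real.exp (-(z * k)) := by
  have h : 1 - z ≤ Real.exp (-z) := by
    have := Real.add_one_le_exp (-z)
    linarith
  calc (1 - z) ^ k ≤ Real.exp (-z) ^ k := pow_le_pow_left₀ (by linarith) h k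
    _ = _ := by rw [← Real.exp_nat_mul]; congr 1; ring

theorem num_holds {N d : ℕ} (hN : Big N) (h1 : N ^ 4 ≤ d) (h2 : d < (N + 1) ^ 4) {ε : ℝ}
    (hε : ε = 1 / (32 * N)) :
    Num d (N ^ 2) (1 / (2 * ((d : ℝ) - (((N ^ 2 : ℕ) : ℝ) + 1)))) (2 * d * (1 - ε / 4))
      (2 * d * (1 - ε / 4) * (1 / (2 * ((d : ℝ) - (((N ^ 2 : ℕ) : ℝ) + 1))))) (1 - ε / 8)
      (16 / ε) (8 * (((N ^ 2 : ℕ) : ℝ) + 1) * (2 * d * (1 - ε / 4)) * (16 / ε + 1))
      (1 / (2 * ((d : ℝ) - (((N ^ 2 : ℕ) : ℝ) + 1))) / (1 - ε / 8)) := by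
  obtain ⟨a, b, c, e, f⟩ := sizes hN h1 h2
  obtain ⟨aN, -, -, hexp⟩ := hN
  set n : ℝ := (N : ℝ) with hn
  set D : ℝ := (d : ℝ) with hD
  have hnpos : 0 < n := by linarith
  have hm : (((N ^ 2 : ℕ) : ℝ)) = n ^ 2 := by push_cast; rfl
  rw [hm]
  have hn2 : 1 ≤ n ^ 2 := one_le_pow₀ (by linarith)
  have hm1 : n ^ 2 + 1 ≤ 2 * n ^ 2 := by linarith
  have hDpos : 0 < D := lt_of_lt_of_le (by positivity) b
  have hn4 : n ^ 4 = n ^ 2 * n ^ 2 := by ring
  have hbig2 : 10000000000000000 ≤ n ^ 2 := by nlinarith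
  have hDn2 : 10000000000000000 * n ^ 2 ≤ D := by
    rw [hn4] at b
    have := mul_le_mul_of_nonneg_right hbig2 (by positivity : 0 ≤ n ^ 2)
    linarith
  have hε0 : 0 < ε := by rw [hε]; positivity
  have hεn : ε * (32 * n) = 1 := by rw [hε]; field_simp
  have hε1 : ε ≤ 1 / 1000 := by
    rw [hε, div_le_div_iff₀ (by positivity) (by norm_num)]
    linarith
  have hgap : 0 < D - (n ^ 2 + 1) := by linarith
  set δ : ℝ := 1 / (2 * (D - (n ^ 2 + 1))) with hδ
  have hδ0 : 0 < δ := by rw [hδ]; positivity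
  have hδD : δ * D ≤ 1 := by
    rw [hδ, one_div, inv_mul_le_iff₀ (by positivity)]
    linarith
  set Λ : ℝ := 2 * D * (1 - ε / 4) with hΛ
  have hΛ2 : Λ ≤ 2 * D := by
    rw [hΛ]
    have : 0 ≤ 2 * D * (ε / 4) := by positivity
    linarith
  have hΛ1 : D ≤ Λ := by
    rw [hΛ]
    nlinarith
  have hΛ0 : 0 < Λ := by linarith
  -- ρ
  have hρ : Λ * δ ≤ 1 - 3 * ε / 16 := by
    have h3 : D ≤ (1 + ε / 16) * (D - (n ^ 2 + 1)) := by
      have h4 : 2 * (n ^ 2 + 1) ≤ ε / 16 * D := by
        have h5 : ε / 16 * D * (512 * n) = D := by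
          calc ε / 16 * D * (512 * n) = (ε * (32 * n)) * D := by ring
            _ = D := by rw [hεn, one_mul]
        have h6 : 2 * (n ^ 2 + 1) * (512 * n) ≤ D := by
          have h7 : 2 * (n ^ 2 + 1) * (512 * n) ≤ 2048 * n * n ^ 2 := by nlinarith
          have h8 : 2048 * n * n ^ 2 ≤ n ^ 4 := by
            have : n ^ 4 = n * n * n ^ 2 := by ring
            rw [this]
            refine mul_le_mul_of_nonneg_right ?_ (by positivity)
            exact mul_le_mul_of_nonneg_right (by linarith) hnpos.le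
          linarith
        have h9 : 2 * (n ^ 2 + 1) * (512 * n) ≤ ε / 16 * D * (512 * n) := by rw [h5]; exact h6
        exact le_of_mul_le_mul_right h9 (by positivity)
      nlinarith
    have h4 : Λ * δ = (1 - ε / 4) * (D / (D - (n ^ 2 + 1))) := by
      rw [hΛ, hδ]
      field_simp
    rw [h4]
    have h5 : D / (D - (n ^ 2 + 1)) ≤ 1 + ε / 16 := by
      rw [div_le_iff₀ hgap]; exact h3
    calc (1 - ε / 4) * (D / (D - (n ^ 2 + 1))) ≤ (1 - ε / 4) * (1 + ε / 16) :=
          mul_le_mul_of_nonneg_left h5 (by linarith)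
      _ ≤ 1 - 3 * ε / 16 := by nlinarith [sq_nonneg ε]
  set r : ℝ := 1 - ε / 8 with hr
  have hr0 : 1 / 2 ≤ r := by rw [hr]; linarith
  have hrpos : 0 < r := by linarith
  set x : ℝ := δ / r with hx
  have hx0 : 0 < x := by rw [hx]; positivity
  have hxD : x * D ≤ 2 := by
    have h3 : x * r = δ := by rw [hx]; field_simp
    have h4 : x * D * r ≤ 1 := by
      calc x * D * r = (x * r) * D := by ring
        _ ≤ 1 := by rw [h3]; exact hδD
    have h5 : 0 ≤ x * D := by positivity
    nlinarith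
  -- products
  have hxn : x * n ^ 2 ≤ 2 / 10000000000000000 := by
    have h3 : x * (10000000000000000 * n ^ 2) ≤ x * D := mul_le_mul_of_nonneg_left hDn2 hx0.le
    linarith
  have hΛx : Λ * x ≤ 4 := by
    calc Λ * x ≤ 2 * D * x := mul_le_mul_of_nonneg_right hΛ2 hx0.le
      _ = 2 * (x * D) := by ring
      _ ≤ 4 := by linarith
  have hDx2 : n ^ 4 * x ≤ 2 := by
    calc n ^ 4 * x ≤ D * x := mul_le_mul_of_nonneg_right b hx0.le
      _ ≤ 2 := by linarith
  have hn2x : n ^ 2 * x * n ^ 2 ≤ 2 := by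
    calc n ^ 2 * x * n ^ 2 = n ^ 4 * x := by ring
      _ ≤ 2 := hDx2
  have hA : (16 : ℝ) / ε = 512 * n := by
    rw [hε]
    field_simp
    norm_num
  rw [hA]
  have hM2 : 2 ≤ N ^ 2 := by nlinarith
  have hMd : N ^ 2 + 84 ≤ d := by
    have h3 : ((N ^ 2 + 84 : ℕ) : ℝ) ≤ (d : ℝ) := by
      push_cast
      rw [← hn, ← hD]
      linarith
    exact_mod_cast h3
  have h2d : 2 * (N ^ 2 + 1) ≤ d := by
    have h3 : ((2 * (N ^ 2 + 1) : ℕ) : ℝ) ≤ (d : ℝ) := by
      push_cast
      rw [← hn, ← hD]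
      linarith
    exact_mod_cast h3
  refine
    { hM2 := hM2
      hMd := hMd
      h2 := h2d
      hδ := by rw [hδ, hm]
      hρ := rfl
      hr0 := hrpos
      hr1 := by rw [hr]; linarith
      hx := rfl
      hΛ := by linarith
      hA := by linarith
      hW := by rw [hm]
      h4 := ?_
      hx2 := ?_
      H1 := ?_
      H2 := ?_
      H3 := ?_ }
  · rw [hm]
    nlinarith
  · have h3 : x ≤ 1 / 1000000 := by
      have : x * 1 ≤ x * n ^ 2 := mul_le_mul_of_nonneg_left hn2 hx0.le
      linarith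
    nlinarith
  · -- H1
    rw [hm]
    have h3 : 3 ≤ (1 - Λ * δ) * (512 * n) := by
      have h4 : 3 * ε / 16 ≤ 1 - Λ * δ := by linarith
      have h5 : 3 * ε / 16 * (512 * n) = 3 * (ε * (32 * n)) := by ring
      have h6 := mul_le_mul_of_nonneg_right h4 (by positivity : 0 ≤ 512 * n)
      rw [h5, hεn] at h6
      linarith
    have h4 : 3220 * (n ^ 2 + 1) * Λ * (512 * n + 1) * x ^ 2 ≤ 2 := by
      have h5 : 512 * n + 1 ≤ 513 * n := by linarith
      have h6 : 3220 * (n ^ 2 + 1) * Λ * (512 * n + 1) * x ^ 2 ≤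
          3220 * (2 * n ^ 2) * Λ * (513 * n) * x ^ 2 := by gcongr
      have h7 : 3220 * (2 * n ^ 2) * Λ * (513 * n) * x ^ 2 * n =
          3303720 * (Λ * x) * (n ^ 4 * x) := by ring
      have h8 : 3303720 * (Λ * x) * (n ^ 4 * x) ≤ 3303720 * 4 * 2 := by gcongr
      have h9 : 3220 * (2 * n ^ 2) * Λ * (513 * n) * x ^ 2 * n ≤ 2 * n := by
        rw [h7]; linarith
      have h10 := le_of_mul_le_mul_right h9 hnpos
      linarith
    linarith
  · -- H2
    rw [hm]
    have h3 : 8 * Λ * (n ^ 2 + 1) * x ^ 2 ≤ ε / 32 := by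
      have h4 : 8 * Λ * (n ^ 2 + 1) * x ^ 2 ≤ 8 * Λ * (2 * n ^ 2) * x ^ 2 := by gcongr
      have h5 : 8 * Λ * (2 * n ^ 2) * x ^ 2 * n ^ 2 = 16 * (Λ * x) * (n ^ 2 * x * n ^ 2) := by ring
      have h6 : 16 * (Λ * x) * (n ^ 2 * x * n ^ 2) ≤ 16 * 4 * 2 := by gcongr
      have h7 : (128 : ℝ) ≤ ε / 32 * n ^ 2 := by
        have : ε / 32 * n ^ 2 = (ε * (32 * n)) * n / 1024 := by ring
        rw [this, hεn]
        linarith
      have h8 : 8 * Λ * (2 * n ^ 2) * x ^ 2 * n ^ 2 ≤ ε / 32 * n ^ 2 := by rw [h5]; linarith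
      have h9 := le_of_mul_le_mul_right h8 (by positivity : 0 < n ^ 2)
      linarith
    have h4 : ε / 32 ≤ r - Λ * δ - 8 * Λ * (n ^ 2 + 1) * x ^ 2 := by
      rw [hr]; linarith
    have h5 : 1 ≤ Λ * (ε / 32) := by
      have h6 : D * (ε / 32) ≤ Λ * (ε / 32) := mul_le_mul_of_nonneg_right hΛ1 (by positivity)
      have h7 : 1024 * n ≤ D := by nlinarith
      have h8 : D * (ε / 32) * (1024 * n) = D * (ε * (32 * n)) := by ring
      rw [hεn, mul_one] at h8
      have h9 : 1 * (1024 * n) ≤ D * (ε / 32) * (1024 * n) := by rw [h8]; linarith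
      have h10 := le_of_mul_le_mul_right h9 (by positivity)
      linarith
    have := mul_le_mul_of_nonneg_left h4 hΛ0.le
    linarith
  · -- H3
    have h3 : 8 * (n ^ 2 + 1) * Λ * (512 * n + 1) ≤ 262656 * n ^ 7 := by
      calc 8 * (n ^ 2 + 1) * Λ * (512 * n + 1) ≤ 8 * (2 * n ^ 2) * (2 * (16 * n ^ 4)) * (513 * n) := by
            have : Λ ≤ 2 * (16 * n ^ 4) := by linarith
            have : 512 * n + 1 ≤ 513 * n := by linarith
            gcongr
        _ = 262656 * n ^ 7 := by ring
    have h4 : r ^ (N ^ 2 - 1) ≤ Real.exp (-(n / 512)) := by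
      have h5 := one_sub_pow_le (z := ε / 8) (by linarith) (N ^ 2 - 1)
      rw [← hr] at h5
      refine h5.trans (Real.exp_le_exp.2 ?_)
      have h6 : (((N ^ 2 - 1 : ℕ)) : ℝ) = n ^ 2 - 1 := by
        rw [Nat.cast_sub (by omega)]
        push_cast
        rfl
      rw [h6]
      have h7 : n / 512 * 512 ≤ ε / 8 * (n ^ 2 - 1) * 512 := by
        have h8 : ε / 8 * (n ^ 2 - 1) * 512 * n = 2 * (ε * (32 * n)) * (n ^ 2 - 1) := by ring
        rw [hεn] at h8
        have h9 : n / 512 * 512 * n ≤ ε / 8 * (n ^ 2 - 1) * 512 * n := by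
          rw [h8]; nlinarith
        exact le_of_mul_le_mul_right h9 hnpos
      have := le_of_mul_le_mul_right h7 (by norm_num)
      linarith
    calc 8 * (n ^ 2 + 1) * Λ * (512 * n + 1) * r ^ (N ^ 2 - 1)
        ≤ 262656 * n ^ 7 * Real.exp (-(n / 512)) :=
          mul_le_mul h3 h4 (by positivity) (by positivity)
      _ ≤ 1 := hexp

theorem exp_le_one_add_two {z : ℝ} (h0 : 0 ≤ z) (h1 : z ≤ 1) : Real.exp z ≤ 1 + 2 * z := by
  have := Real.abs_exp_sub_one_sub_id_le (x := z) (by rw [abs_of_nonneg h0]; exact h1)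
  have := (abs_le.1 this).2
  nlinarith

/-- **Percolation slightly above the branching threshold.** -/
theorem theta_pos_high {N d : ℕ} [NeZero d] (hN : Big N) (h1 : N ^ 4 ≤ d) (h2 : d < (N + 1) ^ 4)
    {ε : ℝ} (hε : ε = 1 / (32 * N)) : 0 < theta d (Real.log (2 * d / (1 + ε))) := by
  have hnum := num_holds hN h1 h2 hε
  obtain ⟨a, b, c, e, f⟩ := sizes hN h1 h2
  obtain ⟨aN, hlog2, hlog1, hexp⟩ := hN
  set n : ℝ := (N : ℝ) with hn
  set D : ℝ := (d : ℝ) with hD
  have hnpos : 0 < n := by linarith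
  have hDpos : 0 < D := lt_of_lt_of_le (by positivity) b
  have hε0 : 0 < ε := by rw [hε]; positivity
  have hεn : ε * (32 * n) = 1 := by rw [hε]; field_simp
  have hε1 : ε ≤ 1 / 1000 := by
    rw [hε, div_le_div_iff₀ (by positivity) (by norm_num)]
    linarith
  set L : ℝ := 5 * Real.log n with hL
  have hLpos : 1 ≤ L := by
    have h3 : (1 : ℝ) ≤ Real.log n := by
      rw [Real.le_log_iff_exp_le hnpos]
      have := Real.exp_one_lt_d9
      linarith
    rw [hL]; linarith
  set u : ℝ := Real.log (2 * D / (1 + ε)) with hu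
  have hD1 : 100000000 ≤ D := by
    have : n ≤ n ^ 4 := le_self_pow₀ (by linarith) (by norm_num)
    linarith
  have hupos : 0 < u := by
    refine Real.log_pos ?_
    rw [one_lt_div (by linarith)]
    linarith
  have huL : u ≤ L := by
    refine le_trans (Real.log_le_log (by positivity) ?_) e
    rw [div_le_iff₀ (by linarith)]
    nlinarith
  set t : ℝ := ε / (8 * L) with ht
  have ht0 : 0 < t := by rw [ht]; positivity
  have ht2 : t ≤ 1 / 2 := by
    rw [ht, div_le_div_iff₀ (by positivity) (by norm_num)]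
    linarith
  refine theta_lower hnum hupos ht0 (by linarith) ?_ ?_
  · -- exponential
    have h3 : u / (1 - t) ≤ u + ε / 4 := by
      rw [div_le_iff₀ (by linarith)]
      have h4 : L * t = ε / 8 := by rw [ht]; field_simp
      have h5 : u * t ≤ ε / 8 := by
        rw [← h4]; exact mul_le_mul_of_nonneg_right huL ht0.le
      nlinarith
    have h4 : Real.exp (u / (1 - t)) ≤ 2 * D * (1 - ε / 4) := by
      calc Real.exp (u / (1 - t)) ≤ Real.exp (u + ε / 4) := Real.exp_le_exp.2 h3
        _ = 2 * D / (1 + ε) * Real.exp (ε / 4) := by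
            rw [Real.exp_add, hu, Real.exp_log (by positivity)]
        _ ≤ 2 * D / (1 + ε) * (1 + 2 * (ε / 4)) := by
            refine mul_le_mul_of_nonneg_left (exp_le_one_add_two (by positivity) (by linarith))
              (by positivity)
        _ ≤ 2 * D * (1 - ε / 4) := by
            rw [div_mul_eq_mul_div, div_le_iff₀ (by linarith), mul_assoc (2 * D) (1 - ε / 4)]
            refine mul_le_mul_of_nonneg_left ?_ (by positivity)
            nlinarith [sq_nonneg ε]
    linarith
  · -- long range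
    have hm : (((N ^ 2 : ℕ) : ℝ)) = n ^ 2 := by push_cast; rfl
    rw [hm]
    have h3 : 82 * u / (D * t) ≤ 82 * L / (D * t) :=
      div_le_div_of_nonneg_right (by linarith) (by positivity)
    have h4 : 82 * L / (D * t) = 656 * L ^ 2 / (D * ε) := by
      rw [ht]; field_simp; ring
    have hn2 : 1 ≤ n ^ 2 := one_le_pow₀ (by linarith)
    have h5 : 192 * (82 * u / (D * t)) * (n ^ 2 + 1) ≤ 192 * (656 * L ^ 2 / (D * ε)) * (2 * n ^ 2) := by
      rw [← h4]
      have : n ^ 2 + 1 ≤ 2 * n ^ 2 := by linarith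
      gcongr
    refine h5.trans ?_
    have h6 : 192 * (656 * L ^ 2 / (D * ε)) * (2 * n ^ 2) = 251904 * L ^ 2 * n ^ 2 / (D * ε) := by
      ring
    rw [h6, div_le_one (by positivity)]
    have h7 : 251904 * L ^ 2 * n ^ 2 * (32 * n) ≤ D * ε * (32 * n) := by
      have h8 : D * ε * (32 * n) = D := by rw [mul_assoc, hεn, mul_one]
      rw [h8]
      have h9 : 251904 * L ^ 2 * 32 ≤ n := by
        rw [hL]
        calc 251904 * (5 * Real.log n) ^ 2 * 32 = 201523200 * Real.log n ^ 2 := by ring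
          _ ≤ n := hlog2
      calc 251904 * L ^ 2 * n ^ 2 * (32 * n) = (251904 * L ^ 2 * 32) * n ^ 3 := by ring
        _ ≤ n * n ^ 3 := mul_le_mul_of_nonneg_right h9 (by positivity)
        _ = n ^ 4 := by ring
        _ ≤ D := b
    exact le_of_mul_le_mul_right h7 (by positivity)

theorem cap_insert_ge {d : ℕ} [NeZero d] (hd : 76 ≤ d) {A : Finset (V d)} {x : V d} (hx : x ∉ A) :
    1 - (6 + 41 / 4 * (A.card : ℝ)) / d ≤ cap (insert x A) - cap A := by
  have hd' : (76 : ℝ) ≤ d := by exact_mod_cast hd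
  have hdpos : (0 : ℝ) < d := by linarith
  have h1 := hitFun_cap.mutual_le A {x}
  have h2 : ∑ a ∈ A, ∑ y ∈ ({x} : Finset (V d)), (cap {a} + cap {y} - cap ({a} ∪ {y})) ≤
      ∑ a ∈ A, 41 / 4 / (d : ℝ) := by
    refine sum_le_sum fun a ha => ?_
    rw [sum_singleton]
    have hne : a ≠ x := fun h => hx (h ▸ ha)
    refine (cap_pair hd hne).trans ?_
    have h3 : phi (a - x) ≤ 1 / 8 := by
      unfold phi
      have h4 := one_le_nsq (sub_ne_zero.2 hne)
      rw [one_div]
      refine inv_anti₀ (by norm_num) ?_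
      calc (8 : ℝ) = 2 ^ 3 := by norm_num
        _ ≤ (nsq (a - x) + 1) ^ 3 := pow_le_pow_left₀ (by norm_num) (by linarith) 3
    calc 82 / (d : ℝ) * phi (a - x) ≤ 82 / (d : ℝ) * (1 / 8) :=
          mul_le_mul_of_nonneg_left h3 (by positivity)
      _ = 41 / 4 / d := by ring
  rw [sum_const, nsmul_eq_mul] at h2
  have h3 : A ∪ {x} = insert x A := by rw [union_comm, insert_eq]
  rw [h3] at h1
  have h4 := escapeProb_ge hd
  have h5 : cap ({x} : Finset (V d)) = escapeProb d := cap_singleton x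
  have h6 : 1 - (6 + 41 / 4 * (A.card : ℝ)) / d = 1 - 6 / d - A.card * (41 / 4 / d) := by ring
  rw [h6]
  linarith

/-- the event of an infinite cluster is contained in the event of a large cluster -/
theorem inf_subset {d : ℕ} [NeZero d] (K : ℕ) :
    Inf' (lattice d) (0 : V d) ⊆ Ev (lattice d) 0 (fun K => (K.card : ℝ)) (K : ℕ) := by
  have h := iInter_Ev (G := lattice d) (o := (0 : V d)) hitFun_card
    (fun C hC m => by
      obtain ⟨n, hn⟩ := exists_nat_ge m
      obtain ⟨K, hK, hcard⟩ := hC.exists_subset_card_eq n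
      exact ⟨K, hK, by rw [hcard]; exact hn⟩)
  rw [← h]
  refine (Set.iInter_subset _ K).trans (Ev_anti _ _ _ (by linarith))

theorem theta_le_vacant {d : ℕ} [NeZero d] {u : ℝ} (hu : 0 < u) :
    theta d u ≤ Real.exp (-(u * cap ({0} : Finset (V d)))) := by
  have hP : IsLaw (cap : Finset (V d) → ℝ) u (interlacement d u) :=
    isLaw_iff.2 (interlacement_spec hu.le)
  have := hP.prob
  have h1 : theta d u = (interlacement d u).real (Inf' (lattice d) 0) := rfl
  have h2 : (interlacement d u).real {I : Set (V d) | ∀ x ∈ ({0} : Finset (V d)), x ∉ I} =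
      Real.exp (-(u * cap ({0} : Finset (V d)))) := by
    rw [Measure.real, hP.avoid, ENNReal.toReal_ofReal (Real.exp_pos _).le]
  rw [h1, ← h2]
  refine measureReal_mono ((inf_subset 1).trans ?_)
  rintro I ⟨K, h0, h1, h2, h3⟩ x hx
  rw [mem_singleton] at hx
  subst hx
  exact h2 _ h0

/-- **Upper bound near and above the branching threshold.** -/
theorem theta_upper_high {N d : ℕ} [NeZero d] (hN : Big N) (h1 : N ^ 4 ≤ d) (h2 : d < (N + 1) ^ 4)
    {ε : ℝ} (hε : ε = 1 / (32 * N)) {u : ℝ} (hu : Real.log (2 * d / (1 + ε)) ≤ u) :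
    theta d u ≤ 4 / N * Real.exp (-(u * cap ({0} : Finset (V d)))) ∧
      Real.exp (-(u * cap ({0} : Finset (V d)))) ≤ 2 / d := by
  obtain ⟨a, b, c, e, f⟩ := sizes hN h1 h2
  obtain ⟨aN, hlog2, hlog1, hexp⟩ := hN
  set n : ℝ := (N : ℝ) with hn
  set D : ℝ := (d : ℝ) with hD
  have hnpos : 0 < n := by linarith
  have hDpos : 0 < D := lt_of_lt_of_le (by positivity) b
  have hε0 : 0 < ε := by rw [hε]; positivity
  have hεn : ε * (32 * n) = 1 := by rw [hε]; field_simp
  have hε1 : ε ≤ 1 / 1000 := by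
    rw [hε, div_le_div_iff₀ (by positivity) (by norm_num)]
    linarith
  set L : ℝ := 5 * Real.log n with hL
  have hL1 : 1 ≤ L := by
    have h3 : (1 : ℝ) ≤ Real.log n := by
      rw [Real.le_log_iff_exp_le hnpos]
      have := Real.exp_one_lt_d9
      linarith
    rw [hL]; linarith
  have hLn : 2176 * L ≤ n := by rw [hL]; linarith
  set u₁ : ℝ := Real.log (2 * D / (1 + ε)) with hu₁
  have hn4 : n ^ 4 = n ^ 2 * n ^ 2 := by ring
  have hn2 : 10000000000000000 ≤ n ^ 2 := by nlinarith
  have hDn2 : 10000000000000000 * n ^ 2 ≤ D := by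
    rw [hn4] at b
    have := mul_le_mul_of_nonneg_right hn2 (by positivity : 0 ≤ n ^ 2)
    linarith
  have hDn : n ≤ D := by nlinarith
  have hd76 : 76 ≤ d := by
    have : (76 : ℝ) ≤ (d : ℝ) := by rw [← hD]; linarith
    exact_mod_cast this
  have hupos1 : 0 < u₁ := by
    refine Real.log_pos ?_
    rw [one_lt_div (by linarith)]
    linarith
  have hupos : 0 < u := by linarith
  have huL : u₁ ≤ L := by
    refine le_trans (Real.log_le_log (by positivity) ?_) e
    rw [div_le_iff₀ (by linarith)]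
    nlinarith
  have hexpu : Real.exp (-u₁) = (1 + ε) / (2 * D) := by
    rw [Real.exp_neg, hu₁, Real.exp_log (by positivity), inv_div]
  have hP : IsLaw (cap : Finset (V d) → ℝ) u (interlacement d u) :=
    isLaw_iff.2 (interlacement_spec hupos.le)
  have := hP.prob
  -- general exponential bound
  have hgen : ∀ z q : ℝ, 1 - q ≤ z → 0 ≤ q → q ≤ 1 →
      Real.exp (-(u * z)) ≤ (1 + ε) / (2 * D) * Real.exp (L * q) := by
    intro z q hz hq0 hq1
    have h3 : -(u * z) ≤ -u₁ + L * q := by
      have h4 : u₁ * (1 - q) ≤ u * z := by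
        calc u₁ * (1 - q) ≤ u * (1 - q) := mul_le_mul_of_nonneg_right hu (by linarith)
          _ ≤ u * z := mul_le_mul_of_nonneg_left hz hupos.le
      have h5 : u₁ * q ≤ L * q := mul_le_mul_of_nonneg_right huL hq0
      linarith
    calc Real.exp (-(u * z)) ≤ Real.exp (-u₁ + L * q) := Real.exp_le_exp.2 h3
      _ = _ := by rw [Real.exp_add, hexpu]
  constructor
  · -- exploration
    set η : ℝ := 1 / (8 * n) with hη
    have hη0 : 0 < η := by rw [hη]; positivity
    have hη1 : η ≤ 1 / 1000 := by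
      rw [hη, div_le_div_iff₀ (by positivity) (by norm_num)]
      linarith
    have hηn : η * (8 * n) = 1 := by rw [hη]; field_simp
    have hεη : ε = η / 4 := by rw [hε, hη]; field_simp; norm_num
    set p : ℝ := (1 + η) / (2 * D + 1) with hp
    obtain ⟨B, hB⟩ : ∃ B : ℕ, N = B + 1 := ⟨N - 1, by omega⟩
    have hBn : (B : ℝ) + 1 = n := by rw [hn, hB]; push_cast; ring
    have hB1 : 1 ≤ B := by omega
    have hcast : (((2 * d : ℕ) : ℝ)) = 2 * D := by push_cast; rfl
    have hpe : (((2 * d : ℕ) : ℝ) + 1) * p - 1 = η := by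
      rw [hcast, hp]; field_simp; ring
    have hup := upper_bound (G := lattice d)
      (N := fun x => univ.image fun a : Dir d => x + vec a) (D := 2 * d) (by omega)
      (fun x y ⟨a, ha⟩ => by rw [mem_image]; exact ⟨a, mem_univ _, ha.symm⟩)
      (fun x => card_image_le.trans (by simp [mul_comm]))
      hitFun_cap hupos.le hP hB1 (p := p)
      (by rw [hp, div_le_one (by positivity)]; linarith)
      (by rw [hpe]; exact hη0.le)
      (by rw [hpe, hBn])
      (fun A hA x hx => by
        have h3 := cap_insert_ge hd76 hx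
        have hAcard : (A.card : ℝ) ≤ 2 * n ^ 2 := by
          have h4 : A.card ≤ 2 * N ^ 2 := by
            have : 2 * B * (B + 1) ≤ 2 * (B + 1) ^ 2 := by nlinarith
            rw [hB]; omega
          have h5 : (A.card : ℝ) ≤ ((2 * N ^ 2 : ℕ) : ℝ) := by exact_mod_cast h4
          push_cast at h5
          exact h5
        have h4 : (6 + 41 / 4 * (A.card : ℝ)) / D ≤ 34 * n ^ 2 / D :=
          div_le_div_of_nonneg_right (by linarith) hDpos.le
        have hq1 : 34 * n ^ 2 / D ≤ 1 := by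
          rw [div_le_one hDpos]; linarith
        have h5 := hgen (cap (insert x A) - cap A) (34 * n ^ 2 / D) (by linarith) (by positivity) hq1
        refine h5.trans ?_
        have h6 : L * (34 * n ^ 2 / D) ≤ η / 8 := by
          have h7 : L * (34 * n ^ 2 / D) * (64 * n) ≤ η / 8 * (64 * n) := by
            have h8 : η / 8 * (64 * n) = 1 := by linarith
            rw [h8]
            have h9 : L * (34 * n ^ 2 / D) * (64 * n) = (2176 * L) * n ^ 3 / D := by ring
            rw [h9, div_le_one hDpos]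
            calc (2176 * L) * n ^ 3 ≤ n * n ^ 3 := mul_le_mul_of_nonneg_right hLn (by positivity)
              _ = n ^ 4 := by ring
              _ ≤ D := b
          exact le_of_mul_le_mul_right h7 (by positivity)
        have h7 : Real.exp (L * (34 * n ^ 2 / D)) ≤ 1 + η / 4 := by
          refine (Real.exp_le_exp.2 h6).trans ?_
          have := exp_le_one_add_two (z := η / 8) (by positivity) (by linarith)
          linarith
        calc (1 + ε) / (2 * D) * Real.exp (L * (34 * n ^ 2 / D))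
            ≤ (1 + ε) / (2 * D) * (1 + η / 4) := mul_le_mul_of_nonneg_left h7 (by positivity)
          _ ≤ p := by
              rw [hp, div_mul_eq_mul_div, div_le_div_iff₀ (by positivity) (by positivity), hεη]
              have h8 : 1 ≤ η / 8 * (2 * D) := by
                have h9 : η / 8 * (2 * D) * (8 * n) = 2 * D / 8 := by
                  calc η / 8 * (2 * D) * (8 * n) = (η * (8 * n)) * (2 * D) / 8 := by ring
                    _ = _ := by rw [hηn, one_mul]
                have h10 : 1 * (8 * n) ≤ η / 8 * (2 * D) * (8 * n) := by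
                  rw [h9]; nlinarith
                exact le_of_mul_le_mul_right h10 (by positivity)
              have h9 : 2 * D + 1 ≤ 2 * D * (1 + η / 8) := by linarith
              have h10 : (1 + η / 4) * (1 + η / 4) * (1 + η / 8) ≤ 1 + η := by
                nlinarith [sq_nonneg η, mul_pos hη0 hη0]
              calc (1 + η / 4) * (1 + η / 4) * (2 * D + 1)
                  ≤ (1 + η / 4) * (1 + η / 4) * (2 * D * (1 + η / 8)) :=
                    mul_le_mul_of_nonneg_left h9 (by positivity)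
                _ = (1 + η / 4) * (1 + η / 4) * (1 + η / 8) * (2 * D) := by ring
                _ ≤ (1 + η) * (2 * D) := mul_le_mul_of_nonneg_right h10 (by positivity))
      (0 : V d)
    have h1' : theta d u = (interlacement d u).real (Inf' (lattice d) 0) := rfl
    rw [h1']
    refine (measureReal_mono (inf_subset _)).trans (hup.trans ?_)
    refine mul_le_mul_of_nonneg_right ?_ (Real.exp_pos _).le
    have hBpos : (0 : ℝ) < B := by linarith
    rw [div_le_div_iff₀ hBpos hnpos]
    linarith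
  · -- the one point probability
    have h3 := escapeProb_ge hd76
    have h4 : cap ({0} : Finset (V d)) = escapeProb d := cap_singleton 0
    have hq1 : 6 / D ≤ 1 := by rw [div_le_one hDpos]; linarith
    have h5 := hgen (cap ({0} : Finset (V d))) (6 / D) (by rw [h4]; exact h3) (by positivity) hq1
    refine h5.trans ?_
    have h6 : L * (6 / D) ≤ 1 / 2 := by
      have : L * (6 / D) = 6 * L / D := by ring
      rw [this, div_le_iff₀ hDpos]
      linarith
    have h7 : Real.exp (L * (6 / D)) ≤ 2 := by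
      refine (Real.exp_le_exp.2 h6).trans ?_
      have := exp_le_one_add_two (z := 1 / 2) (by norm_num) (by norm_num)
      linarith
    calc (1 + ε) / (2 * D) * Real.exp (L * (6 / D)) ≤ (1 + 1) / (2 * D) * 2 := by
          refine mul_le_mul ?_ h7 (Real.exp_pos _).le (by positivity)
          exact div_le_div_of_nonneg_right (by linarith) (by positivity)
      _ = 2 / D := by field_simp; norm_num

end

end Run7.h485
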