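import Pool.Agent.Run7.h485.HighD

/-!
# High dimension: the jump of `θ` at the critical level
-/

namespace Run7.h485

open Finset MeasureTheory Filter Topology
open Pool.Agent.H282R3.RW (V Dir vec nsq nsq_nonneg escapeProb)
open scoped ENNReal

theorem exists_fourth_root (d : ℕ) : ∃ N : ℕ, N ^ 4 ≤ d ∧ d < (N + 1) ^ 4 := by
  refine ⟨Nat.sqrt (Nat.sqrt d), ?_, ?_⟩
  · have h1 := Nat.sqrt_le' (Nat.sqrt d)
    have h2 := Nat.sqrt_le' d
    calc Nat.sqrt (Nat.sqrt d) ^ 4 = (Nat.sqrt (Nat.sqrt d) ^ 2) ^ 2 := by ring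
      _ ≤ (Nat.sqrt d) ^ 2 := Nat.pow_le_pow_left h1 2
      _ ≤ d := h2
  · have h1 := Nat.succ_le_succ_sqrt' (Nat.sqrt d)
    have h2 := Nat.succ_le_succ_sqrt' d
    have h3 : (Nat.sqrt d + 1) ^ 2 ≤ ((Nat.sqrt (Nat.sqrt d) + 1) ^ 2) ^ 2 :=
      Nat.pow_le_pow_left h1 2
    calc d < d + 1 := Nat.lt_succ_self d
      _ ≤ (Nat.sqrt d + 1) ^ 2 := h2
      _ ≤ _ := h3
      _ = _ := by ring

theorem rpow_le_of_pow {N d : ℕ} (hN : 1 ≤ N) (hd : 0 < d) (h : (d : ℝ) ≤ 16 * (N : ℝ) ^ 4) :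
    1 / (N : ℝ) ≤ 2 * (d : ℝ) ^ (-(1 / 4) : ℝ) := by
  have hN' : (1 : ℝ) ≤ N := by exact_mod_cast hN
  have hd' : (0 : ℝ) < d := by exact_mod_cast hd
  have h1 : (d : ℝ) ^ (1 / 4 : ℝ) ≤ 2 * N := by
    have h2 : (d : ℝ) ≤ (2 * (N : ℝ)) ^ 4 := by
      calc (d : ℝ) ≤ 16 * (N : ℝ) ^ 4 := h
        _ = _ := by ring
    calc (d : ℝ) ^ (1 / 4 : ℝ) ≤ ((2 * (N : ℝ)) ^ 4) ^ (1 / 4 : ℝ) :=
          Real.rpow_le_rpow hd'.le h2 (by norm_num)
      _ = 2 * N := by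
          rw [← Real.rpow_natCast, ← Real.rpow_mul (by positivity)]
          norm_num
  have h3 : 0 < (d : ℝ) ^ (1 / 4 : ℝ) := Real.rpow_pos_of_pos hd' _
  rw [Real.rpow_neg hd'.le, ← div_eq_mul_inv, div_le_div_iff₀ (by positivity) h3]
  linarith

/-- **The value of `θ` at the critical level in high dimension.** -/
theorem high_dim_jump : ∃ C : ℝ, ∀ (d : ℕ) [NeZero d], 3 ≤ d → ∀ u : ℝ, 0 < u →
    (∀ v, u < v → theta d v = 0) →
    theta d u ≤ C * (d : ℝ) ^ (-(1 / 4) : ℝ) * Real.exp (-(u * cap ({0} : Finset (V d)))) ∧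
      theta d u ≤ C * (d : ℝ) ^ (-(5 / 4) : ℝ) := by
  obtain ⟨N₀, hN₀⟩ := eventually_atTop.1 eventually_big
  set C : ℝ := 16 + ((N₀ : ℝ) ^ 4 + 1) ^ 2 with hC
  refine ⟨C, fun d _ hd u hu hv => ?_⟩
  have hd' : (3 : ℝ) ≤ d := by exact_mod_cast hd
  have hdpos : (0 : ℝ) < d := by linarith
  set q : ℝ := Real.exp (-(u * cap ({0} : Finset (V d)))) with hq
  have hq0 : 0 < q := Real.exp_pos _
  have hr1 : 0 < (d : ℝ) ^ (-(1 / 4) : ℝ) := Real.rpow_pos_of_pos hdpos _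
  have hr2 : 0 < (d : ℝ) ^ (-(5 / 4) : ℝ) := Real.rpow_pos_of_pos hdpos _
  have hsplit : (d : ℝ) ^ (-(5 / 4) : ℝ) = (d : ℝ) ^ (-(1 / 4) : ℝ) * (1 / d) := by
    have h0 : (1 : ℝ) / d = (d : ℝ) ^ (-1 : ℝ) := by rw [Real.rpow_neg_one, one_div]
    rw [h0, ← Real.rpow_add hdpos]
    norm_num
  obtain ⟨N, h1, h2⟩ := exists_fourth_root d
  by_cases hN : N₀ ≤ N
  · have hbig := hN₀ N hN
    obtain ⟨a, b, c, e, f⟩ := sizes hbig h1 h2
    have hNpos : 1 ≤ N := by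
      have := hbig.1
      omega
    set ε : ℝ := 1 / (32 * N) with hε
    have hu1 : Real.log (2 * d / (1 + ε)) ≤ u := by
      by_contra hlt
      push Not at hlt
      have := theta_pos_high hbig h1 h2 hε
      rw [hv _ hlt] at this
      exact lt_irrefl _ this
    obtain ⟨g1, g2⟩ := theta_upper_high hbig h1 h2 hε hu1
    have hrp := rpow_le_of_pow hNpos (by omega) c
    have h4N : 4 / (N : ℝ) ≤ 8 * (d : ℝ) ^ (-(1 / 4) : ℝ) := by
      have : 4 / (N : ℝ) = 4 * (1 / N) := by ring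
      rw [this]; linarith
    have hC8 : 16 ≤ C := by rw [hC]; have : 0 ≤ ((N₀ : ℝ) ^ 4 + 1) ^ 2 := by positivity
                            linarith
    have g3 : theta d u ≤ 8 * (d : ℝ) ^ (-(1 / 4) : ℝ) * q :=
      g1.trans (mul_le_mul_of_nonneg_right h4N hq0.le)
    constructor
    · refine g3.trans ?_
      refine mul_le_mul_of_nonneg_right ?_ hq0.le
      exact mul_le_mul_of_nonneg_right (by linarith) hr1.le
    · calc theta d u ≤ 8 * (d : ℝ) ^ (-(1 / 4) : ℝ) * q := g3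
        _ ≤ 8 * (d : ℝ) ^ (-(1 / 4) : ℝ) * (2 / d) :=
            mul_le_mul_of_nonneg_left g2 (by positivity)
        _ = 16 * (d : ℝ) ^ (-(5 / 4) : ℝ) := by rw [hsplit]; ring
        _ ≤ C * (d : ℝ) ^ (-(5 / 4) : ℝ) := mul_le_mul_of_nonneg_right hC8 hr2.le
  · push Not at hN
    have h3 : d ≤ N₀ ^ 4 := by
      have : (N + 1) ^ 4 ≤ N₀ ^ 4 := Nat.pow_le_pow_left hN 4
      omega
    have h3' : (d : ℝ) ≤ (N₀ : ℝ) ^ 4 := by exact_mod_cast h3
    have hCd : (d : ℝ) ^ 2 ≤ C := by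
      rw [hC]
      have : (d : ℝ) ^ 2 ≤ ((N₀ : ℝ) ^ 4 + 1) ^ 2 := pow_le_pow_left₀ hdpos.le (by linarith) 2
      linarith
    have h4 : 1 ≤ C * (d : ℝ) ^ (-(5 / 4) : ℝ) := by
      have h5 : (1 : ℝ) ≤ (d : ℝ) ^ 2 * (d : ℝ) ^ (-(5 / 4) : ℝ) := by
        rw [← Real.rpow_natCast, ← Real.rpow_add hdpos]
        exact Real.one_le_rpow (by linarith) (by norm_num)
      exact h5.trans (mul_le_mul_of_nonneg_right hCd hr2.le)
    have h5 : 1 ≤ C * (d : ℝ) ^ (-(1 / 4) : ℝ) := by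
      refine h4.trans ?_
      refine mul_le_mul_of_nonneg_left ?_ (by rw [hC]; positivity)
      exact Real.rpow_le_rpow_of_exponent_le (by linarith) (by norm_num)
    have hvac := theta_le_vacant (d := d) hu
    rw [← hq] at hvac
    constructor
    · calc theta d u ≤ q := hvac
        _ = 1 * q := (one_mul _).symm
        _ ≤ _ := mul_le_mul_of_nonneg_right h5 hq0.le
    · have hq1 : q ≤ 1 := by
        rw [hq]
        refine Real.exp_le_one_iff.2 ?_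
        have := mul_nonneg hu.le (cap_nonneg ({0} : Finset (V d)))
        linarith
      linarith

end Run7.h485
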