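import Pool.Agent.Run7.h485.HitB

/-!
# A hitting estimate in dimension at least seven
-/

namespace Run7.h485

open Finset MeasureTheory Filter Topology
open Pool.Agent.H282R3.RW (V Dir vec steps pos hit hitN hitN_le_super tendsto_hitN hit_real hit_nonneg
  escapeProb escapeProb_eq flux nsq nsq_nonneg nsq_add_vec sq_le_nsq sum_dir card_dir)
open scoped ENNReal

noncomputable section

/-- the fourth root -/
def rt (x : ℝ) : ℝ := √(√x)

theorem rt_nonneg (x : ℝ) : 0 ≤ rt x := Real.sqrt_nonneg _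

theorem rt_pos {x : ℝ} (hx : 0 < x) : 0 < rt x := Real.sqrt_pos.2 (Real.sqrt_pos.2 hx)

theorem rt_pow {x : ℝ} (hx : 0 ≤ x) : rt x ^ 4 = x := by
  have h1 : rt x ^ 2 = √x := Real.sq_sqrt (Real.sqrt_nonneg x)
  calc rt x ^ 4 = (rt x ^ 2) ^ 2 := by ring
    _ = x := by rw [h1, Real.sq_sqrt hx]

theorem rt_mul {x y : ℝ} (hx : 0 ≤ x) : rt (x * y) = rt x * rt y := by
  unfold rt
  rw [Real.sqrt_mul hx, Real.sqrt_mul (Real.sqrt_nonneg x)]

theorem rt_le {x y : ℝ} (hy : 0 ≤ y) (hx : 0 ≤ x) (h : x ≤ y ^ 4) : rt x ≤ y := by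
  refine le_of_pow_le_pow_left₀ (n := 4) (by norm_num) hy ?_
  rw [rt_pow hx]
  exact h

theorem le_rt {x y : ℝ} (hx : 0 ≤ x) (h : y ^ 4 ≤ x) : y ≤ rt x := by
  refine le_of_pow_le_pow_left₀ (n := 4) (by norm_num) (rt_nonneg x) ?_
  rw [rt_pow hx]
  exact h

theorem rt_one : rt 1 = 1 := by simp [rt]

/-- the radial profile `t ↦ t ^ (-9/4)` -/
def pf (t : ℝ) : ℝ := (t ^ 2 * rt t)⁻¹

theorem pf_pos {t : ℝ} (ht : 0 < t) : 0 < pf t := by
  have := rt_pos ht
  unfold pf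
  positivity

theorem pf_mul {s t : ℝ} (hs : 0 ≤ s) : pf (s * t) = pf s * pf t := by
  unfold pf
  rw [rt_mul hs, ← mul_inv]
  congr 1
  ring

/-- the pair inequality -/
theorem pf_pair {z : ℝ} (hz : z ^ 2 ≤ 1 / 256) :
    pf (1 + z) + pf (1 - z) ≤ 2 * (1 + 39 / 10 * z ^ 2) := by
  have habs : |z| ≤ 1 / 16 := abs_le_of_sq_le_sq (by norm_num; linarith) (by norm_num)
  obtain ⟨hz1, hz2⟩ := abs_le.1 habs
  have h1 : 0 < 1 + z := by linarith
  have h2 : 0 < 1 - z := by linarith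
  set w := z ^ 2 with hw
  have hw0 : 0 ≤ w := sq_nonneg z
  have h3 : 0 < 1 - w := by linarith
  have r1 := rt_pos h1
  have r2 := rt_pos h2
  have r3 := rt_pos h3
  have hprod : rt (1 + z) * rt (1 - z) = rt (1 - w) := by
    rw [← rt_mul h1.le]
    congr 1
    rw [hw]; ring
  -- upper bounds for the fourth roots
  have u1 : rt (1 + z) ≤ 1 + z / 4 := by
    refine rt_le (by linarith) h1.le ?_
    nlinarith [sq_nonneg z, sq_nonneg (z ^ 2), mul_nonneg (sq_nonneg z) (by linarith : (0:ℝ) ≤ 1 + z)]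
  have u2 : rt (1 - z) ≤ 1 - z / 4 := by
    refine rt_le (by linarith) h2.le ?_
    nlinarith [sq_nonneg z, sq_nonneg (z ^ 2), mul_nonneg (sq_nonneg z) (by linarith : (0:ℝ) ≤ 1 - z)]
  -- lower bound for the fourth root
  have l1 : 1 - w / 4 - w ^ 2 ≤ rt (1 - w) := by
    refine le_rt h3.le ?_
    have e : (1 - w / 4 - w ^ 2) ^ 4 ≤ 1 - w := by
      set t := w / 4 + w ^ 2 with ht
      have ht0 : 0 ≤ t := by positivity
      have ht1 : t ≤ w := by
        have : w ^ 2 ≤ w * (1 / 256) := by rw [sq]; exact mul_le_mul_of_nonneg_left hz hw0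
        rw [ht]; linarith
      have e1 : 1 - w / 4 - w ^ 2 = 1 - t := by rw [ht]; ring
      rw [e1]
      have e2 : (1 - t) ^ 4 ≤ 1 - 4 * t + 6 * t ^ 2 := by
        have : (1 - t) ^ 4 = 1 - 4 * t + 6 * t ^ 2 - t ^ 3 * (4 - t) := by ring
        rw [this]
        have : 0 ≤ t ^ 3 * (4 - t) := mul_nonneg (by positivity) (by linarith)
        linarith
      have e3 : 4 * t = w + 4 * w ^ 2 := by rw [ht]; ring
      have e4 : t ≤ w * (65 / 256) := by
        have : w ^ 2 ≤ w * (1 / 256) := by rw [sq]; exact mul_le_mul_of_nonneg_left hz hw0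
        rw [ht]; linarith
      have e5 : t ^ 2 ≤ (w * (65 / 256)) ^ 2 := pow_le_pow_left₀ ht0 e4 2
      nlinarith [sq_nonneg w]
    exact e
  unfold pf
  have hsum : ((1 + z) ^ 2 * rt (1 + z))⁻¹ + ((1 - z) ^ 2 * rt (1 - z))⁻¹ =
      ((1 - z) ^ 2 * rt (1 - z) + (1 + z) ^ 2 * rt (1 + z)) / ((1 - w) ^ 2 * rt (1 - w)) := by
    rw [← hprod]
    have : (1 - w) = (1 + z) * (1 - z) := by rw [hw]; ring
    rw [this]
    field_simp
  rw [hsum, div_le_iff₀ (by positivity)]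
  have hnum : (1 - z) ^ 2 * rt (1 - z) + (1 + z) ^ 2 * rt (1 + z) ≤ 2 + 3 * w := by
    have a1 : (1 - z) ^ 2 * rt (1 - z) ≤ (1 - z) ^ 2 * (1 - z / 4) :=
      mul_le_mul_of_nonneg_left u2 (sq_nonneg _)
    have a2 : (1 + z) ^ 2 * rt (1 + z) ≤ (1 + z) ^ 2 * (1 + z / 4) :=
      mul_le_mul_of_nonneg_left u1 (sq_nonneg _)
    have a3 : (1 - z) ^ 2 * (1 - z / 4) + (1 + z) ^ 2 * (1 + z / 4) = 2 + 3 * w := by
      rw [hw]; ring
    linarith
  refine hnum.trans ?_
  have hden : (1 - w) ^ 2 * (1 - w / 4 - w ^ 2) ≤ (1 - w) ^ 2 * rt (1 - w) :=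
    mul_le_mul_of_nonneg_left l1 (sq_nonneg _)
  have hpoly : 2 + 3 * w ≤ 2 * (1 + 39 / 10 * w) * ((1 - w) ^ 2 * (1 - w / 4 - w ^ 2)) := by
    have e : 2 * (1 + 39 / 10 * w) * ((1 - w) ^ 2 * (1 - w / 4 - w ^ 2)) - (2 + 3 * w) =
        w * (3 / 10 - 331 / 20 * w + 267 / 20 * w ^ 2 + 263 / 20 * w ^ 3 - 39 / 5 * w ^ 4 * (1 : ℝ) +
          0) + w * (0 : ℝ) + ((2 * (1 + 39 / 10 * w) * ((1 - w) ^ 2 * (1 - w / 4 - w ^ 2)) - (2 + 3 * w)) -
          w * (3 / 10 - 331 / 20 * w + 267 / 20 * w ^ 2 + 263 / 20 * w ^ 3 - 39 / 5 * w ^ 4)) := by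
      ring
    nlinarith [mul_nonneg hw0 hw0, mul_nonneg hw0 (mul_nonneg hw0 hw0),
      mul_nonneg (mul_nonneg hw0 hw0) (mul_nonneg hw0 hw0), mul_le_mul_of_nonneg_left hz hw0]
  refine hpoly.trans ?_
  exact mul_le_mul_of_nonneg_left hden (by positivity)

theorem pf_shift {v : ℝ} (hv0 : 0 ≤ v) (hv1 : v ≤ 1 / 2) : 1 + 9 / 4 * v ≤ pf (1 - v) := by
  have h1 : 0 < 1 - v := by linarith
  have r1 := rt_pos h1
  have u1 : rt (1 - v) ≤ 1 - v / 4 := by
    refine rt_le (by linarith) h1.le ?_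
    nlinarith [sq_nonneg v, sq_nonneg (v ^ 2), mul_nonneg (sq_nonneg v) h1.le]
  unfold pf
  rw [← one_div, le_div_iff₀ (by positivity)]
  have h2 : (1 - v) ^ 2 * rt (1 - v) ≤ (1 - v) ^ 2 * (1 - v / 4) :=
    mul_le_mul_of_nonneg_left u1 (sq_nonneg _)
  have h3 : (1 + 9 / 4 * v) * ((1 - v) ^ 2 * (1 - v / 4)) ≤ 1 := by
    have e : 1 - (1 + 9 / 4 * v) * ((1 - v) ^ 2 * (1 - v / 4)) =
        v ^ 2 * (57 / 16 - 25 / 8 * v + 9 / 16 * v ^ 2) := by ring
    have : 0 ≤ v ^ 2 * (57 / 16 - 25 / 8 * v + 9 / 16 * v ^ 2) :=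
      mul_nonneg (sq_nonneg _) (by nlinarith)
    linarith
  calc (1 + 9 / 4 * v) * ((1 - v) ^ 2 * rt (1 - v))
      ≤ (1 + 9 / 4 * v) * ((1 - v) ^ 2 * (1 - v / 4)) :=
        mul_le_mul_of_nonneg_left h2 (by positivity)
    _ ≤ 1 := h3

variable {d : ℕ}

/-- the barrier -/
def bar (x : V d) : ℝ := pf (nsq x + 1024)

theorem bar_pos (x : V d) : 0 < bar x := pf_pos (by have := nsq_nonneg x; linarith)

theorem bar_super (hd : 7 ≤ d) (x : V d) : ∑ e : Dir d, bar (x + vec e) ≤ 2 * d * bar x := by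
  set R : ℝ := nsq x + 1025 with hR
  have hn := nsq_nonneg x
  have hRpos : 0 < R := by linarith
  have hR2 : 1025 ≤ R := by linarith
  have hpair : ∀ i, bar (x + vec (i, true)) + bar (x + vec (i, false)) ≤
      pf R * (2 * (1 + 39 / 10 * (2 * (x i : ℝ) / R) ^ 2)) := by
    intro i
    set u : ℝ := 2 * (x i : ℝ) / R with hu
    have hxi := sq_le_nsq x i
    have hu1 : u ^ 2 ≤ 1 / 256 := by
      rw [hu, div_pow, div_le_iff₀ (by positivity)]
      nlinarith
    have hRu : R * u = 2 * (x i : ℝ) := by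
      rw [hu]; field_simp
    have e1 : nsq (x + vec (i, true)) + 1024 = R * (1 + u) := by
      rw [nsq_add_vec]; simp only [if_true]; rw [mul_add, hRu, hR]; ring
    have e2 : nsq (x + vec (i, false)) + 1024 = R * (1 - u) := by
      rw [nsq_add_vec]
      simp only [Bool.false_eq_true, if_false]
      rw [mul_sub, hRu, hR]; ring
    unfold bar
    rw [e1, e2, pf_mul hRpos.le, pf_mul hRpos.le, ← mul_add]
    exact mul_le_mul_of_nonneg_left (pf_pair hu1) (pf_pos hRpos).le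
  have hsum : ∑ i, (2 * (x i : ℝ) / R) ^ 2 = 4 * nsq x / R ^ 2 := by
    unfold nsq
    rw [mul_sum, sum_div]
    refine sum_congr rfl fun i _ => ?_
    field_simp
    ring
  have hbar : pf R * (1 + 9 / 4 * (1 / R)) ≤ bar x := by
    have e : nsq x + 1024 = R * (1 - 1 / R) := by
      rw [mul_sub, mul_one_div_cancel hRpos.ne', hR]; ring
    unfold bar
    rw [e, pf_mul hRpos.le]
    refine mul_le_mul_of_nonneg_left (pf_shift (by positivity) ?_) (pf_pos hRpos).le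
    rw [div_le_div_iff₀ hRpos (by norm_num)]
    linarith
  have hd' : (7 : ℝ) ≤ d := by exact_mod_cast hd
  have hpR := (pf_pos hRpos).le
  calc ∑ e : Dir d, bar (x + vec e)
      = ∑ i, (bar (x + vec (i, true)) + bar (x + vec (i, false))) := by
        rw [sum_dir]
    _ ≤ ∑ i : Fin d, pf R * (2 * (1 + 39 / 10 * (2 * (x i : ℝ) / R) ^ 2)) :=
        sum_le_sum (s := univ) fun i (_ : i ∈ univ) => hpair i
    _ = pf R * (2 * d + 39 / 5 * (4 * nsq x / R ^ 2)) := by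
        rw [← mul_sum, ← mul_sum, sum_add_distrib, ← mul_sum, hsum, sum_const, card_univ,
          Fintype.card_fin, nsmul_eq_mul]
        ring
    _ ≤ pf R * (2 * d + 156 / 5 * (1 / R)) := by
        refine mul_le_mul_of_nonneg_left ?_ hpR
        have h1 : 4 * nsq x / R ^ 2 ≤ 4 * (1 / R) := by
          rw [mul_one_div, div_le_div_iff₀ (by positivity) hRpos]
          nlinarith
        linarith
    _ ≤ pf R * (2 * d + 2 * d * (9 / 4 * (1 / R))) := by
        refine mul_le_mul_of_nonneg_left ?_ hpR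
        have h1 : 0 ≤ 1 / R := by positivity
        have h2 : 156 / 5 * (1 / R) ≤ 2 * d * (9 / 4) * (1 / R) :=
          mul_le_mul_of_nonneg_right (by linarith) h1
        linarith
    _ = 2 * d * (pf R * (1 + 9 / 4 * (1 / R))) := by ring
    _ ≤ 2 * d * bar x := mul_le_mul_of_nonneg_left hbar (by positivity)

theorem hit_le_bar (hd : 7 ≤ d) (x : V d) : hit x ≤ bar x / bar (0 : V d) := by
  have h0 := bar_pos (0 : V d)
  have hlim := tendsto_hitN (by omega : 0 < d) x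
  refine le_of_tendsto' hlim fun N => hitN_le_super (g := fun x : V d => bar x / bar (0 : V d))
    (fun x => div_nonneg (bar_pos x).le h0.le) (by simp [h0.ne']) ?_ (by omega) N x
  intro x
  rw [← sum_div, mul_div_assoc']
  exact div_le_div_of_nonneg_right (bar_super hd x) h0.le

/-- the decay of the barrier -/
theorem bar_le {x : V d} {D : ℝ} (hD : 1 ≤ D) (hx : D ^ 2 ≤ nsq x) : bar x ≤ 1 / (D ^ 4 * √D) := by
  have hR : D ^ 2 ≤ nsq x + 1024 := by linarith
  have hrt : √D ≤ rt (nsq x + 1024) := by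
    refine le_rt (by have := nsq_nonneg x; linarith) ?_
    have : √D ^ 4 = D ^ 2 := by
      calc √D ^ 4 = (√D ^ 2) ^ 2 := by ring
        _ = D ^ 2 := by rw [Real.sq_sqrt (by linarith)]
    rw [this]; exact hR
  have hs : 0 < √D := Real.sqrt_pos.2 (by linarith)
  unfold bar pf
  rw [← one_div]
  refine one_div_le_one_div_of_le (by positivity) ?_
  have h1 : D ^ 4 ≤ (nsq x + 1024) ^ 2 := by
    calc D ^ 4 = (D ^ 2) ^ 2 := by ring
      _ ≤ _ := pow_le_pow_left₀ (by positivity) hR 2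
  exact mul_le_mul h1 hrt hs.le (by positivity)

end

end Run7.h485
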