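import Pool.Agent.Run7.h485.Trans

/-!
# Hitting probabilities in high dimension
-/

namespace Run7.h485

open Finset MeasureTheory Filter Topology
open Pool.Agent.H282R3.RW (V Dir vec steps pos hit hitN hitN_le_super tendsto_hitN hit_real hit_nonneg
  escapeProb escapeProb_eq flux nsq nsq_nonneg nsq_add_vec sq_le_nsq sum_dir card_dir)
open scoped ENNReal

noncomputable section

theorem cube_ineq {v : ℝ} (h0 : 0 ≤ v) (h1 : v ≤ 1 / 2) :
    (1 + 3 * v) ≤ (1 + 38 * v) * (1 - v) ^ 3 := by
  have h : (1 + 38 * v) * (1 - v) ^ 3 - (1 + 3 * v) = v * (1 - 2 * v) * (32 - 47 * v + 19 * v ^ 2) := by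
    ring
  have h2 : 0 ≤ v * (1 - 2 * v) * (32 - 47 * v + 19 * v ^ 2) := by
    refine mul_nonneg (mul_nonneg h0 (by linarith)) ?_
    nlinarith [sq_nonneg v]
  linarith

/-- the pair inequality for exponent three -/
theorem cube_pair {x : ℝ} (hx : x ^ 2 ≤ 1 / 2) :
    ((1 + x) ^ 3)⁻¹ + ((1 - x) ^ 3)⁻¹ ≤ 2 * (1 + 38 * x ^ 2) := by
  have habs := abs_le_of_sq_le_sq (a := x) (b := 1) (by linarith) (by norm_num)
  have hx1 : x < 1 := by nlinarith [sq_nonneg (x - 1)]
  have hx2 : -1 < x := by nlinarith [sq_nonneg (x + 1)]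
  have h1 : 0 < 1 + x := by linarith
  have h2 : 0 < 1 - x := by linarith
  have h3 : 0 < 1 - x ^ 2 := by linarith
  have h4 := cube_ineq (sq_nonneg x) hx
  rw [← one_div, ← one_div, div_add_div _ _ (by positivity) (by positivity),
    div_le_iff₀ (by positivity), ← mul_pow]
  have h5 : (1 + x) * (1 - x) = 1 - x ^ 2 := by ring
  rw [h5]
  have h6 : 1 * (1 - x) ^ 3 + (1 + x) ^ 3 * 1 = 2 * (1 + 3 * x ^ 2) := by ring
  rw [h6]
  linarith

variable {d : ℕ}

/-- the barrier -/
def phi (x : V d) : ℝ := ((nsq x + 1) ^ 3)⁻¹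

theorem phi_pos (x : V d) : 0 < phi x := by
  have := nsq_nonneg x
  unfold phi
  positivity

theorem phi_le_one (x : V d) : phi x ≤ 1 := by
  have := nsq_nonneg x
  unfold phi
  refine inv_le_one_of_one_le₀ (one_le_pow₀ (by linarith))

/-- superharmonicity of the barrier, with an explicit gain -/
theorem phi_super (hd : 76 ≤ d) (x : V d) :
    ∑ e : Dir d, phi (x + vec e) + 2 * d * ((nsq x + 2) ^ 4)⁻¹ ≤ 2 * d * phi x := by
  set R : ℝ := nsq x + 2 with hR
  have hn := nsq_nonneg x
  have hRpos : 0 < R := by linarith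
  have hR2 : 2 ≤ R := by linarith
  have hpair : ∀ i, phi (x + vec (i, true)) + phi (x + vec (i, false)) ≤
      (R ^ 3)⁻¹ * (2 * (1 + 38 * (2 * (x i : ℝ) / R) ^ 2)) := by
    intro i
    set u : ℝ := 2 * (x i : ℝ) / R with hu
    have hxi := sq_le_nsq x i
    have hu1 : u ^ 2 ≤ 1 / 2 := by
      rw [hu, div_pow, div_le_iff₀ (by positivity)]
      nlinarith [sq_nonneg (R - 4)]
    have hRu : R * u = 2 * (x i : ℝ) := by
      rw [hu]; field_simp
    have e1 : nsq (x + vec (i, true)) + 1 = R * (1 + u) := by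
      rw [nsq_add_vec]; simp only [if_true]; rw [mul_add, hRu, hR]; ring
    have e2 : nsq (x + vec (i, false)) + 1 = R * (1 - u) := by
      rw [nsq_add_vec]
      simp only [Bool.false_eq_true, if_false]
      rw [mul_sub, hRu, hR]; ring
    unfold phi
    rw [e1, e2, mul_pow, mul_pow, mul_inv, mul_inv, ← mul_add]
    exact mul_le_mul_of_nonneg_left (cube_pair hu1) (by positivity)
  have hsum : ∑ i, (2 * (x i : ℝ) / R) ^ 2 = 4 * nsq x / R ^ 2 := by
    unfold nsq
    rw [mul_sum, sum_div]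
    refine sum_congr rfl fun i _ => ?_
    field_simp
    ring
  have hphi : (R ^ 3)⁻¹ * (1 + 3 / R) ≤ phi x := by
    have e : nsq x + 1 = R - 1 := by rw [hR]; ring
    unfold phi
    rw [e]
    have h1 : 0 < R - 1 := by linarith
    rw [← one_div, ← one_div, ← sub_nonneg]
    have : 1 / (R - 1) ^ 3 - 1 / R ^ 3 * (1 + 3 / R) =
        (6 * R ^ 2 - 8 * R + 3) / ((R - 1) ^ 3 * R ^ 4) := by
      field_simp
      ring
    rw [this]
    refine div_nonneg ?_ (by positivity)
    nlinarith
  have hd' : (76 : ℝ) ≤ d := by exact_mod_cast hd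
  calc ∑ e : Dir d, phi (x + vec e) + 2 * d * (R ^ 4)⁻¹
      = ∑ i, (phi (x + vec (i, true)) + phi (x + vec (i, false))) + 2 * d * (R ^ 4)⁻¹ := by
        rw [sum_dir]
    _ ≤ ∑ i : Fin d, (R ^ 3)⁻¹ * (2 * (1 + 38 * (2 * (x i : ℝ) / R) ^ 2)) + 2 * d * (R ^ 4)⁻¹ := by
        have := sum_le_sum (s := univ) fun i (_ : i ∈ univ) => hpair i
        linarith
    _ = (R ^ 3)⁻¹ * (2 * d + 76 * (4 * nsq x / R ^ 2)) + 2 * d * (R ^ 4)⁻¹ := by
        rw [← mul_sum, ← mul_sum, sum_add_distrib, ← mul_sum, hsum, sum_const, card_univ,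
          Fintype.card_fin, nsmul_eq_mul]
        ring
    _ ≤ (R ^ 3)⁻¹ * (2 * d + 304 / R) + 2 * d * (R ^ 4)⁻¹ := by
        have h1 : 4 * nsq x / R ^ 2 ≤ 4 / R := by
          rw [div_le_div_iff₀ (by positivity) hRpos]
          nlinarith
        have h2 : 76 * (4 * nsq x / R ^ 2) ≤ 304 / R := by
          have : 304 / R = 76 * (4 / R) := by ring
          rw [this]; linarith
        have h3 : (R ^ 3)⁻¹ * (2 * d + 76 * (4 * nsq x / R ^ 2)) ≤ (R ^ 3)⁻¹ * (2 * d + 304 / R) :=
          mul_le_mul_of_nonneg_left (by linarith) (by positivity)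
        linarith
    _ = (R ^ 3)⁻¹ * (2 * d + (304 + 2 * d) / R) := by
        field_simp
        ring
    _ ≤ (R ^ 3)⁻¹ * (2 * d + 6 * d / R) := by
        refine mul_le_mul_of_nonneg_left ?_ (by positivity)
        have : (304 + 2 * (d : ℝ)) / R ≤ 6 * d / R :=
          div_le_div_of_nonneg_right (by linarith) hRpos.le
        linarith
    _ = 2 * d * ((R ^ 3)⁻¹ * (1 + 3 / R)) := by ring
    _ ≤ 2 * d * phi x := mul_le_mul_of_nonneg_left hphi (by positivity)

theorem nsq_zero : nsq (0 : V d) = 0 := by simp [nsq]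

theorem nsq_neg (x : V d) : nsq (-x) = nsq x := by simp [nsq]

theorem nsq_sub_comm (x y : V d) : nsq (x - y) = nsq (y - x) := by
  rw [← nsq_neg, neg_sub]

theorem one_le_nsq {x : V d} (hx : x ≠ 0) : 1 ≤ nsq x := by
  obtain ⟨i, hi⟩ : ∃ i, x i ≠ 0 := by
    by_contra h
    push Not at h
    exact hx (funext h)
  refine le_trans ?_ (sq_le_nsq x i)
  have h1 : (1 : ℤ) ≤ (x i) ^ 2 := by
    have : 0 < (x i) ^ 2 := by positivity
    omega
  exact_mod_cast h1

theorem nsq_vec (e : Dir d) : nsq (vec e : V d) = 1 := by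
  obtain ⟨i, b⟩ := e
  have := nsq_add_vec (0 : V d) i b
  rw [zero_add, nsq_zero] at this
  rw [this]
  simp

theorem vec_ne_zero (e : Dir d) : (vec e : V d) ≠ 0 := by
  intro h
  have := nsq_vec e
  rw [h, nsq_zero] at this
  norm_num at this

theorem vec_flip (i : Fin d) (b : Bool) : (vec (i, !b) : V d) = -vec (i, b) := by
  ext j
  by_cases h : j = i <;> cases b <;> simp [vec, h]

theorem vec_injective : Function.Injective (vec : Dir d → V d) := by
  rintro ⟨i, b⟩ ⟨j, b'⟩ h
  have hij : i = j := by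
    by_contra hne
    have := congrFun h i
    simp only [vec, Pi.single_eq_same, Pi.single_eq_of_ne hne] at this
    cases b <;> simp at this
  subst hij
  have := congrFun h i
  simp only [vec, Pi.single_eq_same] at this
  cases b <;> cases b' <;> simp at this ⊢

theorem hit_le (hd : 76 ≤ d) {x : V d} (hx : x ≠ 0) : hit x ≤ 41 / d * phi x := by
  classical
  have hd' : (76 : ℝ) ≤ d := by exact_mod_cast hd
  set g : V d → ℝ := fun x => (if x = 0 then 1 else 0) + 41 / d * phi x with hg
  have hcoef : (0 : ℝ) ≤ 41 / d := by positivity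
  have hnn : ∀ x, 0 ≤ g x := by
    intro x
    have := mul_nonneg hcoef (phi_pos x).le
    simp only [hg]
    split_ifs <;> linarith
  have h0 : 1 ≤ g 0 := by
    have := mul_nonneg hcoef (phi_pos (0 : V d)).le
    simp only [hg, if_true]
    linarith
  have hs : ∀ x, ∑ e : Dir d, g (x + vec e) ≤ 2 * d * g x := by
    intro x
    have hsup := phi_super hd x
    have hn := nsq_nonneg x
    have h1 : ∑ e : Dir d, g (x + vec e) =
        ∑ e : Dir d, (if x + vec e = 0 then (1 : ℝ) else 0) + 41 / d * ∑ e : Dir d, phi (x + vec e) := by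
      simp only [hg, sum_add_distrib, mul_sum]
    rw [h1]
    have h2 : 41 / d * ∑ e : Dir d, phi (x + vec e) + 82 * ((nsq x + 2) ^ 4)⁻¹ ≤
        2 * d * (41 / d * phi x) := by
      have h3 := mul_le_mul_of_nonneg_left hsup hcoef
      have h4 : 41 / (d : ℝ) * (2 * d * ((nsq x + 2) ^ 4)⁻¹) = 82 * ((nsq x + 2) ^ 4)⁻¹ := by
        field_simp
        ring
      rw [mul_add, h4] at h3
      calc _ ≤ _ := h3
        _ = _ := by ring
    by_cases hx1 : ∃ e : Dir d, x + vec e = 0
    · obtain ⟨e, he⟩ := hx1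
      have h5 : nsq x = 1 := by
        rw [eq_neg_of_add_eq_zero_left he, nsq_neg, nsq_vec]
      have h6 : ∑ e' : Dir d, (if x + vec e' = 0 then (1 : ℝ) else 0) = 1 := by
        have : ∀ e' : Dir d, (x + vec e' = 0) ↔ e' = e := by
          intro e'
          constructor
          · intro h
            apply vec_injective
            have := h.trans he.symm
            exact add_left_cancel this
          · rintro rfl; exact he
        simp_rw [this]
        simp
      rw [h6]
      rw [h5] at h2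
      have h7 : (0 : ℝ) ≤ (if x = 0 then (1 : ℝ) else 0) := by split_ifs <;> norm_num
      simp only [hg]
      norm_num at h2
      have h8 : 2 * (d : ℝ) * ((if x = 0 then 1 else 0) + 41 / d * phi x) =
        2 * d * (if x = 0 then 1 else 0) + 2 * d * (41 / d * phi x) := by ring
      rw [h8]
      have h9 : (0 : ℝ) ≤ 2 * d * (if x = 0 then 1 else 0) := by positivity
      linarith
    · push Not at hx1
      have h6 : ∑ e' : Dir d, (if x + vec e' = 0 then (1 : ℝ) else 0) = 0 :=
        sum_eq_zero fun e' _ => if_neg (hx1 e')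
      rw [h6]
      have h7 : (0 : ℝ) ≤ (if x = 0 then (1 : ℝ) else 0) := by split_ifs <;> norm_num
      have h8 : 2 * (d : ℝ) * ((if x = 0 then 1 else 0) + 41 / d * phi x) =
        2 * d * (if x = 0 then 1 else 0) + 2 * d * (41 / d * phi x) := by ring
      simp only [hg]
      rw [h8]
      have h9 : (0 : ℝ) ≤ 2 * d * (if x = 0 then 1 else 0) := by positivity
      have h10 : (0 : ℝ) ≤ 82 * ((nsq x + 2) ^ 4)⁻¹ := by positivity
      linarith
  have hlim := tendsto_hitN (by omega : 0 < d) x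
  have := le_of_tendsto' hlim fun N => hitN_le_super hnn h0 hs (by omega) N x
  simpa [hg, hx] using this

variable [NeZero d]

theorem escapeProb_ge (hd : 76 ≤ d) : 1 - 6 / d ≤ escapeProb d := by
  have hd' : (76 : ℝ) ≤ d := by exact_mod_cast hd
  have h1 : 2 * d * escapeProb d = flux d := escapeProb_eq
  have h2 : ∑ e : Dir d, hit (vec e : V d) ≤ ∑ e : Dir d, 41 / d * (1 / 8 : ℝ) := by
    refine sum_le_sum fun e _ => ?_
    refine (hit_le hd (vec_ne_zero e)).trans ?_
    refine mul_le_mul_of_nonneg_left ?_ (by positivity)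
    unfold phi
    rw [nsq_vec]
    norm_num
  have h3 : ∑ e : Dir d, 41 / (d : ℝ) * (1 / 8 : ℝ) = 2 * d * (41 / d * (1 / 8)) := by
    rw [← card_dir, sum_mul]
    simp
  rw [h3] at h2
  have h4 : 2 * (d : ℝ) * (1 - 6 / d) ≤ 2 * d * escapeProb d := by
    rw [h1]
    unfold flux
    have h5 : 2 * (d : ℝ) * (41 / d * (1 / 8)) = 41 / 4 := by field_simp; ring
    have h6 : 2 * (d : ℝ) * (1 - 6 / d) = 2 * d - 12 := by field_simp; ring
    rw [h6]
    linarith
  exact le_of_mul_le_mul_left h4 (by positivity)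

theorem cap_singleton (x : V d) : cap {x} = escapeProb d := by
  unfold cap
  rw [sum_singleton]
  unfold esc escapeProb
  congr 1
  ext ω
  simp

theorem cap_pair (hd : 76 ≤ d) {x y : V d} (hxy : x ≠ y) :
    cap {x} + cap {y} - cap ({x} ∪ {y}) ≤ 82 / d * phi (x - y) := by
  classical
  have h1 : cap ({x} ∪ {y} : Finset (V d)) = esc ({x} ∪ {y}) x + esc ({x} ∪ {y}) y := by
    unfold cap
    rw [sum_union (by simpa using hxy), sum_singleton, sum_singleton]
  have h2 := esc_ge ({x} ∪ {y} : Finset (V d)) x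
  have h3 := esc_ge ({x} ∪ {y} : Finset (V d)) y
  have e1 : ({x} ∪ {y} : Finset (V d)).erase x = {y} := by
    ext z
    simp only [mem_erase, mem_union, mem_singleton]
    constructor
    · rintro ⟨h, h' | h'⟩
      · exact absurd h' h
      · exact h'
    · rintro rfl; exact ⟨Ne.symm hxy, Or.inr rfl⟩
  have e2 : ({x} ∪ {y} : Finset (V d)).erase y = {x} := by
    ext z
    simp only [mem_erase, mem_union, mem_singleton]
    constructor
    · rintro ⟨h, h' | h'⟩
      · exact h'
      · exact absurd h' h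
    · rintro rfl; exact ⟨hxy, Or.inl rfl⟩
  rw [e1, sum_singleton] at h2
  rw [e2, sum_singleton] at h3
  rw [cap_singleton, cap_singleton, h1]
  have h4 := hit_le hd (sub_ne_zero.2 hxy)
  have h5 := hit_le hd (sub_ne_zero.2 (Ne.symm hxy))
  have h6 : phi (y - x) = phi (x - y) := by unfold phi; rw [nsq_sub_comm]
  rw [h6] at h5
  have h7 : 82 / (d : ℝ) * phi (x - y) = 41 / d * phi (x - y) + 41 / d * phi (x - y) := by ring
  rw [h7]
  linarith

end

end Run7.h485
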