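import Pool.Agent.Run7.h485.Walk

/-!
# In dimension `d ≥ 3` every infinite set has infinite capacity
-/

namespace Run7.h485

open Finset MeasureTheory Filter Topology
open Pool.Agent.H282R3.RW (V Dir vec steps pos consN steps_apply pos_consN measurable_pos card_dir
  hit hit_real hit_nonneg hit_le_bar bar bar_pos tendsto_hit escapeProb escapeProb_eq flux q4 nsq)
open scoped ENNReal

noncomputable section

variable {d : ℕ} [NeZero d]

theorem bar_vec_lt (e : Dir d) : bar (vec e : V d) < bar (0 : V d) := by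
  obtain ⟨i, b⟩ := e
  have h0 : nsq (0 : V d) = 0 := by simp [nsq]
  have h1 : nsq (vec (i, b) : V d) = 1 := by
    have := Pool.Agent.H282R3.RW.nsq_add_vec (0 : V d) i b
    rw [zero_add, h0] at this
    rw [this]
    simp
  unfold bar
  rw [h0, h1]
  unfold q4
  exact Real.rpow_lt_rpow_of_neg (by norm_num) (by norm_num) (by norm_num)

theorem escapeProb_pos (hd : 3 ≤ d) : 0 < escapeProb d := by
  have h1 : 2 * d * escapeProb d = flux d := escapeProb_eq
  have h2 : 0 < flux d := by
    unfold flux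
    rw [← card_dir, ← sum_sub_distrib]
    haveI : Nonempty (Dir d) := inferInstance
    refine sum_pos (fun e _ => ?_) univ_nonempty
    rw [sub_pos]
    refine (hit_le_bar hd _).trans_lt ?_
    rw [div_lt_one (bar_pos _)]
    exact bar_vec_lt e
  rw [← h1] at h2
  exact pos_of_mul_pos_right h2 dpos.le

theorem esc_ge (K : Finset (V d)) (x : V d) :
    escapeProb d - ∑ z ∈ K.erase x, hit (x - z) ≤ esc K x := by
  classical
  rw [sub_le_iff_le_add]
  have h1 : {ω : ℕ → Dir d | ∀ k, 1 ≤ k → pos ω k ≠ 0} ⊆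
      {ω : ℕ → Dir d | ∀ k, 1 ≤ k → x + pos ω k ∉ K} ∪
        ⋃ z ∈ K.erase x, {ω : ℕ → Dir d | ∃ k, (x - z) + pos ω k = 0} := by
    intro ω hω
    by_cases h : ∀ k, 1 ≤ k → x + pos ω k ∉ K
    · exact Or.inl h
    · right
      push Not at h
      obtain ⟨k, hk, hK⟩ := h
      rw [Set.mem_iUnion₂]
      refine ⟨x + pos ω k, ?_, k, ?_⟩
      · rw [mem_erase]
        refine ⟨fun h => hω k hk ?_, hK⟩
        simpa using h
      · abel
  unfold escapeProb
  refine (measureReal_mono h1).trans ((measureReal_union_le _ _).trans ?_)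
  refine add_le_add le_rfl ((measureReal_biUnion_finset_le _ _).trans ?_)
  exact sum_le_sum fun z _ => (hit_real (x - z)).le

theorem exists_sparse (hd : 3 ≤ d) {C : Set (V d)} (hC : C.Infinite) {ε : ℝ} (hε : 0 < ε) (n : ℕ) :
    ∃ K : Finset (V d), (K : Set (V d)) ⊆ C ∧ K.card = n ∧
      ∀ x ∈ K, ∀ z ∈ K, x ≠ z → hit (x - z) ≤ ε := by
  classical
  induction n with
  | zero => exact ⟨∅, by simp, rfl, by simp⟩
  | succ n ih =>
    obtain ⟨K, hKC, hcard, hK⟩ := ih
    have hfin : {x : V d | ¬ hit x ≤ ε}.Finite := by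
      have := (tendsto_hit hd).eventually (ge_mem_nhds hε)
      rwa [eventually_cofinite] at this
    have hbad : ((K : Set (V d)) ∪ ⋃ z ∈ K, ({x : V d | ¬ hit (x - z) ≤ ε} ∪
        {x : V d | ¬ hit (z - x) ≤ ε})).Finite := by
      refine K.finite_toSet.union (Set.Finite.biUnion K.finite_toSet fun z _ => ?_)
      refine Set.Finite.union ?_ ?_
      · exact hfin.preimage (f := fun x => x - z) (fun a _ b _ h => by simpa using h)
      · exact hfin.preimage (f := fun x => z - x) (fun a _ b _ h => by simpa using h)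
    obtain ⟨x, hxC, hx⟩ := (hC.sdiff hbad).nonempty
    simp only [Set.mem_union, Set.mem_iUnion, Set.mem_ofPred_eq, exists_prop, not_or, not_exists,
      not_and, not_not] at hx
    have hxK : x ∉ K := hx.1
    refine ⟨insert x K, ?_, ?_, ?_⟩
    · rw [coe_insert]
      exact Set.insert_subset hxC hKC
    · rw [card_insert_of_notMem hxK, hcard]
    · intro a ha b hb hab
      rw [mem_insert] at ha hb
      rcases ha with rfl | ha <;> rcases hb with rfl | hb
      · exact absurd rfl hab
      · exact (hx.2 b hb).1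
      · exact (hx.2 a ha).2
      · exact hK a ha b hb hab

/-- In dimension `d ≥ 3` an infinite set contains finite sets of arbitrarily large capacity. -/
theorem exists_large_cap (hd : 3 ≤ d) {C : Set (V d)} (hC : C.Infinite) (M : ℝ) :
    ∃ K : Finset (V d), (K : Set (V d)) ⊆ C ∧ M ≤ cap K := by
  classical
  have hκ := escapeProb_pos (d := d) hd
  set κ := escapeProb d with hκdef
  obtain ⟨n, hn⟩ := exists_nat_gt (2 * M / κ)
  have hn' : M < n * (κ / 2) := by
    rw [div_lt_iff₀ hκ] at hn
    linarith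
  obtain ⟨K, hKC, hcard, hK⟩ := exists_sparse hd hC (ε := κ / (2 * (n + 1))) (by positivity) n
  refine ⟨K, hKC, ?_⟩
  have h1 : ∀ x ∈ K, κ / 2 ≤ esc K x := by
    intro x hx
    refine le_trans ?_ (esc_ge K x)
    have h2 : ∑ z ∈ K.erase x, hit (x - z) ≤ ∑ z ∈ K.erase x, κ / (2 * (n + 1)) := by
      refine sum_le_sum fun z hz => ?_
      rw [mem_erase] at hz
      exact hK x hx z hz.2 (Ne.symm hz.1)
    rw [sum_const, nsmul_eq_mul] at h2
    have h3 : ((K.erase x).card : ℝ) ≤ n + 1 := by
      have : (K.erase x).card ≤ n := by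
        rw [← hcard]; exact card_le_card (erase_subset _ _)
      have : ((K.erase x).card : ℝ) ≤ n := by exact_mod_cast this
      linarith
    have h4 : ((K.erase x).card : ℝ) * (κ / (2 * (n + 1))) ≤ κ / 2 := by
      calc ((K.erase x).card : ℝ) * (κ / (2 * (n + 1))) ≤ (n + 1) * (κ / (2 * (n + 1))) :=
            mul_le_mul_of_nonneg_right h3 (by positivity)
        _ = κ / 2 := by field_simp
    rw [← hκdef]
    linarith
  calc M ≤ n * (κ / 2) := hn'.le
    _ = ∑ x ∈ K, κ / 2 := by rw [sum_const, nsmul_eq_mul, hcard]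
    _ ≤ ∑ x ∈ K, esc K x := sum_le_sum h1
    _ = cap K := rfl

end

end Run7.h485
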