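import Pool.Agent.Run7.h485.Left
import Pool.Agent.Run7.h485.Trans

/-!
# Random interlacements on `ℤ ^ d`: existence and the jump formula
-/

namespace Run7.h485

open Finset MeasureTheory Filter Topology
open Pool.Agent.H282R3.RW (V Dir vec steps pos)
open scoped ENNReal

variable {d : ℕ} [NeZero d]

theorem isLaw_iff {u : ℝ} {P : Measure (Set (V d))} :
    IsLaw (cap : Finset (V d) → ℝ) u P ↔ IsInterlacement u P :=
  ⟨fun h => ⟨h.prob, h.avoid⟩, fun h => ⟨h.1, h.2⟩⟩

/-- The law of random interlacements at level `u ≥ 0` exists and is unique. -/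
theorem existsUnique_interlacement {u : ℝ} (hu : 0 ≤ u) :
    ∃! P : Measure (Set (V d)), IsInterlacement u P := by
  obtain ⟨P, hP⟩ := exists_law (hitFun_cap (d := d)) hu
  exact ⟨P, isLaw_iff.1 hP, fun Q hQ => (isLaw_iff.2 hQ).unique hP⟩

theorem interlacement_spec {u : ℝ} (hu : 0 ≤ u) :
    IsInterlacement u (interlacement d u) := by
  have h : ∃ P : Measure (Set (V d)), IsInterlacement u P := (existsUnique_interlacement hu).exists
  unfold interlacement
  rw [dif_pos h]
  exact h.choose_spec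

theorem cluster_eq (I : Set (V d)) : cluster Iᶜ 0 = clus (lattice d) 0 I := rfl

theorem cap_union_le' {A O : Finset (V d)} (hO : ∀ x ∈ O, ∃ y ∈ A, (lattice d).Adj y x) :
    cap (A ∪ O) ≤ 2 * d * cap A := by
  refine cap_union_le fun x hx => ?_
  obtain ⟨y, hy, hyx⟩ := hO x hx
  obtain ⟨a, ha⟩ := SimpleGraph.Adj.symm hyx
  exact ⟨a, ha ▸ hy⟩

/-- The jump of `θ` at `u`. -/
theorem theta_jump (hd : 3 ≤ d) {u : ℝ} (hu : 0 < u) :
    ∃ J : ℝ, Tendsto (fun v => theta d u - theta d v) (𝓝[>] u) (𝓝 J) ∧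
      (ContinuousAt (theta d) u ↔ J = 0) ∧
      ∀ κ : ℝ, 0 < κ → Tendsto (fun v => (interlacement d v).real
        {I | ∃ K : Finset (V d), cluster Iᶜ 0 = K ∧ κ / (v - u) ^ 2 ≤ cap K}) (𝓝[>] u) (𝓝 J) :=
  jump_formula (P := fun s => interlacement d s) hitFun_cap cap_singleton_le
    (D := 2 * d) dpos.le (fun _ _ h => cap_union_le' h) (fun _ hC M => exists_large_cap hd hC M)
    (N := fun x => univ.image fun a : Dir d => x + vec a)
    (fun x y ⟨a, ha⟩ => by rw [mem_image]; exact ⟨a, mem_univ _, ha.symm⟩)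
    (fun s hs => isLaw_iff.2 (interlacement_spec hs.le)) hu

end Run7.h485
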