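import Pool.Agent.Run7.h485.Ext

/-!
# Random sets with avoidance functional `exp (-s c(K))`
-/

namespace Run7.h485

open Finset MeasureTheory Filter Topology
open scoped ENNReal

/-- `P` is the law of a random subset of `X` which avoids `K` with probability `exp (-s c(K))`. -/
structure IsLaw {X : Type*} (c : Finset X → ℝ) (s : ℝ) (P : Measure (Set X)) : Prop where
  prob : IsProbabilityMeasure P
  avoid : ∀ K : Finset X, P {I | ∀ x ∈ K, x ∉ I} = ENNReal.ofReal (Real.exp (-(s * c K)))

/-- the law of a `Bool` which is `false` with probability `q` -/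
noncomputable def bern (q : ℝ) : Measure Bool :=
  ENNReal.ofReal q • Measure.dirac false + ENNReal.ofReal (1 - q) • Measure.dirac true

theorem bern_false (q : ℝ) : bern q {false} = ENNReal.ofReal q := by
  simp [bern]

theorem bern_prob {q : ℝ} (h0 : 0 ≤ q) (h1 : q ≤ 1) : IsProbabilityMeasure (bern q) := by
  constructor
  simp only [bern, Measure.coe_add, Measure.coe_smul, Pi.add_apply, Pi.smul_apply, measure_univ,
    smul_eq_mul, mul_one]
  rw [← ENNReal.ofReal_add h0 (by linarith)]
  simp

variable {X : Type*} [DecidableEq X]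

theorem exists_local {c : Finset X → ℝ} (hc : HitFun c) {s : ℝ} (hs : 0 ≤ s) (J : Finset X) :
    ∃ P : Measure (J → Bool), IsProbabilityMeasure P ∧ ∀ K : Finset J,
      P {g | ∀ y ∈ K, g y = false} =
        ENNReal.ofReal (Real.exp (-(s * c (K.map (Function.Embedding.subtype _))))) := by
  obtain ⟨ρ, h0, hρ⟩ := hc J
  have hb : ∀ T : Finset X, IsProbabilityMeasure (bern (Real.exp (-(s * ρ T)))) := fun T =>
    bern_prob (Real.exp_pos _).le (Real.exp_le_one_iff.2 (by
      have := mul_nonneg hs (h0 T)
      linarith))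
  set f : (Finset X → Bool) → (J → Bool) :=
    fun ω y => decide (∃ T ∈ J.powerset, (y : X) ∈ T ∧ ω T = true) with hf
  have hfm : Measurable f := by
    refine measurable_pi_iff.2 fun y => ?_
    refine measurable_to_bool ?_
    have : (fun ω : Finset X → Bool => f ω y) ⁻¹' {true} =
        ⋃ T ∈ J.powerset.filter (fun T => (y : X) ∈ T), {ω | ω T = true} := by
      ext ω
      simp only [hf, Set.mem_preimage, Set.mem_singleton_iff, decide_eq_true_eq, Set.mem_iUnion,
        mem_filter, exists_prop, Set.mem_ofPred_eq, and_assoc]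
    rw [this]
    exact Finset.measurableSet_biUnion _ fun T _ =>
      measurableSet_eq_fun (measurable_pi_apply T) measurable_const
  refine ⟨(Measure.infinitePi fun T : Finset X => bern (Real.exp (-(s * ρ T)))).map f,
    Measure.isProbabilityMeasure_map hfm.aemeasurable, fun K => ?_⟩
  have hK : MeasurableSet {g : J → Bool | ∀ y ∈ K, g y = false} := MeasurableSet.of_discrete
  rw [Measure.map_apply hfm hK]
  set K' : Finset X := K.map (Function.Embedding.subtype _) with hK'
  have hK'J : K' ⊆ J := by
    intro x hx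
    rw [hK', Finset.mem_map] at hx
    obtain ⟨y, -, rfl⟩ := hx
    exact y.2
  have h1 : f ⁻¹' {g | ∀ y ∈ K, g y = false} =
      Set.pi (J.powerset.filter (fun T => (T ∩ K').Nonempty) : Finset (Finset X))
        (fun _ => {false}) := by
    ext ω
    simp only [hf, Set.mem_preimage, Set.mem_ofPred_eq, decide_eq_false_iff_not, Set.mem_pi,
      mem_coe, mem_filter, Set.mem_singleton_iff, not_exists, not_and, Bool.not_eq_true]
    constructor
    · rintro h T ⟨hT, x, hx⟩
      rw [mem_inter, hK', Finset.mem_map] at hx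
      obtain ⟨hxT, y, hy, rfl⟩ := hx
      exact h y hy T hT hxT
    · intro h y hy T hT hyT
      exact h T ⟨hT, ⟨(y : X), mem_inter.2 ⟨hyT, Finset.mem_map.2 ⟨y, hy, rfl⟩⟩⟩⟩
  rw [h1, Measure.infinitePi_pi (μ := fun T : Finset X => bern (Real.exp (-(s * ρ T))))
    (fun T _ => measurableSet_singleton _)]
  simp_rw [bern_false]
  rw [← ENNReal.ofReal_prod_of_nonneg (fun T _ => (Real.exp_pos _).le), ← Real.exp_sum, hρ K' hK'J,
    mul_sum, sum_neg_distrib]

theorem exists_law {c : Finset X → ℝ} (hc : HitFun c) {s : ℝ} (hs : 0 ≤ s) :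
    ∃ P : Measure (Set X), IsLaw c s P := by
  classical
  choose P hP hA using fun J : Finset X => exists_local hc hs J
  have hproj : IsProjectiveMeasureFamily (α := fun _ : X => Bool) P := by
    intro I J hJI
    have hm : Measurable (Finset.restrict₂ (π := fun _ : X => Bool) hJI) :=
      measurable_restrict₂ hJI
    have : IsProbabilityMeasure ((P I).map (Finset.restrict₂ (π := fun _ : X => Bool) hJI)) :=
      Measure.isProbabilityMeasure_map hm.aemeasurable
    refine ext_avoid_bool fun K => ?_
    rw [hA J K, Measure.map_apply hm MeasurableSet.of_discrete]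
    have h1 : (Finset.restrict₂ (π := fun _ : X => Bool) hJI) ⁻¹' {g | ∀ y ∈ K, g y = false} =
        {g | ∀ y ∈ K.map ⟨fun y : J => (⟨y, hJI y.2⟩ : I), fun a b h => by
          have h' := congrArg Subtype.val h
          exact Subtype.ext h'⟩, g y = false} := by
      ext g
      simp only [Set.mem_preimage, Set.mem_ofPred_eq, Finset.mem_map, Function.Embedding.coeFn_mk,
        forall_exists_index, and_imp, forall_apply_eq_imp_iff₂]
      rfl
    rw [h1, hA I, Finset.map_map]
    rfl
  obtain ⟨μ, hμ⟩ := exists_projLimit P hproj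
  have : IsProbabilityMeasure μ := hμ.isProbabilityMeasure
  set φ : (X → Bool) → Set X := fun g => {x | g x = true} with hφ
  have hφm : Measurable φ := by
    rw [measurable_set_iff]
    intro x
    exact measurableSet_setOfPred.1 (measurableSet_eq_fun (measurable_pi_apply x) measurable_const)
  refine ⟨μ.map φ, Measure.isProbabilityMeasure_map hφm.aemeasurable, fun K => ?_⟩
  have hKm : MeasurableSet {I : Set X | ∀ x ∈ K, x ∉ I} := by
    have : {I : Set X | ∀ y ∈ K, y ∉ I} = ⋂ y ∈ K, {I : Set X | y ∉ I} := by
        ext g; simp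
    rw [this]
    exact Finset.measurableSet_biInter K fun y _ => measurableSet_notMem y
  rw [Measure.map_apply hφm hKm]
  have h2 : φ ⁻¹' {I | ∀ x ∈ K, x ∉ I} =
      (Finset.restrict (π := fun _ : X => Bool) K) ⁻¹' {g | ∀ y ∈ (univ : Finset K), g y = false} := by
    ext g
    simp only [hφ, Set.mem_preimage, Set.mem_ofPred_eq, Bool.not_eq_true, mem_univ,
      forall_const, Subtype.forall]
    rfl
  rw [h2, ← Measure.map_apply (measurable_restrict K) MeasurableSet.of_discrete, hμ K, hA K]
  congr 4
  have : (univ : Finset K).map (Function.Embedding.subtype _) = K := by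
    ext x; simp
  exact congrArg c this

theorem measurableSet_avoid (K : Finset X) : MeasurableSet {I : Set X | ∀ x ∈ K, x ∉ I} := by
  have : {I : Set X | ∀ y ∈ K, y ∉ I} = ⋂ y ∈ K, {I : Set X | y ∉ I} := by
    ext g; simp
  rw [this]
  exact Finset.measurableSet_biInter K fun y _ => measurableSet_notMem y

theorem measurableSet_cover (K : Finset X) : MeasurableSet {I : Set X | ∀ x ∈ K, x ∈ I} := by
  have : {I : Set X | ∀ y ∈ K, y ∈ I} = ⋂ y ∈ K, {I : Set X | y ∈ I} := by
    ext g; simp
  rw [this]
  exact Finset.measurableSet_biInter K fun y _ => measurableSet_mem y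

/-- Local configurations. -/
def locSet (A O : Finset X) : Set (Set X) := {I | (∀ x ∈ A, x ∉ I) ∧ ∀ x ∈ O, x ∈ I}

theorem measurableSet_locSet (A O : Finset X) : MeasurableSet (locSet A O) :=
  (measurableSet_avoid A).inter (measurableSet_cover O)

theorem IsLaw.loc {c : Finset X → ℝ} {s : ℝ} {P : Measure (Set X)} (hP : IsLaw c s P)
    (O : Finset X) : ∀ A : Finset X, P.real (locSet A O) = fS c s A O := by
  have := hP.prob
  induction O using Finset.induction_on with
  | empty =>
    intro A
    have : locSet A (∅ : Finset X) = {I | ∀ x ∈ A, x ∉ I} := by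
      ext I; simp [locSet]
    rw [this, fS_empty, Measure.real, hP.avoid, ENNReal.toReal_ofReal (Real.exp_pos _).le]
  | insert x O hx ih =>
    intro A
    rw [fS_insert c s A O hx, ← ih A, ← ih (insert x A)]
    have h1 := measureReal_inter_add_sdiff (μ := P) (s := locSet A O) (measurableSet_mem x)
    have h2 : locSet A O ∩ {s | x ∈ s} = locSet A (insert x O) := by
      ext I
      simp only [locSet, Set.mem_inter_iff, Set.mem_ofPred_eq, mem_insert, forall_eq_or_imp]
      tauto
    have h3 : locSet A O \ {s | x ∈ s} = locSet (insert x A) O := by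
      ext I
      simp only [locSet, Set.mem_sdiff, Set.mem_ofPred_eq, mem_insert, forall_eq_or_imp]
      tauto
    rw [h2, h3] at h1
    linarith

theorem IsLaw.unique {c : Finset X → ℝ} {s : ℝ} {P Q : Measure (Set X)} (hP : IsLaw c s P)
    (hQ : IsLaw c s Q) : P = Q := by
  have := hP.prob
  have := hQ.prob
  exact ext_avoid fun K => by rw [hP.avoid, hQ.avoid]

theorem measurable_union : Measurable fun p : Set X × Set X => p.1 ∪ p.2 := by
  rw [measurable_set_iff]
  intro x
  exact ((measurable_set_mem x).comp measurable_fst).or ((measurable_set_mem x).comp measurable_snd)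

/-- Superposition. -/
theorem IsLaw.superpose {c : Finset X → ℝ} {s t : ℝ} {P Q R : Measure (Set X)} (hP : IsLaw c s P)
    (hQ : IsLaw c t Q) (hR : IsLaw c (s + t) R) :
    (P.prod Q).map (fun p : Set X × Set X => p.1 ∪ p.2) = R := by
  have := hP.prob
  have := hQ.prob
  have := hR.prob
  have : IsProbabilityMeasure ((P.prod Q).map (fun p : Set X × Set X => p.1 ∪ p.2)) :=
    Measure.isProbabilityMeasure_map measurable_union.aemeasurable
  refine ext_avoid fun K => ?_
  rw [Measure.map_apply measurable_union (measurableSet_avoid K)]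
  have h1 : (fun p : Set X × Set X => p.1 ∪ p.2) ⁻¹' {I | ∀ x ∈ K, x ∉ I} =
      {I | ∀ x ∈ K, x ∉ I} ×ˢ {I | ∀ x ∈ K, x ∉ I} := by
    ext ⟨I, J⟩
    simp only [Set.mem_preimage, Set.mem_ofPred_eq, Set.mem_union, not_or, Set.mem_prod]
    exact ⟨fun h => ⟨fun x hx => (h x hx).1, fun x hx => (h x hx).2⟩,
      fun h x hx => ⟨h.1 x hx, h.2 x hx⟩⟩
  rw [h1, Measure.prod_prod, hP.avoid, hQ.avoid, hR.avoid, ← ENNReal.ofReal_mul (Real.exp_pos _).le,
    ← Real.exp_add]
  congr 2
  ring

/-- Monotonicity in the level. -/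
theorem IsLaw.mono {c : Finset X → ℝ} (hc : HitFun c) {u v : ℝ} (huv : u ≤ v)
    {P Q : Measure (Set X)} (hP : IsLaw c u P) (hQ : IsLaw c v Q) {E : Set (Set X)}
    (hE : MeasurableSet E) (hdec : ∀ I J : Set X, I ⊆ J → J ∈ E → I ∈ E) :
    Q.real E ≤ P.real E := by
  have := hP.prob
  have := hQ.prob
  obtain ⟨R, hR⟩ := exists_law hc (sub_nonneg.2 huv)
  have := hR.prob
  have hQ' : IsLaw c (u + (v - u)) Q := by
    rw [add_sub_cancel]; exact hQ
  have h := hP.superpose hR hQ'
  have h2 : Q E ≤ P E := by
    rw [← h, Measure.map_apply measurable_union hE]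
    calc (P.prod R) ((fun p : Set X × Set X => p.1 ∪ p.2) ⁻¹' E)
        ≤ (P.prod R) (E ×ˢ Set.univ) := by
          refine measure_mono ?_
          rintro ⟨I, J⟩ h
          exact ⟨hdec _ _ Set.subset_union_left h, trivial⟩
      _ = P E := by rw [Measure.prod_prod, measure_univ, mul_one]
  exact ENNReal.toReal_mono (measure_ne_top _ _) h2

end Run7.h485
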