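import Pool.Agent.Run7.h485.Jump

/-!
# Left continuity of the percolation function and the jump formula (general form)
-/

namespace Run7.h485

open Finset MeasureTheory Filter Topology
open scoped ENNReal

variable {X : Type*} [DecidableEq X]

/-- `Λ` together with its neighbours -/
def nbhd (N : X → Finset X) (Λ : Finset X) : Finset X := Λ ∪ Λ.biUnion N

theorem first_exit {G : SimpleGraph X} {N : X → Finset X} (hN : ∀ x y, G.Adj x y → y ∈ N x)
    {Λ : Finset X} {a b : X} (p : G.Walk a b) (ha : a ∈ Λ) (hb : b ∉ Λ) :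
    ∃ y, y ∉ Λ ∧ ∃ q : G.Walk a y, (∀ z ∈ q.support, z ∈ p.support) ∧
      ∀ z ∈ q.support, z ∈ nbhd N Λ := by
  induction p with
  | nil => exact absurd ha hb
  | cons h p ih =>
    rename_i u v w
    by_cases hv : v ∈ Λ
    · obtain ⟨y, hy, q, h1, h2⟩ := ih hv hb
      refine ⟨y, hy, SimpleGraph.Walk.cons h q, fun z hz => ?_, fun z hz => ?_⟩
      · rw [SimpleGraph.Walk.support_cons, List.mem_cons] at hz ⊢
        rcases hz with rfl | hz
        · exact Or.inl rfl
        · exact Or.inr (h1 z hz)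
      · rw [SimpleGraph.Walk.support_cons, List.mem_cons] at hz
        rcases hz with rfl | hz
        · exact mem_union_left _ ha
        · exact h2 z hz
    · refine ⟨v, hv, SimpleGraph.Walk.cons h SimpleGraph.Walk.nil, fun z hz => ?_, fun z hz => ?_⟩
      · rw [SimpleGraph.Walk.support_cons, SimpleGraph.Walk.support_nil, List.mem_cons,
          List.mem_singleton] at hz
        rcases hz with rfl | rfl
        · simp
        · simp
      · rw [SimpleGraph.Walk.support_cons, SimpleGraph.Walk.support_nil, List.mem_cons,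
          List.mem_singleton] at hz
        rcases hz with rfl | rfl
        · exact mem_union_left _ ha
        · exact mem_union_right _ (mem_biUnion.2 ⟨u, ha, hN _ _ h⟩)

/-- the root is joined to the complement of `Λ` -/
def Exit (G : SimpleGraph X) (o : X) (N : X → Finset X) (Λ : Finset X) : Set (Set X) :=
  {I | ∃ y, y ∉ Λ ∧ ∃ q : G.Walk o y, (∀ z ∈ q.support, z ∉ I) ∧ ∀ z ∈ q.support, z ∈ nbhd N Λ}

theorem measurableSet_Exit [Countable X] (G : SimpleGraph X) (o : X) (N : X → Finset X)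
    (Λ : Finset X) : MeasurableSet (Exit G o N Λ) := by
  have : Exit G o N Λ = ⋃ K ∈ {K : Finset X | K ⊆ nbhd N Λ ∧ ∃ y, y ∉ Λ ∧ ∃ q : G.Walk o y,
      ∀ z ∈ q.support, z ∈ K}, {I | ∀ x ∈ K, x ∉ I} := by
    ext I
    simp only [Exit, Set.mem_ofPred_eq, Set.mem_iUnion, exists_prop]
    constructor
    · rintro ⟨y, hy, q, h1, h2⟩
      refine ⟨q.support.toFinset, ⟨fun z hz => h2 z (List.mem_toFinset.1 hz), y, hy, q,
        fun z hz => List.mem_toFinset.2 hz⟩, fun z hz => h1 z (List.mem_toFinset.1 hz)⟩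
    · rintro ⟨K, ⟨h1, y, hy, q, h2⟩, h3⟩
      exact ⟨y, hy, q, fun z hz => h3 z (h2 z hz), fun z hz => h1 (h2 z hz)⟩
  rw [this]
  exact MeasurableSet.biUnion (Set.to_countable _) fun K _ => measurableSet_avoid K

theorem Exit_lower [Countable X] {c : Finset X → ℝ} (hc : HitFun c) {G : SimpleGraph X} {o : X}
    {N : X → Finset X}
    {u v : ℝ} (huv : u ≤ v) {P Q : Measure (Set X)} (hP : IsLaw c u P) (hQ : IsLaw c v Q)
    (Λ : Finset X) :
    P.real (Exit G o N Λ) * Real.exp (-((v - u) * c (nbhd N Λ))) ≤ Q.real (Exit G o N Λ) := by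
  have := hP.prob
  have := hQ.prob
  obtain ⟨R, hR⟩ := exists_law hc (sub_nonneg.2 huv)
  have := hR.prob
  have hQ' : IsLaw c (u + (v - u)) Q := by
    rw [add_sub_cancel]; exact hQ
  have h := hP.superpose hR hQ'
  have h2 : P (Exit G o N Λ) * R {I | ∀ x ∈ nbhd N Λ, x ∉ I} ≤ Q (Exit G o N Λ) := by
    rw [← h, Measure.map_apply measurable_union (measurableSet_Exit _ _ _ _), ← Measure.prod_prod]
    refine measure_mono ?_
    rintro ⟨I, J⟩ ⟨⟨y, hy, q, h1, h2⟩, hJ⟩
    refine ⟨y, hy, q, fun x hx => ?_, h2⟩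
    rw [Set.mem_union, not_or]
    exact ⟨h1 x hx, hJ x (h2 x hx)⟩
  have h3 := ENNReal.toReal_mono (measure_ne_top _ _) h2
  rw [ENNReal.toReal_mul, hR.avoid, ENNReal.toReal_ofReal (Real.exp_pos _).le] at h3
  exact h3

theorem Inf_subset_Exit {G : SimpleGraph X} {o : X} {N : X → Finset X}
    (hN : ∀ x y, G.Adj x y → y ∈ N x) {Λ : Finset X} (ho : o ∈ Λ) : Inf' G o ⊆ Exit G o N Λ := by
  intro I hI
  have hI' : (clus G o I).Infinite := hI
  obtain ⟨y, ⟨p, hp⟩, hy⟩ := (hI'.sdiff Λ.finite_toSet).nonempty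
  obtain ⟨z, hz, q, h1, h2⟩ := first_exit hN p ho (by simpa using hy)
  exact ⟨z, hz, q, fun w hw => hp w (h1 w hw), h2⟩

theorem iInter_Exit {G : SimpleGraph X} {o : X} {N : X → Finset X}
    (hN : ∀ x y, G.Adj x y → y ∈ N x) {Λ : ℕ → Finset X} (ho : ∀ n, o ∈ Λ n)
    (hΛ' : ∀ K : Finset X, ∃ n, K ⊆ Λ n) :
    (⋂ n, Exit G o N (Λ n)) = Inf' G o := by
  ext I
  rw [Set.mem_iInter]
  constructor
  · intro h hfin
    obtain ⟨n, hn⟩ := hΛ' hfin.toFinset
    obtain ⟨y, hy, q, h1, -⟩ := h n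
    exact hy (hn (by rw [Set.Finite.mem_toFinset]; exact ⟨q, h1⟩))
  · intro h n
    exact Inf_subset_Exit hN (ho n) h

theorem Exit_anti {G : SimpleGraph X} {o : X} {N : X → Finset X}
    (hN : ∀ x y, G.Adj x y → y ∈ N x) {Λ Λ' : Finset X} (ho : o ∈ Λ) (h : Λ ⊆ Λ') :
    Exit G o N Λ' ⊆ Exit G o N Λ := by
  rintro I ⟨y, hy, q, h1, -⟩
  obtain ⟨z, hz, q', h3, h4⟩ := first_exit hN q ho (fun h' => hy (h h'))
  exact ⟨z, hz, q', fun w hw => h1 w (h3 w hw), h4⟩

/-- Left continuity of the percolation function. -/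
theorem left_cont [Countable X] {c : Finset X → ℝ} (hc : HitFun c)
    {G : SimpleGraph X} {N : X → Finset X} (hN : ∀ x y, G.Adj x y → y ∈ N x) {o : X}
    {P : ℝ → Measure (Set X)} (hP : ∀ s, 0 < s → IsLaw c s (P s)) {u : ℝ} (hu : 0 < u)
    (hm : MeasurableSet (Inf' G o)) :
    Tendsto (fun v => (P v).real (Inf' G o)) (𝓝[<] u) (𝓝 ((P u).real (Inf' G o))) := by
  have hPu := (hP u hu).prob
  obtain ⟨Λ₀, hΛ₀, hΛ₀'⟩ := exists_exhaust X
  set Λ : ℕ → Finset X := fun n => insert o (Λ₀ n) with hΛdef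
  have ho : ∀ n, o ∈ Λ n := fun n => mem_insert_self _ _
  have hΛ : Monotone Λ := fun n m h => insert_subset_insert _ (hΛ₀ h)
  have hΛ' : ∀ K : Finset X, ∃ n, K ⊆ Λ n := fun K => by
    obtain ⟨n, hn⟩ := hΛ₀' K
    exact ⟨n, hn.trans (subset_insert _ _)⟩
  have hlim : Tendsto (fun n => (P u).real (Exit G o N (Λ n))) atTop
      (𝓝 ((P u).real (Inf' G o))) := by
    have hanti : Antitone fun n => Exit G o N (Λ n) := fun n k hnk =>
      Exit_anti hN (ho n) (hΛ hnk)
    have := tendsto_measure_iInter_atTop (μ := P u)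
      (fun n => (measurableSet_Exit G o N (Λ n)).nullMeasurableSet) hanti
      ⟨0, measure_ne_top _ _⟩
    rw [iInter_Exit hN ho hΛ'] at this
    exact (ENNReal.tendsto_toReal (measure_ne_top _ _)).comp this
  rw [Metric.tendsto_nhds]
  intro ε hε
  obtain ⟨n, hn⟩ := (hlim.eventually_lt_const
    (show (P u).real (Inf' G o) < (P u).real (Inf' G o) + ε by linarith)).exists
  have h3 : Tendsto (fun v : ℝ => (P u).real (Exit G o N (Λ n)) *
        Real.exp ((u - v) * c (nbhd N (Λ n)))) (𝓝[<] u) (𝓝 ((P u).real (Exit G o N (Λ n)))) := by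
    have : Tendsto (fun v : ℝ => (P u).real (Exit G o N (Λ n)) *
        Real.exp ((u - v) * c (nbhd N (Λ n)))) (𝓝 u) (𝓝 ((P u).real (Exit G o N (Λ n)) *
        Real.exp ((u - u) * c (nbhd N (Λ n))))) := by
      apply Continuous.tendsto
      fun_prop
    rw [sub_self, zero_mul, Real.exp_zero, mul_one] at this
    exact this.mono_left nhdsWithin_le_nhds
  have hpos : ∀ᶠ v in 𝓝[<] u, 0 < v :=
    (eventually_gt_nhds hu).filter_mono nhdsWithin_le_nhds
  filter_upwards [h3.eventually_lt_const hn, self_mem_nhdsWithin, hpos] with v hv hvu hv0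
  have hvu' : v < u := hvu
  have hPv := (hP v hv0).prob
  have h4 : (P u).real (Inf' G o) ≤ (P v).real (Inf' G o) :=
    (hP v hv0).mono hc hvu'.le (hP u hu) hm Inf_dec
  have h5 : (P v).real (Inf' G o) ≤ (P v).real (Exit G o N (Λ n)) :=
    measureReal_mono (Inf_subset_Exit hN (ho n))
  have h6 := Exit_lower hc (G := G) (o := o) (N := N) hvu'.le (hP v hv0) (hP u hu) (Λ n)
  have h7 : (P v).real (Exit G o N (Λ n)) ≤ (P u).real (Exit G o N (Λ n)) *
        Real.exp ((u - v) * c (nbhd N (Λ n))) := by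
    calc (P v).real (Exit G o N (Λ n)) = (P v).real (Exit G o N (Λ n)) *
          Real.exp (-((u - v) * c (nbhd N (Λ n)))) * Real.exp ((u - v) * c (nbhd N (Λ n))) := by
          rw [mul_assoc, ← Real.exp_add]; simp
      _ ≤ _ := mul_le_mul_of_nonneg_right h6 (Real.exp_pos _).le
  rw [Real.dist_eq, abs_lt]
  constructor <;> linarith

/-- **Jump formula, general form.** -/
theorem jump_formula [Countable X] {c : Finset X → ℝ} (hc : HitFun c) (hc1 : ∀ x, c {x} ≤ 1)
    {G : SimpleGraph X} {D : ℝ} (hD0 : 0 ≤ D)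
    (hD : ∀ A O : Finset X, (∀ x ∈ O, ∃ y ∈ A, G.Adj y x) → c (A ∪ O) ≤ D * c A)
    (hinf : ∀ C : Set X, C.Infinite → ∀ M, ∃ K : Finset X, (K : Set X) ⊆ C ∧ M ≤ c K) {o : X}
    {N : X → Finset X} (hN : ∀ x y, G.Adj x y → y ∈ N x)
    {P : ℝ → Measure (Set X)} (hP : ∀ s, 0 < s → IsLaw c s (P s)) {u : ℝ} (hu : 0 < u) :
    ∃ J : ℝ, Tendsto (fun v => (P u).real (Inf' G o) - (P v).real (Inf' G o)) (𝓝[>] u) (𝓝 J) ∧
      (ContinuousAt (fun v => (P v).real (Inf' G o)) u ↔ J = 0) ∧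
      ∀ κ : ℝ, 0 < κ → Tendsto (fun v => (P v).real (Fin' G o c (κ / (v - u) ^ 2))) (𝓝[>] u)
        (𝓝 J) := by
  have hm := measurableSet_Inf (G := G) (o := o) hc hinf
  set θ : ℝ → ℝ := fun v => (P v).real (Inf' G o) with hθ
  have hanti : ∀ v w, 0 < v → v ≤ w → θ w ≤ θ v := fun v w hv hvw => by
    have := (hP v hv).prob
    exact (hP v hv).mono hc hvw (hP w (hv.trans_le hvw)) hm Inf_dec
  obtain ⟨r, hr⟩ : ∃ r, Tendsto θ (𝓝[>] u) (𝓝 r) := by
    set g : ℝ → ℝ := fun v => θ (max v u) with hg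
    have hg' : Antitone g := fun v w hvw =>
      hanti _ _ (hu.trans_le (le_max_right _ _)) (max_le_max hvw le_rfl)
    have h1 := hg'.tendsto_nhdsGT u
    refine ⟨_, h1.congr' ?_⟩
    filter_upwards [self_mem_nhdsWithin] with v hv
    have hv' : u < v := hv
    simp only [hg, max_eq_left hv'.le]
  refine ⟨θ u - r, hr.const_sub _, ?_, fun κ hκ => ?_⟩
  · rw [continuousAt_iff_continuous_left'_right']
    have hl : ContinuousWithinAt θ (Set.Iio u) u := left_cont hc hN hP hu hm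
    constructor
    · rintro ⟨-, h⟩
      have : θ u = r := tendsto_nhds_unique h hr
      rw [this, sub_self]
    · intro h
      refine ⟨hl, ?_⟩
      have : r = θ u := by linarith
      rw [this] at hr
      exact hr
  · have h1 := tendsto_Ev hc hc1 hD0 hD hinf (o := o) hP hu hκ
    refine (h1.sub hr).congr' ?_
    filter_upwards [self_mem_nhdsWithin] with v hv
    have hv' : u < v := hv
    have hPv := (hP v (hu.trans hv')).prob
    have hpos : 0 < κ / (v - u) ^ 2 := by
      have := sub_pos.2 hv'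
      positivity
    rw [Ev_real_eq hc hinf hpos]
    simp [hθ]

end Run7.h485
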