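import Pool.Agent.Run7.h485.Decay

/-!
# The long range part of the interaction with a fixed set
-/

namespace Run7.h485

open Finset
open Pool.Agent.H282R3.RW (V Dir vec nsq nsq_nonneg)

noncomputable section

theorem sum_inv_sq_add_one (N : ℕ) :
    ∑ n ∈ range N, 1 / ((n : ℝ) ^ 2 + 1) ≤ 3 - 3 / ((N : ℝ) + 1) := by
  induction N with
  | zero => simp
  | succ N ih =>
    rw [sum_range_succ]
    have h : 1 / ((N : ℝ) ^ 2 + 1) ≤ 3 / (N + 1) - 3 / (N + 1 + 1) := by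
      rw [div_sub_div _ _ (by positivity) (by positivity), div_le_div_iff₀ (by positivity)
        (by positivity)]
      have h1 : (0 : ℝ) ≤ 2 * (N : ℝ) ^ 2 - 3 * N + 1 := by
        rcases Nat.eq_zero_or_pos N with h | h
        · subst h; norm_num
        · have : (1 : ℝ) ≤ N := by exact_mod_cast h
          nlinarith
      nlinarith
    push_cast
    linarith

theorem sum_int_inv (S : Finset ℤ) : ∑ n ∈ S, 1 / ((n : ℝ) ^ 2 + 1) ≤ 6 := by
  classical
  set N := S.sup Int.natAbs + 1 with hN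
  set A := (range N).image (fun n : ℕ => (n : ℤ)) with hA
  set B := (range N).image (fun n : ℕ => -(n : ℤ)) with hB
  have hsub : S ⊆ A ∪ B := by
    intro n hn
    have h1 : n.natAbs < N := by
      have := le_sup (f := Int.natAbs) hn
      omega
    rw [mem_union, hA, hB, mem_image, mem_image]
    rcases le_total 0 n with h | h
    · exact Or.inl ⟨n.natAbs, mem_range.2 h1, by omega⟩
    · exact Or.inr ⟨n.natAbs, mem_range.2 h1, by omega⟩
  have hnn : ∀ n : ℤ, 0 ≤ 1 / ((n : ℝ) ^ 2 + 1) := fun n => by positivity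
  have h3 : ∑ n ∈ range N, 1 / ((n : ℝ) ^ 2 + 1) ≤ 3 := by
    have := sum_inv_sq_add_one N
    have : (0 : ℝ) ≤ 3 / ((N : ℝ) + 1) := by positivity
    linarith
  have hA' : ∑ n ∈ A, 1 / ((n : ℝ) ^ 2 + 1) ≤ 3 := by
    rw [hA, sum_image (fun a _ b _ h => by exact_mod_cast h)]
    simpa using h3
  have hB' : ∑ n ∈ B, 1 / ((n : ℝ) ^ 2 + 1) ≤ 3 := by
    rw [hB, sum_image (fun a _ b _ h => by
      have : (a : ℤ) = b := neg_injective h
      exact_mod_cast this)]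
    simpa using h3
  calc ∑ n ∈ S, 1 / ((n : ℝ) ^ 2 + 1) ≤ ∑ n ∈ A ∪ B, 1 / ((n : ℝ) ^ 2 + 1) :=
        sum_le_sum_of_subset_of_nonneg hsub fun n _ _ => hnn n
    _ ≤ ∑ n ∈ A, 1 / ((n : ℝ) ^ 2 + 1) + ∑ n ∈ B, 1 / ((n : ℝ) ^ 2 + 1) := by
        rw [← sum_union_inter]
        exact le_add_of_nonneg_right (sum_nonneg fun n _ => hnn n)
    _ ≤ 6 := by linarith

variable {d : ℕ} [NeZero d]

theorem sum_slab {M : ℕ} {γ : Finset (V d)}
    (hγ : ∀ t : ℤ, (γ.filter fun x => x 0 = t).card ≤ M + 1) (h : ℤ → ℝ) (hh : ∀ t, 0 ≤ h t)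
    {C : ℝ} (hC : ∀ S : Finset ℤ, ∑ t ∈ S, h t ≤ C) : ∑ x ∈ γ, h (x 0) ≤ (M + 1) * C := by
  classical
  rw [← sum_fiberwise_of_maps_to (s := γ) (t := γ.image fun x => x 0) (g := fun x => x 0)
    (fun x hx => mem_image_of_mem _ hx)]
  calc ∑ t ∈ γ.image (fun x => x 0), ∑ x ∈ γ.filter (fun x => x 0 = t), h (x 0)
      ≤ ∑ t ∈ γ.image (fun x => x 0), ((M : ℝ) + 1) * h t := by
        refine sum_le_sum fun t _ => ?_
        rw [sum_congr rfl (fun x hx => by rw [(mem_filter.1 hx).2] : ∀ x ∈ γ.filter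
          (fun x => x 0 = t), h (x 0) = h t), sum_const, nsmul_eq_mul]
        refine mul_le_mul_of_nonneg_right ?_ (hh t)
        exact_mod_cast hγ t
    _ = (M + 1) * ∑ t ∈ γ.image (fun x => x 0), h t := by rw [mul_sum]
    _ ≤ (M + 1) * C := mul_le_mul_of_nonneg_left (hC _) (by positivity)

/-- the weight of the difference of the `0`-th coordinates -/
def g0 (a : ℤ) (t : ℤ) : ℝ := 1 / (((t - a : ℤ) : ℝ) ^ 2 + 1)

theorem g0_nonneg (a t : ℤ) : 0 ≤ g0 a t := by unfold g0; positivity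

theorem g0_le_one (a t : ℤ) : g0 a t ≤ 1 := by
  unfold g0
  rw [div_le_one (by positivity)]
  have := sq_nonneg (((t - a : ℤ) : ℝ))
  linarith

theorem sum_g0 {M : ℕ} {γ : Finset (V d)}
    (hγ : ∀ t : ℤ, (γ.filter fun x => x 0 = t).card ≤ M + 1) (t : ℤ) :
    ∑ x ∈ γ, g0 (x 0) t ≤ (M + 1) * 6 := by
  classical
  refine sum_slab hγ (fun a => g0 a t) (fun a => g0_nonneg a t) fun S => ?_
  have h1 : ∑ a ∈ S, g0 a t = ∑ n ∈ S.image (fun a => t - a), 1 / ((n : ℝ) ^ 2 + 1) := by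
    rw [sum_image (fun a _ b _ h => by simpa using h)]
    rfl
  rw [h1]
  exact sum_int_inv _

theorem phi_le_g0 (x y : V d) :
    phi (y - x) ≤ g0 (x 0) (y 0) * ((nsqp (y - x) + 1) ^ 2)⁻¹ := by
  unfold phi g0
  have h1 := nsq_eq (y - x)
  have h2 := nsqp_nonneg (y - x)
  have e : (((y - x) 0 : ℤ) : ℝ) = ((y 0 - x 0 : ℤ) : ℝ) := by simp
  rw [e] at h1
  rw [one_div, ← mul_inv]
  refine inv_anti₀ (by positivity) ?_
  rw [h1]
  set a := (((y 0 - x 0 : ℤ) : ℝ)) with ha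
  set b := nsqp (y - x) with hb
  have ha2 := sq_nonneg a
  calc (a ^ 2 + 1) * (b + 1) ^ 2 ≤ (a ^ 2 + b + 1) * (a ^ 2 + b + 1) ^ 2 := by
        refine mul_le_mul (by linarith) ?_ (by positivity) (by positivity)
        exact pow_le_pow_left₀ (by positivity) (by linarith) 2
    _ = _ := by ring

/-- the long range potential -/
def pot (γ : Finset (V d)) (y : V d) : ℝ := ∑ x ∈ γ, phi (y - x)

omit [NeZero d] in
theorem pot_nonneg (γ : Finset (V d)) (y : V d) : 0 ≤ pot γ y :=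
  sum_nonneg fun x _ => (phi_pos _).le

theorem pot_le {M : ℕ} {γ : Finset (V d)}
    (hγ : ∀ t : ℤ, (γ.filter fun x => x 0 = t).card ≤ M + 1) (y : V d) :
    pot γ y ≤ 6 * (M + 1) := by
  calc pot γ y ≤ ∑ x ∈ γ, g0 (x 0) (y 0) := by
        refine sum_le_sum fun x _ => (phi_le_g0 x y).trans ?_
        refine mul_le_of_le_one_right (g0_nonneg _ _) ?_
        have := nsqp_nonneg (y - x)
        refine inv_le_one_of_one_le₀ (one_le_pow₀ (by linarith))
    _ ≤ (M + 1) * 6 := sum_g0 hγ _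
    _ = 6 * (M + 1) := by ring

theorem Ti_pot {M : ℕ} (hM1 : 1 ≤ M) (hMd : M + 84 ≤ d) {γ : Finset (V d)}
    (hγ : ∀ t : ℤ, (γ.filter fun x => x 0 = t).card ≤ M + 1) (j : ℕ) {s : St d} (hs : Valid M s) :
    Ti M j (fun s => pot γ s.2) s ≤ 12 * (M + 1) * ((1 + (j : ℝ) / 4) ^ 2)⁻¹ := by
  have hM : M + 1 < d := by omega
  calc Ti M j (fun s => pot γ s.2) s
      ≤ Ti M j (fun s => ∑ x ∈ γ, g0 (x 0) (s.2 0) * ((nsqp (s.2 - x) + 1) ^ 2)⁻¹) s :=
        Ti_mono hM (fun s _ => sum_le_sum fun x _ => phi_le_g0 x s.2) j hs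
    _ = ∑ x ∈ γ, Ti M j (fun s => g0 (x 0) (s.2 0) * ((nsqp (s.2 - x) + 1) ^ 2)⁻¹) s :=
        Ti_sum _ _ _ _ _
    _ ≤ ∑ x ∈ γ, 2 * (g0 (x 0) (s.2 0 + nt M j s.1.card) * ((1 + (j : ℝ) / 4) ^ 2)⁻¹) := by
        refine sum_le_sum fun x _ => (Ti_decay hM1 hMd (g0_nonneg (x 0)) x j hs).trans ?_
        refine mul_le_mul_of_nonneg_left ?_ (by norm_num)
        refine mul_le_mul_of_nonneg_left ?_ (g0_nonneg _ _)
        have := nsqp_nonneg (s.2 - x)
        refine inv_anti₀ (by positivity) (pow_le_pow_left₀ (by positivity) (by linarith) 2)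
    _ = 2 * ((1 + (j : ℝ) / 4) ^ 2)⁻¹ * ∑ x ∈ γ, g0 (x 0) (s.2 0 + nt M j s.1.card) := by
        rw [mul_sum]
        exact sum_congr rfl fun x _ => by ring
    _ ≤ 2 * ((1 + (j : ℝ) / 4) ^ 2)⁻¹ * ((M + 1) * 6) :=
        mul_le_mul_of_nonneg_left (sum_g0 hγ _) (by positivity)
    _ = _ := by ring

theorem sum_decay (k : ℕ) :
    ∑ j ∈ range k, ((1 + ((j : ℝ) + 1) / 4) ^ 2)⁻¹ ≤ 4 - 16 / ((k : ℝ) + 4) := by
  induction k with
  | zero => norm_num
  | succ k ih =>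
    rw [sum_range_succ]
    have h : ((1 + ((k : ℝ) + 1) / 4) ^ 2)⁻¹ ≤
        16 / ((k : ℝ) + 4) - 16 / ((k : ℝ) + 1 + 4) := by
      rw [div_sub_div _ _ (by positivity) (by positivity), ← one_div,
        div_le_div_iff₀ (by positivity) (by positivity)]
      nlinarith [Nat.cast_nonneg (α := ℝ) k]
    push_cast
    linarith

theorem long_bound {M : ℕ} (hM1 : 1 ≤ M) (hMd : M + 84 ≤ d) {γ : Finset (V d)}
    (hγ : ∀ t : ℤ, (γ.filter fun x => x 0 = t).card ≤ M + 1) {κ : ℝ} (hκ0 : 0 ≤ κ)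
    (hκ : 192 * κ * (M + 1) ≤ 1) {Z : ℕ → St d → ℝ} (hZ0 : ∀ s, Z 0 s = 1)
    (hZ : ∀ k s, Z (k + 1) s = T M (fun s' => Real.exp (κ * pot γ s'.2) * Z k s') s) (k : ℕ)
    {s : St d} (hs : Valid M s) : Z k s ≤ 2 := by
  have hM : M + 1 < d := by omega
  set ζ : St d → ℝ := fun s => Real.exp (κ * pot γ s.2) - 1 with hζ
  have hζ0 : ∀ s, 0 ≤ ζ s := fun s => by
    simp only [hζ, sub_nonneg]
    exact Real.one_le_exp (mul_nonneg hκ0 (pot_nonneg _ _))
  have hζle : ∀ s, ζ s * 2 ≤ 4 * κ * pot γ s.2 := by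
    intro s
    have h1 : κ * pot γ s.2 ≤ 1 := by
      have h2 := mul_le_mul_of_nonneg_left (pot_le hγ s.2) hκ0
      have h3 : 0 ≤ κ * (M + 1) := by positivity
      linarith
    have h0 : 0 ≤ κ * pot γ s.2 := mul_nonneg hκ0 (pot_nonneg _ _)
    have h4 : Real.exp (κ * pot γ s.2) ≤ 1 + κ * pot γ s.2 + (κ * pot γ s.2) ^ 2 := by
      have := Real.abs_exp_sub_one_sub_id_le (x := κ * pot γ s.2) (by rw [abs_of_nonneg h0]; exact h1)
      have := (abs_le.1 this).2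
      linarith
    simp only [hζ]
    nlinarith
  let G : ℕ → St d → ℝ := fun k s => ∑ j ∈ range k, Ti M (j + 1) (fun s => ζ s * 2) s
  have hG0 : ∀ s, G 0 s = 0 := fun s => by simp [G]
  have hG : ∀ k s, G (k + 1) s = T M (fun s' => ζ s' * 2 + G k s') s := by
    intro k s
    simp only [G]
    rw [T_add, T_sum, sum_range_succ', add_comm]
    rfl
  have hGle : ∀ k s, Valid M s → G k s ≤ 1 := by
    intro k s hs
    calc G k s ≤ ∑ j ∈ range k, 4 * κ * (12 * (M + 1) * ((1 + ((j : ℝ) + 1) / 4) ^ 2)⁻¹) := by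
          refine sum_le_sum fun j _ => ?_
          calc Ti M (j + 1) (fun s => ζ s * 2) s
              ≤ Ti M (j + 1) (fun s => 4 * κ * pot γ s.2) s := Ti_mono hM (fun s _ => hζle s) _ hs
            _ = 4 * κ * Ti M (j + 1) (fun s => pot γ s.2) s := Ti_const_mul _ _ _ _ _
            _ ≤ _ := by
                have := Ti_pot hM1 hMd hγ (j + 1) hs
                push_cast at this
                exact mul_le_mul_of_nonneg_left this (by positivity)
      _ = 48 * κ * (M + 1) * ∑ j ∈ range k, ((1 + ((j : ℝ) + 1) / 4) ^ 2)⁻¹ := by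
          rw [mul_sum]
          exact sum_congr rfl fun j _ => by ring
      _ ≤ 48 * κ * (M + 1) * 4 := by
          refine mul_le_mul_of_nonneg_left ?_ (by positivity)
          have := sum_decay k
          have : (0 : ℝ) ≤ 16 / ((k : ℝ) + 4) := by positivity
          linarith
      _ ≤ 1 := by linarith
  have hZ' : ∀ k s, Z (k + 1) s = T M (fun s' => (1 + ζ s') * Z k s') s := by
    intro k s
    rw [hZ]
    congr 1
    ext s'
    simp [hζ]
  have := khas hM (ζ := ζ) (w := fun _ => 2) (fun s _ => hζ0 s) hZ0 hZ' hG0 hG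
    (fun k s hs _ => by have := hGle k s hs; linarith) k s hs
  have := hGle k s hs
  linarith

end

end Run7.h485
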