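import Pool.Agent.Run7.h485.Renorm

/-!
# Continuity of the percolation function of a planar family
-/

namespace Run7.h485.Pl

open Finset MeasureTheory Filter Topology

/-- A decreasing family of planar models. -/
structure Fam (μ : ℝ → Measure (Set (ℤ × ℤ))) (κ₀ c₀ : ℝ) : Prop where
  pm : ∀ u, 0 < u → PM (μ u) (u * κ₀)
  mono : ∀ u v, 0 < u → u ≤ v → ∀ (K : Finset (ℤ × ℤ)) (E : Set (Set (ℤ × ℤ))), Loc K E →
    IsUpperSet E → (μ v).real E ≤ (μ u).real E
  cont : ∀ u v, 0 < u → u ≤ v → ∀ (K : Finset (ℤ × ℤ)) (E : Set (Set (ℤ × ℤ))), Loc K E →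
    |(μ v).real E - (μ u).real E| ≤ (v - u) * K.card
  small : ∀ u, 0 < u → ∀ K : Finset (ℤ × ℤ), 1 - u * K.card ≤ (μ u).real {S | ∀ x ∈ K, x ∈ S}
  c_pos : 0 < c₀
  single : ∀ u, 0 < u → ∀ x, (μ u).real {S | x ∈ S} ≤ Real.exp (-(u * c₀))

/-- the percolation function -/
noncomputable def tht (μ : ℝ → Measure (Set (ℤ × ℤ))) (u : ℝ) : ℝ :=
  ⨅ N : ℕ, (μ u).real {S | Out 0 0 N S}

theorem Reach.row {S : Set (ℤ × ℤ)} (n : ℕ) (h : ∀ i : ℕ, i ≤ n → ((i : ℤ), (0 : ℤ)) ∈ S) :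
    Reach S ((0 : ℤ), (0 : ℤ)) ((n : ℤ), (0 : ℤ)) := by
  induction n with
  | zero => exact Reach.refl (h 0 le_rfl)
  | succ n ih =>
    refine (ih fun i hi => h i (by omega)).step ?_ (h (n + 1) le_rfl)
    left
    refine ⟨?_, rfl⟩
    push_cast
    rfl

namespace Fam

variable {μ : ℝ → Measure (Set (ℤ × ℤ))} {κ₀ c₀ : ℝ}

theorem bdd (h : Fam μ κ₀ c₀) (u : ℝ) : BddBelow (Set.range fun N : ℕ => (μ u).real {S | Out 0 0 N S}) :=
  ⟨0, by rintro _ ⟨N, rfl⟩; exact measureReal_nonneg⟩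

theorem tht_le (h : Fam μ κ₀ c₀) (u : ℝ) (N : ℕ) : tht μ u ≤ (μ u).real {S | Out 0 0 N S} :=
  ciInf_le (h.bdd u) N

theorem tht_nonneg (h : Fam μ κ₀ c₀) (u : ℝ) : 0 ≤ tht μ u :=
  le_ciInf fun _ => measureReal_nonneg

theorem tht_anti (h : Fam μ κ₀ c₀) {u v : ℝ} (hu : 0 < u) (huv : u ≤ v) : tht μ v ≤ tht μ u := by
  refine le_ciInf fun N => (h.tht_le v N).trans ?_
  exact h.mono u v hu huv _ _ (loc_Out 0 0 N) (inc_Out 0 0 N).2

/-- if the model percolates at level `u` then it percolates at a larger level -/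
theorem open_level (h : Fam μ κ₀ c₀) {u : ℝ} (hu : 0 < u) (hpos : 0 < tht μ u) :
    ∃ u', u < u' ∧ 0 < tht μ u' := by
  have hκ0 : 0 ≤ κ₀ := by
    have := (h.pm u hu).kappa
    exact nonneg_of_mul_nonneg_right this hu
  obtain ⟨n₀, hn₀⟩ := exists_nat_gt ((800 * 400 * (2 * u * κ₀)) ^ 2)
  obtain ⟨n, hn, hc⟩ := (h.pm u hu).cross hpos (fun N => h.tht_le u N)
    (show (0 : ℝ) < 1 / 800 by norm_num) (max n₀ 1)
  have hn1 : 1 ≤ n := (le_max_right _ _).trans hn
  have hn0 : (n₀ : ℝ) ≤ n := by exact_mod_cast (le_max_left _ _).trans hn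
  set K := rectF 0 (3 * n) 0 n with hK
  set η : ℝ := min u (1 / (800 * (K.card + 1))) with hη
  have hη0 : 0 < η := lt_min hu (by positivity)
  have hη1 : η ≤ u := min_le_left _ _
  have hη2 : η * K.card ≤ 1 / 800 := by
    have h1 : η ≤ 1 / (800 * (K.card + 1)) := min_le_right _ _
    calc η * K.card ≤ 1 / (800 * (K.card + 1)) * K.card :=
          mul_le_mul_of_nonneg_right h1 (by positivity)
      _ ≤ 1 / 800 := by
          rw [div_mul_eq_mul_div, one_mul, div_le_div_iff₀ (by positivity) (by norm_num)]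
          linarith
  refine ⟨u + η, by linarith, ?_⟩
  have hpm := h.pm (u + η) (by linarith)
  have hcont := (abs_le.1 (h.cont u (u + η) hu (by linarith) K _ (loc_HC 0 (3 * n) 0 n))).1
  have hr : PM.rr (μ (u + η)) n ≤ 1 / 400 := by
    unfold PM.rr
    have e : (u + η - u) * (K.card : ℝ) = η * K.card := by ring
    rw [e] at hcont
    linarith
  have hn' : (0 : ℝ) < n := by exact_mod_cast hn1
  have hκn : 400 * ((u + η) * κ₀) / √n ≤ 1 / 800 := by
    rw [div_le_div_iff₀ (Real.sqrt_pos.2 hn') (by norm_num), one_mul]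
    have h1 : 800 * 400 * (2 * u * κ₀) ≤ √n := by
      refine Real.le_sqrt_of_sq_le ?_
      linarith
    have h2 : (u + η) * κ₀ ≤ 2 * u * κ₀ := mul_le_mul_of_nonneg_right (by linarith) hκ0
    linarith
  have hcrit := fun N => hpm.criterion hn1 hr hκn N
  have : 1 / (2 * (6 * (n : ℝ) + 1) ^ 2) ≤ tht μ (u + η) := le_ciInf hcrit
  exact lt_of_lt_of_le (by positivity) this

theorem left_cont (h : Fam μ κ₀ c₀) {u : ℝ} (hu : 0 < u) {ε : ℝ} (hε : 0 < ε) :
    ∀ᶠ v in 𝓝[<] u, |tht μ v - tht μ u| < ε := by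
  obtain ⟨N, hN⟩ := exists_lt_of_ciInf_lt (show (⨅ N : ℕ, (μ u).real {S | Out 0 0 N S}) <
    tht μ u + ε / 2 by
      have : (⨅ N : ℕ, (μ u).real {S | Out 0 0 N S}) = tht μ u := rfl
      linarith)
  set K := boxF 0 N with hK
  have h1 : ∀ᶠ v in 𝓝[<] u, 0 < v := (eventually_gt_nhds hu).filter_mono nhdsWithin_le_nhds
  have h2 : ∀ᶠ v in 𝓝[<] u, u - ε / (2 * (K.card + 1)) < v :=
    (eventually_gt_nhds (by
      have : 0 < ε / (2 * ((K.card : ℝ) + 1)) := by positivity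
      linarith)).filter_mono nhdsWithin_le_nhds
  filter_upwards [h1, h2, self_mem_nhdsWithin] with v hv0 hv1 hv2
  have hvu : v < u := hv2
  have a1 := h.tht_anti hv0 hvu.le
  have a2 := h.tht_le v N
  have a3 := (abs_le.1 (h.cont v u hv0 hvu.le _ _ (loc_Out 0 0 N))).1
  have a4 : (u - v) * (K.card : ℝ) < ε / 2 := by
    have b1 : u - v < ε / (2 * ((K.card : ℝ) + 1)) := by linarith
    have b2 : (0 : ℝ) ≤ K.card := Nat.cast_nonneg _
    calc (u - v) * (K.card : ℝ) ≤ (u - v) * (K.card + 1) :=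
          mul_le_mul_of_nonneg_left (by linarith) (by linarith)
      _ < ε / (2 * ((K.card : ℝ) + 1)) * (K.card + 1) :=
          mul_lt_mul_of_pos_right b1 (by linarith)
      _ = ε / 2 := by field_simp
  rw [abs_lt]
  constructor <;> linarith

theorem right_cont (h : Fam μ κ₀ c₀) {u : ℝ} (hu : 0 < u) {ε : ℝ} (hε : 0 < ε) :
    ∀ᶠ v in 𝓝[>] u, |tht μ v - tht μ u| < ε := by
  rcases (h.tht_nonneg u).lt_or_eq with hpos | hzero
  swap
  · filter_upwards [self_mem_nhdsWithin] with v hv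
    have hvu : u < v := hv
    have a1 := h.tht_anti hu hvu.le
    have a2 := h.tht_nonneg v
    rw [← hzero] at a1 ⊢
    rw [abs_lt]
    constructor <;> linarith
  obtain ⟨u', hu', hpos'⟩ := h.open_level hu hpos
  have hpm := h.pm u hu
  have hpm' := h.pm u' (hu.trans hu')
  set ε' : ℝ := ε / 5 with hε'
  have hε'0 : 0 < ε' := by positivity
  obtain ⟨m, hm⟩ := hpm'.seeds hpos' (fun N => h.tht_le u' N) hε'0
  obtain ⟨M, hmM, hM⟩ := hpm.lu hpos (fun N => h.tht_le u N) m hε'0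
  set K := boxF 0 (M : ℤ) with hK
  have h1 : ∀ᶠ v in 𝓝[>] u, v < u' := (eventually_lt_nhds hu').filter_mono nhdsWithin_le_nhds
  have h2 : ∀ᶠ v in 𝓝[>] u, v < u + ε' / (2 * (K.card + 1)) :=
    (eventually_lt_nhds (by
      have : 0 < ε' / (2 * ((K.card : ℝ) + 1)) := by positivity
      linarith)).filter_mono nhdsWithin_le_nhds
  filter_upwards [h1, h2, self_mem_nhdsWithin] with v hv1 hv2 hv3
  have huv : u < v := hv3
  have hv0 : 0 < v := hu.trans huv
  have hpv := h.pm v hv0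
  have hprob := hpv.prob
  have a4 : (v - u) * (K.card : ℝ) < ε' / 2 := by
    have b1 : v - u < ε' / (2 * ((K.card : ℝ) + 1)) := by linarith
    have b2 : (0 : ℝ) ≤ K.card := Nat.cast_nonneg _
    calc (v - u) * (K.card : ℝ) ≤ (v - u) * (K.card + 1) :=
          mul_le_mul_of_nonneg_left (by linarith) (by linarith)
      _ < ε' / (2 * ((K.card : ℝ) + 1)) * (K.card + 1) :=
          mul_lt_mul_of_pos_right b1 (by linarith)
      _ = ε' / 2 := by field_simp
  have c1 := (abs_le.1 (h.cont u v hu huv.le _ _ (loc_LU 0 m M))).1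
  have c2 := (abs_le.1 (h.cont u v hu huv.le _ _ (loc_Out 0 0 M))).1
  have c3 := h.tht_le u M
  have c4 : ∀ N : ℕ, tht μ u - 4 * ε' ≤ (μ v).real {S | Out 0 0 N S} := by
    intro N
    set N' := max M N with hN'
    have hMN : M ≤ N' := le_max_left _ _
    have d0 : (μ v).real {S | Out 0 0 N' S} ≤ (μ v).real {S | Out 0 0 N S} :=
      hpv.mono fun S hS => Out.mono_N (by positivity) (by exact_mod_cast le_max_right _ _) hS
    have d1 : 1 - ε' ≤ (μ v).real {S | Out 0 m N' S} :=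
      (hm N' (hmM.trans hMN)).trans
        (h.mono v u' hv0 hv1.le _ _ (loc_Out 0 m N') (inc_Out 0 m N').2)
    have d2 : {S | Out 0 0 M S} ⊆ {S | Out 0 0 N' S} ∪
        ({S | LU 0 m M S}ᶜ ∪ {S | Out 0 m N' S}ᶜ) := by
      intro S hS
      by_cases e1 : LU 0 m M S
      swap
      · exact Or.inr (Or.inl e1)
      by_cases e2 : Out 0 m N' S
      swap
      · exact Or.inr (Or.inr e2)
      left
      obtain ⟨x, w, hx, hw, h3⟩ := hS
      obtain ⟨x', w', hx', hw', h4⟩ := e2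
      have hMN' : (M : ℤ) ≤ N' := by exact_mod_cast hMN
      obtain ⟨y', hy', h5⟩ := exit_box (M := (M : ℤ)) (by exact_mod_cast hmM) hMN' hx'
        (by omega) h4
      have h6 := e1 x x' w y' (box_mono (by positivity) hx) hx' hw hy' h3 h5
      exact ⟨x, w', hx, hw', (h6.mono (Set.inter_subset_inter_right _ (box_mono hMN'))).trans h4⟩
    have d3 := hpv.mono d2
    have d4 := measureReal_union_le (μ := μ v) {S | Out 0 0 N' S}
      ({S | LU 0 m M S}ᶜ ∪ {S | Out 0 m N' S}ᶜ)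
    have d5 := measureReal_union_le (μ := μ v) {S | LU 0 m M S}ᶜ {S | Out 0 m N' S}ᶜ
    rw [hpv.compl (loc_LU _ _ _), hpv.compl (loc_Out _ _ _)] at d5
    linarith
  have c5 : tht μ u - 4 * ε' ≤ tht μ v := le_ciInf c4
  have c6 := h.tht_anti hu huv.le
  rw [abs_lt]
  constructor
  · linarith
  · linarith

/-- **Continuity.** -/
theorem continuousOn (h : Fam μ κ₀ c₀) : ContinuousOn (tht μ) (Set.Ioi 0) := by
  intro u hu
  have hu' : 0 < u := hu
  refine ContinuousAt.continuousWithinAt ?_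
  rw [continuousAt_iff_continuous_left'_right']
  constructor
  · rw [ContinuousWithinAt, Metric.tendsto_nhds]
    intro ε hε
    simpa [Real.dist_eq] using h.left_cont hu' hε
  · rw [ContinuousWithinAt, Metric.tendsto_nhds]
    intro ε hε
    simpa [Real.dist_eq] using h.right_cont hu' hε

/-- Percolation at small levels. -/
theorem pos_small (h : Fam μ κ₀ c₀) : ∃ u, 0 < u ∧ 0 < tht μ u := by
  have hκ0 : 0 ≤ κ₀ := by
    have := (h.pm 1 one_pos).kappa
    linarith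
  obtain ⟨n₀, hn₀⟩ := exists_nat_gt ((800 * 400 * κ₀) ^ 2)
  set n := max n₀ 1 with hn
  have hn1 : 1 ≤ n := le_max_right _ _
  have hn0 : (n₀ : ℝ) ≤ n := by exact_mod_cast le_max_left n₀ 1
  set K := rectF 0 (3 * n) 0 n with hK
  set u : ℝ := min 1 (1 / (400 * (K.card + 1))) with hu
  have hu0 : 0 < u := lt_min one_pos (by positivity)
  have hu1 : u ≤ 1 := min_le_left _ _
  have hu2 : u * K.card ≤ 1 / 400 := by
    have h1 : u ≤ 1 / (400 * (K.card + 1)) := min_le_right _ _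
    calc u * K.card ≤ 1 / (400 * (K.card + 1)) * K.card :=
          mul_le_mul_of_nonneg_right h1 (by positivity)
      _ ≤ 1 / 400 := by
          rw [div_mul_eq_mul_div, one_mul, div_le_div_iff₀ (by positivity) (by norm_num)]
          linarith
  refine ⟨u, hu0, ?_⟩
  have hpm := h.pm u hu0
  have hr : PM.rr (μ u) n ≤ 1 / 400 := by
    unfold PM.rr
    have h1 := h.small u hu0 K
    have h2 : (μ u).real {S | ∀ x ∈ K, x ∈ S} ≤ (μ u).real {S | HC 0 (3 * n) 0 n S} := by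
      refine hpm.mono fun S hS => ?_
      have hS' : ∀ x ∈ K, x ∈ S := hS
      have hin : ∀ i : ℕ, i ≤ 3 * n → ((i : ℤ), (0 : ℤ)) ∈ S ∩ rect 0 (3 * n) 0 n := by
        intro i hi
        have hr : ((i : ℤ), (0 : ℤ)) ∈ rect 0 (3 * (n : ℤ)) 0 n := by
          rw [mem_rect]
          simp only
          omega
        exact ⟨hS' _ (mem_rectF.2 hr), hr⟩
      exact ⟨_, _, rfl, by simp, Reach.row (3 * n) hin⟩
    linarith
  have hn' : (0 : ℝ) < n := by exact_mod_cast hn1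
  have hκn : 400 * (u * κ₀) / √n ≤ 1 / 800 := by
    rw [div_le_div_iff₀ (Real.sqrt_pos.2 hn') (by norm_num), one_mul]
    have h1 : 800 * 400 * κ₀ ≤ √n := by
      refine Real.le_sqrt_of_sq_le ?_
      linarith
    have h2 : u * κ₀ ≤ 1 * κ₀ := mul_le_mul_of_nonneg_right hu1 hκ0
    linarith
  have hcrit := fun N => hpm.criterion hn1 hr hκn N
  have : 1 / (2 * (6 * (n : ℝ) + 1) ^ 2) ≤ tht μ u := le_ciInf hcrit
  exact lt_of_lt_of_le (by positivity) this

end Fam

end Run7.h485.Pl
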