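import Pool.Agent.Run7.h485.PFam

/-!
# No percolation at large levels
-/

namespace Run7.h485.Pl

open Finset MeasureTheory Filter Topology

/-- grid points -/
noncomputable def grid (n : ℤ) (k : ℤ) : Finset (ℤ × ℤ) :=
  (Icc (-k) k ×ˢ Icc (-k) k).image fun p => (n * p.1, n * p.2)

theorem grid_near {n k : ℤ} (hn : 1 ≤ n) {z : ℤ × ℤ} (hz : nrm 0 z ≤ k * n) :
    ∃ y ∈ grid n k, nrm y z ≤ n := by
  have hz' : (-(k * n) ≤ z.1 ∧ z.1 ≤ k * n) ∧ -(k * n) ≤ z.2 ∧ z.2 ≤ k * n := by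
    have := nrm_le.1 hz
    simp only [Prod.fst_zero, Prod.snd_zero] at this
    omega
  have key : ∀ t : ℤ, -(k * n) ≤ t → t ≤ k * n → (-k ≤ t / n ∧ t / n ≤ k) ∧
      n * (t / n) ≤ t ∧ t ≤ n * (t / n) + n := by
    intro t h1 h2
    have e1 := Int.mul_ediv_add_emod t n
    have e2 := Int.emod_nonneg t (show n ≠ 0 by omega)
    have e3 := Int.emod_lt_of_pos t (show 0 < n by omega)
    refine ⟨⟨?_, ?_⟩, by omega, by omega⟩
    · rw [Int.le_ediv_iff_mul_le (by omega)]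
      linarith
    · by_contra hcon
      push Not at hcon
      have : (k + 1) * n ≤ (t / n) * n := mul_le_mul_of_nonneg_right (by omega) (by omega)
      nlinarith
  obtain ⟨a1, a2, a3⟩ := key z.1 hz'.1.1 hz'.1.2
  obtain ⟨b1, b2, b3⟩ := key z.2 hz'.2.1 hz'.2.2
  refine ⟨(n * (z.1 / n), n * (z.2 / n)), ?_, ?_⟩
  · rw [grid, mem_image]
    exact ⟨(z.1 / n, z.2 / n), mem_product.2 ⟨mem_Icc.2 a1, mem_Icc.2 b1⟩, rfl⟩
  · rw [nrm_le]
    refine ⟨⟨?_, ?_⟩, ?_, ?_⟩ <;> simp only <;> linarith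

/-- pairs of distant grid points -/
noncomputable def pairs (n : ℤ) : Finset ((ℤ × ℤ) × (ℤ × ℤ)) :=
  (grid n 8 ×ˢ grid n 16).filter fun p => 6 * n ≤ nrm p.1 p.2

theorem card_pairs (n : ℤ) : ((pairs n).card : ℝ) ≤ 314721 := by
  have h1 : ∀ k : ℤ, 0 ≤ k → (grid n k).card ≤ (2 * k + 1).toNat ^ 2 := by
    intro k hk
    rw [grid]
    refine card_image_le.trans (le_of_eq ?_)
    rw [card_product, Int.card_Icc, sq]
    congr 2 <;> omega
  have h2 : (pairs n).card ≤ 289 * 1089 := by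
    rw [pairs]
    refine (card_filter_le _ _).trans ?_
    rw [card_product]
    exact Nat.mul_le_mul ((h1 8 (by norm_num)).trans (by decide))
      ((h1 16 (by norm_num)).trans (by decide))
  have : (pairs n).card ≤ 314721 := h2
  exact_mod_cast this

theorem out_cover {n : ℤ} (hn : 1 ≤ n) :
    {S | Out 0 (8 * n) (16 * n) S} ⊆
      ⋃ p ∈ pairs n, ({S | Out p.1 n (2 * n) S} ∩ {S | Out p.2 n (2 * n) S}) := by
  rintro S ⟨v, w, hv, hw, h1⟩
  have hv' : nrm 0 v ≤ 8 * n := hv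
  obtain ⟨z, hz, -, h2⟩ := Reach.first_hit' (f := nrm 0) (nrm_lip 0) (k := 8 * n) hv'
    (by omega) h1
  have h3 : Reach S z w := h2.mono Set.inter_subset_left
  obtain ⟨y, hy, hyz⟩ := grid_near hn (k := 8) (by omega : nrm 0 z ≤ 8 * n)
  obtain ⟨y', hy', hyw⟩ := grid_near hn (k := 16) (by omega : nrm 0 w ≤ 16 * n)
  have t1 := nrm_triangle 0 z w
  have t2 := nrm_triangle z y w
  have t3 := nrm_triangle y y' w
  have t4 := nrm_triangle w y' z
  have s1 := nrm_symm z y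
  have s2 := nrm_symm w y'
  have s3 := nrm_symm w z
  rw [Set.mem_iUnion₂]
  refine ⟨(y, y'), ?_, ?_, ?_⟩
  · rw [pairs, mem_filter, mem_product]
    refine ⟨⟨hy, hy'⟩, ?_⟩
    simp only
    omega
  · obtain ⟨q, hq, h4, -⟩ := Reach.first_hit' (f := nrm y) (nrm_lip y) (k := 2 * n)
      (by omega) (by omega) h3
    exact ⟨z, q, hyz, hq, h4⟩
  · obtain ⟨q, hq, h4, -⟩ := Reach.first_hit' (f := nrm y') (nrm_lip y') (k := 2 * n)
      (by omega) (by omega) h3.symm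
    exact ⟨w, q, hyw, hq, h4⟩

namespace PM

variable {μ : Measure (Set (ℤ × ℤ))} {κ : ℝ}

/-- the probability that the box of radius `n` is joined to distance `2 n` -/
noncomputable def qq (μ : Measure (Set (ℤ × ℤ))) (n : ℕ) : ℝ :=
  μ.real {S | Out 0 (n : ℤ) (2 * n) S}

theorem out_trn (h : PM μ κ) (x : ℤ × ℤ) (m N : ℤ) :
    μ.real {S | Out x m N S} = μ.real {S | Out 0 m N S} := by
  have := h.trn x _ _ (loc_Out 0 m N)
  have h2 : {S | Pl.trn x ⁻¹' S ∈ {S | Out 0 m N S}} = {S | Out x m N S} := by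
    ext S
    refine Out_trn.trans ?_
    simp [Pl.trn]
  rw [h2] at this
  exact this

set_option maxRecDepth 20000 in
set_option linter.constructorNameAsVariable false in
theorem renorm_out (h : PM μ κ) {n : ℕ} (hn : 1 ≤ n) :
    qq μ (8 * n) ≤ 314721 * (qq μ n ^ 2 + 625 * κ / √n) := by
  have hprob := h.prob
  have hn0 : (1 : ℤ) ≤ n := by exact_mod_cast hn
  have hn' : (1 : ℝ) ≤ n := by exact_mod_cast hn
  have hsq : 0 < √(n : ℝ) := Real.sqrt_pos.2 (by linarith)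
  have hκ := h.kappa
  have h1 := h.mono (out_cover hn0)
  have e1 : qq μ (8 * n) = μ.real {S | Out 0 (8 * (n : ℤ)) (16 * n) S} := by
    unfold qq
    push_cast
    congr! 4
    ring
  rw [e1]
  refine h1.trans ((measureReal_biUnion_finset_le _ _).trans ?_)
  have h2 : ∀ p ∈ pairs (n : ℤ), μ.real ({S | Out p.1 (n : ℤ) (2 * n) S} ∩
      {S | Out p.2 (n : ℤ) (2 * n) S}) ≤ qq μ n ^ 2 + 625 * κ / √n := by
    intro p hp
    rw [pairs, mem_filter] at hp
    have hmix := (abs_le.1 (h.mix _ _ _ _ n hn (loc_Out p.1 n (2 * n)) (loc_Out p.2 n (2 * n))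
      (fun x hx y hy => by
        rw [mem_boxF] at hx hy
        have hx' : nrm p.1 x ≤ 2 * n := hx
        have hy' : nrm p.2 y ≤ 2 * n := hy
        have t1 := nrm_triangle p.1 x p.2
        have t2 := nrm_triangle x y p.2
        have t3 := nrm_symm y p.2
        omega))).2
    rw [h.out_trn p.1, h.out_trn p.2] at hmix
    have e2 : ∀ z : ℤ × ℤ, ((boxF z (2 * (n : ℤ))).card : ℝ) ≤ 25 * (n : ℝ) ^ 2 := by
      intro z
      have := card_boxF z (2 * n)
      push_cast at this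
      rw [this]
      nlinarith
    have e3 : κ * (((boxF p.1 (2 * (n : ℤ))).card : ℝ) * ((boxF p.2 (2 * (n : ℤ))).card : ℝ)) /
        ((n : ℝ) ^ 4 * √n) ≤ 625 * κ / √n := by
      have m0 : (0 : ℝ) ≤ 25 * (n : ℝ) ^ 2 := by positivity
      have m1 : ((boxF p.1 (2 * (n : ℤ))).card : ℝ) * ((boxF p.2 (2 * (n : ℤ))).card : ℝ) ≤
          (25 * (n : ℝ) ^ 2) * (25 * (n : ℝ) ^ 2) :=
        mul_le_mul (e2 p.1) (e2 p.2) (Nat.cast_nonneg _) m0
      have m2 : (0 : ℝ) ≤ (n : ℝ) ^ 4 * √n := by positivity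
      calc _ ≤ κ * ((25 * (n : ℝ) ^ 2) * (25 * (n : ℝ) ^ 2)) / ((n : ℝ) ^ 4 * √n) :=
            div_le_div_of_nonneg_right (mul_le_mul_of_nonneg_left m1 hκ) m2
        _ = 625 * κ / √n := by
            field_simp
            ring
    have e4 : qq μ n ^ 2 = μ.real {S | Out 0 (n : ℤ) (2 * n) S} * μ.real {S | Out 0 (n : ℤ) (2 * n) S} :=
      sq _
    rw [e4]
    linarith
  refine (sum_le_sum h2).trans ?_
  rw [sum_const, nsmul_eq_mul]
  exact mul_le_mul_of_nonneg_right (card_pairs _) (by positivity)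

theorem qq_decay (h : PM μ κ) {n : ℕ} (hn : 1 ≤ n) (h0 : qq μ n ≤ 1 / (4 * 314721))
    (hκn : 314721 * (625 * κ / √n) ≤ 1 / (16 * 314721)) (k : ℕ) :
    qq μ (8 ^ k * n) ≤ 1 / (4 * 314721) * (2 / 3) ^ k := by
  have hn' : (1 : ℝ) ≤ n := by exact_mod_cast hn
  have hsq : 0 < √(n : ℝ) := Real.sqrt_pos.2 (by linarith)
  have h3 : (9 / 4 : ℝ) ≤ √8 := by
    rw [Real.le_sqrt (by norm_num) (by norm_num)]
    norm_num
  have hs : ∀ k : ℕ, 314721 * (625 * κ / √((8 ^ k * n : ℕ) : ℝ)) ≤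
      1 / (16 * 314721) * (4 / 9) ^ k := by
    intro k
    have e1 : √((8 ^ k * n : ℕ) : ℝ) = √8 ^ k * √n := by
      push_cast
      rw [Real.sqrt_mul (by positivity)]
      congr 1
      have : (8 : ℝ) ^ k = (√8 ^ k) ^ 2 := by
        rw [← pow_mul, mul_comm k 2, pow_mul, Real.sq_sqrt (by norm_num)]
      rw [this, Real.sqrt_sq (by positivity)]
    rw [e1]
    have e2 : 314721 * (625 * κ / (√8 ^ k * √n)) = (314721 * (625 * κ / √n)) * (1 / √8) ^ k := by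
      rw [one_div, inv_pow]
      field_simp
    rw [e2]
    refine mul_le_mul hκn (pow_le_pow_left₀ (by positivity) ?_ k) (by positivity) (by norm_num)
    rw [div_le_div_iff₀ (by positivity) (by norm_num)]
    linarith
  induction k with
  | zero => simpa using h0
  | succ k ih =>
    have h1 := h.renorm_out (n := 8 ^ k * n) (Nat.one_le_iff_ne_zero.2 (by positivity))
    have e : 8 * (8 ^ k * n) = 8 ^ (k + 1) * n := by ring
    rw [e] at h1
    have h2 := hs k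
    have hq0 : 0 ≤ qq μ (8 ^ k * n) := measureReal_nonneg
    have h4 : qq μ (8 ^ k * n) ^ 2 ≤ (1 / (4 * 314721) * (2 / 3) ^ k) ^ 2 :=
      pow_le_pow_left₀ hq0 ih 2
    have h5 : (1 / (4 * 314721) * (2 / 3 : ℝ) ^ k) ^ 2 =
        1 / (16 * 314721 ^ 2) * (4 / 9) ^ k := by
      rw [mul_pow, ← pow_mul, mul_comm k 2, pow_mul]
      norm_num
    have h6 : (4 / 9 : ℝ) ^ k ≤ (2 / 3) ^ k := pow_le_pow_left₀ (by norm_num) (by norm_num) k
    have h8 : (2 / 3 : ℝ) ^ (k + 1) = (2 / 3) ^ k * (2 / 3) := pow_succ _ _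
    rw [h8]
    have h7 : 0 ≤ (2 / 3 : ℝ) ^ k := by positivity
    rw [h5] at h4
    rw [mul_add] at h1
    have h9 : (314721 : ℝ) * qq μ (8 ^ k * n) ^ 2 ≤ 1 / (16 * 314721) * (4 / 9) ^ k := by
      calc (314721 : ℝ) * qq μ (8 ^ k * n) ^ 2 ≤ 314721 * (1 / (16 * 314721 ^ 2) * (4 / 9) ^ k) :=
            mul_le_mul_of_nonneg_left h4 (by norm_num)
        _ = _ := by ring
    linarith

end PM

namespace Fam

variable {μ : ℝ → Measure (Set (ℤ × ℤ))} {κ₀ c₀ : ℝ}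

/-- No percolation at large levels. -/
theorem zero_large (h : Fam μ κ₀ c₀) : ∃ u, 0 < u ∧ tht μ u = 0 := by
  have hκ0 : 0 ≤ κ₀ := by
    have := (h.pm 1 one_pos).kappa
    linarith
  have hc := h.c_pos
  set B : ℝ := 16 * 314721 * 314721 * 625 * κ₀ with hB
  have hB0 : 0 ≤ B := by positivity
  -- choice of u
  have hlim := Real.tendsto_pow_mul_exp_neg_atTop_nhds_zero 4
  have hlim2 : Tendsto (fun u : ℝ => (c₀ * u) ^ 4 * Real.exp (-(c₀ * u))) atTop (𝓝 0) :=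
    hlim.comp (tendsto_id.const_mul_atTop hc)
  set A : ℝ := (2 * B ^ 2 + 5) ^ 2 * (4 * 314721) / c₀ ^ 4 with hA
  have hA0 : 0 < A := by positivity
  obtain ⟨u, hu1, hu2⟩ := ((hlim2.eventually_lt_const (show (0 : ℝ) < 1 / A by positivity)).and
    (eventually_ge_atTop 1)).exists
  have hu0 : 0 < u := by linarith
  refine ⟨u, hu0, ?_⟩
  have hpm := h.pm u hu0
  have hprob := hpm.prob
  set n : ℕ := ⌈(B * u) ^ 2⌉₊ + 1 with hn
  have hn1 : 1 ≤ n := by omega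
  have hn' : (0 : ℝ) < n := by exact_mod_cast hn1
  have hnlow : (B * u) ^ 2 ≤ n := by
    have := Nat.le_ceil ((B * u) ^ 2)
    rw [hn]; push_cast; linarith
  have hnup : (n : ℝ) ≤ (B * u) ^ 2 + 2 := by
    have := Nat.ceil_lt_add_one (show 0 ≤ (B * u) ^ 2 by positivity)
    rw [hn]; push_cast; linarith
  have hκn : 314721 * (625 * (u * κ₀) / √n) ≤ 1 / (16 * 314721) := by
    rw [mul_div_assoc', div_le_div_iff₀ (Real.sqrt_pos.2 hn') (by norm_num), one_mul]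
    have h1 : B * u ≤ √n := Real.le_sqrt_of_sq_le hnlow
    have h2 : 314721 * (625 * (u * κ₀)) * (16 * 314721) = B * u := by rw [hB]; ring
    rw [h2]; exact h1
  have hq0 : PM.qq (μ u) n ≤ 1 / (4 * 314721) := by
    have hsub : {S | Out 0 (n : ℤ) (2 * n) S} ⊆ ⋃ x ∈ boxF 0 (n : ℤ), {S | x ∈ S} := by
      rintro S ⟨v, w, hv, -, h1⟩
      rw [Set.mem_iUnion₂]
      exact ⟨v, mem_boxF.2 hv, h1.left_mem.1⟩
    have h1 := hpm.mono hsub
    have h2 : (μ u).real (⋃ x ∈ boxF 0 (n : ℤ), {S | x ∈ S}) ≤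
        (2 * n + 1) ^ 2 * Real.exp (-(u * c₀)) := by
      refine (measureReal_biUnion_finset_le _ _).trans ?_
      refine (sum_le_sum fun x _ => h.single u hu0 x).trans ?_
      rw [sum_const, nsmul_eq_mul, card_boxF]
    have h3 : (2 * (n : ℝ) + 1) ^ 2 ≤ (2 * B ^ 2 + 5) ^ 2 * u ^ 4 := by
      have e1 : 2 * (n : ℝ) + 1 ≤ (2 * B ^ 2 + 5) * u ^ 2 := by
        have : 1 ≤ u ^ 2 := one_le_pow₀ hu2
        nlinarith
      calc (2 * (n : ℝ) + 1) ^ 2 ≤ ((2 * B ^ 2 + 5) * u ^ 2) ^ 2 :=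
            pow_le_pow_left₀ (by positivity) e1 2
        _ = _ := by ring
    have h4 : (2 * B ^ 2 + 5) ^ 2 * u ^ 4 * Real.exp (-(u * c₀)) ≤ 1 / (4 * 314721) := by
      have e1 : (2 * B ^ 2 + 5) ^ 2 * u ^ 4 * Real.exp (-(u * c₀)) =
          A / (4 * 314721) * ((c₀ * u) ^ 4 * Real.exp (-(c₀ * u))) := by
        rw [hA, mul_comm u c₀]
        field_simp
      rw [e1]
      calc A / (4 * 314721) * ((c₀ * u) ^ 4 * Real.exp (-(c₀ * u)))
          ≤ A / (4 * 314721) * (1 / A) := mul_le_mul_of_nonneg_left hu1.le (by positivity)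
        _ = 1 / (4 * 314721) := by field_simp
    have h5 : PM.qq (μ u) n ≤ (2 * (n : ℝ) + 1) ^ 2 * Real.exp (-(u * c₀)) := h1.trans h2
    exact h5.trans ((mul_le_mul_of_nonneg_right h3 (Real.exp_pos _).le).trans h4)
  have hdec := hpm.qq_decay hn1 hq0 hκn
  have hle : ∀ k : ℕ, tht μ u ≤ 1 / (4 * 314721) * (2 / 3) ^ k := by
    intro k
    refine le_trans ?_ (hdec k)
    have h1 := h.tht_le u (2 * (8 ^ k * n))
    refine h1.trans (hpm.mono ?_)
    rintro S ⟨v, w, hv, hw, h2⟩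
    refine ⟨v, w, box_mono (by positivity) hv, ?_, ?_⟩
    · rw [hw]; push_cast; ring
    · refine h2.mono ?_
      have : ((2 * (8 ^ k * n) : ℕ) : ℤ) = 2 * ((8 ^ k * n : ℕ) : ℤ) := by push_cast; ring
      rw [this]
  have hlim3 : Tendsto (fun k : ℕ => 1 / (4 * 314721) * (2 / 3 : ℝ) ^ k) atTop (𝓝 0) := by
    have := (tendsto_pow_atTop_nhds_zero_of_lt_one (show (0 : ℝ) ≤ 2 / 3 by norm_num)
      (by norm_num)).const_mul (1 / (4 * 314721) : ℝ)
    rwa [mul_zero] at this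
  exact le_antisymm (ge_of_tendsto' hlim3 hle) (h.tht_nonneg u)

end Fam

end Run7.h485.Pl
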