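import Pool.Agent.Run7.h485.Poisson
import Pool.Agent.Run7.h485.Cross

/-!
# Planar models: basic probability estimates
-/

namespace Run7.h485.Pl

open Finset MeasureTheory Filter Topology

/-- A random subset of `ℤ × ℤ` which is positively associated, invariant under the symmetries of
the lattice, and which decorrelates at a polynomial rate. -/
structure PM (μ : Measure (Set (ℤ × ℤ))) (κ : ℝ) : Prop where
  prob : IsProbabilityMeasure μ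
  kappa : 0 ≤ κ
  fkg : ∀ (K : Finset (ℤ × ℤ)) (E F : Set (Set (ℤ × ℤ))), Loc K E → Loc K F → IsUpperSet E →
    IsUpperSet F → μ.real E * μ.real F ≤ μ.real (E ∩ F)
  trn : ∀ (z : ℤ × ℤ) (K : Finset (ℤ × ℤ)) (E : Set (Set (ℤ × ℤ))), Loc K E →
    μ.real {S | trn z ⁻¹' S ∈ E} = μ.real E
  rfl1 : ∀ (K : Finset (ℤ × ℤ)) (E : Set (Set (ℤ × ℤ))), Loc K E →
    μ.real {S | rfl1 ⁻¹' S ∈ E} = μ.real E
  swp : ∀ (K : Finset (ℤ × ℤ)) (E : Set (Set (ℤ × ℤ))), Loc K E →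
    μ.real {S | swp ⁻¹' S ∈ E} = μ.real E
  mix : ∀ (K₁ K₂ : Finset (ℤ × ℤ)) (E F : Set (Set (ℤ × ℤ))) (D : ℕ), 1 ≤ D → Loc K₁ E →
    Loc K₂ F → (∀ x ∈ K₁, ∀ y ∈ K₂, (D : ℤ) ≤ nrm x y) →
    |μ.real (E ∩ F) - μ.real E * μ.real F| ≤
      κ * ((K₁.card : ℝ) * (K₂.card : ℝ)) / ((D : ℝ) ^ 4 * √D)

/-- increasing local events -/
def Inc (E : Set (Set (ℤ × ℤ))) : Prop := (∃ K : Finset (ℤ × ℤ), Loc K E) ∧ IsUpperSet E

theorem Inc.inter {E F : Set (Set (ℤ × ℤ))} (hE : Inc E) (hF : Inc F) : Inc (E ∩ F) := by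
  obtain ⟨⟨K, hK⟩, hE'⟩ := hE
  obtain ⟨⟨L, hL⟩, hF'⟩ := hF
  exact ⟨⟨K ∪ L, (hK.mono subset_union_left).inter (hL.mono subset_union_right)⟩, hE'.inter hF'⟩

theorem Inc.union {E F : Set (Set (ℤ × ℤ))} (hE : Inc E) (hF : Inc F) : Inc (E ∪ F) := by
  obtain ⟨⟨K, hK⟩, hE'⟩ := hE
  obtain ⟨⟨L, hL⟩, hF'⟩ := hF
  exact ⟨⟨K ∪ L, (hK.mono subset_union_left).union (hL.mono subset_union_right)⟩, hE'.union hF'⟩

theorem Inc.measurable {E : Set (Set (ℤ × ℤ))} (hE : Inc E) : MeasurableSet E := by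
  obtain ⟨⟨K, hK⟩, -⟩ := hE
  exact hK.measurable

theorem loc_pre {K : Finset (ℤ × ℤ)} {E : Set (Set (ℤ × ℤ))} (hE : Loc K E)
    (σ : ℤ × ℤ → ℤ × ℤ) : Loc (K.image σ) {S | σ ⁻¹' S ∈ E} := by
  intro S T hST
  refine hE _ _ fun x hx => ?_
  rw [Set.mem_preimage, Set.mem_preimage]
  exact hST _ (mem_image_of_mem σ hx)

theorem Inc.pre {E : Set (Set (ℤ × ℤ))} (hE : Inc E) (σ : ℤ × ℤ → ℤ × ℤ) :
    Inc {S | σ ⁻¹' S ∈ E} := by
  obtain ⟨⟨K, hK⟩, hE'⟩ := hE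
  refine ⟨⟨_, loc_pre hK σ⟩, fun S T hST hS => ?_⟩
  exact hE' (Set.preimage_mono (f := σ) hST) hS

theorem loc_of_inter {B : Set (ℤ × ℤ)} {K : Finset (ℤ × ℤ)} (hB : B ⊆ (K : Set (ℤ × ℤ)))
    (P : Set (ℤ × ℤ) → Prop) : Loc K {S | P (S ∩ B)} := by
  intro S T hST
  have : S ∩ B = T ∩ B := by
    ext x
    constructor
    · rintro ⟨h1, h2⟩; exact ⟨(hST x (hB h2)).1 h1, h2⟩
    · rintro ⟨h1, h2⟩; exact ⟨(hST x (hB h2)).2 h1, h2⟩
  change P (S ∩ B) ↔ P (T ∩ B)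
  rw [this]

/-- finite rectangle -/
noncomputable def rectF (x0 x1 y0 y1 : ℤ) : Finset (ℤ × ℤ) := Icc x0 x1 ×ˢ Icc y0 y1

theorem mem_rectF {x0 x1 y0 y1 : ℤ} {p : ℤ × ℤ} : p ∈ rectF x0 x1 y0 y1 ↔ p ∈ rect x0 x1 y0 y1 := by
  rw [rectF, mem_product, mem_Icc, mem_Icc, mem_rect]

/-- finite box -/
noncomputable def boxF (z : ℤ × ℤ) (N : ℤ) : Finset (ℤ × ℤ) := rectF (z.1 - N) (z.1 + N) (z.2 - N) (z.2 + N)

theorem mem_boxF {z p : ℤ × ℤ} {N : ℤ} : p ∈ boxF z N ↔ p ∈ box z N := by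
  rw [boxF, mem_rectF, mem_rect, mem_box]

theorem card_rectF {x0 x1 y0 y1 : ℤ} :
    (rectF x0 x1 y0 y1).card = (x1 + 1 - x0).toNat * (y1 + 1 - y0).toNat := by
  rw [rectF, card_product, Int.card_Icc, Int.card_Icc]

theorem loc_HC (x0 x1 y0 y1 : ℤ) : Loc (rectF x0 x1 y0 y1) {S | HC x0 x1 y0 y1 S} :=
  loc_of_inter (B := rect x0 x1 y0 y1) (fun p hp => mem_coe.2 (mem_rectF.2 hp))
    (fun T => ∃ p q : ℤ × ℤ, p.1 = x0 ∧ q.1 = x1 ∧ Reach T p q)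

theorem loc_VC (x0 x1 y0 y1 : ℤ) : Loc (rectF x0 x1 y0 y1) {S | VC x0 x1 y0 y1 S} :=
  loc_of_inter (B := rect x0 x1 y0 y1) (fun p hp => mem_coe.2 (mem_rectF.2 hp))
    (fun T => ∃ p q : ℤ × ℤ, p.2 = y0 ∧ q.2 = y1 ∧ Reach T p q)

theorem inc_HC (x0 x1 y0 y1 : ℤ) : Inc {S | HC x0 x1 y0 y1 S} := by
  refine ⟨⟨_, loc_HC x0 x1 y0 y1⟩, fun S T hST hS => ?_⟩
  obtain ⟨p, q, hp, hq, h⟩ := hS
  exact ⟨p, q, hp, hq, h.mono (Set.inter_subset_inter_left _ hST)⟩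

theorem inc_VC (x0 x1 y0 y1 : ℤ) : Inc {S | VC x0 x1 y0 y1 S} := by
  refine ⟨⟨_, loc_VC x0 x1 y0 y1⟩, fun S T hST hS => ?_⟩
  obtain ⟨p, q, hp, hq, h⟩ := hS
  exact ⟨p, q, hp, hq, h.mono (Set.inter_subset_inter_left _ hST)⟩

theorem loc_Arm (z : ℤ × ℤ) (m N lo hi : ℤ) : Loc (boxF z N) {S | Arm z m N lo hi S} :=
  loc_of_inter (B := box z N) (fun p hp => mem_coe.2 (mem_boxF.2 hp))
    (fun T => ∃ v w : ℤ × ℤ, v ∈ box z m ∧ w.1 = z.1 + N ∧ z.2 + lo ≤ w.2 ∧ w.2 ≤ z.2 + hi ∧ Reach T v w)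

theorem inc_Arm (z : ℤ × ℤ) (m N lo hi : ℤ) : Inc {S | Arm z m N lo hi S} := by
  refine ⟨⟨_, loc_Arm z m N lo hi⟩, fun S T hST hS => ?_⟩
  obtain ⟨p, q, hp, hq, h1, h2, h⟩ := hS
  exact ⟨p, q, hp, hq, h1, h2, h.mono (Set.inter_subset_inter_left _ hST)⟩

theorem loc_LU (z : ℤ × ℤ) (m M : ℤ) : Loc (boxF z M) {S | LU z m M S} :=
  loc_of_inter (B := box z M) (fun p hp => mem_coe.2 (mem_boxF.2 hp))
    (fun T => ∀ v v' w w' : ℤ × ℤ, v ∈ box z m → v' ∈ box z m → nrm z w = M → nrm z w' = M →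
      Reach T v w → Reach T v' w' → Reach T v v')

/-- the box of radius `m` is joined to distance `N` -/
def Out (z : ℤ × ℤ) (m N : ℤ) (S : Set (ℤ × ℤ)) : Prop :=
  ∃ v w, v ∈ box z m ∧ nrm z w = N ∧ Reach (S ∩ box z N) v w

theorem loc_Out (z : ℤ × ℤ) (m N : ℤ) : Loc (boxF z N) {S | Out z m N S} :=
  loc_of_inter (B := box z N) (fun p hp => mem_coe.2 (mem_boxF.2 hp))
    (fun T => ∃ v w : ℤ × ℤ, v ∈ box z m ∧ nrm z w = N ∧ Reach T v w)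

theorem inc_Out (z : ℤ × ℤ) (m N : ℤ) : Inc {S | Out z m N S} := by
  refine ⟨⟨_, loc_Out z m N⟩, fun S T hST hS => ?_⟩
  obtain ⟨p, q, hp, hq, h⟩ := hS
  exact ⟨p, q, hp, hq, h.mono (Set.inter_subset_inter_left _ hST)⟩

/-! ### Behaviour under symmetries -/

theorem trn_neg (z p : ℤ × ℤ) : trn z (trn (-z.1, -z.2) p) = p := by
  simp [trn]

theorem trn_neg' (z p : ℤ × ℤ) : trn (-z.1, -z.2) (trn z p) = p := by
  simp [trn]

/-- transport of connections under translations -/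
theorem reach_trn {z : ℤ × ℤ} {S B C : Set (ℤ × ℤ)} (hB : ∀ p, p ∈ B ↔ trn z p ∈ C)
    {x y : ℤ × ℤ} : Reach (trn z ⁻¹' S ∩ B) x y ↔ Reach (S ∩ C) (trn z x) (trn z y) := by
  constructor
  · intro h
    refine h.map (adj_trn z) ?_
    rintro p ⟨h1, h2⟩
    exact ⟨h1, (hB p).1 h2⟩
  · intro h
    have := h.map (σ := trn (-z.1, -z.2)) (T := trn z ⁻¹' S ∩ B) (adj_trn _) (by
      rintro p ⟨h1, h2⟩
      refine ⟨?_, ?_⟩
      · rw [Set.mem_preimage, trn_neg]; exact h1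
      · rw [hB, trn_neg]; exact h2)
    rwa [trn_neg', trn_neg'] at this

theorem HC_trn {a b c d : ℤ} {z : ℤ × ℤ} {S : Set (ℤ × ℤ)} :
    HC a b c d (trn z ⁻¹' S) ↔ HC (a + z.1) (b + z.1) (c + z.2) (d + z.2) S := by
  have hB : ∀ p, p ∈ rect a b c d ↔ trn z p ∈ rect (a + z.1) (b + z.1) (c + z.2) (d + z.2) := by
    intro p; rw [mem_rect, mem_rect]; simp only [trn]; omega
  constructor
  · rintro ⟨p, q, hp, hq, h⟩
    refine ⟨trn z p, trn z q, by simp only [trn]; omega, by simp only [trn]; omega,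
      (reach_trn hB).1 h⟩
  · rintro ⟨p, q, hp, hq, h⟩
    refine ⟨trn (-z.1, -z.2) p, trn (-z.1, -z.2) q, by simp only [trn]; omega,
      by simp only [trn]; omega, (reach_trn hB).2 ?_⟩
    rwa [trn_neg, trn_neg]

theorem box_trn {z w : ℤ × ℤ} {N : ℤ} (p : ℤ × ℤ) : p ∈ box w N ↔ trn z p ∈ box (trn z w) N := by
  rw [mem_box, mem_box]; simp only [trn]; omega

theorem nrm_trn (z w p : ℤ × ℤ) : nrm (trn z w) (trn z p) = nrm w p := by
  unfold nrm trn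
  simp

theorem Arm_trn {m N lo hi : ℤ} {z w : ℤ × ℤ} {S : Set (ℤ × ℤ)} :
    Arm w m N lo hi (trn z ⁻¹' S) ↔ Arm (trn z w) m N lo hi S := by
  constructor
  · rintro ⟨p, q, hp, hq, h1, h2, h⟩
    refine ⟨trn z p, trn z q, (box_trn p).1 hp, by simp only [trn]; omega,
      by simp only [trn]; omega, by simp only [trn]; omega, (reach_trn (box_trn)).1 h⟩
  · rintro ⟨p, q, hp, hq, h1, h2, h⟩
    simp only [trn] at hq h1 h2
    refine ⟨trn (-z.1, -z.2) p, trn (-z.1, -z.2) q, (box_trn (z := z) _).2 (by rwa [trn_neg]),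
      by simp only [trn]; omega, by simp only [trn]; omega, by simp only [trn]; omega,
      (reach_trn (z := z) box_trn).2 ?_⟩
    rwa [trn_neg, trn_neg]

theorem Out_trn {m N : ℤ} {z w : ℤ × ℤ} {S : Set (ℤ × ℤ)} :
    Out w m N (trn z ⁻¹' S) ↔ Out (trn z w) m N S := by
  constructor
  · rintro ⟨p, q, hp, hq, h⟩
    exact ⟨trn z p, trn z q, (box_trn p).1 hp, by rw [nrm_trn]; exact hq,
      (reach_trn (box_trn)).1 h⟩
  · rintro ⟨p, q, hp, hq, h⟩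
    refine ⟨trn (-z.1, -z.2) p, trn (-z.1, -z.2) q, (box_trn (z := z) _).2 (by rwa [trn_neg]),
      ?_, (reach_trn (z := z) box_trn).2 ?_⟩
    · rw [← nrm_trn z, trn_neg]; exact hq
    · rwa [trn_neg, trn_neg]

theorem LU_trn {m M : ℤ} {z w : ℤ × ℤ} {S : Set (ℤ × ℤ)} :
    LU w m M (trn z ⁻¹' S) ↔ LU (trn z w) m M S := by
  constructor
  · intro h v v' y y' hv hv' hy hy' h1 h2
    have := h (trn (-z.1, -z.2) v) (trn (-z.1, -z.2) v') (trn (-z.1, -z.2) y)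
      (trn (-z.1, -z.2) y') ((box_trn (z := z) _).2 (by rwa [trn_neg]))
      ((box_trn (z := z) _).2 (by rwa [trn_neg])) (by rw [← nrm_trn z, trn_neg]; exact hy)
      (by rw [← nrm_trn z, trn_neg]; exact hy')
      ((reach_trn (z := z) box_trn).2 (by rwa [trn_neg, trn_neg]))
      ((reach_trn (z := z) box_trn).2 (by rwa [trn_neg, trn_neg]))
    rw [reach_trn (z := z) box_trn, trn_neg, trn_neg] at this
    exact this
  · intro h v v' y y' hv hv' hy hy' h1 h2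
    rw [reach_trn (z := z) box_trn] at h1 h2 ⊢
    exact h _ _ _ _ ((box_trn v).1 hv) ((box_trn v').1 hv') (by rw [nrm_trn]; exact hy)
      (by rw [nrm_trn]; exact hy') h1 h2

namespace PM

variable {μ : Measure (Set (ℤ × ℤ))} {κ : ℝ}

theorem fkg' (h : PM μ κ) {E F : Set (Set (ℤ × ℤ))} (hE : Inc E) (hF : Inc F) :
    μ.real E * μ.real F ≤ μ.real (E ∩ F) := by
  obtain ⟨⟨K, hK⟩, hE'⟩ := hE
  obtain ⟨⟨L, hL⟩, hF'⟩ := hF
  exact h.fkg (K ∪ L) E F (hK.mono subset_union_left) (hL.mono subset_union_right) hE' hF'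

theorem le_one (h : PM μ κ) (E : Set (Set (ℤ × ℤ))) : μ.real E ≤ 1 := by
  have := h.prob
  exact measureReal_le_one

theorem mono (h : PM μ κ) {E F : Set (Set (ℤ × ℤ))} (hEF : E ⊆ F) : μ.real E ≤ μ.real F := by
  have := h.prob
  exact measureReal_mono hEF

theorem fkg_pow (h : PM μ κ) {E F : Set (Set (ℤ × ℤ))} (hE : Inc E) (hF : Inc F) {p : ℝ}
    (hp : 0 ≤ p) {i j : ℕ} (h1 : p ^ i ≤ μ.real E) (h2 : p ^ j ≤ μ.real F) :
    p ^ (i + j) ≤ μ.real (E ∩ F) := by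
  rw [pow_add]
  exact (mul_le_mul h1 h2 (by positivity) measureReal_nonneg).trans (h.fkg' hE hF)

/-- the square root trick -/
theorem sqrt_trick (h : PM μ κ) {E F : Set (Set (ℤ × ℤ))} (hE : Inc E) (hF : Inc F) :
    (1 - μ.real E) * (1 - μ.real F) ≤ 1 - μ.real (E ∪ F) := by
  have := h.prob
  have h1 := h.fkg' hE hF
  have h2 := measureReal_union_add_inter (μ := μ) (s := E) (t := F) hF.measurable
  nlinarith

theorem compl (h : PM μ κ) {K : Finset (ℤ × ℤ)} {E : Set (Set (ℤ × ℤ))} (hE : Loc K E) :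
    μ.real Eᶜ = 1 - μ.real E := by
  have := h.prob
  exact probReal_compl_eq_one_sub hE.measurable

theorem hc_prob (h : PM μ κ) (a b c d : ℤ) :
    μ.real {S | HC a b c d S} = μ.real {S | HC 0 (b - a) 0 (d - c) S} := by
  rw [← h.trn (a, c) _ _ (loc_HC 0 (b - a) 0 (d - c))]
  congr 1
  ext S
  simp only [Set.mem_ofPred_eq]
  rw [HC_trn]
  simp

theorem vc_prob (h : PM μ κ) (a b c d : ℤ) :
    μ.real {S | VC a b c d S} = μ.real {S | HC 0 (d - c) 0 (b - a) S} := by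
  rw [← h.hc_prob c d a b, ← h.swp _ _ (loc_HC c d a b)]
  congr 1
  ext S
  simp only [Set.mem_ofPred_eq]
  rw [VC_iff]

theorem hc_mono (h : PM μ κ) {a b c d a' b' c' d' : ℤ} (h1 : b' - a' ≤ b - a) (h2 : d - c ≤ d' - c')
    (h3 : a' ≤ b') : μ.real {S | HC a b c d S} ≤ μ.real {S | HC a' b' c' d' S} := by
  rw [h.hc_prob a b c d, h.hc_prob a' b' c' d']
  refine h.mono fun S hS => ?_
  exact HC.mono (le_refl 0) (by omega) (by omega) (le_refl 0) (by omega) hS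

theorem vc_mono (h : PM μ κ) {a b c d a' b' c' d' : ℤ} (h1 : b' - a' ≤ b - a) (h2 : d - c ≤ d' - c')
    (h3 : a' ≤ b') : μ.real {S | HC a b c d S} ≤ μ.real {S | VC c' d' a' b' S} := by
  rw [h.vc_prob, ← h.hc_prob a' b' c' d']
  exact h.hc_mono h1 h2 h3

/-- Long crossings from crossings of aspect ratio `15 / 14`. -/
theorem long (h : PM μ κ) (n : ℕ) {p : ℝ} (hp : 0 ≤ p)
    (h1 : p ≤ μ.real {S | HC 0 (15 * n) 0 (14 * n) S}) (j : ℕ) :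
    p ^ (2 * j + 1) ≤ μ.real {S | HC 0 ((15 + j) * n) 0 (14 * n) S} := by
  induction j with
  | zero => simpa using h1
  | succ j ih =>
    have hn : (0 : ℤ) ≤ n := Int.natCast_nonneg n
    have e1 : p ^ 1 ≤ μ.real {S | HC ((j + 1) * n) ((16 + j) * n) 0 (14 * n) S} := by
      rw [pow_one]
      refine h1.trans (h.hc_mono ?_ le_rfl ?_)
      · apply le_of_eq; ring
      · nlinarith
    have e2 : p ^ 1 ≤ μ.real {S | VC ((j + 1) * n) ((15 + j) * n) 0 (14 * n) S} := by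
      rw [pow_one]
      refine h1.trans (h.vc_mono ?_ ?_ (by positivity))
      · nlinarith
      · apply le_of_eq; ring
    have e3 := h.fkg_pow ((inc_HC _ _ _ _).inter (inc_HC _ _ _ _)) (inc_VC _ _ _ _) hp
      (h.fkg_pow (inc_HC _ _ _ _) (inc_HC _ _ _ _) hp ih e1) e2
    have e4 : 2 * (j + 1) + 1 = 2 * j + 1 + 1 + 1 := by ring
    rw [e4]
    refine e3.trans (h.mono ?_)
    rintro S ⟨⟨s1, s2⟩, s3⟩
    have g := HC.glue s1 s2 s3 (by positivity) (by nlinarith)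
    have e5 : ((15 + ((j + 1 : ℕ) : ℤ)) * (n : ℤ)) = (16 + j) * n := by push_cast; ring
    change HC 0 ((15 + ((j + 1 : ℕ) : ℤ)) * (n : ℤ)) 0 (14 * n) S
    rw [e5]
    exact g

theorem ring (h : PM μ κ) (n : ℕ) {p : ℝ} (hp : 0 ≤ p)
    (h1 : p ≤ μ.real {S | HC 0 (15 * n) 0 (14 * n) S}) :
    p ^ 332 ≤ μ.real {S | Ring (14 * n) S} := by
  have hn : (0 : ℤ) ≤ n := Int.natCast_nonneg n
  have h2 : p ^ 83 ≤ μ.real {S | HC 0 (56 * n) 0 (14 * n) S} := by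
    have := h.long n hp h1 41
    norm_num at this
    exact this
  have a1 : p ^ 83 ≤ μ.real {S | HC (-(2 * (14 * n))) (2 * (14 * n)) (14 * n) (2 * (14 * n)) S} :=
    h2.trans (h.hc_mono (by omega) (by omega) (by omega))
  have a2 : p ^ 83 ≤ μ.real {S | HC (-(2 * (14 * n))) (2 * (14 * n)) (-(2 * (14 * n))) (-(14 * n)) S} :=
    h2.trans (h.hc_mono (by omega) (by omega) (by omega))
  have a3 : p ^ 83 ≤ μ.real {S | VC (-(2 * (14 * n))) (-(14 * n)) (-(2 * (14 * n))) (2 * (14 * n)) S} :=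
    h2.trans (h.vc_mono (by omega) (by omega) (by omega))
  have a4 : p ^ 83 ≤ μ.real {S | VC (14 * n) (2 * (14 * n)) (-(2 * (14 * n))) (2 * (14 * n)) S} :=
    h2.trans (h.vc_mono (by omega) (by omega) (by omega))
  have b := h.fkg_pow ((inc_HC _ _ _ _).inter (inc_HC _ _ _ _))
    ((inc_VC _ _ _ _).inter (inc_VC _ _ _ _)) hp
    (h.fkg_pow (inc_HC _ _ _ _) (inc_HC _ _ _ _) hp a1 a2)
    (h.fkg_pow (inc_VC _ _ _ _) (inc_VC _ _ _ _) hp a3 a4)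
  exact b

end PM

end Run7.h485.Pl
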