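import Pool.Agent.Run7.h485.Reach

/-!
# Crossing paths in the plane must meet
-/

namespace Run7.h485.Pl

open Finset

/-- does the step from `p` to `q` cross the upward ray from `v` (shifted slightly to the right)? -/
def cr (p q v : ℤ × ℤ) : ZMod 2 :=
  if p.2 = q.2 ∧ v.2 < p.2 ∧ ((p.1 = v.1 ∧ q.1 = v.1 + 1) ∨ (q.1 = v.1 ∧ p.1 = v.1 + 1))
  then 1 else 0

/-- indicator with values in `ZMod 2` -/
def bi (P : Prop) [Decidable P] : ZMod 2 := if P then 1 else 0

theorem cr_horiz {p q v : ℤ × ℤ} (h : adj p q) (hp : p ≠ (v.1 + 1, v.2)) (hq : q ≠ (v.1 + 1, v.2)) :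
    cr p q v + cr p q (v.1 + 1, v.2) =
      bi (p.1 = v.1 + 1 ∧ v.2 < p.2) + bi (q.1 = v.1 + 1 ∧ v.2 < q.2) := by
  obtain ⟨p1, p2⟩ := p
  obtain ⟨q1, q2⟩ := q
  obtain ⟨v1, v2⟩ := v
  simp only [ne_eq, Prod.mk.injEq, not_and] at hp hq
  unfold adj at h
  simp only at h
  unfold cr bi
  simp only
  split_ifs <;> first | rfl | (exfalso; omega)

theorem cr_vert {p q v : ℤ × ℤ} (hp : p ≠ (v.1, v.2 + 1)) (hq : q ≠ (v.1, v.2 + 1)) :
    cr p q v = cr p q (v.1, v.2 + 1) := by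
  obtain ⟨p1, p2⟩ := p
  obtain ⟨q1, q2⟩ := q
  obtain ⟨v1, v2⟩ := v
  simp only [ne_eq, Prod.mk.injEq, not_and] at hp hq
  unfold cr
  simp only
  split_ifs <;> first | rfl | (exfalso; omega)

/-- total crossing number (mod 2) of the path `g 0, …, g n` with the ray from `v` -/
def tot (n : ℕ) (g : ℕ → ℤ × ℤ) (v : ℤ × ℤ) : ZMod 2 := ∑ i ∈ range n, cr (g i) (g (i + 1)) v

theorem tele (n : ℕ) (F : ℕ → ZMod 2) (G : ℕ → ZMod 2)
    (h : ∀ i < n, F i = G i + G (i + 1)) : ∑ i ∈ range n, F i = G 0 + G n := by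
  induction n with
  | zero => simp; rw [← two_mul]; exact (by decide : ∀ x : ZMod 2, 0 = 2 * x) _
  | succ n ih =>
    rw [sum_range_succ, ih fun i hi => h i (by omega), h n (by omega)]
    have : ∀ a b c : ZMod 2, a + b + (b + c) = a + c := by decide
    exact this _ _ _

variable {n : ℕ} {g : ℕ → ℤ × ℤ} {a b : ℤ}

/-- the parity function of the path, extended to the right of its end point -/
def par (n : ℕ) (g : ℕ → ℤ × ℤ) (b : ℤ) (v : ℤ × ℤ) : ZMod 2 :=
  tot n g v + bi (v.1 = b ∧ v.2 < (g n).2)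

theorem par_step (hadj : ∀ i < n, adj (g i) (g (i + 1))) (h0 : (g 0).1 = a) (hn : (g n).1 = b)
    {v w : ℤ × ℤ} (hvw : adj v w) (hv : ∀ i ≤ n, g i ≠ v) (hw : ∀ i ≤ n, g i ≠ w)
    (hva : a ≤ v.1) (hvb : v.1 ≤ b) (hwa : a ≤ w.1) (hwb : w.1 ≤ b) :
    par n g b v = par n g b w := by
  -- vertical steps upwards
  have hvert : ∀ v w : ℤ × ℤ, w = (v.1, v.2 + 1) → (∀ i ≤ n, g i ≠ w) →
      par n g b v = par n g b w := by
    intro v w hw' hw
    subst hw'
    unfold par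
    have h1 : tot n g v = tot n g (v.1, v.2 + 1) := by
      refine sum_congr rfl fun i hi => ?_
      rw [mem_range] at hi
      exact cr_vert (hw i hi.le) (hw (i + 1) hi)
    rw [h1]
    congr 1
    have h2 := hw n le_rfl
    have h3 : ¬ ((g n).1 = v.1 ∧ (g n).2 = v.2 + 1) := fun h => h2 (Prod.ext h.1 h.2)
    unfold bi
    simp only
    split_ifs <;> first | rfl | (exfalso; omega)
  -- horizontal steps to the right
  have hhor : ∀ v w : ℤ × ℤ, w = (v.1 + 1, v.2) → (∀ i ≤ n, g i ≠ w) → a ≤ v.1 → w.1 ≤ b →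
      par n g b v = par n g b w := by
    intro v w hw' hw hva hwb
    subst hw'
    have h1 : tot n g v + tot n g (v.1 + 1, v.2) =
        bi ((g 0).1 = v.1 + 1 ∧ v.2 < (g 0).2) + bi ((g n).1 = v.1 + 1 ∧ v.2 < (g n).2) := by
      unfold tot
      rw [← sum_add_distrib]
      refine tele n _ (fun i => bi ((g i).1 = v.1 + 1 ∧ v.2 < (g i).2)) fun i hi => ?_
      exact cr_horiz (hadj i hi) (hw i hi.le) (hw (i + 1) hi)
    have h2 : bi ((g 0).1 = v.1 + 1 ∧ v.2 < (g 0).2) = 0 := by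
      unfold bi
      rw [if_neg]
      intro h; omega
    rw [h2, zero_add] at h1
    unfold par
    simp only at hwb ⊢
    have h3 : bi (v.1 = b ∧ v.2 < (g n).2) = 0 := by
      unfold bi
      rw [if_neg]
      intro h; omega
    have h4 : bi ((g n).1 = v.1 + 1 ∧ v.2 < (g n).2) = bi (v.1 + 1 = b ∧ v.2 < (g n).2) := by
      unfold bi
      rw [hn]
      congr 1
      simp only [eq_comm]
    rw [h3, add_zero, ← h4, ← h1]
    have : ∀ x y : ZMod 2, x = y + (x + y) := by decide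
    exact this _ _
  unfold adj at hvw
  rcases hvw with h | h | h | h
  · exact hhor v w (Prod.ext h.1 h.2) hw hva hwb
  · refine (hhor w v (Prod.ext (by simp only; omega) (by simp only; omega)) hv hwa hvb).symm
  · exact hvert v w (Prod.ext h.1 h.2) hw
  · refine (hvert w v (Prod.ext (by simp only; omega) (by simp only; omega)) hv).symm

/-- below the path the parity is one -/
theorem par_below (hadj : ∀ i < n, adj (g i) (g (i + 1))) (h0 : (g 0).1 = a) (hn : (g n).1 = b)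
    (hstrip : ∀ i ≤ n, a ≤ (g i).1 ∧ (g i).1 ≤ b)
    {v : ℤ × ℤ} (hv : ∀ i ≤ n, g i ≠ v) (hva : a ≤ v.1) (hvb : v.1 ≤ b)
    (hlow : ∀ i ≤ n, v.2 ≤ (g i).2) : par n g b v = 1 := by
  have h1 : tot n g v = bi ((g 0).1 ≤ v.1) + bi ((g n).1 ≤ v.1) := by
    refine tele n _ (fun i => bi ((g i).1 ≤ v.1)) fun i hi => ?_
    have e1 := hadj i hi
    have e2 := hv i hi.le
    have e3 := hv (i + 1) hi
    have e4 := hlow i hi.le
    have e5 := hlow (i + 1) hi
    generalize g i = p at *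
    generalize g (i + 1) = q at *
    obtain ⟨p1, p2⟩ := p
    obtain ⟨q1, q2⟩ := q
    obtain ⟨v1, v2⟩ := v
    simp only [ne_eq, Prod.mk.injEq, not_and] at e2 e3
    unfold adj at e1
    simp only at e1 e4 e5
    unfold cr bi
    simp only
    split_ifs <;> first | rfl | (exfalso; omega)
  unfold par
  rw [h1]
  have e2 := hv n le_rfl
  have e2' : ¬ ((g n).1 = v.1 ∧ (g n).2 = v.2) := fun h => e2 (Prod.ext h.1 h.2)
  have e4 := hlow n le_rfl
  unfold bi
  split_ifs <;> first | rfl | (exfalso; omega)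

/-- above the path the parity is zero -/
theorem par_above {v : ℤ × ℤ} (hhigh : ∀ i ≤ n, (g i).2 ≤ v.2) : par n g b v = 0 := by
  have h1 : tot n g v = 0 := by
    refine sum_eq_zero fun i hi => ?_
    rw [mem_range] at hi
    unfold cr
    rw [if_neg]
    intro h
    have := hhigh i hi.le
    omega
  unfold par
  rw [h1, zero_add]
  unfold bi
  rw [if_neg]
  intro h
  have := hhigh n le_rfl
  omega

/-- the parity on the right side of the strip -/
theorem par_right (hstrip : ∀ i ≤ n, (g i).1 ≤ b) {v : ℤ × ℤ} (hvb : v.1 = b) :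
    par n g b v = bi (v.2 < (g n).2) := by
  have h1 : tot n g v = 0 := by
    refine sum_eq_zero fun i hi => ?_
    rw [mem_range] at hi
    unfold cr
    rw [if_neg]
    intro h
    have := hstrip i hi.le
    have := hstrip (i + 1) hi
    omega
  unfold par
  rw [h1, zero_add]
  unfold bi
  congr 1
  simp [hvb]

/-- either a path meets `g` or the parity is constant along it -/
theorem par_const (hadj : ∀ i < n, adj (g i) (g (i + 1))) (h0 : (g 0).1 = a) (hn : (g n).1 = b)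
    {S : Set (ℤ × ℤ)} (hS : ∀ p ∈ S, a ≤ p.1 ∧ p.1 ≤ b) {x y : ℤ × ℤ} (h : Reach S x y) :
    (∃ i ≤ n, Reach S x (g i)) ∨ ((∀ i ≤ n, g i ≠ y) ∧ par n g b x = par n g b y) := by
  induction h with
  | refl h =>
    by_cases hx : ∃ i ≤ n, g i = x
    · obtain ⟨i, hi, hx⟩ := hx
      exact Or.inl ⟨i, hi, by rw [hx]; exact Reach.refl h⟩
    · push Not at hx
      exact Or.inr ⟨hx, rfl⟩
  | @step y z h1 h2 h3 ih =>
    rcases ih with ih | ⟨ih1, ih2⟩
    · exact Or.inl ih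
    · by_cases hx : ∃ i ≤ n, g i = z
      · obtain ⟨i, hi, hx⟩ := hx
        exact Or.inl ⟨i, hi, by rw [hx]; exact h1.step h2 h3⟩
      · push Not at hx
        refine Or.inr ⟨hx, ?_⟩
        rw [ih2]
        have e1 := hS y h1.right_mem
        have e2 := hS z h3
        exact par_step hadj h0 hn h2 ih1 hx e1.1 e1.2 e2.1 e2.2

/-- A left-right crossing and a bottom-top path in the same strip meet. -/
theorem meet {S T : Set (ℤ × ℤ)} {a b c d : ℤ} {p q p' q' : ℤ × ℤ}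
    (hS : ∀ w ∈ S, (a ≤ w.1 ∧ w.1 ≤ b) ∧ c ≤ w.2 ∧ w.2 ≤ d)
    (hT : ∀ w ∈ T, a ≤ w.1 ∧ w.1 ≤ b)
    (h1 : Reach S p q) (hp : p.1 = a) (hq : q.1 = b)
    (h2 : Reach T p' q') (hp' : p'.2 ≤ c) (hq' : d ≤ q'.2) :
    ∃ z, Reach S p z ∧ Reach T p' z := by
  obtain ⟨n, g, g0, gn, hr, hadj⟩ := h1.exists_path
  have hg : ∀ i ≤ n, (a ≤ (g i).1 ∧ (g i).1 ≤ b) ∧ c ≤ (g i).2 ∧ (g i).2 ≤ d :=
    fun i hi => hS _ (hr i hi).right_mem
  have h0a : (g 0).1 = a := by rw [g0, hp]
  have hnb : (g n).1 = b := by rw [gn, hq]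
  rcases par_const hadj h0a hnb hT h2 with ⟨i, hi, h⟩ | ⟨h3, h4⟩
  · exact ⟨g i, hr i hi, h⟩
  · by_cases hx : ∃ i ≤ n, g i = p'
    · obtain ⟨i, hi, hx⟩ := hx
      exact ⟨g i, hr i hi, by rw [hx]; exact Reach.refl h2.left_mem⟩
    · push Not at hx
      exfalso
      have e1 := hT _ h2.left_mem
      have e3 : par n g b p' = 1 := par_below hadj h0a hnb (fun i hi => (hg i hi).1) hx e1.1 e1.2
        (fun i hi => hp'.trans (hg i hi).2.1)
      have e4 : par n g b q' = 0 := par_above fun i hi => (hg i hi).2.2.trans hq'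
      rw [e3, e4] at h4
      exact absurd h4 (by decide)

/-- A left-right crossing of a strip meets each path in the strip which joins two points of the
right side on both sides of its end point. -/
theorem meet_barrier {S T : Set (ℤ × ℤ)} {a b : ℤ} {p q p' q' : ℤ × ℤ}
    (hS : ∀ w ∈ S, a ≤ w.1 ∧ w.1 ≤ b) (hT : ∀ w ∈ T, a ≤ w.1 ∧ w.1 ≤ b)
    (h1 : Reach S p q) (hp : p.1 = a) (hq : q.1 = b)
    (h2 : Reach T p' q') (hp' : p'.1 = b) (hpq : q.2 ≤ p'.2) (hq' : q'.1 = b) (hqq : q'.2 ≤ q.2) :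
    ∃ z, Reach S p z ∧ Reach T p' z := by
  obtain ⟨n, g, g0, gn, hr, hadj⟩ := h1.exists_path
  have hg : ∀ i ≤ n, a ≤ (g i).1 ∧ (g i).1 ≤ b :=
    fun i hi => hS _ (hr i hi).right_mem
  have h0a : (g 0).1 = a := by rw [g0, hp]
  have hnb : (g n).1 = b := by rw [gn, hq]
  rcases par_const hadj h0a hnb hT h2 with ⟨i, hi, h⟩ | ⟨h3, h4⟩
  · exact ⟨g i, hr i hi, h⟩
  · exfalso
    rw [par_right (fun i hi => (hg i hi).2) hp', par_right (fun i hi => (hg i hi).2) hq', gn] at h4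
    have h5 : q.2 ≠ q'.2 := by
      intro h
      apply h3 n le_rfl
      rw [gn]
      exact Prod.ext (by rw [hq, hq']) h
    unfold bi at h4
    rw [if_neg (by omega), if_pos (by omega)] at h4
    exact absurd h4 (by decide)

end Run7.h485.Pl
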