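import Pool.Agent.Run7.h485.Contact3
import Pool.Agent.Run7.h485.Explore
import Pool.Agent.Run7.h485.Defs

/-!
# The random paths and their properties
-/

namespace Run7.h485

open Finset
open Pool.Agent.H282R3.RW (V Dir vec nsq nsq_nonneg)

noncomputable section

/-- sequences of `k` directions -/
def Idx (d : ℕ) : ℕ → Type
  | 0 => Unit
  | k + 1 => Dir d × Idx d k

instance instFintypeIdx (d : ℕ) : ∀ k, Fintype (Idx d k)
  | 0 => inferInstanceAs (Fintype Unit)
  | k + 1 => by
    haveI := instFintypeIdx d k
    exact inferInstanceAs (Fintype (Dir d × Idx d k))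

variable {d : ℕ} [NeZero d]

/-- the probability of a sequence of steps -/
def wtp (M : ℕ) : (k : ℕ) → St d → Idx d k → ℝ
  | 0, _, _ => 1
  | k + 1, s, ω => wt1 M s ω.1 * wtp M k (nxt M s ω.1) ω.2

/-- the set of visited points -/
def vis (M : ℕ) : (k : ℕ) → St d → Finset (V d) → Idx d k → Finset (V d)
  | 0, _, S, _ => S
  | k + 1, s, S, ω => vis M k (nxt M s ω.1) (insert (s.2 + vec ω.1) S) ω.2

theorem wtp_nonneg {M : ℕ} (hM : M + 1 < d) (k : ℕ) : ∀ (s : St d) (ω : Idx d k), 0 ≤ wtp M k s ω := by
  induction k with
  | zero => intro s ω; exact zero_le_one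
  | succ k ih => intro s ω; exact mul_nonneg (wt1_nonneg hM s _) (ih _ _)

theorem sum_idx_succ (k : ℕ) (f : Idx d (k + 1) → ℝ) :
    ∑ ω, f ω = ∑ e : Dir d, ∑ ω : Idx d k, f (e, ω) := by
  exact Fintype.sum_prod_type (f := f)

theorem sum_wtp {M : ℕ} (hM : M + 1 < d) (k : ℕ) : ∀ s : St d, Valid M s → ∑ ω, wtp M k s ω = 1 := by
  induction k with
  | zero =>
    intro s _
    change ∑ _ω : Unit, (1 : ℝ) = 1
    simp
  | succ k ih =>
    intro s hs
    rw [sum_idx_succ]
    have : ∀ e : Dir d, ∑ ω : Idx d k, wtp M (k + 1) s (e, ω) = wt1 M s e := by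
      intro e
      change ∑ ω : Idx d k, wt1 M s e * wtp M k (nxt M s e) ω = _
      rw [← mul_sum, ih _ (nxt_valid hs e), mul_one]
    simp_rw [this]
    exact sum_wt1 hM hs

/-- Expectation of a product over the visited points. -/
theorem expect_prod {M : ℕ} (hM : M + 1 < d) {F : Finset (V d) → ℝ} {φ : V d → ℝ}
    (hφ : ∀ y, 0 ≤ φ y) (hF : ∀ S y, F (insert y S) ≤ φ y * F S)
    {Z : ℕ → St d → ℝ} (hZ0 : ∀ s, Z 0 s = 1)
    (hZ : ∀ k s, Z (k + 1) s = T M (fun s' => φ s'.2 * Z k s') s) (k : ℕ) :
    ∀ (s : St d) (S : Finset (V d)), ∑ ω, wtp M k s ω * F (vis M k s S ω) ≤ F S * Z k s := by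
  have hZnn : ∀ k s, 0 ≤ Z k s := by
    intro k
    induction k with
    | zero => intro s; rw [hZ0]; norm_num
    | succ k ih =>
      intro s
      rw [hZ]
      exact sum_nonneg fun e _ => mul_nonneg (wt1_nonneg hM s e) (mul_nonneg (hφ _) (ih _))
  induction k with
  | zero =>
    intro s S
    rw [hZ0, mul_one]
    change ∑ ω : Unit, 1 * F S ≤ F S
    simp
  | succ k ih =>
    intro s S
    rw [sum_idx_succ, hZ]
    unfold T
    rw [mul_sum]
    refine sum_le_sum fun e _ => ?_
    change ∑ ω : Idx d k, wt1 M s e * wtp M k (nxt M s e) ω *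
      F (vis M k (nxt M s e) (insert (s.2 + vec e) S) ω) ≤ _
    have h1 : ∑ ω : Idx d k, wt1 M s e * wtp M k (nxt M s e) ω *
      F (vis M k (nxt M s e) (insert (s.2 + vec e) S) ω) = wt1 M s e * ∑ ω : Idx d k,
        wtp M k (nxt M s e) ω * F (vis M k (nxt M s e) (insert (s.2 + vec e) S) ω) := by
      rw [mul_sum]
      exact sum_congr rfl fun ω _ => by ring
    rw [h1]
    have h2 := ih (nxt M s e) (insert (s.2 + vec e) S)
    have h3 := hF S (s.2 + vec e)
    have h4 := mul_le_mul_of_nonneg_right h3 (hZnn k (nxt M s e))
    calc wt1 M s e * _ ≤ wt1 M s e * (φ (s.2 + vec e) * F S * Z k (nxt M s e)) :=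
          mul_le_mul_of_nonneg_left (h2.trans h4) (wt1_nonneg hM s e)
      _ = F S * (wt1 M s e * (φ (nxt M s e).2 * Z k (nxt M s e))) := by
          have : (nxt M s e).2 = s.2 + vec e := rfl
          rw [this]; ring

/-- the number of transversal neighbours in `S` -/
def nb (S : Finset (V d)) (x : V d) : ℕ :=
  (univ.filter fun e : Dir d => e.1 ≠ 0 ∧ x + vec e ∈ S).card

/-- the invariant of the paths -/
structure Inv (M : ℕ) (s : St d) (S : Finset (V d)) : Prop where
  valid : Valid M s
  mem : s.2 ∈ S
  low : ∀ x ∈ S, x 0 ≤ s.2 0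
  coord : ∀ x ∈ S, x 0 = s.2 0 → ∀ i, i ∉ s.1 → x i = s.2 i
  slab : ∀ t : ℤ, (S.filter fun x => x 0 = t).card ≤ M + 1
  cur : (S.filter fun x => x 0 = s.2 0).card ≤ s.1.card
  deg : ∀ x ∈ S, nb S x ≤ 2
  deg' : nb S s.2 ≤ 1
  zero : (0 : V d) ∈ S
  conn : Conn (lattice d) 0 S

theorem inv_start (M : ℕ) : Inv M (({0}, 0) : St d) {0} where
  valid := ⟨mem_singleton_self _, by simp⟩
  mem := mem_singleton_self _
  low := by simp
  coord := by
    intro x hx _ i _
    rw [mem_singleton] at hx
    rw [hx]
  slab := by
    intro t
    refine (card_filter_le _ _).trans (by simp)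
  cur := (card_filter_le _ _).trans (by simp)
  deg := by
    intro x hx
    rw [mem_singleton] at hx
    subst hx
    unfold nb
    rw [card_eq_zero.2]
    · omega
    · rw [filter_eq_empty_iff]
      rintro e _ ⟨-, h⟩
      rw [mem_singleton, zero_add] at h
      exact vec_ne_zero e h
  deg' := by
    unfold nb
    rw [card_eq_zero.2]
    · omega
    · rw [filter_eq_empty_iff]
      rintro e _ ⟨-, h⟩
      simp only [mem_singleton, zero_add] at h
      exact vec_ne_zero e h
  zero := mem_singleton_self _
  conn := Conn.singleton _ _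

theorem nb_insert {S : Finset (V d)} {y x : V d} (h : ∀ e : Dir d, e.1 ≠ 0 → x + vec e ≠ y) :
    nb (insert y S) x = nb S x := by
  unfold nb
  congr 1
  ext e
  simp only [mem_filter, mem_univ, true_and, mem_insert]
  constructor
  · rintro ⟨h1, h2 | h2⟩
    · exact absurd h2 (h e h1)
    · exact ⟨h1, h2⟩
  · rintro ⟨h1, h2⟩; exact ⟨h1, Or.inr h2⟩

theorem nb_insert_le (S : Finset (V d)) (y x : V d) : nb (insert y S) x ≤ nb S x + 1 := by
  classical
  unfold nb
  by_cases h : ∃ e : Dir d, x + vec e = y
  · obtain ⟨e₀, he₀⟩ := h
    refine (card_le_card (t := insert e₀ (univ.filter fun e : Dir d => e.1 ≠ 0 ∧ x + vec e ∈ S)) ?_).trans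
      (card_insert_le _ _)
    intro e he
    simp only [mem_filter, mem_univ, true_and, mem_insert] at he ⊢
    rcases he with ⟨h1, h2 | h2⟩
    · left
      apply vec_injective
      exact add_left_cancel (h2.trans he₀.symm)
    · exact Or.inr ⟨h1, h2⟩
  · push Not at h
    have := nb_insert (S := S) (y := y) (x := x) fun e _ => h e
    unfold nb at this
    omega

theorem inv_step {M : ℕ} {s : St d} {S : Finset (V d)} (hI : Inv M s S) {e : Dir d}
    (he : wt1 M s e ≠ 0) :
    Inv M (nxt M s e) (insert (s.2 + vec e) S) ∧ s.2 + vec e ∉ S := by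
  classical
  obtain ⟨U, y⟩ := s
  obtain ⟨i, b⟩ := e
  have hvalid := hI.valid
  have hval := nxt_valid (M := M) hI.valid (i, b)
  have hmem := hI.mem
  have hlow := hI.low
  have hcoord := hI.coord
  have hslab := hI.slab
  have hcur := hI.cur
  have hdeg := hI.deg
  have hdeg' := hI.deg'
  have hconn := hI.conn
  simp only at hmem hlow hcoord hcur hdeg'
  have hadj : (lattice d).Adj y (y + vec (i, b)) := ⟨(i, b), rfl⟩
  by_cases hU : U.card ≤ M
  · -- transversal step
    have hi : i ∉ U := by
      intro h
      apply he
      unfold wt1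
      simp [hU, h]
    have hi0 : i ≠ 0 := fun h => hi (h ▸ hvalid.1)
    have hn1 : (nxt M (U, y) (i, b)).1 = insert i U := by unfold nxt; simp [hU]
    have hn2 : (nxt M (U, y) (i, b)).2 = y + vec (i, b) := rfl
    set y' := y + vec (i, b) with hy'
    have hy0 : y' 0 = y 0 := by rw [hy']; simp [vec, Ne.symm hi0]
    have hyi : y' i = y i + (if b then 1 else -1) := by rw [hy']; simp [vec]
    have hyi' : y' i ≠ y i := by rw [hyi]; cases b <;> simp
    have hyk : ∀ k, k ≠ i → y' k = y k := by intro k hk; rw [hy']; simp [vec, hk]
    have hnot : y' ∉ S := by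
      intro h
      exact hyi' (hcoord y' h hy0 i hi)
    refine ⟨?_, hnot⟩
    -- adjacency to the new point
    have hnadj : ∀ x ∈ S, ∀ e : Dir d, e.1 ≠ 0 → x + vec e = y' → x = y := by
      rintro x hx ⟨k, c⟩ hk hxe
      simp only at hk
      have hx0 : x 0 = y 0 := by
        rw [← hy0, ← hxe]; simp [vec, Ne.symm hk]
      have hxi : x i = y i := hcoord x hx hx0 i hi
      have hki : k = i := by
        by_contra hne
        have : (x + vec (k, c)) i = x i := by simp [vec, Ne.symm hne]
        rw [hxe, hxi] at this
        exact hyi' this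
      subst hki
      ext l
      by_cases hl : l = k
      · subst hl; exact hxi
      · have h1 : (x + vec (k, c)) l = x l := by simp [vec, hl]
        rw [← h1, hxe, hyk l hl]
    exact
      { valid := hval
        mem := by rw [hn2]; exact mem_insert_self _ _
        low := by
          rw [hn2, hy0]
          intro x hx
          rw [mem_insert] at hx
          rcases hx with rfl | hx
          · exact hy0.le
          · exact hlow x hx
        coord := by
          rw [hn1, hn2]
          intro x hx hx0 k hk
          rw [mem_insert, not_or] at hk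
          rw [mem_insert] at hx
          rcases hx with rfl | hx
          · rfl
          · rw [hy0] at hx0
            rw [hcoord x hx hx0 k hk.2, hyk k hk.1]
        slab := by
          intro t
          by_cases ht : y' 0 = t
          · rw [filter_insert, if_pos ht]
            refine (card_insert_le _ _).trans ?_
            rw [← ht, hy0]
            omega
          · rw [filter_insert, if_neg ht]
            exact hslab t
        cur := by
          rw [hn1, hn2, hy0, card_insert_of_notMem hi, filter_insert, if_pos hy0]
          exact (card_insert_le _ _).trans (by omega)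
        deg := by
          intro x hx
          rw [mem_insert] at hx
          rcases hx with rfl | hx
          · -- the new point
            have h1 : nb (insert y' S) y' ≤ 1 := by
              unfold nb
              rw [card_le_one]
              intro e1 h1 e2 h2
              simp only [mem_filter, mem_univ, true_and, mem_insert] at h1 h2
              have k1 : y' + vec e1 ∈ S := h1.2.resolve_left (fun h => vec_ne_zero e1 (by simpa using h))
              have k2 : y' + vec e2 ∈ S := h2.2.resolve_left (fun h => vec_ne_zero e2 (by simpa using h))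
              have j1 : y' + vec e1 = y := hnadj _ k1 (e1.1, !e1.2) h1.1 (by
                rw [vec_flip]; simp)
              have j2 : y' + vec e2 = y := hnadj _ k2 (e2.1, !e2.2) h2.1 (by
                rw [vec_flip]; simp)
              apply vec_injective
              exact add_left_cancel (j1.trans j2.symm)
            omega
          · by_cases hxy : x = y
            · subst hxy
              exact (nb_insert_le S y' x).trans (by omega)
            · rw [nb_insert fun e he h => hxy (hnadj x hx e he h)]
              exact hdeg x hx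
        deg' := by
          rw [hn2]
          unfold nb
          rw [card_le_one]
          intro e1 h1 e2 h2
          simp only [mem_filter, mem_univ, true_and, mem_insert] at h1 h2
          have k1 : y' + vec e1 ∈ S := h1.2.resolve_left (fun h => vec_ne_zero e1 (by simpa using h))
          have k2 : y' + vec e2 ∈ S := h2.2.resolve_left (fun h => vec_ne_zero e2 (by simpa using h))
          have j1 : y' + vec e1 = y := hnadj _ k1 (e1.1, !e1.2) h1.1 (by rw [vec_flip]; simp)
          have j2 : y' + vec e2 = y := hnadj _ k2 (e2.1, !e2.2) h2.1 (by rw [vec_flip]; simp)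
          apply vec_injective
          exact add_left_cancel (j1.trans j2.symm)
        zero := mem_insert_of_mem hI.zero
        conn := hconn.insert hmem hadj }
  · -- time step
    have hU' : U.card = M + 1 := le_antisymm hvalid.2 (by omega)
    have he' : (i, b) = ((0 : Fin d), true) := by
      by_contra h
      apply he
      unfold wt1
      simp only [hU, if_false, h]
    obtain ⟨rfl, rfl⟩ := Prod.mk.inj he'
    have hn1 : (nxt M (U, y) (0, true)).1 = {0} := by unfold nxt; simp [hU]
    have hn2 : (nxt M (U, y) (0, true)).2 = y + vec (0, true) := rfl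
    set y' := y + vec (0, true) with hy'
    have hy0 : y' 0 = y 0 + 1 := by rw [hy']; simp [vec]
    have hlt : ∀ x ∈ S, x 0 < y' 0 := by
      intro x hx
      have := hlow x hx
      omega
    have hnot : y' ∉ S := fun h => lt_irrefl _ (hlt y' h)
    have hempty : S.filter (fun x => x 0 = y' 0) = ∅ := by
      rw [filter_eq_empty_iff]
      intro x hx h
      have := hlt x hx
      omega
    have hnadj : ∀ x ∈ S, ∀ e : Dir d, e.1 ≠ 0 → x + vec e ≠ y' := by
      rintro x hx ⟨k, c⟩ hk hxe
      simp only at hk
      have hx0 : x 0 = y' 0 := by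
        rw [← hxe]; simp [vec, Ne.symm hk]
      have := hlt x hx
      omega
    have hnbnew : nb (insert y' S) y' = 0 := by
      unfold nb
      rw [card_eq_zero, filter_eq_empty_iff]
      rintro ⟨k, c⟩ _ ⟨hk, h⟩
      rw [mem_insert] at h
      rcases h with h | h
      · exact vec_ne_zero (k, c) (by simpa using h)
      · refine hnadj _ h (k, !c) hk ?_
        rw [vec_flip]; simp
    refine ⟨?_, hnot⟩
    exact
      { valid := hval
        mem := by rw [hn2]; exact mem_insert_self _ _
        low := by
          rw [hn2]
          intro x hx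
          rw [mem_insert] at hx
          rcases hx with rfl | hx
          · exact le_rfl
          · exact (hlt x hx).le
        coord := by
          rw [hn1, hn2]
          intro x hx hx0 k hk
          rw [mem_insert] at hx
          rcases hx with rfl | hx
          · rfl
          · have := hlt x hx
            omega
        slab := by
          intro t
          by_cases ht : y' 0 = t
          · rw [filter_insert, if_pos ht]
            refine (card_insert_le _ _).trans ?_
            rw [← ht, hempty]
            simp
          · rw [filter_insert, if_neg ht]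
            exact hslab t
        cur := by
          rw [hn1, hn2, filter_insert, if_pos rfl, hempty]
          simp
        deg := by
          intro x hx
          rw [mem_insert] at hx
          rcases hx with rfl | hx
          · rw [hnbnew]; omega
          · rw [nb_insert (hnadj x hx)]
            exact hdeg x hx
        deg' := by rw [hn2, hnbnew]; omega
        zero := mem_insert_of_mem hI.zero
        conn := hconn.insert hmem hadj }

theorem vis_good {M : ℕ} (k : ℕ) : ∀ (s : St d) (S : Finset (V d)), Inv M s S →
    ∀ ω : Idx d k, wtp M k s ω ≠ 0 →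
      (∀ t : ℤ, ((vis M k s S ω).filter fun x => x 0 = t).card ≤ M + 1) ∧
      (∀ x ∈ vis M k s S ω, nb (vis M k s S ω) x ≤ 2) ∧ (0 : V d) ∈ vis M k s S ω ∧
      Conn (lattice d) 0 (vis M k s S ω) ∧ (vis M k s S ω).card = S.card + k := by
  induction k with
  | zero =>
    intro s S hI ω _
    exact ⟨hI.slab, hI.deg, hI.zero, hI.conn, rfl⟩
  | succ k ih =>
    intro s S hI ω hω
    have h1 : wt1 M s ω.1 ≠ 0 := left_ne_zero_of_mul hω
    have h2 : wtp M k (nxt M s ω.1) ω.2 ≠ 0 := right_ne_zero_of_mul hω
    obtain ⟨hI', hnot⟩ := inv_step hI h1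
    obtain ⟨a1, a2, a3, a4, a5⟩ := ih _ _ hI' ω.2 h2
    refine ⟨a1, a2, a3, a4, ?_⟩
    change (vis M k (nxt M s ω.1) (insert (s.2 + vec ω.1) S) ω.2).card = _
    rw [a5, card_insert_of_notMem hnot]
    ring

end

end Run7.h485
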