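import Mathlib

/-!
# Nearest-neighbour connections in subsets of `ℤ × ℤ`
-/

namespace Run7.h485.Pl

/-- nearest neighbours in `ℤ × ℤ` -/
def adj (p q : ℤ × ℤ) : Prop :=
  (q.1 = p.1 + 1 ∧ q.2 = p.2) ∨ (q.1 = p.1 - 1 ∧ q.2 = p.2) ∨
    (q.1 = p.1 ∧ q.2 = p.2 + 1) ∨ (q.1 = p.1 ∧ q.2 = p.2 - 1)

theorem adj.symm {p q : ℤ × ℤ} (h : adj p q) : adj q p := by
  unfold adj at *
  omega

/-- `x` is joined to `y` by a nearest-neighbour path in `S` -/
inductive Reach (S : Set (ℤ × ℤ)) (x : ℤ × ℤ) : ℤ × ℤ → Prop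
  | refl : x ∈ S → Reach S x x
  | step {y z : ℤ × ℤ} : Reach S x y → adj y z → z ∈ S → Reach S x z

namespace Reach

variable {S T : Set (ℤ × ℤ)} {x y z : ℤ × ℤ}

theorem left_mem (h : Reach S x y) : x ∈ S := by
  induction h with
  | refl h => exact h
  | step _ _ _ ih => exact ih

theorem right_mem (h : Reach S x y) : y ∈ S := by
  cases h with
  | refl h => exact h
  | step _ _ h => exact h

theorem trans (h1 : Reach S x y) (h2 : Reach S y z) : Reach S x z := by
  induction h2 with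
  | refl _ => exact h1
  | step _ h h' ih => exact ih.step h h'

theorem symm (h : Reach S x y) : Reach S y x := by
  induction h with
  | refl h => exact refl h
  | step h1 h2 h3 ih => exact ((refl h3).step h2.symm h1.right_mem).trans ih

theorem mono (hST : S ⊆ T) (h : Reach S x y) : Reach T x y := by
  induction h with
  | refl h => exact refl (hST h)
  | step _ h2 h3 ih => exact ih.step h2 (hST h3)

/-- a path as a function on `ℕ` -/
theorem exists_path (h : Reach S x y) : ∃ (n : ℕ) (g : ℕ → ℤ × ℤ), g 0 = x ∧ g n = y ∧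
    (∀ i ≤ n, Reach S x (g i)) ∧ ∀ i < n, adj (g i) (g (i + 1)) := by
  induction h with
  | refl h => exact ⟨0, fun _ => x, rfl, rfl, fun i _ => refl h, fun i hi => absurd hi (by omega)⟩
  | @step y z h1 h2 h3 ih =>
    obtain ⟨n, g, h0, hn, hr, ha⟩ := ih
    refine ⟨n + 1, fun i => if i ≤ n then g i else z, ?_, ?_, fun i hi => ?_, fun i hi => ?_⟩
    · simp [h0]
    · simp
    · by_cases hin : i ≤ n
      · simp only [hin, if_true]; exact hr i hin
      · simp only [hin, if_false]; exact h1.step h2 h3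
    · by_cases hin : i < n
      · have h4 : i ≤ n := hin.le
        have h5 : i + 1 ≤ n := hin
        simp only [h4, h5, if_true]
        exact ha i hin
      · have h4 : i = n := by omega
        subst h4
        simp only [le_refl, if_true]
        rw [if_neg (by omega), hn]
        exact h2

/-- First hitting of the level `k` of a function which changes by at most one along edges. -/
theorem first_hit {f : ℤ × ℤ → ℤ} (hf : ∀ p q, adj p q → f q ≤ f p + 1) {k : ℤ}
    (hx : f x ≤ k) (h : Reach S x y) :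
    (∃ z, f z = k ∧ Reach (S ∩ {w | f w ≤ k}) x z ∧ Reach S z y) ∨
      Reach (S ∩ {w | f w < k}) x y := by
  induction h with
  | refl h =>
    rcases hx.lt_or_eq with h1 | h1
    · exact Or.inr (refl ⟨h, h1⟩)
    · exact Or.inl ⟨x, h1, refl ⟨h, hx⟩, refl h⟩
  | @step y z h1 h2 h3 ih =>
    rcases ih with ⟨w, hw, h4, h5⟩ | h4
    · exact Or.inl ⟨w, hw, h4, h5.step h2 h3⟩
    · have h5 : f y < k := h4.right_mem.2
      have h6 := hf y z h2
      rcases lt_or_ge (f z) k with h7 | h7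
      · exact Or.inr (h4.step h2 ⟨h3, h7⟩)
      · have h8 : f z = k := by omega
        refine Or.inl ⟨z, h8, ?_, refl h3⟩
        refine (h4.mono ?_).step h2 ⟨h3, h8.le⟩
        rintro w ⟨hw, hw'⟩
        have hw2 : f w < k := hw'
        exact ⟨hw, hw2.le⟩

theorem first_hit' {f : ℤ × ℤ → ℤ} (hf : ∀ p q, adj p q → f q ≤ f p + 1) {k : ℤ}
    (hx : f x ≤ k) (hy : k ≤ f y) (h : Reach S x y) :
    ∃ z, f z = k ∧ Reach (S ∩ {w | f w ≤ k}) x z ∧ Reach S z y := by
  rcases first_hit hf hx h with h1 | h1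
  · exact h1
  · have : f y < k := h1.right_mem.2
    omega

/-- A path which goes from level `≤ a` to level `≥ b` contains a path from level `a` to level `b`
between these levels. -/
theorem between {f : ℤ × ℤ → ℤ} (hf : ∀ p q, adj p q → f q ≤ f p + 1) {a b : ℤ} (hab : a ≤ b)
    (hx : f x ≤ a) (hy : b ≤ f y) (h : Reach S x y) :
    ∃ z w, f z = a ∧ f w = b ∧ Reach (S ∩ {p | a ≤ f p ∧ f p ≤ b}) z w ∧ Reach S x z ∧
      Reach S w y := by
  have hf' : ∀ p q, adj p q → - f q ≤ - f p + 1 := by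
    intro p q hpq
    have := hf q p hpq.symm
    omega
  obtain ⟨z, hz, h1, h2⟩ := first_hit' (f := fun p => - f p) hf' (k := -a)
    (show -f y ≤ -a by omega) (show -a ≤ -f x by omega) h.symm
  have hz' : f z = a := by
    have : -f z = -a := hz
    omega
  obtain ⟨w, hw, h3, h4⟩ := first_hit' hf (k := b) (by omega) hy h1.symm
  refine ⟨z, w, hz', hw, h3.mono ?_, h2.symm, h4.mono Set.inter_subset_left⟩
  rintro p ⟨⟨hp, hp1⟩, hp2⟩
  have hp1' : -f p ≤ -a := hp1
  have hp2' : f p ≤ b := hp2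
  exact ⟨hp, by omega, hp2'⟩

theorem map {σ : ℤ × ℤ → ℤ × ℤ} (hσ : ∀ p q, adj p q → adj (σ p) (σ q)) (hS : ∀ p ∈ S, σ p ∈ T)
    (h : Reach S x y) : Reach T (σ x) (σ y) := by
  induction h with
  | refl h => exact refl (hS _ h)
  | step _ h2 h3 ih => exact ih.step (hσ _ _ h2) (hS _ h3)

end Reach

theorem fst_lip : ∀ p q : ℤ × ℤ, adj p q → q.1 ≤ p.1 + 1 := by
  intro p q h; unfold adj at h; omega

theorem snd_lip : ∀ p q : ℤ × ℤ, adj p q → q.2 ≤ p.2 + 1 := by
  intro p q h; unfold adj at h; omega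

/-- the sup norm distance -/
def nrm (z p : ℤ × ℤ) : ℤ := max |p.1 - z.1| |p.2 - z.2|

theorem nrm_lip (z : ℤ × ℤ) : ∀ p q : ℤ × ℤ, adj p q → nrm z q ≤ nrm z p + 1 := by
  intro p q h
  unfold adj at h
  unfold nrm
  rcases h with h | h | h | h <;> obtain ⟨h1, h2⟩ := h <;> rw [h1, h2] <;>
    simp only [abs_eq_max_neg] <;> omega

/-- the box of radius `N` around `z` -/
def box (z : ℤ × ℤ) (N : ℤ) : Set (ℤ × ℤ) := {p | nrm z p ≤ N}

theorem mem_box {z p : ℤ × ℤ} {N : ℤ} :
    p ∈ box z N ↔ (z.1 - N ≤ p.1 ∧ p.1 ≤ z.1 + N) ∧ z.2 - N ≤ p.2 ∧ p.2 ≤ z.2 + N := by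
  unfold box nrm
  simp only [Set.mem_ofPred_eq, abs_eq_max_neg]
  omega

/-- reflection in the vertical axis -/
def rfl1 (p : ℤ × ℤ) : ℤ × ℤ := (-p.1, p.2)

/-- swap of the coordinates -/
def swp (p : ℤ × ℤ) : ℤ × ℤ := (p.2, p.1)

/-- translation -/
def trn (z p : ℤ × ℤ) : ℤ × ℤ := (p.1 + z.1, p.2 + z.2)

theorem adj_rfl1 : ∀ p q, adj p q → adj (rfl1 p) (rfl1 q) := by
  intro p q h; unfold adj rfl1 at *; simp only; omega

theorem adj_swp : ∀ p q, adj p q → adj (swp p) (swp q) := by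
  intro p q h; unfold adj swp at *; simp only; omega

theorem adj_trn (z : ℤ × ℤ) : ∀ p q, adj p q → adj (trn z p) (trn z q) := by
  intro p q h; unfold adj trn at *; simp only; omega

theorem rfl1_rfl1 (p : ℤ × ℤ) : rfl1 (rfl1 p) = p := by simp [rfl1]

theorem swp_swp (p : ℤ × ℤ) : swp (swp p) = p := by simp [swp]

end Run7.h485.Pl
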