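import Pool.Agent.Run7.h485.Hit7
import Pool.Agent.Run7.h485.Reach

/-!
# Symmetries of the capacity, and the capacity on a plane
-/

namespace Run7.h485

open Finset MeasureTheory Filter Topology
open Pool.Agent.H282R3.RW (V Dir vec steps pos hit hit_nonneg nsq nsq_nonneg sq_le_nsq escapeProb)
open scoped ENNReal

noncomputable section

variable {d : ℕ}

section Sym

variable [NeZero d]

theorem H_equiv (σ : V d ≃ V d) (τ : Dir d ≃ Dir d) (h : ∀ y a, σ (y + vec a) = σ y + vec (τ a))
    (n : ℕ) (A : Finset (V d)) : ∀ y, H n (A.image σ) (σ y) = H n A y := by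
  classical
  have hmem : ∀ y, σ y ∈ A.image σ ↔ y ∈ A := by
    intro y
    rw [mem_image]
    constructor
    · rintro ⟨z, hz, hzy⟩; rwa [← σ.injective hzy]
    · intro hy; exact ⟨y, hy, rfl⟩
  induction n with
  | zero =>
    intro y
    by_cases hy : y ∈ A
    · rw [H_of_mem _ hy, H_of_mem _ ((hmem y).2 hy)]
    · rw [H_zero hy, H_zero (fun h' => hy ((hmem y).1 h'))]
  | succ n ih =>
    intro y
    by_cases hy : y ∈ A
    · rw [H_of_mem _ hy, H_of_mem _ ((hmem y).2 hy)]
    · rw [H_succ n hy, H_succ n (fun h' => hy ((hmem y).1 h'))]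
      congr 1
      rw [← Equiv.sum_comp τ]
      refine sum_congr rfl fun a _ => ?_
      rw [← h, ih]

/-- The capacity is invariant under the symmetries of the lattice. -/
theorem cap_equiv (σ : V d ≃ V d) (τ : Dir d ≃ Dir d) (h : ∀ y a, σ (y + vec a) = σ y + vec (τ a))
    (A : Finset (V d)) : cap (A.image σ) = cap A := by
  have h1 : ∀ n, S n (A.image σ) = S n A := by
    intro n
    unfold S
    rw [← Equiv.tsum_eq σ]
    exact tsum_congr fun y => H_equiv σ τ h n A y
  have h2 := tendsto_S_div (A.image σ)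
  simp_rw [h1] at h2
  exact tendsto_nhds_unique h2 (tendsto_S_div A)

end Sym

/-- the embedding of the plane -/
def io (d : ℕ) (p : ℤ × ℤ) : V d := fun i => if (i : ℕ) = 0 then p.1 else if (i : ℕ) = 1 then p.2 else 0

theorem io_inj (hd : 2 ≤ d) : Function.Injective (io d) := by
  intro p q h
  have h0 := congrFun h (⟨0, by omega⟩ : Fin d)
  have h1 := congrFun h (⟨1, by omega⟩ : Fin d)
  simp [io] at h0 h1
  exact Prod.ext h0 h1

theorem io_zero : io d (0 : ℤ × ℤ) = 0 := by
  ext i; simp [io]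

theorem io_sub (p q : ℤ × ℤ) : io d p - io d q = io d (p.1 - q.1, p.2 - q.2) := by
  ext i
  simp only [io, Pi.sub_apply]
  split_ifs <;> simp

theorem nsq_io (hd : 2 ≤ d) (p : ℤ × ℤ) (D : ℝ) (hD : 0 ≤ D)
    (h : D ≤ |(p.1 : ℝ)| ∨ D ≤ |(p.2 : ℝ)|) : D ^ 2 ≤ nsq (io d p) := by
  rcases h with h | h
  · have := sq_le_nsq (io d p) (⟨0, by omega⟩ : Fin d)
    have e : io d p (⟨0, by omega⟩ : Fin d) = p.1 := by simp [io]
    rw [e] at this
    refine le_trans ?_ this
    rw [← sq_abs (p.1 : ℝ)]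
    exact pow_le_pow_left₀ hD h 2
  · have := sq_le_nsq (io d p) (⟨1, by omega⟩ : Fin d)
    have e : io d p (⟨1, by omega⟩ : Fin d) = p.2 := by simp [io]
    rw [e] at this
    refine le_trans ?_ this
    rw [← sq_abs (p.2 : ℝ)]
    exact pow_le_pow_left₀ hD h 2

/-- pull back of a hitting functional -/
theorem HitFun.pull {X Y : Type*} [DecidableEq X] [DecidableEq Y] {c : Finset Y → ℝ}
    (hc : HitFun c) {ι : X → Y} (hι : Function.Injective ι) :
    HitFun fun K : Finset X => c (K.image ι) := by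
  intro K
  obtain ⟨ρ, h0, hρ⟩ := hc (K.image ι)
  refine ⟨fun T => ρ (T.image ι), fun T => h0 _, fun A hA => ?_⟩
  change c (A.image ι) = _
  rw [hρ _ (image_subset_image hA)]
  symm
  refine sum_nbij' (fun T => T.image ι) (fun T => K.filter fun x => ι x ∈ T) ?_ ?_ ?_ ?_ ?_
  · intro T hT
    rw [mem_filter, mem_powerset] at hT ⊢
    refine ⟨image_subset_image hT.1, ?_⟩
    obtain ⟨x, hx⟩ := hT.2
    rw [mem_inter] at hx
    exact ⟨ι x, mem_inter.2 ⟨mem_image_of_mem _ hx.1, mem_image_of_mem _ hx.2⟩⟩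
  · intro T hT
    rw [mem_filter, mem_powerset] at hT ⊢
    refine ⟨filter_subset _ _, ?_⟩
    obtain ⟨y, hy⟩ := hT.2
    rw [mem_inter, mem_image] at hy
    obtain ⟨hy1, x, hx, rfl⟩ := hy
    exact ⟨x, mem_inter.2 ⟨mem_filter.2 ⟨hA hx, hy1⟩, hx⟩⟩
  · intro T hT
    rw [mem_filter, mem_powerset] at hT
    ext x
    rw [mem_filter, mem_image]
    constructor
    · rintro ⟨hx, y, hy, hyx⟩; rwa [← hι hyx]
    · intro hx; exact ⟨hT.1 hx, x, hx, rfl⟩
  · intro T hT
    rw [mem_filter, mem_powerset] at hT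
    ext y
    simp only [mem_image, mem_filter]
    constructor
    · rintro ⟨x, ⟨-, hx⟩, rfl⟩; exact hx
    · intro hy
      obtain ⟨x, hx, rfl⟩ := mem_image.1 (hT.1 hy)
      exact ⟨x, ⟨hx, hy⟩, rfl⟩
  · intro T _
    rfl

variable [NeZero d]

/-- the capacity functional of the plane -/
def cpl (d : ℕ) [NeZero d] (K : Finset (ℤ × ℤ)) : ℝ := cap (K.image (io d))

theorem hitFun_cpl (hd : 2 ≤ d) : HitFun (cpl d) := (hitFun_cap (d := d)).pull (io_inj hd)

theorem cpl_trn (z : ℤ × ℤ) (K : Finset (ℤ × ℤ)) : cpl d (K.image (Pl.trn z)) = cpl d K := by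
  unfold cpl
  have h := cap_equiv (Equiv.addRight (io d z)) (Equiv.refl _)
    (fun y a => by simp only [Equiv.coe_addRight, Equiv.refl_apply]; abel) (K.image (io d))
  rw [← h, image_image, image_image]
  congr 2
  ext p i
  simp only [Function.comp_apply, Equiv.coe_addRight, io, Pl.trn, Pi.add_apply]
  split_ifs <;> simp

theorem vec_apply (a : Dir d) (i : Fin d) :
    (vec a : V d) i = if i = a.1 then (if a.2 then 1 else -1) else 0 := by
  unfold vec
  by_cases h : i = a.1
  · subst h; simp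
  · simp [h]

/-- reflection of the first coordinate -/
def rE (d : ℕ) : V d ≃ V d where
  toFun x i := if (i : ℕ) = 0 then - x i else x i
  invFun x i := if (i : ℕ) = 0 then - x i else x i
  left_inv x := by ext i; by_cases h : (i : ℕ) = 0 <;> simp [h]
  right_inv x := by ext i; by_cases h : (i : ℕ) = 0 <;> simp [h]

/-- the corresponding map of the directions -/
def rD (d : ℕ) : Dir d ≃ Dir d where
  toFun a := (a.1, if (a.1 : ℕ) = 0 then !a.2 else a.2)
  invFun a := (a.1, if (a.1 : ℕ) = 0 then !a.2 else a.2)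
  left_inv a := by
    obtain ⟨i, b⟩ := a
    by_cases h : (i : ℕ) = 0 <;> simp [h]
  right_inv a := by
    obtain ⟨i, b⟩ := a
    by_cases h : (i : ℕ) = 0 <;> simp [h]

theorem rE_vec (y : V d) (a : Dir d) : rE d (y + vec a) = rE d y + vec (rD d a) := by
  obtain ⟨i, b⟩ := a
  ext j
  simp only [rE, rD, Equiv.coe_fn_mk, Pi.add_apply, vec_apply]
  by_cases hj : (j : ℕ) = 0
  · by_cases hji : j = i
    · subst hji
      simp only [hj, if_true]
      cases b <;> simp <;> ring
    · simp only [hj, if_true, if_neg hji, add_zero]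
  · by_cases hji : j = i
    · subst hji
      simp only [hj, if_false]
    · simp only [hj, if_false, if_neg hji, add_zero]

theorem cpl_rfl1 (K : Finset (ℤ × ℤ)) : cpl d (K.image Pl.rfl1) = cpl d K := by
  unfold cpl
  have h := cap_equiv (rE d) (rD d) rE_vec (K.image (io d))
  rw [← h, image_image, image_image]
  congr 2
  ext p i
  simp only [Function.comp_apply, io, Pl.rfl1, rE, Equiv.coe_fn_mk]
  split_ifs <;> simp

/-- swap of the first two coordinates -/
def sE (hd : 2 ≤ d) : Equiv.Perm (Fin d) := Equiv.swap ⟨0, by omega⟩ ⟨1, by omega⟩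

theorem sE_vec (π : Equiv.Perm (Fin d)) (y : V d) (a : Dir d) :
    (Equiv.arrowCongr π (Equiv.refl ℤ)) (y + vec a) =
      (Equiv.arrowCongr π (Equiv.refl ℤ)) y + vec ((Equiv.prodCongr π (Equiv.refl Bool)) a) := by
  obtain ⟨i, b⟩ := a
  ext j
  simp only [Equiv.arrowCongr_apply, Function.comp_apply, Pi.add_apply, Equiv.refl_apply,
    Equiv.coe_refl, id_eq, vec_apply, Equiv.prodCongr_apply, Prod.map_apply]
  have hiff : (π.symm j = i) ↔ (j = π i) := Equiv.symm_apply_eq π
  simp only [hiff]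

theorem cpl_swp (hd : 2 ≤ d) (K : Finset (ℤ × ℤ)) : cpl d (K.image Pl.swp) = cpl d K := by
  unfold cpl
  have h := cap_equiv (Equiv.arrowCongr (sE hd) (Equiv.refl ℤ))
    (Equiv.prodCongr (sE hd) (Equiv.refl Bool)) (sE_vec (sE hd)) (K.image (io d))
  rw [← h, image_image, image_image]
  congr 2
  ext p i
  simp only [Function.comp_apply, io, Pl.swp, Equiv.arrowCongr_apply, Equiv.coe_refl, id_eq]
  by_cases h0 : (i : ℕ) = 0
  · have : (sE hd).symm i = ⟨1, by omega⟩ := by
      have : i = ⟨0, by omega⟩ := Fin.ext h0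
      rw [this]; simp [sE]
    rw [this]; simp [h0]
  · by_cases h1 : (i : ℕ) = 1
    · have : (sE hd).symm i = ⟨0, by omega⟩ := by
        have : i = ⟨1, by omega⟩ := Fin.ext h1
        rw [this]; simp [sE]
      rw [this]; simp [h1]
    · have : (sE hd).symm i = i := by
        unfold sE
        rw [Equiv.symm_swap, Equiv.swap_apply_of_ne_of_ne]
        · intro h; apply h0; rw [h]
        · intro h; apply h1; rw [h]
      rw [this]; simp [h0, h1]

/-- the mutual weight of two points -/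
theorem cap_pair' {x y : V d} (hxy : x ≠ y) :
    cap {x} + cap {y} - cap ({x} ∪ {y}) ≤ hit (x - y) + hit (y - x) := by
  classical
  have h1 : cap ({x} ∪ {y} : Finset (V d)) = esc ({x} ∪ {y}) x + esc ({x} ∪ {y}) y := by
    unfold cap
    rw [sum_union (by simpa using hxy), sum_singleton, sum_singleton]
  have h2 := esc_ge ({x} ∪ {y} : Finset (V d)) x
  have h3 := esc_ge ({x} ∪ {y} : Finset (V d)) y
  have e1 : ({x} ∪ {y} : Finset (V d)).erase x = {y} := by
    ext z
    simp only [mem_erase, mem_union, mem_singleton]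
    constructor
    · rintro ⟨h, h' | h'⟩
      · exact absurd h' h
      · exact h'
    · rintro rfl; exact ⟨Ne.symm hxy, Or.inr rfl⟩
  have e2 : ({x} ∪ {y} : Finset (V d)).erase y = {x} := by
    ext z
    simp only [mem_erase, mem_union, mem_singleton]
    constructor
    · rintro ⟨h, h' | h'⟩
      · exact h'
      · exact absurd h' h
    · rintro rfl; exact ⟨hxy, Or.inl rfl⟩
  rw [e1, sum_singleton] at h2
  rw [e2, sum_singleton] at h3
  rw [cap_singleton, cap_singleton, h1]
  linarith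

theorem cpl_single (x : ℤ × ℤ) : cpl d {x} = escapeProb d := by
  unfold cpl
  rw [image_singleton, cap_singleton]

theorem cpl_pair (hd : 7 ≤ d) {x y : ℤ × ℤ} {D : ℕ} (hD : 1 ≤ D) (hxy : (D : ℤ) ≤ Pl.nrm x y) :
    cpl d {x} + cpl d {y} - cpl d ({x} ∪ {y}) ≤
      2 / bar (0 : V d) * (1 / ((D : ℝ) ^ 4 * √D)) := by
  have hD' : (1 : ℝ) ≤ D := by exact_mod_cast hD
  have hne : x ≠ y := by
    rintro rfl
    rw [Pl.nrm] at hxy
    simp at hxy
    omega
  have hne' : io d x ≠ io d y := fun h => hne (io_inj (by omega) h)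
  unfold cpl
  rw [image_union, image_singleton, image_singleton]
  refine (cap_pair' hne').trans ?_
  have hcase : ∀ a b : ℤ × ℤ, (D : ℤ) ≤ Pl.nrm a b →
      hit (io d a - io d b) ≤ 1 / bar (0 : V d) * (1 / ((D : ℝ) ^ 4 * √D)) := by
    intro a b hab
    have h0 := bar_pos (0 : V d)
    have h1 : (D : ℝ) ≤ |((a.1 - b.1 : ℤ) : ℝ)| ∨ (D : ℝ) ≤ |((a.2 - b.2 : ℤ) : ℝ)| := by
      unfold Pl.nrm at hab
      rcases le_max_iff.1 hab with h | h
      · left
        rw [abs_sub_comm] at h
        rw [← Int.cast_abs]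
        exact_mod_cast h
      · right
        rw [abs_sub_comm] at h
        rw [← Int.cast_abs]
        exact_mod_cast h
    have h2 := nsq_io (d := d) (by omega) (a.1 - b.1, a.2 - b.2) D (by linarith) h1
    rw [io_sub]
    have h3 := hit_le_bar hd (io d (a.1 - b.1, a.2 - b.2))
    have h4 := bar_le hD' h2
    refine h3.trans ?_
    rw [div_mul_eq_mul_div, one_mul]
    exact div_le_div_of_nonneg_right h4 h0.le
  have c1 := hcase x y hxy
  have c2 := hcase y x (by
    have : Pl.nrm y x = Pl.nrm x y := by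
      unfold Pl.nrm
      rw [abs_sub_comm, abs_sub_comm x.2]
    rw [this]; exact hxy)
  have e : 2 / bar (0 : V d) * (1 / ((D : ℝ) ^ 4 * √D)) =
      1 / bar (0 : V d) * (1 / ((D : ℝ) ^ 4 * √D)) + 1 / bar (0 : V d) * (1 / ((D : ℝ) ^ 4 * √D)) := by
    ring
  rw [e]
  exact add_le_add c1 c2

end

end Run7.h485
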