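import Pool.Agent.Run7.h485.Defs

/-!
# The vacant set of random interlacements in a coordinate plane: definitions
-/

namespace Run7.h485

open MeasureTheory
open Pool.Agent.H282R3.RW (V)

/-- The coordinate plane of the points whose coordinates, except possibly the first two, vanish. -/
def plane (d : ℕ) : Set (V d) := {x | ∀ i : Fin d, 2 ≤ (i : ℕ) → x i = 0}

/-- The planar percolation function: the probability that `0` lies in an infinite connected
component of the intersection of the vacant set at level `u` with the plane. -/
noncomputable def thetaPlane (d : ℕ) [NeZero d] (u : ℝ) : ℝ :=
  (interlacement d u).real {I | (cluster (Iᶜ ∩ plane d) 0).Infinite}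

end Run7.h485
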