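import Pool.Agent.Run7.h485.PLarge

/-!
# The vacant set of a random set with a symmetric capacity functional is a planar family
-/

namespace Run7.h485.Pl

open Finset MeasureTheory Filter Topology
open scoped ENNReal

theorem measurable_cpl : Measurable fun I : Set (ℤ × ℤ) => Iᶜ := by
  rw [measurable_set_iff]
  intro x
  exact (measurable_set_mem x).not

theorem loc_cpl {K : Finset (ℤ × ℤ)} {E : Set (Set (ℤ × ℤ))} (hE : Loc K E) :
    Loc K {I | Iᶜ ∈ E} := by
  intro S T hST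
  refine hE _ _ fun x hx => ?_
  rw [Set.mem_compl_iff, Set.mem_compl_iff, hST x hx]

theorem map_cpl_real (P : Measure (Set (ℤ × ℤ))) {E : Set (Set (ℤ × ℤ))} (hE : MeasurableSet E) :
    (P.map fun I => Iᶜ).real E = P.real {I | Iᶜ ∈ E} := by
  rw [Measure.real, Measure.real, Measure.map_apply measurable_cpl hE]
  rfl

/-- the conditions on the functional -/
structure CapData (c : Finset (ℤ × ℤ) → ℝ) (C c₀ : ℝ) : Prop where
  hit : HitFun c
  C_nonneg : 0 ≤ C
  trn : ∀ z K, c (K.image (trn z)) = c K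
  rfl1 : ∀ K, c (K.image rfl1) = c K
  swp : ∀ K, c (K.image swp) = c K
  pair : ∀ (x y : ℤ × ℤ) (D : ℕ), 1 ≤ D → (D : ℤ) ≤ nrm x y →
    c {x} + c {y} - c ({x} ∪ {y}) ≤ C * (1 / ((D : ℝ) ^ 4 * √D))
  c_pos : 0 < c₀
  single_le : ∀ x, c {x} ≤ 1
  le_single : ∀ x, c₀ ≤ c {x}

theorem CapData.le_card {c : Finset (ℤ × ℤ) → ℝ} {C c₀ : ℝ} (h : CapData c C c₀)
    (K : Finset (ℤ × ℤ)) : c K ≤ K.card := by
  induction K using Finset.induction_on with
  | empty => rw [h.hit.empty]; simp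
  | insert x K hx ih =>
    rw [card_insert_of_notMem hx, insert_eq]
    have h1 := h.hit.union_le {x} K
    have h2 := h.single_le x
    push_cast
    linarith

theorem CapData.fam {c : Finset (ℤ × ℤ) → ℝ} {C c₀ : ℝ} (h : CapData c C c₀)
    {P : ℝ → Measure (Set (ℤ × ℤ))} (hP : ∀ u, 0 < u → IsLaw c u (P u)) :
    Fam (fun u => (P u).map fun I => Iᶜ) (3 * C) c₀ := by
  have hupper : ∀ E : Set (Set (ℤ × ℤ)), IsUpperSet E → IsUpperSet {I | Iᶜ ∈ E}ᶜ := by
    intro E hE S T hST hS hT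
    have hST' : Tᶜ ≤ Sᶜ := Set.compl_subset_compl.2 hST
    exact hS (hE hST' hT)
  refine ⟨fun u hu => ?_, fun u v hu huv K E hE hE' => ?_, fun u v hu huv K E hE => ?_,
    fun u hu K => ?_, h.c_pos, fun u hu x => ?_⟩
  · have hPu := hP u hu
    have hprob := hPu.prob
    have hprob' : IsProbabilityMeasure ((P u).map fun I => Iᶜ) :=
      Measure.isProbabilityMeasure_map measurable_cpl.aemeasurable
    have hsym : ∀ σ : ℤ × ℤ → ℤ × ℤ, (∀ K, c (K.image σ) = c K) → ∀ (K : Finset (ℤ × ℤ)) E,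
        Loc K E → ((P u).map fun I => Iᶜ).real {S | σ ⁻¹' S ∈ E} =
        ((P u).map fun I => Iᶜ).real E := by
      intro σ hσ K E hE
      rw [map_cpl_real _ hE.measurable, map_cpl_real _ (loc_pre hE σ).measurable]
      have hs := hPu.sym σ hσ
      conv_rhs => rw [← hs]
      have hm : Measurable fun I : Set (ℤ × ℤ) => σ ⁻¹' I := by
        rw [measurable_set_iff]
        intro x
        exact measurable_set_mem (σ x)
      rw [Measure.real, Measure.real, Measure.map_apply hm (loc_cpl hE).measurable]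
      rfl
    refine ⟨hprob', by have := h.C_nonneg; positivity, fun K E F hE hF hE' hF' => ?_,
      fun z K E hE => hsym _ (h.trn z) K E hE, hsym _ h.rfl1, hsym _ h.swp,
      fun K₁ K₂ E F D hD hE hF hd => ?_⟩
    · rw [map_cpl_real _ hE.measurable, map_cpl_real _ hF.measurable,
        map_cpl_real _ (hE.inter hF).measurable]
      have h1 := hPu.fkg h.hit hu.le (loc_cpl hE).compl (loc_cpl hF).compl (hupper E hE')
        (hupper F hF')
      rw [probReal_compl_eq_one_sub (loc_cpl hE).measurable,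
        probReal_compl_eq_one_sub (loc_cpl hF).measurable, ← Set.compl_union,
        probReal_compl_eq_one_sub ((loc_cpl hE).union (loc_cpl hF)).measurable] at h1
      have h2 := measureReal_union_add_inter (μ := P u) (s := {I | Iᶜ ∈ E}) (t := {I | Iᶜ ∈ F})
        (loc_cpl hF).measurable
      have h3 : {I : Set (ℤ × ℤ) | Iᶜ ∈ E} ∩ {I | Iᶜ ∈ F} = {I | Iᶜ ∈ E ∩ F} := rfl
      rw [h3] at h2
      nlinarith
    · rw [map_cpl_real _ hE.measurable, map_cpl_real _ hF.measurable,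
        map_cpl_real _ (hE.measurable.inter hF.measurable)]
      have h1 := hPu.mix h.hit hu.le (loc_cpl hE) (loc_cpl hF)
      have h3 : {I : Set (ℤ × ℤ) | Iᶜ ∈ E} ∩ {I | Iᶜ ∈ F} = {I | Iᶜ ∈ E ∩ F} := rfl
      rw [h3] at h1
      refine h1.trans ?_
      have h4 := h.hit.mutual_le K₁ K₂
      have h5 : ∑ x ∈ K₁, ∑ y ∈ K₂, (c {x} + c {y} - c ({x} ∪ {y})) ≤
          (K₁.card : ℝ) * ((K₂.card : ℝ) * (C * (1 / ((D : ℝ) ^ 4 * √D)))) := by
        have : ∀ x ∈ K₁, ∑ y ∈ K₂, (c {x} + c {y} - c ({x} ∪ {y})) ≤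
            (K₂.card : ℝ) * (C * (1 / ((D : ℝ) ^ 4 * √D))) := by
          intro x hx
          refine (sum_le_sum fun y hy => h.pair x y D hD (hd x hx y hy)).trans ?_
          rw [sum_const, nsmul_eq_mul]
        refine (sum_le_sum this).trans ?_
        rw [sum_const, nsmul_eq_mul]
      calc 3 * (u * (c K₁ + c K₂ - c (K₁ ∪ K₂)))
          ≤ 3 * (u * ((K₁.card : ℝ) * ((K₂.card : ℝ) * (C * (1 / ((D : ℝ) ^ 4 * √D)))))) := by
            refine mul_le_mul_of_nonneg_left (mul_le_mul_of_nonneg_left (h4.trans h5) hu.le)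
              (by norm_num)
        _ = u * (3 * C) * ((K₁.card : ℝ) * (K₂.card : ℝ)) / ((D : ℝ) ^ 4 * √D) := by ring
  · rw [map_cpl_real _ hE.measurable, map_cpl_real _ hE.measurable]
    exact (hP u hu).mono h.hit huv (hP v (hu.trans_le huv)) (loc_cpl hE).measurable
      (fun I J hIJ hJ => hE' (Set.compl_subset_compl.2 hIJ) hJ)
  · rw [map_cpl_real _ hE.measurable, map_cpl_real _ hE.measurable]
    refine ((hP u hu).level h.hit huv (hP v (hu.trans_le huv)) (loc_cpl hE)).trans ?_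
    exact mul_le_mul_of_nonneg_left (h.le_card K) (sub_nonneg.2 huv)
  · have hprob := (hP u hu).prob
    have hl : Loc K {S : Set (ℤ × ℤ) | ∀ x ∈ K, x ∈ S} := by
      intro S T hST
      exact forall₂_congr fun x hx => hST x hx
    rw [map_cpl_real _ hl.measurable]
    have e : {I : Set (ℤ × ℤ) | Iᶜ ∈ {S : Set (ℤ × ℤ) | ∀ x ∈ K, x ∈ S}} = {I | ∀ x ∈ K, x ∉ I} := rfl
    rw [e, (hP u hu).avoid_real]
    have h1 := Real.add_one_le_exp (-(u * c K))
    have h2 : u * c K ≤ u * K.card := mul_le_mul_of_nonneg_left (h.le_card K) hu.le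
    linarith
  · have hl : Loc {x} {S : Set (ℤ × ℤ) | x ∈ S} := by
      intro S T hST
      exact hST x (mem_singleton_self x)
    rw [map_cpl_real _ hl.measurable]
    have e : {I : Set (ℤ × ℤ) | Iᶜ ∈ {S : Set (ℤ × ℤ) | x ∈ S}} = {I | ∀ y ∈ ({x} : Finset (ℤ × ℤ)), y ∉ I} := by
      ext I; simp
    rw [e, (hP u hu).avoid_real]
    refine Real.exp_le_exp.2 ?_
    have : u * c₀ ≤ u * c {x} := mul_le_mul_of_nonneg_left (h.le_single x) hu.le
    linarith

/-- the infinite cluster event as a decreasing intersection -/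
theorem inf_iff {S : Set (ℤ × ℤ)} : {q | Reach S 0 q}.Infinite ↔ ∀ N : ℕ, Out 0 0 N S := by
  constructor
  · intro h N
    have hfin : (box 0 (N : ℤ)).Finite := by
      refine (boxF 0 (N : ℤ)).finite_toSet.subset fun p hp => ?_
      exact mem_coe.2 (mem_boxF.2 hp)
    obtain ⟨q, hq, hqN⟩ := (h.sdiff hfin).nonempty
    have hqN' : (N : ℤ) < nrm 0 q := by
      by_contra hcon
      exact hqN (not_lt.1 hcon)
    have h0 : nrm (0 : ℤ × ℤ) 0 = 0 := nrm_self 0
    obtain ⟨y, hy, h1, -⟩ := Reach.first_hit' (f := nrm 0) (nrm_lip 0) (k := (N : ℤ))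
      (by rw [h0]; positivity) hqN'.le hq
    exact ⟨0, y, by change nrm (0 : ℤ × ℤ) 0 ≤ 0; rw [h0], hy, h1⟩
  · intro h hfin
    obtain ⟨M, hM⟩ : ∃ M : ℤ, ∀ q ∈ {q | Reach S 0 q}, nrm 0 q ≤ M := by
      obtain ⟨M, hM⟩ := (hfin.image (nrm 0)).bddAbove
      exact ⟨M, fun q hq => hM ⟨q, hq, rfl⟩⟩
    obtain ⟨v, w, hv, hw, h1⟩ := h (M.toNat + 1)
    have hv0 : v = 0 := by
      have := mem_box.1 hv
      simp only [Prod.fst_zero, Prod.snd_zero] at this
      exact Prod.ext (by simp only [Prod.fst_zero]; omega) (by simp only [Prod.snd_zero]; omega)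
    subst hv0
    have := hM w (h1.mono Set.inter_subset_left)
    rw [hw] at this
    push_cast at this
    omega

theorem tht_eq {μ : ℝ → Measure (Set (ℤ × ℤ))} {κ₀ c₀ : ℝ} (h : Fam μ κ₀ c₀) {u : ℝ} (hu : 0 < u) :
    tht μ u = (μ u).real {S | {q | Reach S 0 q}.Infinite} := by
  have hprob := (h.pm u hu).prob
  have hanti : Antitone fun N : ℕ => {S : Set (ℤ × ℤ) | Out 0 0 (N : ℤ) S} := fun N M hNM S hS =>
    Out.mono_N (by positivity) (by exact_mod_cast hNM) hS
  have h1 := tendsto_measure_iInter_atTop (μ := μ u)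
    (fun N : ℕ => (loc_Out 0 0 (N : ℤ)).measurable.nullMeasurableSet) hanti ⟨0, measure_ne_top _ _⟩
  have h2 : Tendsto (fun N : ℕ => (μ u).real {S : Set (ℤ × ℤ) | Out 0 0 (N : ℤ) S}) atTop
      (𝓝 ((μ u).real (⋂ N : ℕ, {S : Set (ℤ × ℤ) | Out 0 0 (N : ℤ) S}))) :=
    (ENNReal.tendsto_toReal (measure_ne_top _ _)).comp h1
  have h3 : (⋂ N : ℕ, {S : Set (ℤ × ℤ) | Out 0 0 (N : ℤ) S}) = {S | {q | Reach S 0 q}.Infinite} := by
    ext S
    rw [Set.mem_iInter]
    exact inf_iff.symm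
  rw [h3] at h2
  have h4 : Antitone fun N : ℕ => (μ u).real {S : Set (ℤ × ℤ) | Out 0 0 (N : ℤ) S} :=
    fun N M hNM => measureReal_mono (hanti hNM)
  exact tendsto_nhds_unique (tendsto_atTop_ciInf h4 (h.bdd u)) h2

theorem measurable_inf : MeasurableSet {S : Set (ℤ × ℤ) | {q | Reach S 0 q}.Infinite} := by
  have h3 : {S | {q | Reach S 0 q}.Infinite} = (⋂ N : ℕ, {S : Set (ℤ × ℤ) | Out 0 0 (N : ℤ) S}) := by
    ext S
    rw [Set.mem_iInter]
    exact inf_iff
  rw [h3]
  exact MeasurableSet.iInter fun N => (loc_Out 0 0 (N : ℤ)).measurable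

end Run7.h485.Pl
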