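import Pool.Agent.Run7.h485.PlaneDefs
import Pool.Agent.Run7.h485.PlaneLaw
import Pool.Agent.Run7.h485.PlaneCap
import Pool.Agent.Run7.h485.Inter

/-!
# Continuity of the planar percolation function in dimension `d ≥ 7`
-/

namespace Run7.h485

open Finset MeasureTheory Filter Topology
open Pool.Agent.H282R3.RW (V Dir vec escapeProb)
open scoped ENNReal

variable {d : ℕ}

theorem io_mem_plane (p : ℤ × ℤ) : io d p ∈ plane d := by
  intro i hi
  unfold io
  rw [if_neg (by omega), if_neg (by omega)]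

theorem mem_plane_iff (hd : 2 ≤ d) {x : V d} : x ∈ plane d ↔ ∃ p, x = io d p := by
  constructor
  · intro h
    refine ⟨(x ⟨0, by omega⟩, x ⟨1, by omega⟩), ?_⟩
    ext i
    unfold io
    split_ifs with h0 h1
    · have : i = ⟨0, by omega⟩ := Fin.ext h0
      rw [this]
    · have : i = ⟨1, by omega⟩ := Fin.ext h1
      rw [this]
    · exact h i (by omega)
  · rintro ⟨p, rfl⟩
    exact io_mem_plane p

theorem adj_io (hd : 2 ≤ d) {p q : ℤ × ℤ} : (lattice d).Adj (io d p) (io d q) ↔ Pl.adj p q := by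
  have h0d : 0 < d := by omega
  have h1d : 1 < d := by omega
  have key : ∀ (a : Dir d), io d q = io d p + vec a ↔
      ∀ i : Fin d, io d q i = io d p i +
        (if (i : ℕ) = (a.1 : ℕ) then (if a.2 then 1 else -1) else 0) := by
    intro a
    rw [funext_iff]
    refine forall_congr' fun i => ?_
    rw [Pi.add_apply]
    have : (vec a : V d) i = if (i : ℕ) = (a.1 : ℕ) then (if a.2 then 1 else -1) else 0 := by
      unfold vec
      by_cases h : i = a.1
      · subst h; simp
      · have h' : (i : ℕ) ≠ (a.1 : ℕ) := fun e => h (Fin.ext e)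
        simp [h, h']
    rw [this]
  constructor
  · rintro ⟨⟨i, b⟩, h⟩
    rw [key] at h
    have h0 := h ⟨0, h0d⟩
    have h1 := h ⟨1, h1d⟩
    have hi := h i
    unfold Pl.adj
    by_cases i0 : (i : ℕ) = 0
    · simp [io, i0] at h0 h1
      cases b <;> simp at h0 <;> omega
    · by_cases i1 : (i : ℕ) = 1
      · simp [io, i1] at h0 h1
        cases b <;> simp at h1 <;> omega
      · exfalso
        simp [io, i0, i1] at hi
        cases b <;> simp at hi
  · intro h
    unfold Pl.adj at h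
    have mk : ∀ (j : Fin d) (b : Bool), (∀ i : Fin d, io d q i = io d p i +
        (if (i : ℕ) = (j : ℕ) then (if b then 1 else -1) else 0)) →
        (lattice d).Adj (io d p) (io d q) :=
      fun j b hjb => ⟨(j, b), (key (j, b)).2 hjb⟩
    rcases h with ⟨h1, h2⟩ | ⟨h1, h2⟩ | ⟨h1, h2⟩ | ⟨h1, h2⟩
    · refine mk ⟨0, h0d⟩ true fun i => ?_
      by_cases i0 : (i : ℕ) = 0
      · simp [io, i0, h1]
      · simp [io, i0, h2]
    · refine mk ⟨0, h0d⟩ false fun i => ?_
      by_cases i0 : (i : ℕ) = 0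
      · simp [io, i0, h1]; ring
      · simp [io, i0, h2]
    · refine mk ⟨1, h1d⟩ true fun i => ?_
      by_cases i1 : (i : ℕ) = 1
      · simp [io, i1, h2]
      · simp [io, i1, h1]
    · refine mk ⟨1, h1d⟩ false fun i => ?_
      by_cases i1 : (i : ℕ) = 1
      · simp [io, i1, h2]; ring
      · simp [io, i1, h1]

theorem walk_to_reach (hd : 2 ≤ d) {S : Set (V d)} {x y : V d} (w : (lattice d).Walk x y)
    (hw : ∀ z ∈ w.support, z ∈ S ∩ plane d) :
    ∀ p, x = io d p → ∃ q, y = io d q ∧ Pl.Reach (io d ⁻¹' S) p q := by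
  induction w with
  | @nil u =>
    intro p hp
    refine ⟨p, hp, Pl.Reach.refl ?_⟩
    have := (hw u (by simp)).1
    rw [hp] at this
    exact this
  | cons hadj w ih =>
    rename_i u v y
    intro p hp
    have hv : v ∈ S ∩ plane d := hw v (by simp)
    obtain ⟨q, hq⟩ := (mem_plane_iff hd).1 hv.2
    obtain ⟨r, hr, h1⟩ := ih (fun z hz => hw z (by simp [hz])) q hq
    refine ⟨r, hr, ?_⟩
    have hu : u ∈ S := (hw u (by simp)).1
    have e1 : p ∈ io d ⁻¹' S := by rw [Set.mem_preimage, ← hp]; exact hu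
    have e2 : Pl.adj p q := by
      rw [← adj_io hd, ← hp, ← hq]
      exact hadj
    exact ((Pl.Reach.refl e1).step e2 h1.left_mem).trans h1

theorem reach_to_walk (hd : 2 ≤ d) {S : Set (V d)} {p q : ℤ × ℤ}
    (h : Pl.Reach (io d ⁻¹' S) p q) :
    ∃ w : (lattice d).Walk (io d p) (io d q), ∀ z ∈ w.support, z ∈ S ∩ plane d := by
  induction h with
  | refl h => exact ⟨SimpleGraph.Walk.nil, fun z hz => by
      rw [SimpleGraph.Walk.support_nil, List.mem_singleton] at hz
      rw [hz]; exact ⟨h, io_mem_plane p⟩⟩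
  | @step y z h1 h2 h3 ih =>
    obtain ⟨w, hw⟩ := ih
    refine ⟨w.concat ((adj_io hd).2 h2), fun x hx => ?_⟩
    rw [SimpleGraph.Walk.support_concat] at hx
    simp only [List.mem_append, List.mem_singleton, List.concat_eq_append] at hx
    rcases hx with hx | hx
    · exact hw x hx
    · rw [hx]; exact ⟨h3, io_mem_plane z⟩

theorem cluster_plane (hd : 2 ≤ d) (S : Set (V d)) :
    cluster (S ∩ plane d) 0 = io d '' {q | Pl.Reach (io d ⁻¹' S) 0 q} := by
  ext y
  constructor
  · rintro ⟨w, hw⟩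
    obtain ⟨q, hq, h⟩ := walk_to_reach hd w hw 0 io_zero.symm
    exact ⟨q, h, hq.symm⟩
  · rintro ⟨q, hq, rfl⟩
    have := reach_to_walk hd hq
    rw [io_zero] at this
    exact this

theorem cluster_plane_inf (hd : 2 ≤ d) (S : Set (V d)) :
    (cluster (S ∩ plane d) 0).Infinite ↔ {q | Pl.Reach (io d ⁻¹' S) 0 q}.Infinite := by
  rw [cluster_plane hd, Set.infinite_image_iff (io_inj hd).injOn]

variable [NeZero d]

theorem measurable_io : Measurable fun I : Set (V d) => io d ⁻¹' I := by
  rw [measurable_set_iff]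
  intro x
  exact measurable_set_mem (io d x)

/-- the law of the interlacement set in the plane -/
noncomputable def lawPlane (d : ℕ) [NeZero d] (u : ℝ) : Measure (Set (ℤ × ℤ)) :=
  (interlacement d u).map fun I => io d ⁻¹' I

theorem isLaw_plane {u : ℝ} (hu : 0 < u) : IsLaw (cpl d) u (lawPlane d u) := by
  have h := isLaw_iff.2 (interlacement_spec (d := d) hu.le)
  have hp := h.prob
  refine ⟨Measure.isProbabilityMeasure_map measurable_io.aemeasurable, fun K => ?_⟩
  unfold lawPlane
  rw [Measure.map_apply measurable_io (measurableSet_avoid K)]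
  have : (fun I : Set (V d) => io d ⁻¹' I) ⁻¹' {I | ∀ x ∈ K, x ∉ I} =
      {I | ∀ x ∈ K.image (io d), x ∉ I} := by
    ext I
    rw [Set.mem_preimage]
    constructor
    · intro hI x hx
      obtain ⟨y, hy, rfl⟩ := mem_image.1 hx
      exact hI y hy
    · intro hI x hx
      exact hI _ (mem_image_of_mem _ hx)
  rw [this, h.avoid]
  rfl

theorem capData (hd : 7 ≤ d) : Pl.CapData (cpl d) (2 / bar (0 : V d)) (escapeProb d) where
  hit := hitFun_cpl (by omega)
  C_nonneg := div_nonneg (by norm_num) (bar_pos _).le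
  trn := cpl_trn
  rfl1 := cpl_rfl1
  swp := cpl_swp (by omega)
  pair := fun _ _ _ hD hxy => cpl_pair hd hD hxy
  c_pos := escapeProb_pos (by omega)
  single_le := fun x => by
    unfold cpl
    rw [image_singleton]
    exact cap_singleton_le _
  le_single := fun x => (cpl_single x).ge

theorem fam_plane (hd : 7 ≤ d) :
    Pl.Fam (fun u => (lawPlane d u).map fun I => Iᶜ) (3 * (2 / bar (0 : V d))) (escapeProb d) :=
  (capData hd).fam fun _ hu => isLaw_plane hu

theorem thetaPlane_eq (hd : 7 ≤ d) {u : ℝ} (hu : 0 < u) :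
    thetaPlane d u = Pl.tht (fun u => (lawPlane d u).map fun I => Iᶜ) u := by
  rw [Pl.tht_eq (fam_plane hd) hu, Pl.map_cpl_real _ Pl.measurable_inf]
  have hm : MeasurableSet {I : Set (ℤ × ℤ) | Iᶜ ∈ {S : Set (ℤ × ℤ) | {q | Pl.Reach S 0 q}.Infinite}} :=
    Pl.measurable_cpl Pl.measurable_inf
  unfold thetaPlane lawPlane
  rw [Measure.real, Measure.real, Measure.map_apply measurable_io hm]
  congr 2
  ext I
  simp only [Set.mem_ofPred_eq, Set.mem_preimage]
  rw [cluster_plane_inf (by omega)]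
  rfl

/-- **Continuity of the planar percolation function.** -/
theorem thetaPlane_continuousOn (hd : 7 ≤ d) : ContinuousOn (thetaPlane d) (Set.Ioi 0) :=
  (fam_plane hd).continuousOn.congr fun _ hu => thetaPlane_eq hd hu

theorem thetaPlane_pos (hd : 7 ≤ d) : ∃ u, 0 < u ∧ 0 < thetaPlane d u := by
  obtain ⟨u, hu, h⟩ := (fam_plane hd).pos_small
  exact ⟨u, hu, by rw [thetaPlane_eq hd hu]; exact h⟩

theorem thetaPlane_zero (hd : 7 ≤ d) : ∃ u, 0 < u ∧ thetaPlane d u = 0 := by
  obtain ⟨u, hu, h⟩ := (fam_plane hd).zero_large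
  exact ⟨u, hu, by rw [thetaPlane_eq hd hu]; exact h⟩

theorem thetaPlane_anti (hd : 7 ≤ d) {u v : ℝ} (hu : 0 < u) (huv : u ≤ v) :
    thetaPlane d v ≤ thetaPlane d u := by
  rw [thetaPlane_eq hd hu, thetaPlane_eq hd (hu.trans_le huv)]
  exact (fam_plane hd).tht_anti hu huv

/-- **The critical level of the plane**: `θ` is positive below it and vanishes at and above it. -/
theorem thetaPlane_critical (hd : 7 ≤ d) : ∃ uc : ℝ, 0 < uc ∧
    (∀ u, 0 < u → u < uc → 0 < thetaPlane d u) ∧ ∀ u, uc ≤ u → thetaPlane d u = 0 := by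
  obtain ⟨a, ha, hpos⟩ := thetaPlane_pos (d := d) hd
  obtain ⟨b, hb, hzero⟩ := thetaPlane_zero (d := d) hd
  set Z : Set ℝ := {u | 0 < u ∧ 0 < thetaPlane d u} with hZ
  have hbdd : BddAbove Z := by
    refine ⟨b, fun u hu => ?_⟩
    by_contra hcon
    push Not at hcon
    have := thetaPlane_anti (d := d) hd hb hcon.le
    rw [hzero] at this
    exact absurd hu.2 (not_lt.2 this)
  have hne : Z.Nonempty := ⟨a, ha, hpos⟩
  have huc : 0 < sSup Z := ha.trans_le (le_csSup hbdd ⟨ha, hpos⟩)
  refine ⟨sSup Z, huc, fun u hu hlt => ?_, fun u hu => ?_⟩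
  · obtain ⟨v, hv, huv⟩ := exists_lt_of_lt_csSup hne hlt
    exact hv.2.trans_le (thetaPlane_anti hd hu huv.le)
  · have hu0 : 0 < u := huc.trans_le hu
    by_contra hne0
    have h0 : 0 < thetaPlane d u := lt_of_le_of_ne measureReal_nonneg (Ne.symm hne0)
    obtain ⟨u', hu', h'⟩ := (fam_plane hd).open_level hu0 (by rw [← thetaPlane_eq hd hu0]; exact h0)
    have : u' ∈ Z := ⟨hu0.trans hu', by rw [thetaPlane_eq hd (hu0.trans hu')]; exact h'⟩
    have := le_csSup hbdd this
    linarith

end Run7.h485
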