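import Pool.Agent.Run7.h485.Cond

/-!
# Local events: formula, positive association, decoupling, continuity
-/

namespace Run7.h485

open Finset MeasureTheory Filter Topology
open scoped ENNReal

variable {X : Type*} [DecidableEq X]

/-- the event `E` depends only on the trace on `K` -/
def Loc (K : Finset X) (E : Set (Set X)) : Prop :=
  ∀ S T : Set X, (∀ x ∈ K, x ∈ S ↔ x ∈ T) → (S ∈ E ↔ T ∈ E)

omit [DecidableEq X] in
theorem Loc.mono {K K' : Finset X} (h : K ⊆ K') {E : Set (Set X)} (hE : Loc K E) : Loc K' E :=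
  fun S T hST => hE S T fun x hx => hST x (h hx)

omit [DecidableEq X] in
theorem Loc.inter {K : Finset X} {E F : Set (Set X)} (hE : Loc K E) (hF : Loc K F) :
    Loc K (E ∩ F) := fun S T hST => and_congr (hE S T hST) (hF S T hST)

omit [DecidableEq X] in
theorem Loc.union {K : Finset X} {E F : Set (Set X)} (hE : Loc K E) (hF : Loc K F) :
    Loc K (E ∪ F) := fun S T hST => or_congr (hE S T hST) (hF S T hST)

omit [DecidableEq X] in
theorem Loc.compl {K : Finset X} {E : Set (Set X)} (hE : Loc K E) : Loc K Eᶜ :=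
  fun S T hST => not_congr (hE S T hST)

omit [DecidableEq X] in
theorem Loc.univ {K : Finset X} : Loc K (Set.univ : Set (Set X)) := fun _ _ _ => Iff.rfl

theorem loc_decomp {K : Finset X} {E : Set (Set X)} (hE : Loc K E)
    [DecidablePred fun O : Finset X => (O : Set X) ∈ E] :
    E = ⋃ O ∈ K.powerset.filter (fun O : Finset X => (O : Set X) ∈ E), locSet (K \ O) O := by
  classical
  ext I
  simp only [Set.mem_iUnion, mem_filter, mem_powerset, exists_prop]
  constructor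
  · intro hI
    refine ⟨K.filter (· ∈ I), ⟨filter_subset _ _, ?_⟩, fun x hx => ?_, fun x hx => ?_⟩
    · refine (hE I _ fun x hx => ?_).1 hI
      simp [hx]
    · rw [Finset.mem_sdiff, mem_filter, not_and] at hx
      exact hx.2 hx.1
    · exact (mem_filter.1 hx).2
  · rintro ⟨O, ⟨hO, hOE⟩, h1, h2⟩
    refine (hE I _ fun x hx => ?_).2 hOE
    rw [mem_coe]
    constructor
    · intro hxI
      by_contra hxO
      exact h1 x (Finset.mem_sdiff.2 ⟨hx, hxO⟩) hxI
    · exact fun h => h2 x h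

theorem Loc.measurable {K : Finset X} {E : Set (Set X)} (hE : Loc K E) : MeasurableSet E := by
  classical
  rw [loc_decomp hE]
  exact Finset.measurableSet_biUnion _ fun O _ => measurableSet_locSet _ _

theorem loc_sum {K : Finset X} {E : Set (Set X)} (hE : Loc K E)
    [DecidablePred fun O : Finset X => (O : Set X) ∈ E] (P : Measure (Set X))
    [IsProbabilityMeasure P] :
    P.real E = ∑ O ∈ K.powerset.filter (fun O : Finset X => (O : Set X) ∈ E),
      P.real (locSet (K \ O) O) := by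
  conv_lhs => rw [loc_decomp hE]
  rw [measureReal_biUnion_finset]
  · intro O hO O' hO' hne
    rw [Function.onFun, Set.disjoint_left]
    intro I hI hI'
    apply hne
    simp only [coe_filter, mem_powerset, Set.mem_ofPred_eq] at hO hO'
    ext x
    constructor
    · intro hx
      by_contra hx'
      exact hI'.1 x (Finset.mem_sdiff.2 ⟨hO.1 hx, hx'⟩) (hI.2 x hx)
    · intro hx
      by_contra hx'
      exact hI.1 x (Finset.mem_sdiff.2 ⟨hO'.1 hx, hx'⟩) (hI'.2 x hx)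
  · intro O _
    exact measurableSet_locSet _ _

open Classical in
/-- The formula for local events. -/
theorem IsLaw.formula {c : Finset X → ℝ} {s : ℝ} {P : Measure (Set X)} (hP : IsLaw c s P)
    {K : Finset X} {ρ : Finset X → ℝ}
    (hρ : ∀ C, C ⊆ K → c C = ∑ T ∈ K.powerset with (T ∩ C).Nonempty, ρ T)
    {E : Set (Set X)} (hE : Loc K E) :
    P.real E = Real.exp (-(s * c K)) * ∑ 𝒯 ∈ (K.powerset.erase ∅).powerset,
      (∏ T ∈ 𝒯, (Real.exp (s * ρ T) - 1)) * (if ((𝒯.biUnion id : Finset X) : Set X) ∈ E then 1 else 0) := by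
  have := hP.prob
  rw [loc_sum hE P]
  have h1 : ∀ O ∈ K.powerset.filter (fun O : Finset X => (O : Set X) ∈ E),
      P.real (locSet (K \ O) O) = Real.exp (-(s * c K)) *
      ∑ 𝒯 ∈ (K.powerset.erase ∅).powerset with 𝒯.biUnion id = O,
        ∏ T ∈ 𝒯, (Real.exp (s * ρ T) - 1) := by
    intro O hO
    rw [mem_filter, mem_powerset] at hO
    have hK : K \ O ∪ O = K := sdiff_union_of_subset hO.1
    have hρ' : ∀ C, C ⊆ K \ O ∪ O →
        c C = ∑ T ∈ (K \ O ∪ O).powerset with (T ∩ C).Nonempty, ρ T := by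
      rw [hK]; exact hρ
    rw [hP.loc, fS_formula sdiff_disjoint hρ', hK]
    congr 1
    refine sum_congr ?_ fun _ _ => rfl
    ext 𝒯
    simp only [mem_filter, mem_powerset]
    constructor
    · rintro ⟨h2, h3⟩
      have h4 : 𝒯.biUnion id ⊆ O := by
        rw [biUnion_subset]
        intro T hT
        have := h2 hT
        rw [mem_erase, mem_powerset] at this
        exact this.2
      refine ⟨fun T hT => ?_, subset_antisymm h4 (sdiff_eq_empty_iff_subset.1 h3)⟩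
      have := h2 hT
      rw [mem_erase, mem_powerset] at this ⊢
      exact ⟨this.1, this.2.trans hO.1⟩
    · rintro ⟨h2, h3⟩
      refine ⟨fun T hT => ?_, by rw [h3]; simp⟩
      have := h2 hT
      rw [mem_erase, mem_powerset] at this ⊢
      refine ⟨this.1, ?_⟩
      rw [← h3]
      exact subset_biUnion_of_mem id hT
  rw [sum_congr rfl h1, ← mul_sum]
  congr 1
  rw [sum_filter]
  have h2 : ∀ 𝒯 ∈ (K.powerset.erase ∅).powerset, 𝒯.biUnion id ∈ K.powerset := by
    intro 𝒯 h𝒯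
    rw [mem_powerset] at h𝒯 ⊢
    rw [biUnion_subset]
    intro T hT
    have := h𝒯 hT
    rw [mem_erase, mem_powerset] at this
    exact this.2
  rw [← sum_fiberwise_of_maps_to h2]
  refine sum_congr rfl fun O _ => ?_
  by_cases hO : (O : Set X) ∈ E
  · rw [if_pos hO]
    refine sum_congr rfl fun 𝒯 h𝒯 => ?_
    rw [mem_filter] at h𝒯
    rw [h𝒯.2, if_pos hO, mul_one]
  · rw [if_neg hO]
    symm
    refine sum_eq_zero fun 𝒯 h𝒯 => ?_
    rw [mem_filter] at h𝒯
    rw [h𝒯.2, if_neg hO, mul_zero]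

/-- **Positive association** for increasing local events. -/
theorem IsLaw.fkg {c : Finset X → ℝ} (hc : HitFun c) {s : ℝ} (hs : 0 ≤ s) {P : Measure (Set X)}
    (hP : IsLaw c s P) {K : Finset X} {E F : Set (Set X)} (hE : Loc K E) (hF : Loc K F)
    (hE' : IsUpperSet E) (hF' : IsUpperSet F) : P.real E * P.real F ≤ P.real (E ∩ F) := by
  classical
  obtain ⟨ρ, h0, hρ⟩ := hc K
  rw [hP.formula hρ hE, hP.formula hρ hF, hP.formula hρ (hE.inter hF)]
  set A := K.powerset.erase ∅ with hA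
  set w : Finset (Finset X) → ℝ := fun 𝒯 => ∏ T ∈ 𝒯, (Real.exp (s * ρ T) - 1) with hw
  set f : Finset (Finset X) → ℝ := fun 𝒯 => if ((𝒯.biUnion id : Finset X) : Set X) ∈ E then 1 else 0
    with hf
  set g : Finset (Finset X) → ℝ := fun 𝒯 => if ((𝒯.biUnion id : Finset X) : Set X) ∈ F then 1 else 0
    with hg
  have hw0 : ∀ 𝒯, 0 ≤ w 𝒯 := fun 𝒯 => prod_nonneg fun T _ => by
    rw [sub_nonneg]; exact Real.one_le_exp (mul_nonneg hs (h0 T))
  have hf0 : ∀ 𝒯, 0 ≤ f 𝒯 := fun 𝒯 => by simp only [hf]; split_ifs <;> norm_num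
  have hg0 : ∀ 𝒯, 0 ≤ g 𝒯 := fun 𝒯 => by simp only [hg]; split_ifs <;> norm_num
  have hunion : ∀ {𝒯 𝒯' : Finset (Finset X)}, 𝒯 ⊆ 𝒯' →
      ((𝒯.biUnion id : Finset X) : Set X) ≤ ((𝒯'.biUnion id : Finset X) : Set X) := by
    intro 𝒯 𝒯' h
    exact coe_subset.2 (biUnion_subset_biUnion_of_subset_left _ h)
  have hfm : ∀ {𝒯 𝒯' : Finset (Finset X)}, 𝒯 ⊆ 𝒯' → f 𝒯 ≤ f 𝒯' := by
    intro 𝒯 𝒯' h
    simp only [hf]
    by_cases h1 : ((𝒯.biUnion id : Finset X) : Set X) ∈ E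
    · rw [if_pos h1, if_pos (hE' (hunion h) h1)]
    · rw [if_neg h1]; split_ifs <;> norm_num
  have hgm : ∀ {𝒯 𝒯' : Finset (Finset X)}, 𝒯 ⊆ 𝒯' → g 𝒯 ≤ g 𝒯' := by
    intro 𝒯 𝒯' h
    simp only [hg]
    by_cases h1 : ((𝒯.biUnion id : Finset X) : Set X) ∈ F
    · rw [if_pos h1, if_pos (hF' (hunion h) h1)]
    · rw [if_neg h1]; split_ifs <;> norm_num
  have hEF : ∀ 𝒯 : Finset (Finset X), (if ((𝒯.biUnion id : Finset X) : Set X) ∈ E ∩ F then (1 : ℝ) else 0) =
      f 𝒯 * g 𝒯 := by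
    intro 𝒯
    change _ = (if ((𝒯.biUnion id : Finset X) : Set X) ∈ E then (1 : ℝ) else 0) *
      (if ((𝒯.biUnion id : Finset X) : Set X) ∈ F then 1 else 0)
    generalize ((𝒯.biUnion id : Finset X) : Set X) = S
    by_cases h1 : S ∈ E <;> by_cases h2 : S ∈ F <;> simp [h1, h2]
  have hnorm : ∑ 𝒯 ∈ A.powerset, w 𝒯 = Real.exp (s * c K) := by
    rw [hw, ← prod_one_add, hρ K Subset.rfl, mul_sum, Real.exp_sum]
    have : (K.powerset.filter fun T => (T ∩ K).Nonempty) = A := by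
      ext T
      simp only [hA, mem_filter, mem_powerset, mem_erase]
      constructor
      · rintro ⟨h1, h2⟩
        exact ⟨(h2.mono inter_subset_left).ne_empty, h1⟩
      · rintro ⟨h1, h2⟩
        rw [inter_eq_left.2 h2]
        exact ⟨h2, nonempty_iff_ne_empty.2 h1⟩
    rw [this]
    refine prod_congr rfl fun T _ => by ring
  have key := Finset.four_functions_theorem A (f₁ := fun 𝒯 => w 𝒯 * f 𝒯)
    (f₂ := fun 𝒯 => w 𝒯 * g 𝒯) (f₃ := w) (f₄ := fun 𝒯 => w 𝒯 * (f 𝒯 * g 𝒯))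
    (fun 𝒯 => mul_nonneg (hw0 𝒯) (hf0 𝒯)) (fun 𝒯 => mul_nonneg (hw0 𝒯) (hg0 𝒯)) hw0
    (fun 𝒯 => mul_nonneg (hw0 𝒯) (mul_nonneg (hf0 𝒯) (hg0 𝒯))) (by
      intro 𝒯 _ 𝒯' _
      have h1 : w 𝒯 * w 𝒯' = w (𝒯 ∩ 𝒯') * w (𝒯 ∪ 𝒯') := by
        rw [mul_comm (w (𝒯 ∩ 𝒯'))]
        exact (prod_union_inter).symm
      calc w 𝒯 * f 𝒯 * (w 𝒯' * g 𝒯') = (w 𝒯 * w 𝒯') * (f 𝒯 * g 𝒯') := by ring
        _ ≤ (w 𝒯 * w 𝒯') * (f (𝒯 ∪ 𝒯') * g (𝒯 ∪ 𝒯')) := by
            refine mul_le_mul_of_nonneg_left ?_ (mul_nonneg (hw0 _) (hw0 _))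
            exact mul_le_mul (hfm subset_union_left) (hgm subset_union_right) (hg0 _) (hf0 _)
        _ = w (𝒯 ∩ 𝒯') * (w (𝒯 ∪ 𝒯') * (f (𝒯 ∪ 𝒯') * g (𝒯 ∪ 𝒯'))) := by rw [h1]; ring)
    (𝒜 := A.powerset) (ℬ := A.powerset) Subset.rfl Subset.rfl
  rw [powerset_infs_powerset_self, powerset_sups_powerset_self, hnorm] at key
  have hexp : Real.exp (-(s * c K)) * Real.exp (s * c K) = 1 := by
    rw [← Real.exp_add]; simp
  calc Real.exp (-(s * c K)) * (∑ 𝒯 ∈ A.powerset, w 𝒯 * f 𝒯) *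
        (Real.exp (-(s * c K)) * ∑ 𝒯 ∈ A.powerset, w 𝒯 * g 𝒯)
      = Real.exp (-(s * c K)) * Real.exp (-(s * c K)) *
        ((∑ 𝒯 ∈ A.powerset, w 𝒯 * f 𝒯) * ∑ 𝒯 ∈ A.powerset, w 𝒯 * g 𝒯) := by ring
    _ ≤ Real.exp (-(s * c K)) * Real.exp (-(s * c K)) *
        (Real.exp (s * c K) * ∑ 𝒯 ∈ A.powerset, w 𝒯 * (f 𝒯 * g 𝒯)) :=
        mul_le_mul_of_nonneg_left key (by positivity)
    _ = Real.exp (-(s * c K)) * (Real.exp (-(s * c K)) * Real.exp (s * c K)) *
        ∑ 𝒯 ∈ A.powerset, w 𝒯 * (f 𝒯 * g 𝒯) := by ring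
    _ = _ := by
        rw [hexp, mul_one]
        congr 1
        exact sum_congr rfl fun 𝒯 _ => by rw [← hEF 𝒯]; congr

/-- perturbation by an independent set -/
theorem union_pert {P Q R : Measure (Set X)} [IsProbabilityMeasure P] [IsProbabilityMeasure Q]
    (hR : (P.prod Q).map (fun p : Set X × Set X => p.1 ∪ p.2) = R) {K : Finset X}
    {E : Set (Set X)} (hE : Loc K E) :
    |R.real E - P.real E| ≤ 1 - Q.real {J | ∀ x ∈ K, x ∉ J} := by
  have hEm := hE.measurable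
  set N : Set (Set X) := {J | ∀ x ∈ K, x ∉ J} with hN
  have hNm : MeasurableSet N := measurableSet_avoid K
  have h1 : R.real E = (P.prod Q).real ((fun p : Set X × Set X => p.1 ∪ p.2) ⁻¹' E) := by
    rw [← hR, Measure.real, Measure.real, Measure.map_apply measurable_union hEm]
  have h2 : P.real E = (P.prod Q).real (E ×ˢ Set.univ) := by
    rw [measureReal_prod_prod]; simp
  have h3 : 1 - Q.real N = (P.prod Q).real (Set.univ ×ˢ Nᶜ) := by
    rw [measureReal_prod_prod, probReal_compl_eq_one_sub hNm]; simp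
  have hpre : MeasurableSet ((fun p : Set X × Set X => p.1 ∪ p.2) ⁻¹' E) := measurable_union hEm
  have key : ∀ I J : Set X, J ∈ N → (I ∪ J ∈ E ↔ I ∈ E) := by
    intro I J hJ
    refine hE _ _ fun x hx => ?_
    rw [Set.mem_union]
    exact ⟨fun h => h.resolve_right (hJ x hx), Or.inl⟩
  rw [h1, h2, h3, abs_le]
  constructor
  · have : (P.prod Q).real (E ×ˢ Set.univ) ≤
        (P.prod Q).real ((fun p : Set X × Set X => p.1 ∪ p.2) ⁻¹' E ∪ Set.univ ×ˢ Nᶜ) := by
      refine measureReal_mono ?_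
      rintro ⟨I, J⟩ ⟨hI, -⟩
      by_cases hJ : J ∈ N
      · exact Or.inl ((key I J hJ).2 hI)
      · exact Or.inr ⟨trivial, hJ⟩
    have h4 := measureReal_union_le (μ := P.prod Q)
      ((fun p : Set X × Set X => p.1 ∪ p.2) ⁻¹' E) (Set.univ ×ˢ Nᶜ)
    linarith
  · have : (P.prod Q).real ((fun p : Set X × Set X => p.1 ∪ p.2) ⁻¹' E) ≤
        (P.prod Q).real (E ×ˢ Set.univ ∪ Set.univ ×ˢ Nᶜ) := by
      refine measureReal_mono ?_
      rintro ⟨I, J⟩ hI
      by_cases hJ : J ∈ N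
      · exact Or.inl ⟨(key I J hJ).1 hI, trivial⟩
      · exact Or.inr ⟨trivial, hJ⟩
    have h4 := measureReal_union_le (μ := P.prod Q) (E ×ˢ (Set.univ : Set (Set X)))
      (Set.univ ×ˢ Nᶜ)
    linarith

theorem IsLaw.avoid_real {c : Finset X → ℝ} {s : ℝ} {P : Measure (Set X)} (hP : IsLaw c s P)
    (K : Finset X) : P.real {I | ∀ x ∈ K, x ∉ I} = Real.exp (-(s * c K)) := by
  rw [Measure.real, hP.avoid, ENNReal.toReal_ofReal (Real.exp_pos _).le]

/-- Continuity in the level. -/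
theorem IsLaw.level {c : Finset X → ℝ} (hc : HitFun c) {s t : ℝ} (hst : s ≤ t)
    {P Q : Measure (Set X)} (hP : IsLaw c s P) (hQ : IsLaw c t Q) {K : Finset X}
    {E : Set (Set X)} (hE : Loc K E) : |Q.real E - P.real E| ≤ (t - s) * c K := by
  obtain ⟨R, hR⟩ := exists_law hc (sub_nonneg.2 hst)
  have := hP.prob
  have := hR.prob
  have hQ' : IsLaw c (s + (t - s)) Q := by rw [add_sub_cancel]; exact hQ
  refine (union_pert (hP.superpose hR hQ') hE).trans ?_
  rw [hR.avoid_real]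
  have := Real.add_one_le_exp (-((t - s) * c K))
  linarith

theorem HitFun.add {c c' : Finset X → ℝ} (hc : HitFun c) (hc' : HitFun c') :
    HitFun fun K => c K + c' K := by
  intro K
  obtain ⟨ρ, h0, hρ⟩ := hc K
  obtain ⟨ρ', h0', hρ'⟩ := hc' K
  refine ⟨fun T => ρ T + ρ' T, fun T => add_nonneg (h0 T) (h0' T), fun A hA => ?_⟩
  rw [sum_add_distrib, ← hρ A hA, ← hρ' A hA]

/-- weight of the sets which avoid `K₁` and meet `K₂` -/
def cB (c : Finset X → ℝ) (K₁ K₂ B : Finset X) : ℝ := condF c K₁ B - condF c (K₁ ∪ K₂) B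

/-- weight of the sets which meet `K₁` and `K₂` -/
def cAB (c : Finset X → ℝ) (K₁ K₂ B : Finset X) : ℝ := c B - condF c K₂ B - cB c K₁ K₂ B

theorem HitFun.cBc {c : Finset X → ℝ} (hc : HitFun c) (K₁ K₂ : Finset X) : HitFun (cB c K₁ K₂) := by
  refine HitFun.of_weights fun K => ⟨K ∪ (K₁ ∪ K₂), subset_union_left, ?_⟩
  obtain ⟨ρ, h0, hρ⟩ := hc (K ∪ (K₁ ∪ K₂))
  have h1 : ∀ C, C ⊆ K ∪ (K₁ ∪ K₂) → c C = ∑ T ∈ (K ∪ (K₁ ∪ K₂)).powerset, ρ T * ind T C :=
    fun C hC => by rw [hρ C hC, sum_filter_ind]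
  refine ⟨fun T => ρ T * ((1 - ind T K₁) * ind T K₂), fun T => mul_nonneg (h0 T)
    (mul_nonneg ?_ (ind_nonneg _ _)), fun B hB => ?_⟩
  · unfold ind; split_ifs <;> norm_num
  · unfold cB condF
    have hK1 : K₁ ⊆ K ∪ (K₁ ∪ K₂) := subset_union_left.trans subset_union_right
    have hB' : B ⊆ K ∪ (K₁ ∪ K₂) := hB.trans subset_union_left
    rw [h1 _ (union_subset hB' hK1), h1 _ hK1, h1 _ (union_subset_union_left hB),
      h1 _ subset_union_right, ← sum_sub_distrib, ← sum_sub_distrib, ← sum_sub_distrib]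
    refine sum_congr rfl fun T _ => ?_
    have e1 := ind_union T B K₁
    have e2 := ind_union T K₁ K₂
    have e3 := ind_union T B (K₁ ∪ K₂)
    have e1' : ind T (B ∪ K₁) = ind T B + ind T K₁ - ind T B * ind T K₁ := by linarith
    have e2' : ind T (K₁ ∪ K₂) = ind T K₁ + ind T K₂ - ind T K₁ * ind T K₂ := by linarith
    have e3' : ind T (B ∪ (K₁ ∪ K₂)) = ind T B + ind T (K₁ ∪ K₂) - ind T B * ind T (K₁ ∪ K₂) := by
      linarith
    rw [e3', e2', e1']; ring

theorem HitFun.cABc {c : Finset X → ℝ} (hc : HitFun c) (K₁ K₂ : Finset X) :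
    HitFun (cAB c K₁ K₂) := by
  refine HitFun.of_weights fun K => ⟨K ∪ (K₁ ∪ K₂), subset_union_left, ?_⟩
  obtain ⟨ρ, h0, hρ⟩ := hc (K ∪ (K₁ ∪ K₂))
  have h1 : ∀ C, C ⊆ K ∪ (K₁ ∪ K₂) → c C = ∑ T ∈ (K ∪ (K₁ ∪ K₂)).powerset, ρ T * ind T C :=
    fun C hC => by rw [hρ C hC, sum_filter_ind]
  refine ⟨fun T => ρ T * (ind T K₁ * ind T K₂), fun T => mul_nonneg (h0 T)
    (mul_nonneg (ind_nonneg _ _) (ind_nonneg _ _)), fun B hB => ?_⟩
  unfold cAB cB condF
  have hK1 : K₁ ⊆ K ∪ (K₁ ∪ K₂) := subset_union_left.trans subset_union_right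
  have hK2 : K₂ ⊆ K ∪ (K₁ ∪ K₂) := subset_union_right.trans subset_union_right
  have hB' : B ⊆ K ∪ (K₁ ∪ K₂) := hB.trans subset_union_left
  rw [h1 _ hB', h1 _ (union_subset hB' hK1), h1 _ hK1, h1 _ (union_subset hB' hK2), h1 _ hK2,
    h1 _ (union_subset_union_left hB),
    h1 _ subset_union_right, ← sum_sub_distrib, ← sum_sub_distrib, ← sum_sub_distrib,
    ← sum_sub_distrib, ← sum_sub_distrib, ← sum_sub_distrib]
  refine sum_congr rfl fun T _ => ?_
  have e1 := ind_union T B K₁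
  have e4 := ind_union T B K₂
  have e2 := ind_union T K₁ K₂
  have e3 := ind_union T B (K₁ ∪ K₂)
  have e1' : ind T (B ∪ K₁) = ind T B + ind T K₁ - ind T B * ind T K₁ := by linarith
  have e4' : ind T (B ∪ K₂) = ind T B + ind T K₂ - ind T B * ind T K₂ := by linarith
  have e2' : ind T (K₁ ∪ K₂) = ind T K₁ + ind T K₂ - ind T K₁ * ind T K₂ := by linarith
  have e3' : ind T (B ∪ (K₁ ∪ K₂)) = ind T B + ind T (K₁ ∪ K₂) - ind T B * ind T (K₁ ∪ K₂) := by
    linarith
  rw [e3', e2', e1', e4']; ring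

/-- **Decoupling** without sprinkling. -/
theorem IsLaw.mix {c : Finset X → ℝ} (hc : HitFun c) {s : ℝ} (hs : 0 ≤ s) {P : Measure (Set X)}
    (hP : IsLaw c s P) {K₁ K₂ : Finset X} {E F : Set (Set X)} (hE : Loc K₁ E) (hF : Loc K₂ F) :
    |P.real (E ∩ F) - P.real E * P.real F| ≤ 3 * (s * (c K₁ + c K₂ - c (K₁ ∪ K₂))) := by
  obtain ⟨PA, hPA⟩ := exists_law (hc.cond K₂) hs
  obtain ⟨PB, hPB⟩ := exists_law (hc.cBc K₁ K₂) hs
  obtain ⟨PC, hPC⟩ := exists_law (hc.cABc K₁ K₂) hs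
  obtain ⟨M, hM⟩ := exists_law ((hc.cond K₂).add (hc.cBc K₁ K₂)) hs
  have i1 := hPA.prob
  have i2 := hPB.prob
  have i3 := hPC.prob
  have i4 := hM.prob
  have i5 := hP.prob
  have hP' : IsLaw (fun K => (condF c K₂ K + cB c K₁ K₂ K) + cAB c K₁ K₂ K) s P := by
    have : (fun K => (condF c K₂ K + cB c K₁ K₂ K) + cAB c K₁ K₂ K) = c := by
      ext K; unfold cAB; ring
    rw [this]; exact hP
  have s1 := hPA.superpose' hPB hM
  have s2 := hM.superpose' hPC hP'
  set δ : ℝ := s * (c K₁ + c K₂ - c (K₁ ∪ K₂)) with hδ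
  have hcab : cAB c K₁ K₂ (K₁ ∪ K₂) = c K₁ + c K₂ - c (K₁ ∪ K₂) := by
    unfold cAB cB condF
    have e1 : K₁ ∪ K₂ ∪ K₂ = K₁ ∪ K₂ := by ext x; simp
    have e2 : K₁ ∪ K₂ ∪ K₁ = K₁ ∪ K₂ := by
      ext x; simp only [mem_union]; tauto
    have e3 : K₁ ∪ K₂ ∪ (K₁ ∪ K₂) = K₁ ∪ K₂ := union_self _
    rw [e1, e2, e3]; ring
  have hδ' : 1 - PC.real {J | ∀ x ∈ K₁ ∪ K₂, x ∉ J} ≤ δ := by
    rw [hPC.avoid_real, hcab]
    have := Real.add_one_le_exp (-(s * (c K₁ + c K₂ - c (K₁ ∪ K₂))))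
    linarith
  have hpert : ∀ G, Loc (K₁ ∪ K₂) G → |P.real G - M.real G| ≤ δ := fun G hG =>
    (union_pert s2 hG).trans hδ'
  -- the two independent parts
  have hA0 : PA.real {I | ∀ x ∈ K₂, x ∉ I} = 1 := by
    rw [hPA.avoid_real]
    have : condF c K₂ K₂ = 0 := by unfold condF; rw [union_self, sub_self]
    rw [this]; simp
  have hB0 : PB.real {I | ∀ x ∈ K₁, x ∉ I} = 1 := by
    rw [hPB.avoid_real]
    have : cB c K₁ K₂ K₁ = 0 := by
      unfold cB condF
      rw [union_self, ← union_assoc, union_self]; ring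
    rw [this]; simp
  have hprod : ∀ G H, Loc K₁ G → Loc K₂ H → M.real (G ∩ H) = PA.real G * PB.real H := by
    intro G H hG hH
    have hGm := hG.measurable
    have hHm := hH.measurable
    have e1 : M.real (G ∩ H) =
        (PA.prod PB).real ((fun p : Set X × Set X => p.1 ∪ p.2) ⁻¹' (G ∩ H)) := by
      rw [← s1, Measure.real, Measure.real, Measure.map_apply measurable_union (hGm.inter hHm)]
    rw [e1, ← measureReal_prod_prod]
    have hNA : PA.real {I | ∀ x ∈ K₂, x ∉ I}ᶜ = 0 := by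
      rw [probReal_compl_eq_one_sub (measurableSet_avoid K₂), hA0, sub_self]
    have hNB : PB.real {I | ∀ x ∈ K₁, x ∉ I}ᶜ = 0 := by
      rw [probReal_compl_eq_one_sub (measurableSet_avoid K₁), hB0, sub_self]
    set Z : Set (Set X × Set X) := ({I | ∀ x ∈ K₂, x ∉ I}ᶜ ×ˢ Set.univ) ∪
      (Set.univ ×ˢ {I | ∀ x ∈ K₁, x ∉ I}ᶜ) with hZ
    have hZ0 : (PA.prod PB).real Z = 0 := by
      refine le_antisymm ?_ measureReal_nonneg
      refine (measureReal_union_le _ _).trans ?_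
      rw [measureReal_prod_prod, measureReal_prod_prod, hNA, hNB]
      simp
    have key : ∀ I J : Set X, (I, J) ∉ Z → (I ∪ J ∈ G ∩ H ↔ I ∈ G ∧ J ∈ H) := by
      intro I J hIJ
      rw [hZ, Set.mem_union, not_or, Set.mem_prod, Set.mem_prod] at hIJ
      simp only [Set.mem_compl_iff, Set.mem_univ, and_true, true_and, not_not] at hIJ
      have e2 : I ∪ J ∈ G ↔ I ∈ G := hG _ _ fun x hx => by
        rw [Set.mem_union]
        exact ⟨fun h => h.resolve_right (hIJ.2 x hx), Or.inl⟩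
      have e3 : I ∪ J ∈ H ↔ J ∈ H := hH _ _ fun x hx => by
        rw [Set.mem_union]
        exact ⟨fun h => h.resolve_left (hIJ.1 x hx), Or.inr⟩
      exact and_congr e2 e3
    refine le_antisymm ?_ ?_
    · have : (PA.prod PB).real ((fun p : Set X × Set X => p.1 ∪ p.2) ⁻¹' (G ∩ H)) ≤
          (PA.prod PB).real (G ×ˢ H ∪ Z) := by
        refine measureReal_mono ?_
        rintro ⟨I, J⟩ h
        by_cases hz : (I, J) ∈ Z
        · exact Or.inr hz
        · exact Or.inl ((key I J hz).1 h)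
      have h4 := measureReal_union_le (μ := PA.prod PB) (G ×ˢ H) Z
      linarith
    · have : (PA.prod PB).real (G ×ˢ H) ≤
          (PA.prod PB).real ((fun p : Set X × Set X => p.1 ∪ p.2) ⁻¹' (G ∩ H) ∪ Z) := by
        refine measureReal_mono ?_
        rintro ⟨I, J⟩ h
        by_cases hz : (I, J) ∈ Z
        · exact Or.inr hz
        · exact Or.inl ((key I J hz).2 h)
      have h4 := measureReal_union_le (μ := PA.prod PB)
        ((fun p : Set X × Set X => p.1 ∪ p.2) ⁻¹' (G ∩ H)) Z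
      linarith
  have hE1 := hpert E (hE.mono subset_union_left)
  have hF1 := hpert F (hF.mono subset_union_right)
  have hEF := hpert (E ∩ F) ((hE.mono subset_union_left).inter (hF.mono subset_union_right))
  have p1 := hprod E F hE hF
  have p2 := hprod E Set.univ hE Loc.univ
  have p3 := hprod Set.univ F Loc.univ hF
  rw [Set.inter_univ, probReal_univ, mul_one] at p2
  rw [Set.univ_inter, probReal_univ, one_mul] at p3
  rw [p2] at hE1
  rw [p3] at hF1
  rw [p1] at hEF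
  have b1 : 0 ≤ P.real E := measureReal_nonneg
  have b2 : P.real E ≤ 1 := measureReal_le_one
  have b3 : 0 ≤ PB.real F := measureReal_nonneg
  have b4 : PB.real F ≤ 1 := measureReal_le_one
  have hδ0 : 0 ≤ δ := (abs_nonneg _).trans hE1
  have c1 : |PA.real E * PB.real F - P.real E * P.real F| ≤ 2 * δ := by
    have e : PA.real E * PB.real F - P.real E * P.real F =
        -(P.real E - PA.real E) * PB.real F - P.real E * (P.real F - PB.real F) := by ring
    rw [e]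
    refine (abs_sub _ _).trans ?_
    rw [abs_mul, abs_mul, abs_neg, abs_of_nonneg b1, abs_of_nonneg b3]
    have f1 : |P.real E - PA.real E| * PB.real F ≤ δ * 1 := mul_le_mul hE1 b4 b3 hδ0
    have f2 : P.real E * |P.real F - PB.real F| ≤ 1 * δ := mul_le_mul b2 hF1 (abs_nonneg _) zero_le_one
    linarith
  calc |P.real (E ∩ F) - P.real E * P.real F|
      ≤ |P.real (E ∩ F) - PA.real E * PB.real F| + |PA.real E * PB.real F - P.real E * P.real F| :=
        abs_sub_le _ _ _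
    _ ≤ 3 * δ := by linarith

/-- Invariance of the law under symmetries of the functional. -/
theorem IsLaw.sym {c : Finset X → ℝ} {s : ℝ} {P : Measure (Set X)} (hP : IsLaw c s P)
    (σ : X → X) (hσ : ∀ K : Finset X, c (K.image σ) = c K) :
    P.map (fun I : Set X => σ ⁻¹' I) = P := by
  have := hP.prob
  have hm : Measurable fun I : Set X => σ ⁻¹' I := by
    rw [measurable_set_iff]
    intro x
    exact measurable_set_mem (σ x)
  have : IsProbabilityMeasure (P.map fun I : Set X => σ ⁻¹' I) :=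
    Measure.isProbabilityMeasure_map hm.aemeasurable
  refine ext_avoid fun K => ?_
  rw [Measure.map_apply hm (measurableSet_avoid K)]
  have : (fun I : Set X => σ ⁻¹' I) ⁻¹' {I | ∀ x ∈ K, x ∉ I} = {I | ∀ x ∈ K.image σ, x ∉ I} := by
    ext I
    simp
  rw [this, hP.avoid, hP.avoid, hσ]

end Run7.h485
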