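import Pool.Agent.Run7.h485.Stage

/-!
# Long crossings, renormalisation, and the finite size criterion
-/

namespace Run7.h485.Pl

open Finset MeasureTheory Filter Topology

namespace PM

variable {μ : Measure (Set (ℤ × ℤ))} {κ : ℝ}

/-- Percolation implies rings at infinitely many scales with positive probability. -/
theorem rings (h : PM μ κ) {θ : ℝ} (hθ : 0 < θ) (hO : ∀ N : ℕ, θ ≤ μ.real {S | Out 0 0 N S}) :
    ∀ n₀ : ℕ, ∃ s : ℕ, n₀ ≤ s ∧ ((θ / 16) ^ 8) ^ 332 ≤ μ.real {S | Ring s S} := by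
  have hprob := h.prob
  have hθ1 : θ ≤ 1 := (hO 0).trans (h.le_one _)
  have hLU0 : (1 : ℝ) - 0 ≤ μ.real {S | LU 0 ((0 : ℕ) : ℤ) ((0 : ℕ) : ℤ) S} := by
    have : {S : Set (ℤ × ℤ) | LU 0 ((0 : ℕ) : ℤ) ((0 : ℕ) : ℤ) S} = Set.univ := by
      ext S
      simp only [Set.mem_ofPred_eq, Set.mem_univ, iff_true]
      intro v v' w w' hv hv' _ _ h1 _
      have e1 := mem_box.1 hv
      have e2 := mem_box.1 hv'
      simp only [Nat.cast_zero] at e1 e2
      have : v' = v := Prod.ext (by omega) (by omega)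
      rw [this]
      exact Reach.refl h1.left_mem
    rw [this]
    simp
  intro n₀
  obtain ⟨n, hn, hp⟩ := h.rsw (m := 0) (M := 0) le_rfl (δ := 1 - θ / 16) (ε := 0)
    (by linarith) (by linarith) hLU0 (fun N _ => by
      refine le_trans ?_ (hO N)
      have := one_add_mul_le_pow (show (-2 : ℝ) ≤ -(θ / 16) by linarith) 16
      have e : (1 - θ / 16) ^ 16 = (1 + -(θ / 16)) ^ 16 := by ring
      rw [e]
      push_cast at this
      linarith) n₀
  have e : (1 - (1 - θ / 16)) ^ 8 - 4 * (0 : ℝ) = (θ / 16) ^ 8 := by ring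
  rw [e] at hp
  refine ⟨14 * n, by omega, ?_⟩
  have := h.ring n (by positivity) hp
  push_cast
  exact this

/-- Percolation implies local uniqueness. -/
theorem lu (h : PM μ κ) {θ : ℝ} (hθ : 0 < θ) (hO : ∀ N : ℕ, θ ≤ μ.real {S | Out 0 0 N S})
    (m : ℕ) {ε : ℝ} (hε : 0 < ε) : ∃ M : ℕ, m ≤ M ∧ 1 - ε ≤ μ.real {S | LU 0 m M S} :=
  h.lu_prob (p₀ := ((θ / 16) ^ 8) ^ 332) (by positivity) (h.rings hθ hO) m hε

/-- **Percolation implies long crossings with probability close to one** (at some large scale). -/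
theorem cross (h : PM μ κ) {θ : ℝ} (hθ : 0 < θ) (hO : ∀ N : ℕ, θ ≤ μ.real {S | Out 0 0 N S})
    {ρ : ℝ} (hρ : 0 < ρ) (n₀ : ℕ) :
    ∃ n : ℕ, n₀ ≤ n ∧ 1 - ρ ≤ μ.real {S | HC 0 (3 * n) 0 n S} := by
  have hprob := h.prob
  -- step two
  set δ : ℝ := min ρ 1 / 660 with hδ
  have hδ0 : 0 < δ := by
    rw [hδ]
    exact div_pos (lt_min hρ one_pos) (by norm_num)
  have hδ1 : δ ≤ 1 / 660 := by
    rw [hδ]
    exact div_le_div_of_nonneg_right (min_le_right _ _) (by norm_num)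
  obtain ⟨m, hm⟩ := h.seeds hθ hO (η := δ ^ 16) (by positivity)
  obtain ⟨M, hmM, hM⟩ := h.lu hθ hO m hδ0
  obtain ⟨n, hn, hp⟩ := h.rsw hmM hδ0.le (by linarith) hM hm n₀
  refine ⟨14 * n, by omega, ?_⟩
  have hp2 : 1 - 12 * δ ≤ (1 - δ) ^ 8 - 4 * δ := by
    have := one_add_mul_le_pow (show (-2 : ℝ) ≤ -δ by linarith) 8
    have e : (1 - δ) ^ 8 = (1 + -δ) ^ 8 := by ring
    rw [e]
    push_cast at this
    linarith
  have h1 := h.long n (p := 1 - 12 * δ) (by linarith) (hp2.trans hp) 27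
  have h2 : 1 - ρ ≤ (1 - 12 * δ) ^ (2 * 27 + 1) := by
    have := one_add_mul_le_pow (show (-2 : ℝ) ≤ -(12 * δ) by linarith) 55
    have e : (1 - 12 * δ) ^ (2 * 27 + 1) = (1 + -(12 * δ)) ^ 55 := by norm_num [sub_eq_add_neg]
    rw [e]
    refine le_trans ?_ this
    have : min ρ 1 ≤ ρ := min_le_left _ _
    have e2 : 660 * δ = min ρ 1 := by rw [hδ]; ring
    push_cast
    linarith
  refine h2.trans (h1.trans (h.hc_mono ?_ ?_ ?_))
  · push_cast; ring_nf; omega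
  · push_cast; omega
  · push_cast; omega

/-- the failure probability of a crossing of aspect ratio three -/
noncomputable def rr (μ : Measure (Set (ℤ × ℤ))) (n : ℕ) : ℝ := 1 - μ.real {S | HC 0 (3 * n) 0 n S}

theorem rr_nonneg (h : PM μ κ) (n : ℕ) : 0 ≤ rr μ n := sub_nonneg.2 (h.le_one _)

/-- **Renormalisation inequality.** -/
theorem renorm (h : PM μ κ) {n : ℕ} (hn : 1 ≤ n) :
    rr μ (3 * n) ≤ 49 * rr μ n ^ 2 + 400 * κ / √n := by
  have hprob := h.prob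
  set p : ℝ := μ.real {S | HC 0 (3 * n) 0 n S} with hp
  have hp0 : 0 ≤ p := measureReal_nonneg
  have hr : rr μ n = 1 - p := rfl
  have hn0 : (1 : ℤ) ≤ n := by exact_mod_cast hn
  -- crossing of a long thin rectangle
  have hlong : 1 - 7 * rr μ n ≤ μ.real {S | HC 0 (9 * n) 0 n S} := by
    have a1 : p ^ 1 ≤ μ.real {S | HC 0 (3 * n) 0 n S} := by rw [pow_one]
    have a2 : p ^ 1 ≤ μ.real {S | HC (2 * n) (5 * n) 0 n S} := by
      rw [pow_one]; exact h.hc_mono (by omega) (by omega) (by omega)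
    have a3 : p ^ 1 ≤ μ.real {S | VC (2 * n) (3 * n) 0 n S} := by
      rw [pow_one]; exact h.vc_mono (by omega) (by omega) (by omega)
    have a4 : p ^ 1 ≤ μ.real {S | HC (4 * n) (7 * n) 0 n S} := by
      rw [pow_one]; exact h.hc_mono (by omega) (by omega) (by omega)
    have a5 : p ^ 1 ≤ μ.real {S | VC (4 * n) (5 * n) 0 n S} := by
      rw [pow_one]; exact h.vc_mono (by omega) (by omega) (by omega)
    have a6 : p ^ 1 ≤ μ.real {S | HC (6 * n) (9 * n) 0 n S} := by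
      rw [pow_one]; exact h.hc_mono (by omega) (by omega) (by omega)
    have a7 : p ^ 1 ≤ μ.real {S | VC (6 * n) (7 * n) 0 n S} := by
      rw [pow_one]; exact h.vc_mono (by omega) (by omega) (by omega)
    have i1 := inc_HC 0 (3 * n) 0 n
    have i2 := inc_HC (2 * n) (5 * n) 0 n
    have i3 := inc_VC (2 * n) (3 * n) 0 n
    have i4 := inc_HC (4 * n) (7 * n) 0 n
    have i5 := inc_VC (4 * n) (5 * n) 0 n
    have i6 := inc_HC (6 * n) (9 * n) 0 n
    have i7 := inc_VC (6 * n) (7 * n) 0 n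
    have b1 := h.fkg_pow i1 i2 hp0 a1 a2
    have b2 := h.fkg_pow (i1.inter i2) i3 hp0 b1 a3
    have b3 := h.fkg_pow ((i1.inter i2).inter i3) i4 hp0 b2 a4
    have b4 := h.fkg_pow (((i1.inter i2).inter i3).inter i4) i5 hp0 b3 a5
    have b5 := h.fkg_pow ((((i1.inter i2).inter i3).inter i4).inter i5) i6 hp0 b4 a6
    have b6 := h.fkg_pow (((((i1.inter i2).inter i3).inter i4).inter i5).inter i6) i7 hp0 b5 a7
    have c : 1 - 7 * rr μ n ≤ p ^ (1 + 1 + 1 + 1 + 1 + 1 + 1) := by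
      have := one_add_mul_le_pow (show (-2 : ℝ) ≤ -(1 - p) by linarith) 7
      have e : p ^ (1 + 1 + 1 + 1 + 1 + 1 + 1) = (1 + -(1 - p)) ^ 7 := by ring
      rw [e, hr]
      push_cast at this
      linarith
    refine c.trans (b6.trans (h.mono ?_))
    rintro S ⟨⟨⟨⟨⟨⟨s1, s2⟩, s3⟩, s4⟩, s5⟩, s6⟩, s7⟩
    exact (((s1.glue s2 s3 (by omega) (by omega)).glue s4 s5 (by omega) (by omega)).glue s6 s7
      (by omega) (by omega))
  -- two strips
  have hE : Loc (rectF 0 (9 * n) 0 n) {S | HC 0 (9 * n) 0 n S}ᶜ := (loc_HC _ _ _ _).compl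
  have hF : Loc (rectF 0 (9 * n) (2 * n) (3 * n)) {S | HC 0 (9 * n) (2 * n) (3 * n) S}ᶜ :=
    (loc_HC _ _ _ _).compl
  have hmix := (abs_le.1 (h.mix _ _ _ _ n hn hE hF (fun x hx y hy => by
    rw [mem_rectF, mem_rect] at hx hy
    unfold nrm
    refine le_trans ?_ ((le_abs_self _).trans (le_max_right _ _))
    omega))).2
  have hF2 : μ.real {S | HC 0 (9 * n) (2 * n) (3 * n) S} = μ.real {S | HC 0 (9 * n) 0 n S} := by
    rw [h.hc_prob 0 (9 * n) (2 * n) (3 * n)]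
    congr 3
    ext S
    congr! 1 <;> omega
  rw [h.compl (loc_HC _ _ _ _), h.compl (loc_HC _ _ _ _), hF2] at hmix
  have hsub : {S | HC 0 (3 * (3 * n : ℕ)) 0 ((3 * n : ℕ) : ℤ) S}ᶜ ⊆
      {S | HC 0 (9 * n) 0 n S}ᶜ ∩ {S | HC 0 (9 * n) (2 * n) (3 * n) S}ᶜ := by
    intro S hS
    refine ⟨fun h1 => hS ?_, fun h1 => hS ?_⟩
    · exact HC.mono le_rfl (by push_cast; omega) (by push_cast; omega) le_rfl
        (by push_cast; omega) h1
    · exact HC.mono le_rfl (by push_cast; omega) (by push_cast; omega) (by omega)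
        (by push_cast; omega) h1
  have h1 := h.mono hsub
  rw [h.compl (loc_HC _ _ _ _)] at h1
  have hr3 : rr μ (3 * n) = 1 - μ.real {S | HC 0 (3 * (3 * n : ℕ)) 0 ((3 * n : ℕ) : ℤ) S} := rfl
  have hcard : ∀ c : ℤ, ((rectF 0 (9 * n) c (c + n)).card : ℝ) ≤ 20 * (n : ℝ) ^ 2 := by
    intro c
    rw [card_rectF]
    have e1 : (9 * (n : ℤ) + 1 - 0).toNat = 9 * n + 1 := by omega
    have e2 : (c + (n : ℤ) + 1 - c).toNat = n + 1 := by omega
    rw [e1, e2]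
    have : (9 * n + 1) * (n + 1) ≤ 20 * n ^ 2 := by nlinarith
    exact_mod_cast this
  have c1 := hcard 0
  have c2 := hcard (2 * n)
  rw [zero_add] at c1
  have e3 : (2 * (n : ℤ) + n) = 3 * n := by ring
  rw [e3] at c2
  have hn' : (1 : ℝ) ≤ n := by exact_mod_cast hn
  have hsq : 0 < √(n : ℝ) := Real.sqrt_pos.2 (by linarith)
  have herr : κ * (((rectF 0 (9 * n) 0 n).card : ℝ) * ((rectF 0 (9 * n) (2 * n) (3 * n)).card : ℝ)) /
      ((n : ℝ) ^ 4 * √n) ≤ 400 * κ / √n := by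
    have h2 : ((rectF 0 (9 * n) 0 n).card : ℝ) * ((rectF 0 (9 * n) (2 * n) (3 * n)).card : ℝ) ≤
        (20 * (n : ℝ) ^ 2) * (20 * (n : ℝ) ^ 2) :=
      mul_le_mul c1 c2 (by positivity) (by positivity)
    calc _ ≤ κ * ((20 * (n : ℝ) ^ 2) * (20 * (n : ℝ) ^ 2)) / ((n : ℝ) ^ 4 * √n) :=
          div_le_div_of_nonneg_right (mul_le_mul_of_nonneg_left h2 h.kappa) (by positivity)
      _ = 400 * κ / √n := by
          field_simp
          ring
  have h3 : (1 - μ.real {S | HC 0 (9 * n) 0 n S}) * (1 - μ.real {S | HC 0 (9 * n) 0 n S}) ≤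
      49 * rr μ n ^ 2 := by
    have h4 : 0 ≤ 1 - μ.real {S | HC 0 (9 * n) 0 n S} := sub_nonneg.2 (h.le_one _)
    have h5 : 1 - μ.real {S | HC 0 (9 * n) 0 n S} ≤ 7 * rr μ n := by linarith
    calc _ ≤ (7 * rr μ n) * (7 * rr μ n) := mul_le_mul h5 h5 h4 (by linarith)
      _ = _ := by ring
  rw [hr3]
  linarith

/-- the renormalised failure probabilities decay geometrically -/
theorem rr_decay (h : PM μ κ) {n : ℕ} (hn : 1 ≤ n) (h0 : rr μ n ≤ 1 / 400)
    (hκn : 400 * κ / √n ≤ 1 / 800) (k : ℕ) : rr μ (3 ^ k * n) ≤ 1 / 400 * (4 / 5) ^ k := by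
  have hn' : (1 : ℝ) ≤ n := by exact_mod_cast hn
  have hsq : 0 < √(n : ℝ) := Real.sqrt_pos.2 (by linarith)
  have h3 : (5 / 3 : ℝ) ≤ √3 := by
    rw [Real.le_sqrt (by norm_num) (by norm_num)]
    norm_num
  have hs : ∀ k : ℕ, 400 * κ / √((3 ^ k * n : ℕ) : ℝ) ≤ 1 / 800 * (3 / 5) ^ k := by
    intro k
    have e1 : √((3 ^ k * n : ℕ) : ℝ) = √3 ^ k * √n := by
      push_cast
      rw [Real.sqrt_mul (by positivity)]
      congr 1
      have : (3 : ℝ) ^ k = (√3 ^ k) ^ 2 := by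
        rw [← pow_mul, mul_comm k 2, pow_mul, Real.sq_sqrt (by norm_num)]
      rw [this, Real.sqrt_sq (by positivity)]
    rw [e1]
    have e2 : 400 * κ / (√3 ^ k * √n) = (400 * κ / √n) * (1 / √3) ^ k := by
      rw [one_div, inv_pow]
      field_simp
    rw [e2]
    refine mul_le_mul hκn (pow_le_pow_left₀ (by positivity) ?_ k) (by positivity) (by norm_num)
    rw [div_le_div_iff₀ (by positivity) (by norm_num)]
    linarith
  induction k with
  | zero => simpa using h0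
  | succ k ih =>
    have h1 := h.renorm (n := 3 ^ k * n) (Nat.one_le_iff_ne_zero.2 (by positivity))
    have e : 3 * (3 ^ k * n) = 3 ^ (k + 1) * n := by ring
    rw [e] at h1
    have h2 := hs k
    have h4 : rr μ (3 ^ k * n) ^ 2 ≤ (1 / 400 * (4 / 5) ^ k) ^ 2 :=
      pow_le_pow_left₀ (h.rr_nonneg _) ih 2
    have h5 : (1 / 400 * (4 / 5 : ℝ) ^ k) ^ 2 ≤ 1 / 160000 * (4 / 5) ^ k := by
      have : ((4 / 5 : ℝ) ^ k) ≤ 1 := pow_le_one₀ (by norm_num) (by norm_num)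
      have h6 : 0 ≤ (4 / 5 : ℝ) ^ k := by positivity
      nlinarith
    have h6 : (3 / 5 : ℝ) ^ k ≤ (4 / 5) ^ k := pow_le_pow_left₀ (by norm_num) (by norm_num) k
    have h8 : (4 / 5 : ℝ) ^ (k + 1) = (4 / 5) ^ k * (4 / 5) := pow_succ _ _
    rw [h8]
    have h7 : 0 ≤ (4 / 5 : ℝ) ^ k := by positivity
    linarith

end PM

/-- crossings at all scales up to `K` -/
def Cr (n : ℕ) (k : ℕ) : Set (Set (ℤ × ℤ)) :=
  {S | HC 0 (3 * (3 ^ k * n : ℕ)) 0 ((3 ^ k * n : ℕ) : ℤ) S} ∩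
    {S | VC 0 ((3 ^ k * n : ℕ) : ℤ) 0 (3 * (3 ^ k * n : ℕ)) S}

theorem chain {n : ℕ} {S : Set (ℤ × ℤ)} (K : ℕ) (h : ∀ k < K + 1, S ∈ Cr n k) :
    ∃ v p q : ℤ × ℤ, v ∈ box 0 (3 * n) ∧ p.1 = 0 ∧ q.1 = 3 * (3 ^ K * n : ℕ) ∧
      Reach (S ∩ rect 0 (3 * (3 ^ K * n : ℕ)) 0 ((3 ^ K * n : ℕ) : ℤ)) p q ∧ Reach S v p := by
  induction K with
  | zero =>
    obtain ⟨⟨p, q, hp, hq, h1⟩, -⟩ := h 0 (by omega)
    refine ⟨p, p, q, ?_, hp, hq, h1, Reach.refl h1.left_mem.1⟩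
    have := h1.left_mem.2
    rw [mem_rect] at this
    rw [mem_box]
    simp only [pow_zero, one_mul, Prod.fst_zero, Prod.snd_zero] at this ⊢
    omega
  | succ K ih =>
    obtain ⟨v, p, q, hv, hp, hq, h1, h2⟩ := ih fun k hk => h k (by omega)
    obtain ⟨-, ⟨r, s, hr, hs, h3⟩⟩ := h K (by omega)
    obtain ⟨⟨p', q', hp', hq', h4⟩, -⟩ := h (K + 1) (by omega)
    have hpow : ((3 ^ (K + 1) * n : ℕ) : ℤ) = 3 * (3 ^ K * n : ℕ) := by
      push_cast; ring
    have hnn : (0 : ℤ) ≤ ((3 ^ K * n : ℕ) : ℤ) := Int.natCast_nonneg _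
    obtain ⟨z, hz1, hz2⟩ := meet (fun w hw => hw.2) (fun w hw => by
      have := hw.2
      rw [mem_rect] at this
      omega) h1 hp hq h3 hr.le (by omega)
    obtain ⟨z', hz1', hz2'⟩ := meet (fun w hw => hw.2) (fun w hw => by
      have := hw.2
      rw [mem_rect] at this
      omega) h4 hp' hq' h3 hr.le (by omega)
    refine ⟨v, p', q', hv, hp', hq', h4, ?_⟩
    have m1 : ∀ B : Set (ℤ × ℤ), S ∩ B ⊆ S := fun B => Set.inter_subset_left
    exact (((h2.trans (hz1.mono (m1 _))).trans (hz2.mono (m1 _)).symm).trans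
      (hz2'.mono (m1 _))).trans (hz1'.mono (m1 _)).symm

namespace PM

variable {μ : Measure (Set (ℤ × ℤ))} {κ : ℝ}

/-- **Finite size criterion.** -/
theorem criterion (h : PM μ κ) {n : ℕ} (hn : 1 ≤ n) (h0 : rr μ n ≤ 1 / 400)
    (hκn : 400 * κ / √n ≤ 1 / 800) (N : ℕ) :
    1 / (2 * (6 * n + 1) ^ 2) ≤ μ.real {S | Out 0 0 N S} := by
  have hprob := h.prob
  have hn' : (1 : ℝ) ≤ n := by exact_mod_cast hn
  -- crossings at all scales
  have hCr : ∀ k, μ.real (Cr n k)ᶜ ≤ 2 * (1 / 400 * (4 / 5) ^ k) := by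
    intro k
    have h1 := h.rr_decay hn h0 hκn k
    have e1 : μ.real {S | HC 0 (3 * (3 ^ k * n : ℕ)) 0 ((3 ^ k * n : ℕ) : ℤ) S}ᶜ =
        rr μ (3 ^ k * n) := by rw [h.compl (loc_HC _ _ _ _)]; rfl
    have e2 : μ.real {S | VC 0 ((3 ^ k * n : ℕ) : ℤ) 0 (3 * (3 ^ k * n : ℕ)) S}ᶜ =
        rr μ (3 ^ k * n) := by
      rw [h.compl (loc_VC _ _ _ _), h.vc_prob]
      simp only [sub_zero]
      rfl
    have h2 := measureReal_union_le (μ := μ)
      {S | HC 0 (3 * (3 ^ k * n : ℕ)) 0 ((3 ^ k * n : ℕ) : ℤ) S}ᶜ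
      {S | VC 0 ((3 ^ k * n : ℕ) : ℤ) 0 (3 * (3 ^ k * n : ℕ)) S}ᶜ
    rw [← Set.compl_inter] at h2
    change μ.real (Cr n k)ᶜ ≤ _ at h2
    linarith
  have hall : ∀ K : ℕ, 1 / 2 ≤ μ.real {S | ∀ k < K, S ∈ Cr n k} := by
    intro K
    have hloc : ∀ k, MeasurableSet (Cr n k) := fun k =>
      (loc_HC _ _ _ _).measurable.inter (loc_VC _ _ _ _).measurable
    have hm : MeasurableSet {S | ∀ k < K, S ∈ Cr n k} := by
      have : {S | ∀ k < K, S ∈ Cr n k} = ⋂ k ∈ Set.Iio K, Cr n k := by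
        ext S; simp
      rw [this]
      exact MeasurableSet.biInter (Set.to_countable _) fun k _ => hloc k
    have hc : {S | ∀ k < K, S ∈ Cr n k}ᶜ ⊆ ⋃ k ∈ range K, (Cr n k)ᶜ := by
      intro S hS
      simp only [Set.mem_compl_iff, Set.mem_ofPred_eq, not_forall] at hS
      obtain ⟨k, hk, hSk⟩ := hS
      rw [Set.mem_iUnion₂]
      exact ⟨k, mem_range.2 hk, hSk⟩
    have h1 := h.mono hc
    rw [probReal_compl_eq_one_sub hm] at h1
    have h2 : μ.real (⋃ k ∈ range K, (Cr n k)ᶜ) ≤ 1 / 40 := by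
      refine (measureReal_biUnion_finset_le _ _).trans ?_
      refine (sum_le_sum fun k _ => hCr k).trans ?_
      rw [← mul_sum, ← mul_sum]
      have h3 : ∑ i ∈ range K, (4 / 5 : ℝ) ^ i ≤ 5 := by
        rw [geom_sum_eq (by norm_num)]
        have : 0 ≤ (4 / 5 : ℝ) ^ K := by positivity
        rw [div_le_iff_of_neg (by norm_num)]
        linarith
      linarith
    linarith
  -- connection from the box of radius 3 n
  have hout : 1 / 2 ≤ μ.real {S | Out 0 (3 * n) ((N + 3 * n : ℕ) : ℤ) S} := by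
    refine (hall (N + 3 * n + 1)).trans (h.mono fun S hS => ?_)
    obtain ⟨v, p, q, hv, hp, hq, h1, h2⟩ := chain (N + 3 * n) hS
    have h3 : Reach S v q := h2.trans (h1.mono Set.inter_subset_left)
    have hlt : N + 3 * n ≤ 3 * (3 ^ (N + 3 * n) * n) := by
      have : N + 3 * n < 3 ^ (N + 3 * n) := Nat.lt_pow_self (by norm_num)
      nlinarith
    have hq' : ((N + 3 * n : ℕ) : ℤ) ≤ nrm 0 q := by
      rw [nrm_zero]
      refine le_trans ?_ (le_max_left _ _)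
      rw [hq]
      refine le_trans ?_ (le_abs_self _)
      exact_mod_cast hlt
    have hv' : nrm 0 v ≤ 3 * n := hv
    obtain ⟨y, hy, h4, -⟩ := Reach.first_hit' (f := nrm 0) (nrm_lip 0)
      (k := ((N + 3 * n : ℕ) : ℤ)) (by push_cast; omega) hq' h3
    exact ⟨v, y, hv, hy, h4⟩
  -- to a single point
  have hcov : {S | Out 0 (3 * n) ((N + 3 * n : ℕ) : ℤ) S} ⊆
      ⋃ v ∈ boxF 0 ((3 * n : ℕ) : ℤ), {S | Out v 0 N S} := by
    rintro S ⟨v, w, hv, hw, h1⟩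
    rw [Set.mem_iUnion₂]
    refine ⟨v, by rw [mem_boxF]; push_cast; exact hv, ?_⟩
    have hv' : nrm 0 v ≤ 3 * n := hv
    have h2 := nrm_triangle 0 v w
    push_cast at hw
    obtain ⟨y, hy, h4, -⟩ := Reach.first_hit' (f := nrm v) (nrm_lip v)
      (k := (N : ℤ)) (by rw [nrm_self]; positivity) (by linarith) h1
    refine ⟨v, y, ?_, hy, h4.mono ?_⟩
    · change nrm v v ≤ 0
      rw [nrm_self]
    · rintro p ⟨⟨hp, -⟩, hp2⟩
      exact ⟨hp, hp2⟩
  have htrn : ∀ (x : ℤ × ℤ), μ.real {S | Out x 0 N S} = μ.real {S | Out 0 0 N S} := by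
    intro x
    have := h.trn x _ _ (loc_Out 0 0 N)
    have h2 : {S | Pl.trn x ⁻¹' S ∈ {S | Out 0 0 N S}} = {S | Out x 0 N S} := by
      ext S
      refine Out_trn.trans ?_
      simp [Pl.trn]
    rw [h2] at this
    exact this
  have h5 := h.mono hcov
  have h6 : μ.real (⋃ v ∈ boxF 0 ((3 * n : ℕ) : ℤ), {S | Out v 0 N S}) ≤
      (6 * n + 1) ^ 2 * μ.real {S | Out 0 0 N S} := by
    refine (measureReal_biUnion_finset_le _ _).trans ?_
    rw [sum_congr rfl fun v _ => htrn v, sum_const, nsmul_eq_mul, card_boxF]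
    refine le_of_eq ?_
    push_cast
    ring
  rw [div_le_iff₀ (by positivity)]
  nlinarith

end PM

end Run7.h485.Pl
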