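import Pool.Agent.Run7.h485.Paths
import Pool.Agent.Run7.h485.Cond
import Pool.Agent.Run7.h485.Inter

/-!
# Second moment bound
-/

namespace Run7.h485

open Finset MeasureTheory Filter Topology
open Pool.Agent.H282R3.RW (V Dir vec nsq nsq_nonneg)
open scoped ENNReal

section

variable {X : Type*} [DecidableEq X]

/-- Second moment inequality for the existence of an avoided set in a random family. -/
theorem second_moment {ι : Type*} [Fintype ι] {c : Finset X → ℝ} {s : ℝ} {P : Measure (Set X)}
    (hP : IsLaw c s P) {wt : ι → ℝ} (hwt : ∀ i, 0 ≤ wt i) (hsum : ∑ i, wt i = 1)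
    (S : ι → Finset X) {C : ℝ}
    (hC : ∀ i, wt i ≠ 0 → ∑ j, wt j * Real.exp (s * (c (S i) + c (S j) - c (S i ∪ S j))) ≤ C)
    {E : Set (Set X)} (hE : MeasurableSet E)
    (hSE : ∀ i, wt i ≠ 0 → {I | ∀ x ∈ S i, x ∉ I} ⊆ E) : 1 ≤ C * P.real E := by
  have := hP.prob
  obtain ⟨i₀, hi₀⟩ : ∃ i, wt i ≠ 0 := by
    by_contra h
    push Not at h
    rw [sum_congr rfl fun i _ => h i] at hsum
    simp at hsum
  have hCpos : 0 < C := by
    refine lt_of_lt_of_le ?_ (hC i₀ hi₀)
    refine sum_pos' (fun j _ => mul_nonneg (hwt j) (Real.exp_pos _).le) ⟨i₀, mem_univ _, ?_⟩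
    exact mul_pos (lt_of_le_of_ne (hwt i₀) (Ne.symm hi₀)) (Real.exp_pos _)
  set Av : Finset X → Set (Set X) := fun K => {I | ∀ x ∈ K, x ∉ I} with hAv
  have hAvm : ∀ K, MeasurableSet (Av K) := fun K => measurableSet_avoid K
  have hPA : ∀ K, P.real (Av K) = Real.exp (-(s * c K)) := fun K => by
    rw [Measure.real, hP.avoid, ENNReal.toReal_ofReal (Real.exp_pos _).le]
  have hinter : ∀ K L, Av K ∩ Av L = Av (K ∪ L) := by
    intro K L
    ext I
    simp only [hAv, Set.mem_inter_iff, Set.mem_ofPred_eq, mem_union]
    exact ⟨fun h x hx => hx.elim (h.1 x) (h.2 x), fun h => ⟨fun x hx => h x (Or.inl hx),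
      fun x hx => h x (Or.inr hx)⟩⟩
  set a : ι → ℝ := fun i => wt i * Real.exp (s * c (S i)) with ha
  set p := P.real E with hp
  -- the nonnegative function
  set g : Set X → ℝ := fun I => (∑ i, a i * (Av (S i)).indicator 1 I - C * E.indicator 1 I) ^ 2
    with hg
  have hexp : ∀ I, g I = ∑ i, ∑ j, a i * a j * (Av (S i) ∩ Av (S j)).indicator 1 I -
      2 * C * ∑ i, a i * (Av (S i) ∩ E).indicator 1 I + C ^ 2 * E.indicator 1 I := by
    intro I
    simp only [hg]
    have h1 : (∑ i, a i * (Av (S i)).indicator (1 : Set X → ℝ) I) ^ 2 =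
        ∑ i, ∑ j, a i * a j * (Av (S i) ∩ Av (S j)).indicator 1 I := by
      rw [sq, sum_mul_sum]
      refine sum_congr rfl fun i _ => sum_congr rfl fun j _ => ?_
      rw [Set.inter_indicator_one]
      simp only [Pi.mul_apply]
      ring
    have h2 : (∑ i, a i * (Av (S i)).indicator (1 : Set X → ℝ) I) * E.indicator 1 I =
        ∑ i, a i * (Av (S i) ∩ E).indicator 1 I := by
      rw [sum_mul]
      refine sum_congr rfl fun i _ => ?_
      rw [Set.inter_indicator_one]
      simp only [Pi.mul_apply]
      ring
    have h3 : (E.indicator (1 : Set X → ℝ) I) ^ 2 = E.indicator 1 I := by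
      by_cases h : I ∈ E <;> simp [h]
    calc _ = (∑ i, a i * (Av (S i)).indicator (1 : Set X → ℝ) I) ^ 2 -
          2 * C * ((∑ i, a i * (Av (S i)).indicator (1 : Set X → ℝ) I) * E.indicator 1 I) +
          C ^ 2 * (E.indicator (1 : Set X → ℝ) I) ^ 2 := by ring
      _ = _ := by rw [h1, h2, h3]
  have hint : ∀ A : Set (Set X), MeasurableSet A → Integrable (A.indicator (1 : Set X → ℝ)) P :=
    fun A hA => (integrable_const (1 : ℝ)).indicator hA
  have hival : ∀ A : Set (Set X), MeasurableSet A → ∫ I, A.indicator (1 : Set X → ℝ) I ∂P = P.real A :=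
    fun A hA => by rw [integral_indicator_one hA]
  have h0 : 0 ≤ ∫ I, g I ∂P := integral_nonneg fun I => sq_nonneg _
  have hgi : ∫ I, g I ∂P = ∑ i, ∑ j, a i * a j * P.real (Av (S i) ∩ Av (S j)) -
      2 * C * ∑ i, a i * P.real (Av (S i) ∩ E) + C ^ 2 * p := by
    have i1 : Integrable (fun I => ∑ i, ∑ j, a i * a j *
        (Av (S i) ∩ Av (S j)).indicator (1 : Set X → ℝ) I) P :=
      integrable_finset_sum _ fun i _ => integrable_finset_sum _ fun j _ =>
        (hint _ ((hAvm _).inter (hAvm _))).const_mul _
    have i2 : Integrable (fun I => 2 * C * ∑ i, a i *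
        (Av (S i) ∩ E).indicator (1 : Set X → ℝ) I) P :=
      (integrable_finset_sum _ fun i _ => (hint _ ((hAvm _).inter hE)).const_mul _).const_mul _
    have i3 : Integrable (fun I => C ^ 2 * E.indicator (1 : Set X → ℝ) I) P :=
      (hint _ hE).const_mul _
    have i12 : Integrable (fun I => ∑ i, ∑ j, a i * a j *
        (Av (S i) ∩ Av (S j)).indicator (1 : Set X → ℝ) I - 2 * C * ∑ i, a i *
        (Av (S i) ∩ E).indicator (1 : Set X → ℝ) I) P := i1.sub i2
    rw [integral_congr_ae (Filter.Eventually.of_forall hexp), integral_add i12 i3,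
      integral_sub i1 i2, integral_const_mul, integral_const_mul, hival E hE]
    congr 2
    · rw [integral_finset_sum _ fun i _ => integrable_finset_sum _ fun j _ =>
        (hint _ ((hAvm _).inter (hAvm _))).const_mul _]
      refine sum_congr rfl fun i _ => ?_
      rw [integral_finset_sum _ fun j _ => (hint _ ((hAvm _).inter (hAvm _))).const_mul _]
      refine sum_congr rfl fun j _ => ?_
      rw [integral_const_mul, hival _ ((hAvm _).inter (hAvm _))]
    · congr 1
      rw [integral_finset_sum _ fun i _ => (hint _ ((hAvm _).inter hE)).const_mul _]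
      refine sum_congr rfl fun i _ => ?_
      rw [integral_const_mul, hival _ ((hAvm _).inter hE)]
  have hfirst : ∑ i, a i * P.real (Av (S i) ∩ E) = 1 := by
    rw [← hsum]
    refine sum_congr rfl fun i _ => ?_
    by_cases hi : wt i = 0
    · simp [ha, hi]
    · rw [Set.inter_eq_left.2 (hSE i hi), hPA]
      simp only [ha]
      rw [mul_assoc, ← Real.exp_add]
      simp
  have hsecond : ∑ i, ∑ j, a i * a j * P.real (Av (S i) ∩ Av (S j)) ≤ C := by
    calc ∑ i, ∑ j, a i * a j * P.real (Av (S i) ∩ Av (S j))
        = ∑ i, wt i * ∑ j, wt j * Real.exp (s * (c (S i) + c (S j) - c (S i ∪ S j))) := by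
          refine sum_congr rfl fun i _ => ?_
          rw [mul_sum]
          refine sum_congr rfl fun j _ => ?_
          rw [hinter, hPA]
          simp only [ha]
          have : s * (c (S i) + c (S j) - c (S i ∪ S j)) =
            s * c (S i) + s * c (S j) + -(s * c (S i ∪ S j)) := by ring
          rw [this, Real.exp_add, Real.exp_add]
          ring
      _ ≤ ∑ i, wt i * C := by
          refine sum_le_sum fun i _ => ?_
          by_cases hi : wt i = 0
          · simp [hi]
          · exact mul_le_mul_of_nonneg_left (hC i hi) (hwt i)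
      _ = C := by rw [← sum_mul, hsum, one_mul]
  rw [hgi, hfirst] at h0
  have h1 : 0 ≤ C - 2 * C * 1 + C ^ 2 * p := by linarith
  have h2 : 0 ≤ C * (C * p - 1) := by linarith [h1, (by ring : C * (C * p - 1) = C - 2 * C * 1 + C ^ 2 * p)]
  have h3 := nonneg_of_mul_nonneg_right h2 hCpos
  linarith

end

noncomputable section

variable {d : ℕ} [NeZero d]

/-- the mutual capacity of two finite sets -/
theorem mutual_cap (hd : 76 ≤ d) (A B : Finset (V d)) :
    cap A + cap B - cap (A ∪ B) ≤ (A ∩ B).card + 82 / d * ∑ y ∈ B, pot A y := by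
  have hd' : (0 : ℝ) < d := by
    have : (76 : ℝ) ≤ d := by exact_mod_cast hd
    linarith
  refine (hitFun_cap.mutual_le A B).trans ?_
  have h1 : ∀ x ∈ A, ∀ y ∈ B, cap {x} + cap {y} - cap ({x} ∪ {y}) ≤
      (if x = y then (1 : ℝ) else 0) + 82 / d * phi (y - x) := by
    intro x _ y _
    by_cases h : x = y
    · subst h
      rw [union_self, if_pos rfl]
      have := cap_singleton_le x
      have : 0 ≤ 82 / (d : ℝ) * phi (x - x) := mul_nonneg (by positivity) (phi_pos _).le
      linarith
    · rw [if_neg h, zero_add]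
      have h2 := cap_pair hd h
      have h3 : phi (y - x) = phi (x - y) := by unfold phi; rw [nsq_sub_comm]
      rw [h3]; exact h2
  refine (sum_le_sum fun x hx => sum_le_sum fun y hy => h1 x hx y hy).trans (le_of_eq ?_)
  simp only [sum_add_distrib]
  congr 1
  · rw [sum_congr rfl fun x _ => sum_ite_eq B x fun _ => (1 : ℝ), ← sum_filter, sum_const]
    simp [filter_mem_eq_inter]
  · rw [mul_sum, sum_comm]
    refine sum_congr rfl fun y _ => ?_
    unfold pot
    rw [mul_sum]

/-- the Markov recursion solution -/
def Zrec (M : ℕ) (φ : V d → ℝ) : ℕ → St d → ℝ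
  | 0, _ => 1
  | k + 1, s => T M (fun s' => φ s'.2 * Zrec M φ k s') s

/-- **Lower bound for `θ`.** -/
theorem theta_lower {M : ℕ} {δ Λ ρ r A W x : ℝ} (hN : Num d M δ Λ ρ r A W x) {u t : ℝ}
    (hu : 0 < u) (ht0 : 0 < t) (ht1 : t < 1) (hΛ : Real.exp (u / (1 - t)) ≤ 1 + Λ)
    (hlong : 192 * (82 * u / (d * t)) * ((M : ℝ) + 1) ≤ 1) : 0 < theta d u := by
  classical
  have hMd := hN.hMd
  have hM2 := hN.hM2
  have hM : M + 1 < d := by omega
  have hM1 : 1 ≤ M := by omega
  have hd76 : 76 ≤ d := by omega
  have hdpos : (0 : ℝ) < d := by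
    have : (76 : ℝ) ≤ d := by exact_mod_cast hd76
    linarith
  have hΛ1 := hN.hΛ
  have hA1 := hN.hA
  have hP : IsLaw (cap : Finset (V d) → ℝ) u (interlacement d u) :=
    isLaw_iff.2 (interlacement_spec hu.le)
  have := hP.prob
  set κ : ℝ := 82 * u / (d * t) with hκ
  have hκ0 : 0 ≤ κ := by rw [hκ]; positivity
  set C : ℝ := (1 + Λ) * (2 * (A + 1)) + 2 * Real.exp 1 with hC
  have hCpos : 0 < C := by rw [hC]; positivity
  have hstart := inv_start (d := d) M
  -- the bound for every path of the family
  have hkey : ∀ k : ℕ, 1 ≤ C * (interlacement d u).real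
      (Ev (lattice d) 0 (fun K => (K.card : ℝ)) ((k : ℝ) + 1)) := by
    intro k
    refine second_moment hP (wt := fun ω : Idx d k => wtp M k ({0}, 0) ω)
      (fun ω => wtp_nonneg hM k _ ω) (sum_wtp hM k _ hstart.valid)
      (fun ω => vis M k ({0}, 0) {0} ω) ?_ (measurableSet_Ev _ _ _ _) ?_
    · intro ω hω
      obtain ⟨g1, g2, g3, g4, g5⟩ := vis_good k _ _ hstart ω hω
      set γ := vis M k ({0}, 0) {0} ω with hγ
      have hcontact : ∑ ω', wtp M k ({0}, 0) ω' *
          (∏ y ∈ vis M k ({0}, 0) {0} ω', (1 + if y ∈ γ then Λ else 0)) ≤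
          (1 + Λ) * (2 * (A + 1)) := by
        have h1 := expect_prod hM (F := fun S => ∏ y ∈ S, (1 + if y ∈ γ then Λ else 0))
          (φ := fun y => 1 + if y ∈ γ then Λ else 0)
          (fun y => by split_ifs <;> linarith)
          (fun S y => by
            by_cases hy : y ∈ S
            · rw [insert_eq_self.2 hy]
              refine le_mul_of_one_le_left (prod_nonneg fun z _ => ?_) ?_ <;> split_ifs <;> linarith
            · rw [prod_insert hy])
          (Z := Zrec M fun y => 1 + if y ∈ γ then Λ else 0) (fun _ => rfl) (fun _ _ => rfl) k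
          ({0}, 0) {0}
        refine h1.trans ?_
        have h2 := contact_bound hN g1 g2 g3
          (Z := Zrec M fun y => 1 + if y ∈ γ then Λ else 0) (fun _ => rfl) (fun _ _ => rfl) k
        rw [prod_singleton, if_pos g3]
        exact mul_le_mul_of_nonneg_left h2 (by linarith)
      have hlongr : ∑ ω', wtp M k ({0}, 0) ω' *
          Real.exp (κ * ∑ y ∈ vis M k ({0}, 0) {0} ω', pot γ y) ≤ 2 * Real.exp 1 := by
        have h1 := expect_prod hM (F := fun S => Real.exp (κ * ∑ y ∈ S, pot γ y))
          (φ := fun y => Real.exp (κ * pot γ y))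
          (fun y => (Real.exp_pos _).le)
          (fun S y => by
            by_cases hy : y ∈ S
            · rw [insert_eq_self.2 hy]
              refine le_mul_of_one_le_left (Real.exp_pos _).le
                (Real.one_le_exp (mul_nonneg hκ0 (pot_nonneg _ _)))
            · rw [sum_insert hy, mul_add, Real.exp_add])
          (Z := Zrec M fun y => Real.exp (κ * pot γ y)) (fun _ => rfl) (fun _ _ => rfl) k
          ({0}, 0) {0}
        refine h1.trans ?_
        have h2 := long_bound hM1 hMd g1 hκ0 hlong
          (Z := Zrec M fun y => Real.exp (κ * pot γ y)) (fun _ => rfl) (fun _ _ => rfl) k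
          hstart.valid
        rw [sum_singleton]
        have h3 : κ * pot γ 0 ≤ 1 := by
          have h4 := mul_le_mul_of_nonneg_left (pot_le g1 (0 : V d)) hκ0
          have h5 : 0 ≤ κ * ((M : ℝ) + 1) := by positivity
          linarith
        calc Real.exp (κ * pot γ 0) * Zrec M (fun y => Real.exp (κ * pot γ y)) k ({0}, 0)
            ≤ Real.exp 1 * 2 := mul_le_mul (Real.exp_le_exp.2 h3) h2 (by
                have : ∀ (k : ℕ) (s : St d), 0 ≤ Zrec M (fun y => Real.exp (κ * pot γ y)) k s := by
                  intro k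
                  induction k with
                  | zero => intro s; exact zero_le_one
                  | succ k ih =>
                    intro s
                    exact sum_nonneg fun e _ => mul_nonneg (wt1_nonneg hM s e)
                      (mul_nonneg (Real.exp_pos _).le (ih _))
                exact this _ _) (Real.exp_pos _).le
          _ = _ := by ring
      calc ∑ ω', wtp M k ({0}, 0) ω' * Real.exp (u * (cap γ + cap (vis M k ({0}, 0) {0} ω') -
            cap (γ ∪ vis M k ({0}, 0) {0} ω')))
          ≤ ∑ ω', (wtp M k ({0}, 0) ω' *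
            (∏ y ∈ vis M k ({0}, 0) {0} ω', (1 + if y ∈ γ then Λ else 0)) +
            wtp M k ({0}, 0) ω' * Real.exp (κ * ∑ y ∈ vis M k ({0}, 0) {0} ω', pot γ y)) := by
            refine sum_le_sum fun ω' _ => ?_
            rw [← mul_add]
            refine mul_le_mul_of_nonneg_left ?_ (wtp_nonneg hM k _ ω')
            set S := vis M k ({0}, 0) {0} ω' with hS
            set N : ℝ := ((γ ∩ S).card : ℝ) with hN'
            set L : ℝ := 82 / d * ∑ y ∈ S, pot γ y with hL
            have hmut := mutual_cap hd76 γ S
            have e1 : u * (cap γ + cap S - cap (γ ∪ S)) ≤ u * (N + L) :=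
              mul_le_mul_of_nonneg_left hmut hu.le
            have e2 : Real.exp (u * (N + L)) ≤ (1 - t) * Real.exp (u / (1 - t) * N) +
                t * Real.exp (u / t * L) := by
              have := convexOn_exp.2 (Set.mem_univ (u / (1 - t) * N)) (Set.mem_univ (u / t * L))
                (by linarith : 0 ≤ 1 - t) ht0.le (by ring)
              simp only [smul_eq_mul] at this
              have e3 : (1 - t) * (u / (1 - t) * N) + t * (u / t * L) = u * (N + L) := by
                have : 1 - t ≠ 0 := by linarith
                field_simp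
              rw [e3] at this
              exact this
            have e4 : Real.exp (u / (1 - t) * N) ≤ ∏ y ∈ S, (1 + if y ∈ γ then Λ else 0) := by
              have h5 : ∏ y ∈ S, (1 + if y ∈ γ then Λ else 0) = (1 + Λ) ^ (γ ∩ S).card := by
                have h6 : ∀ y ∈ S, (1 + if y ∈ γ then Λ else 0) = if y ∈ γ then 1 + Λ else 1 := by
                  intro y _; split_ifs <;> ring
                rw [prod_congr rfl h6, prod_ite, prod_const_one, mul_one, prod_const]
                congr 2
                ext y
                simp [and_comm]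
              rw [h5, hN', mul_comm, Real.exp_nat_mul]
              exact pow_le_pow_left₀ (Real.exp_pos _).le hΛ _
            have e5 : u / t * L = κ * ∑ y ∈ S, pot γ y := by
              rw [hL, hκ]
              field_simp
            rw [e5] at e2
            have h6 : 0 < Real.exp (u / (1 - t) * N) := Real.exp_pos _
            have h7 : 0 < Real.exp (κ * ∑ y ∈ S, pot γ y) := Real.exp_pos _
            calc Real.exp (u * (cap γ + cap S - cap (γ ∪ S))) ≤ Real.exp (u * (N + L)) :=
                  Real.exp_le_exp.2 e1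
              _ ≤ (1 - t) * Real.exp (u / (1 - t) * N) + t * Real.exp (κ * ∑ y ∈ S, pot γ y) := e2
              _ ≤ Real.exp (u / (1 - t) * N) + Real.exp (κ * ∑ y ∈ S, pot γ y) := by
                  nlinarith
              _ ≤ _ := by linarith
        _ ≤ C := by
            rw [sum_add_distrib, hC]
            exact add_le_add hcontact hlongr
    · intro ω hω
      obtain ⟨g1, g2, g3, g4, g5⟩ := vis_good k _ _ hstart ω hω
      intro I hI
      refine ⟨vis M k ({0}, 0) {0} ω, g3, g4, hI, ?_⟩
      simp only
      rw [g5, card_singleton]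
      push_cast
      linarith
  have hlim := tendsto_Ev_nat (G := lattice d) (o := 0) hitFun_card
    (fun C hC m => by
      obtain ⟨n, hn⟩ := exists_nat_ge m
      obtain ⟨K, hK, hcard⟩ := hC.exists_subset_card_eq n
      exact ⟨K, hK, by rw [hcard]; exact hn⟩) (interlacement d u)
  have hge : 1 / C ≤ (interlacement d u).real (Inf' (lattice d) 0) := by
    refine ge_of_tendsto' hlim fun k => ?_
    rw [div_le_iff₀ hCpos]
    have := hkey k
    linarith
  have : theta d u = (interlacement d u).real (Inf' (lattice d) 0) := rfl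
  rw [this]
  exact lt_of_lt_of_le (by positivity) hge

end

end Run7.h485
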