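import Pool.Agent.Run7.h485.Arms

/-!
# Percolation implies long crossings with probability close to one
-/

namespace Run7.h485.Pl

open Finset MeasureTheory Filter Topology

/-- the annulus -/
noncomputable def annF (s : ℤ) : Finset (ℤ × ℤ) := (boxF 0 (2 * s)).filter fun p => s ≤ nrm 0 p

theorem mem_annF {s : ℤ} {p : ℤ × ℤ} : p ∈ annF s ↔ s ≤ nrm 0 p ∧ nrm 0 p ≤ 2 * s := by
  rw [annF, mem_filter, mem_boxF, and_comm]
  rfl

theorem loc_Ring {s : ℤ} (hs : 0 ≤ s) : Loc (annF s) {S | Ring s S} := by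
  have e1 : rectF (-(2 * s)) (2 * s) s (2 * s) ⊆ annF s := by
    intro p hp
    rw [mem_rectF, mem_rect] at hp
    rw [mem_annF, nrm_zero]
    simp only [abs_eq_max_neg]; omega
  have e2 : rectF (-(2 * s)) (2 * s) (-(2 * s)) (-s) ⊆ annF s := by
    intro p hp
    rw [mem_rectF, mem_rect] at hp
    rw [mem_annF, nrm_zero]
    simp only [abs_eq_max_neg]; omega
  have e3 : rectF (-(2 * s)) (-s) (-(2 * s)) (2 * s) ⊆ annF s := by
    intro p hp
    rw [mem_rectF, mem_rect] at hp
    rw [mem_annF, nrm_zero]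
    simp only [abs_eq_max_neg]; omega
  have e4 : rectF s (2 * s) (-(2 * s)) (2 * s) ⊆ annF s := by
    intro p hp
    rw [mem_rectF, mem_rect] at hp
    rw [mem_annF, nrm_zero]
    simp only [abs_eq_max_neg]; omega
  exact (((loc_HC _ _ _ _).mono e1).inter ((loc_HC _ _ _ _).mono e2)).inter
    (((loc_VC _ _ _ _).mono e3).inter ((loc_VC _ _ _ _).mono e4))

theorem card_boxF (z : ℤ × ℤ) (M : ℕ) : ((boxF z M).card : ℝ) = (2 * M + 1) ^ 2 := by
  rw [boxF, card_rectF]
  have e1 : (z.1 + (M : ℤ) + 1 - (z.1 - M)).toNat = 2 * M + 1 := by omega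
  have e2 : (z.2 + (M : ℤ) + 1 - (z.2 - M)).toNat = 2 * M + 1 := by omega
  rw [e1, e2]
  push_cast
  ring

theorem card_annF_le (s : ℕ) : ((annF s).card : ℝ) ≤ (4 * s + 1) ^ 2 := by
  have h1 : ((annF s).card : ℝ) ≤ ((boxF 0 ((2 * s : ℕ) : ℤ)).card : ℝ) := by
    have : (annF s) ⊆ boxF 0 ((2 * s : ℕ) : ℤ) := by
      rw [annF]
      push_cast
      exact filter_subset _ _
    exact_mod_cast card_le_card this
  rw [card_boxF] at h1
  refine h1.trans (le_of_eq ?_)
  push_cast
  ring

theorem nrm_triangle (x y z : ℤ × ℤ) : nrm x z ≤ nrm x y + nrm y z := by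
  unfold nrm
  simp only [abs_eq_max_neg]
  omega

theorem nrm_symm (x y : ℤ × ℤ) : nrm x y = nrm y x := by
  unfold nrm
  simp only [abs_eq_max_neg]
  omega

theorem nrm_self (x : ℤ × ℤ) : nrm x x = 0 := by simp [nrm]

theorem Out.mono_N {z : ℤ × ℤ} {m M N : ℤ} (hmM : m ≤ M) (hMN : M ≤ N) {S : Set (ℤ × ℤ)}
    (h : Out z m N S) : Out z m M S := by
  obtain ⟨v, w, hv, hw, h⟩ := h
  obtain ⟨y, hy, h1⟩ := exit_box hmM hMN hv (by omega) h
  exact ⟨v, y, hv, hy, h1⟩

namespace PM

variable {μ : Measure (Set (ℤ × ℤ))} {κ : ℝ}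

/-- a convenient upper bound from the decoupling inequality -/
theorem mix_le (h : PM μ κ) {K₁ K₂ : Finset (ℤ × ℤ)} {E F : Set (Set (ℤ × ℤ))} {D : ℕ}
    (hD : 1 ≤ D) (hE : Loc K₁ E) (hF : Loc K₂ F) (hd : ∀ x ∈ K₁, ∀ y ∈ K₂, (D : ℤ) ≤ nrm x y) :
    μ.real (E ∩ F) ≤ μ.real E * μ.real F + κ * ((K₁.card : ℝ) * (K₂.card : ℝ)) / (D : ℝ) ^ 4 := by
  have h1 := (abs_le.1 (h.mix K₁ K₂ E F D hD hE hF hd)).2
  have hD' : (1 : ℝ) ≤ D := by exact_mod_cast hD
  have h2 : κ * ((K₁.card : ℝ) * (K₂.card : ℝ)) / ((D : ℝ) ^ 4 * √D) ≤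
      κ * ((K₁.card : ℝ) * (K₂.card : ℝ)) / (D : ℝ) ^ 4 := by
    have hs : 1 ≤ √(D : ℝ) := Real.one_le_sqrt.2 hD'
    refine div_le_div_of_nonneg_left (mul_nonneg h.kappa (by positivity)) (by positivity) ?_
    exact le_mul_of_one_le_right (by positivity) hs
  linarith

/-- Rings at infinitely many scales with positive probability give local uniqueness. -/
theorem lu_prob (h : PM μ κ) {p₀ : ℝ} (hp₀ : 0 < p₀)
    (hR : ∀ n₀ : ℕ, ∃ s : ℕ, n₀ ≤ s ∧ p₀ ≤ μ.real {S | Ring s S}) (m : ℕ) {ε : ℝ} (hε : 0 < ε) :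
    ∃ M : ℕ, m ≤ M ∧ 1 - ε ≤ μ.real {S | LU 0 m M S} := by
  have hprob := h.prob
  have hp1 : p₀ ≤ 1 := by
    obtain ⟨s, -, hs⟩ := hR 0
    exact hs.trans (h.le_one _)
  obtain ⟨k₀, hk₀⟩ := exists_pow_lt_of_lt_one (show 0 < ε / 2 by positivity)
    (show 1 - p₀ < 1 by linarith)
  set ε' : ℝ := ε / (2 * (k₀ + 1)) with hε'
  have hε'0 : 0 < ε' := by positivity
  have key : ∀ k : ℕ, ∃ M : ℕ, m ≤ M ∧ ∃ E : Set (Set (ℤ × ℤ)), Loc (boxF 0 M) E ∧
      Eᶜ ⊆ {S | LU 0 m M S} ∧ μ.real E ≤ (1 - p₀) ^ k + k * ε' := by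
    intro k
    induction k with
    | zero =>
      refine ⟨m, le_rfl, Set.univ, Loc.univ, by simp, ?_⟩
      simp
    | succ k ih =>
      obtain ⟨M, hmM, E, hE, hEc, hEp⟩ := ih
      obtain ⟨n₁, hn₁⟩ := exists_nat_gt (κ * ((2 * M + 1) ^ 2 * 400) / ε')
      obtain ⟨s, hs, hsp⟩ := hR (max (max n₁ (2 * M)) (max m 2))
      have g1 : n₁ ≤ s := (le_max_left _ _).trans ((le_max_left _ _).trans hs)
      have g2 : 2 * M ≤ s := (le_max_right _ _).trans ((le_max_left _ _).trans hs)
      have g3 : m ≤ s := (le_max_left _ _).trans ((le_max_right _ _).trans hs)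
      have g4 : 2 ≤ s := (le_max_right _ _).trans ((le_max_right _ _).trans hs)
      have hLR : Loc (annF s) {S | Ring s S} := loc_Ring (by positivity)
      refine ⟨2 * s, by omega, E ∩ {S | Ring s S}ᶜ, ?_, ?_, ?_⟩
      · refine (hE.mono fun p hp => ?_).inter ((hLR.mono fun p hp => ?_).compl)
        · rw [mem_boxF] at hp ⊢
          exact box_mono (by push_cast; omega) hp
        · rw [mem_annF] at hp
          rw [mem_boxF]
          have : nrm 0 p ≤ ((2 * s : ℕ) : ℤ) := by push_cast; exact hp.2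
          exact this
      · rw [Set.compl_inter, compl_compl]
        rintro S (hS | hS)
        · exact LU.extend (by exact_mod_cast hmM) (by push_cast; omega) (hEc hS)
        · have := Ring.lu (s := s) (m := m) (by positivity) (by exact_mod_cast g3) hS
          change LU 0 m ((2 * s : ℕ) : ℤ) S
          push_cast
          exact this
      · have hD : 1 ≤ s - M := by omega
        have hmix := h.mix_le hD hE hLR.compl (fun x hx y hy => by
          rw [mem_boxF] at hx
          have hx' : nrm 0 x ≤ M := hx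
          have hy' := (mem_annF.1 hy).1
          have := nrm_triangle 0 x y
          push_cast [Nat.cast_sub (show M ≤ s by omega)]
          linarith)
        rw [h.compl hLR] at hmix
        have hM : (0 : ℝ) ≤ M := Nat.cast_nonneg M
        have hs0 : (2 : ℝ) ≤ s := by exact_mod_cast g4
        have c1 : μ.real E * (1 - μ.real {S | Ring s S}) ≤ (1 - p₀) ^ (k + 1) + k * ε' := by
          calc μ.real E * (1 - μ.real {S | Ring s S}) ≤ μ.real E * (1 - p₀) :=
                mul_le_mul_of_nonneg_left (by linarith) measureReal_nonneg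
            _ ≤ ((1 - p₀) ^ k + k * ε') * (1 - p₀) :=
                mul_le_mul_of_nonneg_right hEp (by linarith)
            _ ≤ (1 - p₀) ^ (k + 1) + k * ε' := by
                have : 0 ≤ k * ε' * p₀ := by positivity
                rw [pow_succ]; nlinarith
        have c2 : κ * (((boxF 0 M).card : ℝ) * ((annF s).card : ℝ)) / (((s - M : ℕ) : ℝ)) ^ 4 ≤ ε' := by
          have hsM : (s : ℝ) / 2 ≤ ((s - M : ℕ) : ℝ) := by
            have : (s : ℝ) ≤ 2 * ((s - M : ℕ) : ℝ) := by
              have : s ≤ 2 * (s - M) := by omega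
              exact_mod_cast this
            linarith
          have e1 : ((annF s).card : ℝ) ≤ 25 * s ^ 2 := by
            refine (card_annF_le s).trans ?_
            nlinarith
          have e2 : ((s : ℝ) / 2) ^ 4 ≤ ((s - M : ℕ) : ℝ) ^ 4 :=
            pow_le_pow_left₀ (by positivity) hsM 4
          have hκ := h.kappa
          rw [card_boxF]
          calc κ * ((2 * (M : ℝ) + 1) ^ 2 * ((annF s).card : ℝ)) / (((s - M : ℕ) : ℝ)) ^ 4
              ≤ κ * ((2 * (M : ℝ) + 1) ^ 2 * (25 * s ^ 2)) / ((s : ℝ) / 2) ^ 4 := by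
                refine div_le_div₀ (by positivity) ?_ (by positivity) e2
                exact mul_le_mul_of_nonneg_left
                  (mul_le_mul_of_nonneg_left e1 (by positivity)) hκ
            _ = κ * ((2 * M + 1) ^ 2 * 400) / s ^ 2 := by
                field_simp
                ring
            _ ≤ κ * ((2 * M + 1) ^ 2 * 400) / s := by
                refine div_le_div_of_nonneg_left (by positivity) (by positivity) ?_
                nlinarith
            _ ≤ ε' := by
                rw [div_le_iff₀ (by positivity)]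
                rw [div_lt_iff₀ hε'0] at hn₁
                have : (n₁ : ℝ) ≤ s := by exact_mod_cast g1
                nlinarith
        push_cast
        linarith
  obtain ⟨M, hmM, E, hE, hEc, hEp⟩ := key k₀
  refine ⟨M, hmM, ?_⟩
  have h1 := h.mono hEc
  rw [h.compl hE] at h1
  have h2 : (k₀ : ℝ) * ε' ≤ ε / 2 := by
    rw [hε', mul_div_assoc', div_le_div_iff₀ (by positivity) (by norm_num)]
    nlinarith
  linarith

/-- Percolation implies that large boxes are connected to infinity with large probability. -/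
theorem seeds (h : PM μ κ) {θ : ℝ} (hθ : 0 < θ) (hO : ∀ N : ℕ, θ ≤ μ.real {S | Out 0 0 N S})
    {η : ℝ} (hη : 0 < η) : ∃ m : ℕ, ∀ N : ℕ, m ≤ N → 1 - η ≤ μ.real {S | Out 0 m N S} := by
  have hprob := h.prob
  have hθ1 : θ ≤ 1 := (hO 0).trans (h.le_one _)
  set t : ℕ → ℝ := fun N => μ.real {S | Out 0 0 N S} with ht
  have hanti : ∀ N N' : ℕ, N ≤ N' → t N' ≤ t N := fun N N' hN =>
    h.mono fun S hS => Out.mono_N (by positivity) (by exact_mod_cast hN) hS
  obtain ⟨k, hk⟩ := exists_pow_lt_of_lt_one (show 0 < η / 3 by positivity)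
    (show 1 - θ < 1 by linarith)
  set ε : ℝ := η / (3 * (k + 1)) with hε
  have hε0 : 0 < ε := by positivity
  have hbdd : BddBelow (Set.range t) := ⟨0, by rintro _ ⟨N, rfl⟩; exact measureReal_nonneg⟩
  obtain ⟨R, hR⟩ := exists_lt_of_ciInf_lt (show (⨅ N, t N) < (⨅ N, t N) + ε by linarith)
  have hR' : ∀ N, t R - t N ≤ ε := fun N => by
    have := ciInf_le hbdd N
    linarith
  have htrn : ∀ (x : ℤ × ℤ) (N : ℕ), μ.real {S | Out x 0 N S} = t N := by
    intro x N
    have := h.trn x _ _ (loc_Out 0 0 N)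
    have h2 : {S | Pl.trn x ⁻¹' S ∈ {S | Out 0 0 N S}} = {S | Out x 0 N S} := by
      ext S
      refine Out_trn.trans ?_
      simp [Pl.trn]
    rw [h2] at this
    exact this
  obtain ⟨D, hD⟩ := exists_nat_gt (κ * ((k * (2 * R + 1) ^ 2) * (2 * R + 1) ^ 2) / ε)
  set D' := D + 1 with hD'
  set L := D' + 2 * R with hL
  set x : ℕ → ℤ × ℤ := fun i => ((i : ℤ) * L, 0) with hx
  set G : ℕ → Set (Set (ℤ × ℤ)) := fun i => {S | Out (x i) 0 R S}ᶜ with hG
  have hGloc : ∀ i, Loc (boxF (x i) R) (G i) := fun i => (loc_Out _ _ _).compl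
  have hGp : ∀ i, μ.real (G i) ≤ 1 - θ := by
    intro i
    rw [hG]
    simp only
    rw [h.compl (loc_Out _ _ _), htrn]
    have := hO R
    linarith
  have key : ∀ j : ℕ, j ≤ k → Loc ((range j).biUnion fun i => boxF (x i) R) {S | ∀ i < j, S ∈ G i} ∧
      μ.real {S | ∀ i < j, S ∈ G i} ≤ (1 - θ) ^ j + j * ε := by
    intro j
    induction j with
    | zero =>
      intro _
      have : {S : Set (ℤ × ℤ) | ∀ i < 0, S ∈ G i} = Set.univ := by
        ext S; simp
      rw [this]
      exact ⟨Loc.univ, by simp⟩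
    | succ j ih =>
      intro hj
      obtain ⟨ih1, ih2⟩ := ih (by omega)
      have hset : {S : Set (ℤ × ℤ) | ∀ i < j + 1, S ∈ G i} = {S | ∀ i < j, S ∈ G i} ∩ G j := by
        ext S
        simp only [Set.mem_ofPred_eq, Set.mem_inter_iff]
        constructor
        · intro hS; exact ⟨fun i hi => hS i (by omega), hS j (by omega)⟩
        · rintro ⟨h1, h2⟩ i hi
          rcases Nat.lt_succ_iff_lt_or_eq.1 hi with h3 | h3
          · exact h1 i h3
          · rw [h3]; exact h2
      rw [hset]
      refine ⟨(ih1.mono ?_).inter ((hGloc j).mono ?_), ?_⟩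
      · exact biUnion_subset_biUnion_of_subset_left _ (range_subset_range.2 (by omega))
      · exact subset_biUnion_of_mem (fun i => boxF (x i) (R : ℤ)) (mem_range.2 (by omega))
      · have hmix := h.mix_le (D := D') (by omega) ih1 (hGloc j) (fun p hp q hq => by
          rw [mem_biUnion] at hp
          obtain ⟨i, hi, hp⟩ := hp
          rw [mem_range] at hi
          rw [mem_boxF] at hp hq
          have hp' := mem_box.1 hp
          have hq' := mem_box.1 hq
          simp only [hx] at hp' hq'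
          have e1 : ((i : ℤ) + 1) * L ≤ j * L := by
            refine mul_le_mul_of_nonneg_right ?_ (by positivity)
            have : (i : ℤ) + 1 ≤ j := by exact_mod_cast hi
            exact this
          have e2 : (D' : ℤ) + 2 * R = L := by rw [hL]; push_cast; ring
          have e3 : (D' : ℤ) ≤ q.1 - p.1 := by
            rw [add_mul, one_mul] at e1
            linarith [hp'.1.2, hq'.1.1]
          unfold nrm
          exact e3.trans ((le_abs_self _).trans (le_max_left _ _)))
        have c1 : μ.real {S | ∀ i < j, S ∈ G i} * μ.real (G j) ≤ (1 - θ) ^ (j + 1) + j * ε := by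
          calc μ.real {S | ∀ i < j, S ∈ G i} * μ.real (G j)
              ≤ ((1 - θ) ^ j + j * ε) * (1 - θ) :=
                mul_le_mul ih2 (hGp j) measureReal_nonneg
                  (add_nonneg (pow_nonneg (by linarith) _) (by positivity))
            _ ≤ _ := by
                have : 0 ≤ (j : ℝ) * ε * θ := by positivity
                rw [pow_succ]; nlinarith
        have c2 : κ * ((((range j).biUnion fun i => boxF (x i) R).card : ℝ) *
            ((boxF (x j) R).card : ℝ)) / (D' : ℝ) ^ 4 ≤ ε := by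
          have e1 : (((range j).biUnion fun i => boxF (x i) R).card : ℝ) ≤ k * (2 * R + 1) ^ 2 := by
            have e0 : (((range j).biUnion fun i => boxF (x i) R).card : ℝ) ≤
                ∑ i ∈ range j, ((boxF (x i) R).card : ℝ) := by
              exact_mod_cast card_biUnion_le
            refine e0.trans ?_
            rw [sum_congr rfl fun i _ => card_boxF (x i) R, sum_const, card_range, nsmul_eq_mul]
            refine mul_le_mul_of_nonneg_right ?_ (by positivity)
            have : j ≤ k := by omega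
            exact_mod_cast this
          have hκ := h.kappa
          have hD1 : (1 : ℝ) ≤ D' := by exact_mod_cast (by omega : 1 ≤ D')
          rw [card_boxF]
          calc κ * ((((range j).biUnion fun i => boxF (x i) R).card : ℝ) * (2 * (R : ℝ) + 1) ^ 2) /
                (D' : ℝ) ^ 4
              ≤ κ * ((k * (2 * R + 1) ^ 2) * (2 * R + 1) ^ 2) / D' := by
                refine div_le_div₀ (by positivity) ?_ (by positivity) ?_
                · exact mul_le_mul_of_nonneg_left
                    (mul_le_mul_of_nonneg_right e1 (by positivity)) hκ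
                · calc (D' : ℝ) = D' ^ 1 := (pow_one _).symm
                    _ ≤ D' ^ 4 := pow_le_pow_right₀ hD1 (by norm_num)
            _ ≤ ε := by
                rw [div_le_iff₀ (by positivity)]
                rw [div_lt_iff₀ hε0] at hD
                have : (D : ℝ) ≤ D' := by exact_mod_cast (by omega : D ≤ D')
                nlinarith
        push_cast
        linarith
  obtain ⟨-, hkey⟩ := key k le_rfl
  refine ⟨k * L, fun N hN => ?_⟩
  set m : ℕ := k * L with hm
  have hxm : ∀ i < k, x i ∈ box 0 m := by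
    intro i hi
    rw [mem_box]
    simp only [hx, Prod.fst_zero, Prod.snd_zero]
    have e1 : (i : ℤ) * L ≤ k * L := mul_le_mul_of_nonneg_right (by exact_mod_cast hi.le)
      (by positivity)
    have e2 : (0 : ℤ) ≤ i * L := by positivity
    push_cast [hm]
    refine ⟨⟨by linarith, by linarith⟩, ⟨by linarith, by linarith⟩⟩
  have hcov : {S | Out 0 m N S}ᶜ ⊆ {S | ∀ i < k, S ∈ G i} ∪
      ⋃ i ∈ range k, ({S | Out (x i) 0 R S} \ {S | Out (x i) 0 ((N + m : ℕ) : ℤ) S}) := by
    intro S hS
    by_cases hG' : ∀ i < k, S ∈ G i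
    · exact Or.inl hG'
    · right
      push Not at hG'
      obtain ⟨i, hi, hSi⟩ := hG'
      rw [Set.mem_iUnion₂]
      refine ⟨i, mem_range.2 hi, not_not.1 hSi, fun hbig => hS ?_⟩
      obtain ⟨v, w, hv, hw, hvw⟩ := hbig
      have hvx : v = x i := by
        have := mem_box.1 hv
        exact Prod.ext (by omega) (by omega)
      subst hvx
      have h1 : nrm 0 (x i) ≤ m := hxm i hi
      have h2 := nrm_triangle (x i) 0 w
      have h3 : nrm (x i) 0 = nrm 0 (x i) := nrm_symm _ _
      push_cast at hw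
      obtain ⟨y, hy, h4, -⟩ := Reach.first_hit' (f := nrm 0) (nrm_lip 0) (k := N)
        (h1.trans (by exact_mod_cast hN)) (by linarith) hvw
      refine ⟨x i, y, hxm i hi, hy, h4.mono ?_⟩
      rintro p ⟨⟨hp, -⟩, hp2⟩
      exact ⟨hp, hp2⟩
  have h1 := h.mono hcov
  rw [h.compl (loc_Out _ _ _)] at h1
  have h2 := measureReal_union_le (μ := μ) {S | ∀ i < k, S ∈ G i}
    (⋃ i ∈ range k, ({S | Out (x i) 0 R S} \ {S | Out (x i) 0 ((N + m : ℕ) : ℤ) S}))
  have h3 : μ.real (⋃ i ∈ range k, ({S | Out (x i) 0 R S} \ {S | Out (x i) 0 ((N + m : ℕ) : ℤ) S})) ≤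
      k * ε := by
    refine (measureReal_biUnion_finset_le _ _).trans ?_
    have : ∀ i ∈ range k, μ.real ({S | Out (x i) 0 R S} \ {S | Out (x i) 0 ((N + m : ℕ) : ℤ) S}) ≤ ε := by
      intro i _
      by_cases hRN : R ≤ N + m
      · rw [measureReal_sdiff _ (loc_Out _ _ _).measurable, htrn, htrn]
        · exact hR' _
        · intro S hS
          exact Out.mono_N (by positivity) (by exact_mod_cast hRN) hS
      · have : {S | Out (x i) 0 R S} \ {S | Out (x i) 0 ((N + m : ℕ) : ℤ) S} = ∅ := by
          rw [Set.sdiff_eq_empty]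
          intro S hS
          exact Out.mono_N (by positivity) (by exact_mod_cast (not_le.1 hRN).le) hS
        rw [this]
        simp [hε0.le]
    refine (sum_le_sum this).trans ?_
    rw [sum_const, card_range, nsmul_eq_mul]
  have h4 : (k : ℝ) * ε ≤ η / 3 := by
    rw [hε, mul_div_assoc', div_le_div_iff₀ (by positivity) (by norm_num)]
    nlinarith
  linarith

end PM

end Run7.h485.Pl
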