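import Pool.Agent.Run7.h485.Defs
import Pool.Agent.Run7.h485.Alt

/-!
# The capacity of simple random walk is a hitting functional
-/

namespace Run7.h485

open Finset MeasureTheory Filter Topology
open Pool.Agent.H282R3.RW (V Dir vec steps pos consN steps_apply pos_consN measurable_pos card_dir)
open scoped ENNReal

noncomputable section

variable {d : ℕ}

/-- the event that the walk from `y` hits `A` within `n` steps -/
def hitS (n : ℕ) (A : Finset (V d)) (y : V d) : Set (ℕ → Dir d) := {ω | ∃ k, k ≤ n ∧ y + pos ω k ∈ A}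

theorem measurableSet_mem (A : Finset (V d)) (y : V d) (k : ℕ) :
    MeasurableSet {ω : ℕ → Dir d | y + pos ω k ∈ A} := by
  have h : Measurable fun ω : ℕ → Dir d => y + pos ω k := measurable_const.add (measurable_pos k)
  exact h (MeasurableSet.of_discrete (s := (A : Set (V d))))

theorem measurableSet_hitS (n : ℕ) (A : Finset (V d)) (y : V d) : MeasurableSet (hitS n A y) := by
  have : hitS n A y = ⋃ k ∈ Set.Iic n, {ω : ℕ → Dir d | y + pos ω k ∈ A} := by
    ext ω
    simp [hitS]
  rw [this]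
  exact MeasurableSet.biUnion (Set.to_countable _) fun k _ => measurableSet_mem A y k

variable [NeZero d]

theorem dpos : (0 : ℝ) < 2 * d := by
  have : 0 < d := Nat.pos_of_ne_zero (NeZero.ne d)
  positivity

/-- hitting probability within `n` steps -/
def H (n : ℕ) (A : Finset (V d)) (y : V d) : ℝ := (steps d).real (hitS n A y)

theorem H_nonneg (n : ℕ) (A : Finset (V d)) (y : V d) : 0 ≤ H n A y := measureReal_nonneg

theorem H_le_one (n : ℕ) (A : Finset (V d)) (y : V d) : H n A y ≤ 1 := measureReal_le_one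

theorem H_of_mem (n : ℕ) {A : Finset (V d)} {y : V d} (h : y ∈ A) : H n A y = 1 := by
  have : hitS n A y = Set.univ := by
    ext ω
    simp only [hitS, Set.mem_ofPred_eq, Set.mem_univ, iff_true]
    exact ⟨0, by omega, by simpa [pos] using h⟩
  rw [H, this]
  simp

theorem H_zero {A : Finset (V d)} {y : V d} (h : y ∉ A) : H 0 A y = 0 := by
  have : hitS 0 A y = (∅ : Set (ℕ → Dir d)) := by
    ext ω; simp [hitS, pos, h]
  rw [H, this]
  simp

theorem shift_hit (n : ℕ) (A : Finset (V d)) (y : V d) :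
    (steps d).real {ω | ∃ k, 1 ≤ k ∧ k ≤ n + 1 ∧ y + pos ω k ∈ A} =
      (∑ a : Dir d, H n A (y + vec a)) / (2 * d) := by
  have hm : MeasurableSet {ω : ℕ → Dir d | ∃ k, 1 ≤ k ∧ k ≤ n + 1 ∧ y + pos ω k ∈ A} := by
    have : {ω : ℕ → Dir d | ∃ k, 1 ≤ k ∧ k ≤ n + 1 ∧ y + pos ω k ∈ A} =
        ⋃ k ∈ Set.Icc 1 (n + 1), {ω : ℕ → Dir d | y + pos ω k ∈ A} := by
      ext ω
      simp only [Set.mem_ofPred_eq, Set.mem_iUnion, Set.mem_Icc, exists_prop]
      exact ⟨fun ⟨k, a, b, c⟩ => ⟨k, ⟨a, b⟩, c⟩, fun ⟨k, ⟨a, b⟩, c⟩ => ⟨k, a, b, c⟩⟩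
    rw [this]
    exact MeasurableSet.biUnion (Set.to_countable _) fun k _ => measurableSet_mem A y k
  rw [steps_apply hm]
  congr 1
  refine sum_congr rfl fun a _ => ?_
  unfold H
  congr 1
  ext ω
  simp only [hitS, Set.mem_ofPred_eq]
  constructor
  · rintro ⟨k, hk1, hk, h⟩
    obtain ⟨j, rfl⟩ : ∃ j, k = j + 1 := ⟨k - 1, by omega⟩
    refine ⟨j, by omega, ?_⟩
    rw [pos_consN, ← add_assoc] at h
    exact h
  · rintro ⟨k, hk, h⟩
    refine ⟨k + 1, by omega, by omega, ?_⟩
    rw [pos_consN, ← add_assoc]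
    exact h

theorem H_succ (n : ℕ) {A : Finset (V d)} {y : V d} (h : y ∉ A) :
    H (n + 1) A y = (∑ a : Dir d, H n A (y + vec a)) / (2 * d) := by
  rw [← shift_hit, H]
  congr 1
  ext ω
  simp only [hitS, Set.mem_ofPred_eq]
  constructor
  · rintro ⟨k, hk, hA⟩
    cases k with
    | zero => exact absurd (by simpa [pos] using hA) h
    | succ k => exact ⟨k + 1, by omega, hk, hA⟩
  · rintro ⟨k, -, hk, hA⟩
    exact ⟨k, hk, hA⟩

theorem H_mono_set (n : ℕ) {A B : Finset (V d)} (h : A ⊆ B) (y : V d) : H n A y ≤ H n B y := by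
  refine measureReal_mono ?_
  rintro ω ⟨k, hk, hA⟩
  exact ⟨k, hk, h hA⟩

theorem H_support_finite (n : ℕ) (A : Finset (V d)) : (Function.support (H n A)).Finite := by
  induction n with
  | zero =>
    refine A.finite_toSet.subset fun y hy => ?_
    by_contra h
    exact hy (H_zero h)
  | succ n ih =>
    refine (A.finite_toSet.union (Set.finite_iUnion fun a : Dir d =>
      ih.image fun z => z - vec a)).subset fun y hy => ?_
    by_cases hA : y ∈ A
    · exact Or.inl hA
    · right
      rw [Set.mem_iUnion]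
      by_contra hne
      push Not at hne
      apply hy
      rw [H_succ n hA]
      have : ∀ a : Dir d, H n A (y + vec a) = 0 := by
        intro a
        by_contra h0
        exact hne a ⟨y + vec a, h0, by simp⟩
      simp [this]

theorem summable_H (n : ℕ) (A : Finset (V d)) : Summable (H n A) :=
  summable_of_finite_support (H_support_finite n A)

/-- the expected number of starting points from which `A` is hit within `n` steps -/
def S (n : ℕ) (A : Finset (V d)) : ℝ := ∑' y, H n A y

theorem S_zero (A : Finset (V d)) : S 0 A = A.card := by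
  unfold S
  rw [tsum_eq_sum (s := A) (fun y hy => H_zero hy), sum_congr rfl fun y hy => H_of_mem 0 hy]
  simp

theorem tsum_shift (f : V d → ℝ) (a : Dir d) : ∑' y, f (y + vec a) = ∑' y, f y :=
  (Equiv.addRight (vec a)).tsum_eq f

theorem summable_shift {f : V d → ℝ} (hf : Summable f) (a : Dir d) :
    Summable fun y => f (y + vec a) :=
  (Equiv.addRight (vec a)).summable_iff.2 hf

theorem tsum_avg {f : V d → ℝ} (hf : Summable f) :
    ∑' y, (∑ a : Dir d, f (y + vec a)) / (2 * d) = ∑' y, f y := by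
  rw [tsum_div_const, Summable.tsum_finsetSum fun a _ => summable_shift hf a]
  simp_rw [tsum_shift]
  rw [sum_const, card_univ, nsmul_eq_mul]
  have h : (Fintype.card (Dir d) : ℝ) = 2 * d := by
    simp [mul_comm]
  rw [h, mul_div_cancel_left₀ _ dpos.ne']

/-- the one-step increment of `S` -/
def incr (n : ℕ) (A : Finset (V d)) : ℝ :=
  ∑ x ∈ A, (1 - (∑ a : Dir d, H n A (x + vec a)) / (2 * d))

theorem S_succ_sub (n : ℕ) (A : Finset (V d)) : S (n + 1) A - S n A = incr n A := by
  have h1 : Summable fun y => (∑ a : Dir d, H n A (y + vec a)) / (2 * d) :=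
    (summable_sum fun a _ => summable_shift (summable_H n A) a).div_const _
  unfold S
  rw [← tsum_avg (summable_H n A), ← (summable_H (n + 1) A).tsum_sub h1, incr,
    tsum_eq_sum (s := A)]
  · refine sum_congr rfl fun x hx => ?_
    rw [H_of_mem (n + 1) hx]
  · intro y hy
    rw [H_succ n hy, sub_self]

theorem tendsto_incr (A : Finset (V d)) : Tendsto (fun n => incr n A) atTop (𝓝 (cap A)) := by
  unfold incr cap
  refine tendsto_finsetSum _ fun x _ => ?_
  simp_rw [← shift_hit]
  set E : ℕ → Set (ℕ → Dir d) := fun n => {ω | ∃ k, 1 ≤ k ∧ k ≤ n + 1 ∧ x + pos ω k ∈ A} with hE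
  have hmono : Monotone E := by
    intro n m hnm ω
    rintro ⟨k, h1, h2, h3⟩
    exact ⟨k, h1, by omega, h3⟩
  have hm : ∀ n, MeasurableSet (E n) := by
    intro n
    have : E n = ⋃ k ∈ Set.Icc 1 (n + 1), {ω : ℕ → Dir d | x + pos ω k ∈ A} := by
      ext ω
      simp only [hE, Set.mem_ofPred_eq, Set.mem_iUnion, Set.mem_Icc, exists_prop]
      exact ⟨fun ⟨k, a, b, c⟩ => ⟨k, ⟨a, b⟩, c⟩, fun ⟨k, ⟨a, b⟩, c⟩ => ⟨k, a, b, c⟩⟩
    rw [this]
    exact MeasurableSet.biUnion (Set.to_countable _) fun k _ => measurableSet_mem A x k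
  have h1 : Tendsto (fun n => (steps d).real (E n)) atTop (𝓝 ((steps d).real (⋃ n, E n))) := by
    have := tendsto_measure_iUnion_atTop (μ := steps d) hmono
    exact (ENNReal.tendsto_toReal (measure_ne_top _ _)).comp this
  have h2 : {ω : ℕ → Dir d | ∀ k, 1 ≤ k → x + pos ω k ∉ A} = (⋃ n, E n)ᶜ := by
    ext ω
    simp only [hE, Set.mem_ofPred_eq, Set.mem_compl_iff, Set.mem_iUnion, not_exists, not_and]
    exact ⟨fun h n k hk _ => h k hk, fun h k hk => h k k hk (by omega)⟩
  have h3 : esc A x = 1 - (steps d).real (⋃ n, E n) := by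
    unfold esc
    rw [h2, probReal_compl_eq_one_sub (MeasurableSet.iUnion hm)]
  rw [h3]
  exact h1.const_sub 1

theorem tendsto_S_div (A : Finset (V d)) :
    Tendsto (fun n : ℕ => S n A / n) atTop (𝓝 (cap A)) := by
  have h1 := (tendsto_incr A).cesaro
  have h2 : ∀ n, ∑ i ∈ range n, incr i A = S n A - S 0 A := by
    intro n
    simp_rw [← S_succ_sub]
    exact sum_range_sub (fun n => S n A) n
  simp_rw [h2] at h1
  have h3 : Tendsto (fun n : ℕ => S 0 A / (n : ℝ)) atTop (𝓝 0) :=
    tendsto_const_div_atTop_nhds_zero_nat _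
  have h4 := h1.add h3
  rw [add_zero] at h4
  refine h4.congr fun n => ?_
  rw [inv_mul_eq_div, ← add_div, sub_add_cancel]

theorem tendsto_S_succ_div (A : Finset (V d)) :
    Tendsto (fun n : ℕ => S (n + 1) A / n) atTop (𝓝 (cap A)) := by
  have h1 : Tendsto (fun n : ℕ => incr n A / (n : ℝ)) atTop (𝓝 0) := by
    have := (tendsto_incr A).mul (tendsto_inv_atTop_nhds_zero_nat (𝕜 := ℝ))
    rw [mul_zero] at this
    exact this
  have h2 := (tendsto_S_div A).add h1
  rw [add_zero] at h2
  refine h2.congr fun n => ?_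
  rw [← add_div, ← S_succ_sub]
  congr 1
  ring

/-- Each finite time hitting count is a hitting functional. -/
theorem hitFun_S (n : ℕ) : HitFun (fun A : Finset (V d) => S n A) := by
  classical
  intro K
  set E : V d → Finset (V d) → Set (ℕ → Dir d) :=
    fun y T => {ω | ∀ x ∈ K, (ω ∈ hitS n {x} y ↔ x ∈ T)} with hE
  have hmE : ∀ y T, MeasurableSet (E y T) := by
    intro y T
    have : E y T = ⋂ x ∈ K, {ω : ℕ → Dir d | ω ∈ hitS n {x} y ↔ x ∈ T} := by
      ext ω; simp [hE]
    rw [this]
    refine Finset.measurableSet_biInter K fun x _ => ?_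
    by_cases hx : x ∈ T
    · simp only [hx, iff_true]
      exact measurableSet_hitS n {x} y
    · simp only [hx, iff_false]
      exact (measurableSet_hitS n {x} y).compl
  have hhit : ∀ (A : Finset (V d)) (y : V d) (ω : ℕ → Dir d),
      ω ∈ hitS n A y ↔ ∃ x ∈ A, ω ∈ hitS n {x} y := by
    intro A y ω
    simp only [hitS, Set.mem_ofPred_eq, mem_singleton]
    constructor
    · rintro ⟨k, hk, h⟩; exact ⟨_, h, k, hk, rfl⟩
    · rintro ⟨x, hx, k, hk, rfl⟩; exact ⟨k, hk, hx⟩
  have hsum : ∀ T, T ⊆ K → T.Nonempty → Summable fun y => (steps d).real (E y T) := by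
    intro T hTK hT
    refine Summable.of_nonneg_of_le (fun y => measureReal_nonneg) (fun y => ?_) (summable_H n K)
    refine measureReal_mono ?_
    intro ω hω
    obtain ⟨x, hx⟩ := hT
    rw [hhit]
    exact ⟨x, hTK hx, (hω x (hTK hx)).2 hx⟩
  refine ⟨fun T => ∑' y, (steps d).real (E y T), fun T => tsum_nonneg fun y => measureReal_nonneg,
    fun A hA => ?_⟩
  have h1 : ∀ y, H n A y = ∑ T ∈ K.powerset with (T ∩ A).Nonempty, (steps d).real (E y T) := by
    intro y
    rw [← measureReal_biUnion_finset]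
    · unfold H
      congr 1
      ext ω
      simp only [Set.mem_iUnion, mem_filter, mem_powerset, exists_prop]
      constructor
      · intro h
        rw [hhit] at h
        obtain ⟨x, hx, hω⟩ := h
        refine ⟨K.filter fun z => ω ∈ hitS n {z} y, ⟨filter_subset _ _, x, ?_⟩, ?_⟩
        · rw [mem_inter, mem_filter]
          exact ⟨⟨hA hx, hω⟩, hx⟩
        · intro z hz
          rw [mem_filter]
          exact ⟨fun h => ⟨hz, h⟩, fun h => h.2⟩
      · rintro ⟨T, ⟨hT, x, hx⟩, hω⟩
        rw [mem_inter] at hx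
        rw [hhit]
        exact ⟨x, hx.2, (hω x (hA hx.2)).2 hx.1⟩
    · intro T hT T' hT' hne
      rw [Function.onFun, Set.disjoint_left]
      intro ω hω hω'
      apply hne
      simp only [coe_filter, mem_powerset, Set.mem_ofPred_eq] at hT hT'
      ext x
      constructor
      · intro hx
        exact (hω' x (hT.1 hx)).1 ((hω x (hT.1 hx)).2 hx)
      · intro hx
        exact (hω x (hT'.1 hx)).1 ((hω' x (hT'.1 hx)).2 hx)
    · intro T _
      exact hmE y T
  change ∑' y, H n A y = _
  simp_rw [h1]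
  rw [Summable.tsum_finsetSum]
  intro T hT
  simp only [mem_filter, mem_powerset] at hT
  exact hsum T hT.1 (hT.2.mono inter_subset_left)

/-- The capacity is a hitting functional. -/
theorem hitFun_cap : HitFun (cap : Finset (V d) → ℝ) :=
  HitFun.tendsto (cn := fun n A => S n A / (n : ℝ)) (fun n => (hitFun_S n).div (Nat.cast_nonneg n))
    tendsto_S_div

theorem cap_nonneg (A : Finset (V d)) : 0 ≤ cap A := by
  have := hitFun_cap.mono (empty_subset A)
  rwa [hitFun_cap.empty] at this

theorem esc_le_one (A : Finset (V d)) (x : V d) : esc A x ≤ 1 := measureReal_le_one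

theorem cap_singleton_le (x : V d) : cap {x} ≤ 1 := by
  unfold cap
  rw [sum_singleton]
  exact esc_le_one _ _

theorem H_union_le {A O : Finset (V d)} (hO : ∀ x ∈ O, ∃ a : Dir d, x + vec a ∈ A) (n : ℕ) :
    ∀ y, H n (A ∪ O) y ≤ 2 * d * H (n + 1) A y := by
  have hd1 : (1 : ℝ) ≤ 2 * d := by
    have : 1 ≤ d := Nat.pos_of_ne_zero (NeZero.ne d)
    have : (1 : ℝ) ≤ d := by exact_mod_cast this
    linarith
  have key : ∀ (n : ℕ) (y : V d), y ∈ A ∪ O → 1 ≤ 2 * d * H (n + 1) A y := by
    intro n y hy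
    by_cases hA : y ∈ A
    · rw [H_of_mem _ hA, mul_one]; exact hd1
    · have hyO : y ∈ O := (mem_union.1 hy).resolve_left hA
      obtain ⟨a, ha⟩ := hO y hyO
      rw [H_succ n hA, mul_div_cancel₀ _ dpos.ne', ← H_of_mem n ha]
      exact single_le_sum (f := fun a => H n A (y + vec a)) (fun a _ => H_nonneg n A _) (mem_univ a)
  induction n with
  | zero =>
    intro y
    by_cases hy : y ∈ A ∪ O
    · rw [H_of_mem _ hy]; exact key 0 y hy
    · rw [H_zero hy]
      exact mul_nonneg dpos.le (H_nonneg _ _ _)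
  | succ n ih =>
    intro y
    by_cases hy : y ∈ A ∪ O
    · rw [H_of_mem _ hy]; exact key (n + 1) y hy
    · have hA : y ∉ A := fun h => hy (mem_union_left _ h)
      rw [H_succ n hy, H_succ (n + 1) hA, ← mul_div_assoc]
      refine div_le_div_of_nonneg_right ?_ dpos.le
      rw [mul_sum]
      exact sum_le_sum fun a _ => ih _

/-- Adding neighbours of `A` multiplies the capacity by at most `2 d`. -/
theorem cap_union_le {A O : Finset (V d)} (hO : ∀ x ∈ O, ∃ a : Dir d, x + vec a ∈ A) :
    cap (A ∪ O) ≤ 2 * d * cap A := by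
  have h1 : ∀ n, S n (A ∪ O) ≤ 2 * d * S (n + 1) A := by
    intro n
    unfold S
    rw [← tsum_mul_left]
    exact (summable_H n _).tsum_le_tsum (H_union_le hO n) ((summable_H (n + 1) A).mul_left _)
  refine le_of_tendsto_of_tendsto' (tendsto_S_div (A ∪ O))
    ((tendsto_S_succ_div A).const_mul (2 * (d : ℝ))) fun n => ?_
  rw [← mul_div_assoc]
  exact div_le_div_of_nonneg_right (h1 n) (Nat.cast_nonneg n)

end

end Run7.h485
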